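import Mathlib
import Pool.Graph.R_seed8.H383.Voronoi

/-!
# Energies of finite sets of lattice points on the light cone
-/

open MeasureTheory Set Filter Topology
open Pool.Agent.H383.Gauss

namespace Pool.Agent.H593.U

/-- the additive character `e(x)` -/
noncomputable def ex (x : ℝ) : ℂ := Complex.exp ((2 * Real.pi * x : ℝ) * Complex.I)

lemma norm_ex (x : ℝ) : ‖ex x‖ = 1 := by
  unfold ex; rw [Complex.norm_exp_ofReal_mul_I]

lemma ex_add (x y : ℝ) : ex (x + y) = ex x * ex y := by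
  unfold ex; rw [← Complex.exp_add]; congr 1; push_cast; ring

lemma ex_zero : ex 0 = 1 := by simp [ex]

lemma ex_neg (x : ℝ) : ex (-x) = (starRingEnd ℂ) (ex x) := by
  unfold ex
  rw [← Complex.exp_conj, map_mul, Complex.conj_I, Complex.conj_ofReal]
  congr 1; push_cast; ring

lemma ex_int (n : ℤ) : ex n = 1 := by
  unfold ex
  have : ((2 * Real.pi * (n:ℝ) : ℝ) : ℂ) * Complex.I = n * (2 * Real.pi * Complex.I) := by
    push_cast; ring
  rw [this, Complex.exp_int_mul_two_pi_mul_I]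

lemma continuous_ex : Continuous ex := by unfold ex; fun_prop

/-- the pairing of a lattice point and a point of the plane -/
def dp (k : ℤ × ℤ) (a : ℝ × ℝ) : ℝ := k.1 * a.1 + k.2 * a.2

lemma dp_add (k l : ℤ × ℤ) (a : ℝ × ℝ) : dp (k + l) a = dp k a + dp l a := by
  simp only [dp, Prod.fst_add, Prod.snd_add]; push_cast; ring

lemma continuous_dp (k : ℤ × ℤ) : Continuous (dp k) := by unfold dp; fun_prop

/-- the exponential sum -/
noncomputable def S (B : Finset (ℤ × ℤ)) (b : ℤ × ℤ → ℝ) (a : ℝ × ℝ) (t : ℝ) : ℂ :=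
  ∑ k ∈ B, (b k : ℂ) * ex (dp k a + t * nz k)

/-- sum of the two norms -/
noncomputable def E2 (p : (ℤ × ℤ) × (ℤ × ℤ)) : ℝ := nz p.1 + nz p.2

/-- product of the weights -/
def w2 (b : ℤ × ℤ → ℝ) (p : (ℤ × ℤ) × (ℤ × ℤ)) : ℝ := b p.1 * b p.2

/-- the coefficient of the square of the sum -/
noncomputable def Gs (B : Finset (ℤ × ℤ)) (b : ℤ × ℤ → ℝ) (s : ℤ × ℤ) (t : ℝ) : ℂ :=
  ∑ p ∈ (B ×ˢ B).filter (fun p => p.1 + p.2 = s), (w2 b p : ℂ) * ex (t * E2 p)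

/-- the set of sums -/
def sm (B : Finset (ℤ × ℤ)) : Finset (ℤ × ℤ) := (B ×ˢ B).image (fun p => p.1 + p.2)

lemma S_sq (B : Finset (ℤ × ℤ)) (b : ℤ × ℤ → ℝ) (a : ℝ × ℝ) (t : ℝ) :
    S B b a t ^ 2 = ∑ s ∈ sm B, Gs B b s t * ex (dp s a) := by
  have h1 : S B b a t ^ 2 = ∑ p ∈ B ×ˢ B, (w2 b p : ℂ) * ex (t * E2 p) * ex (dp (p.1 + p.2) a) := by
    rw [sq, S, Finset.sum_mul_sum, ← Finset.sum_product']
    apply Finset.sum_congr rfl
    intro p _
    rw [dp_add, ex_add, ex_add]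
    unfold w2 E2
    rw [mul_add, ex_add, ex_add]
    push_cast; ring
  rw [h1, ← Finset.sum_fiberwise_of_maps_to (g := fun p : (ℤ × ℤ) × (ℤ × ℤ) => p.1 + p.2) (t := sm B)
    (fun p hp => Finset.mem_image_of_mem _ hp)]
  apply Finset.sum_congr rfl
  intro s _
  rw [Gs, Finset.sum_mul]
  apply Finset.sum_congr rfl
  intro p hp
  rw [Finset.mem_filter] at hp
  rw [hp.2]

/-- the sum of the squares of the coefficients -/
noncomputable def M (B : Finset (ℤ × ℤ)) (b : ℤ × ℤ → ℝ) (t : ℝ) : ℝ := ∑ s ∈ sm B, ‖Gs B b s t‖ ^ 2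

lemma M_nonneg (B : Finset (ℤ × ℤ)) (b : ℤ × ℤ → ℝ) (t : ℝ) : 0 ≤ M B b t := by
  unfold M; positivity

/-- the fourth power of the sum is bounded by the mean fourth power -/
lemma S_four_le (B : Finset (ℤ × ℤ)) (b : ℤ × ℤ → ℝ) (a : ℝ × ℝ) (t : ℝ) :
    ‖S B b a t‖ ^ 4 ≤ (sm B).card * M B b t := by
  have h1 : ‖S B b a t‖ ^ 4 = ‖S B b a t ^ 2‖ ^ 2 := by rw [norm_pow]; ring
  rw [h1, S_sq]
  have h2 : ‖∑ s ∈ sm B, Gs B b s t * ex (dp s a)‖ ≤ ∑ s ∈ sm B, ‖Gs B b s t‖ := by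
    refine (norm_sum_le _ _).trans (le_of_eq ?_)
    apply Finset.sum_congr rfl
    intro s _
    rw [norm_mul, norm_ex, mul_one]
  calc ‖∑ s ∈ sm B, Gs B b s t * ex (dp s a)‖ ^ 2 ≤ (∑ s ∈ sm B, ‖Gs B b s t‖) ^ 2 := by gcongr
    _ ≤ (sm B).card * ∑ s ∈ sm B, ‖Gs B b s t‖ ^ 2 := sq_sum_le_card_mul_sum_sq
    _ = _ := rfl

/-- pairs of pairs with equal sums -/
def PP (B : Finset (ℤ × ℤ)) : Finset (((ℤ × ℤ) × (ℤ × ℤ)) × ((ℤ × ℤ) × (ℤ × ℤ))) :=
  ((B ×ˢ B) ×ˢ (B ×ˢ B)).filter (fun x => x.1.1 + x.1.2 = x.2.1 + x.2.2)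

lemma M_eq (B : Finset (ℤ × ℤ)) (b : ℤ × ℤ → ℝ) (t : ℝ) :
    ((M B b t : ℝ) : ℂ) = ∑ x ∈ PP B, ((w2 b x.1 * w2 b x.2 : ℝ) : ℂ) * ex (t * (E2 x.1 - E2 x.2)) := by
  have h1 : ((M B b t : ℝ) : ℂ) = ∑ s ∈ sm B, Gs B b s t * (starRingEnd ℂ) (Gs B b s t) := by
    unfold M
    push_cast
    apply Finset.sum_congr rfl
    intro s _
    rw [Complex.mul_conj, Complex.normSq_eq_norm_sq]
    push_cast; rfl
  rw [h1]
  have h2 : ∀ s ∈ sm B, Gs B b s t * (starRingEnd ℂ) (Gs B b s t) =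
      ∑ x ∈ (PP B).filter (fun x => x.1.1 + x.1.2 = s),
        ((w2 b x.1 * w2 b x.2 : ℝ) : ℂ) * ex (t * (E2 x.1 - E2 x.2)) := by
    intro s _
    have e : (PP B).filter (fun x => x.1.1 + x.1.2 = s) =
        ((B ×ˢ B).filter (fun p => p.1 + p.2 = s)) ×ˢ ((B ×ˢ B).filter (fun p => p.1 + p.2 = s)) := by
      ext x
      simp only [PP, Finset.mem_filter, Finset.mem_product]
      constructor
      · rintro ⟨⟨⟨h1, h2⟩, h3⟩, h4⟩
        exact ⟨⟨h1, h4⟩, ⟨h2, h3 ▸ h4⟩⟩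
      · rintro ⟨⟨h1, h4⟩, ⟨h2, h5⟩⟩
        exact ⟨⟨⟨h1, h2⟩, h4.trans h5.symm⟩, h4⟩
    rw [e, Gs, map_sum, Finset.sum_mul_sum, ← Finset.sum_product']
    apply Finset.sum_congr rfl
    intro x _
    rw [map_mul, Complex.conj_ofReal, ← ex_neg, mul_sub, sub_eq_add_neg, ex_add]
    push_cast; ring
  rw [Finset.sum_congr rfl h2]
  rw [Finset.sum_fiberwise_of_maps_to (g := fun x : ((ℤ × ℤ) × (ℤ × ℤ)) × ((ℤ × ℤ) × (ℤ × ℤ)) => x.1.1 + x.1.2)]
  intro x hx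
  simp only [PP, Finset.mem_filter, Finset.mem_product] at hx
  exact Finset.mem_image.mpr ⟨x.1, Finset.mem_product.mpr hx.1.1, rfl⟩

lemma continuous_M (B : Finset (ℤ × ℤ)) (b : ℤ × ℤ → ℝ) : Continuous (M B b) := by
  unfold M Gs
  have := continuous_ex
  fun_prop

/-- the energy with Gaussian weights -/
noncomputable def En (B : Finset (ℤ × ℤ)) (T : ℝ) : ℝ :=
  ∑ x ∈ PP B, Real.exp (-(Real.pi * T ^ 2 * (E2 x.1 - E2 x.2) ^ 2))

lemma En_nonneg (B : Finset (ℤ × ℤ)) (T : ℝ) : 0 ≤ En B T := by unfold En; positivity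

lemma En_anti (B : Finset (ℤ × ℤ)) {T T' : ℝ} (hT : 0 ≤ T) (h : T ≤ T') : En B T' ≤ En B T := by
  unfold En
  apply Finset.sum_le_sum
  intro x _
  apply Real.exp_le_exp.mpr
  have := Real.pi_pos
  have h2 : T ^ 2 ≤ T' ^ 2 := by gcongr
  have h3 : 0 ≤ (E2 x.1 - E2 x.2) ^ 2 := sq_nonneg _
  have : Real.pi * T ^ 2 * (E2 x.1 - E2 x.2) ^ 2 ≤ Real.pi * T' ^ 2 * (E2 x.1 - E2 x.2) ^ 2 := by gcongr
  linarith

lemma PP_mono {B B' : Finset (ℤ × ℤ)} (h : B ⊆ B') : PP B ⊆ PP B' := by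
  intro x hx
  simp only [PP, Finset.mem_filter, Finset.mem_product] at hx ⊢
  exact ⟨⟨⟨h hx.1.1.1, h hx.1.1.2⟩, ⟨h hx.1.2.1, h hx.1.2.2⟩⟩, hx.2⟩

lemma En_mono {B B' : Finset (ℤ × ℤ)} (h : B ⊆ B') (T : ℝ) : En B T ≤ En B' T :=
  Finset.sum_le_sum_of_subset_of_nonneg (PP_mono h) (fun _ _ _ => (Real.exp_pos _).le)

/-- Gaussian integral of a character -/
lemma int_gauss_ex {T : ℝ} (hT : 0 < T) (X l : ℝ) :
    ∫ t : ℝ, (Real.exp (-(Real.pi * (t - X) ^ 2 / T ^ 2)) : ℂ) * ex (t * l) =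
      (T : ℂ) * (Real.exp (-(Real.pi * T ^ 2 * l ^ 2)) : ℂ) * ex (X * l) := by
  have hpi := Real.pi_pos
  have hb : (-(Real.pi / T ^ 2 : ℝ) : ℂ).re < 0 := by
    rw [← Complex.ofReal_neg, Complex.ofReal_re]
    have : 0 < Real.pi / T ^ 2 := by positivity
    linarith
  have h1 := integral_cexp_quadratic hb
    (2 * Real.pi * X / T ^ 2 + 2 * Real.pi * l * Complex.I) (-(Real.pi * X ^ 2 / T ^ 2))
  have e1 : ∀ t : ℝ, (Real.exp (-(Real.pi * (t - X) ^ 2 / T ^ 2)) : ℂ) * ex (t * l) =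
      Complex.exp (-(Real.pi / T ^ 2 : ℝ) * (t:ℂ) ^ 2 +
        (2 * Real.pi * X / T ^ 2 + 2 * Real.pi * l * Complex.I) * t + (-(Real.pi * X ^ 2 / T ^ 2))) := by
    intro t
    unfold ex
    rw [Complex.ofReal_exp, ← Complex.exp_add]
    congr 1
    push_cast
    have : (T:ℂ) ≠ 0 := by exact_mod_cast hT.ne'
    field_simp
    ring
  simp_rw [e1]
  rw [h1]
  have hT' : (T:ℂ) ≠ 0 := by exact_mod_cast hT.ne'
  have hpi' : (Real.pi:ℂ) ≠ 0 := by exact_mod_cast hpi.ne'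
  have e2 : ((Real.pi:ℂ) / -(-(Real.pi / T ^ 2 : ℝ) : ℂ)) ^ (1/2 : ℂ) = T := by
    have : (Real.pi:ℂ) / -(-(Real.pi / T ^ 2 : ℝ) : ℂ) = ((T ^ 2 : ℝ) : ℂ) := by
      push_cast; field_simp
    rw [this]
    have h12 : ((1/2 : ℂ)) = ((1/2 : ℝ) : ℂ) := by push_cast; rfl
    rw [h12, ← Complex.ofReal_cpow (by positivity)]
    congr 1
    rw [← Real.sqrt_eq_rpow, Real.sqrt_sq hT.le]
  rw [e2]
  unfold ex
  rw [Complex.ofReal_exp, mul_assoc (T:ℂ), ← Complex.exp_add]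
  congr 2
  push_cast
  field_simp
  ring_nf
  rw [Complex.I_sq]
  ring

lemma int_gauss_ex_integrable {T : ℝ} (hT : 0 < T) (X l : ℝ) :
    Integrable (fun t : ℝ => (Real.exp (-(Real.pi * (t - X) ^ 2 / T ^ 2)) : ℂ) * ex (t * l)) := by
  have hpi := Real.pi_pos
  have h0 : Integrable (fun t : ℝ => Real.exp (-(Real.pi / T ^ 2) * t ^ 2)) :=
    integrable_exp_neg_mul_sq (by positivity)
  have h1 : Integrable (fun t : ℝ => Real.exp (-(Real.pi * (t - X) ^ 2 / T ^ 2))) := by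
    have := h0.comp_sub_right X
    refine this.congr (Eventually.of_forall fun t => ?_)
    simp only
    congr 1; ring
  refine Integrable.mono h1 ?_ ?_
  · apply Continuous.aestronglyMeasurable
    have := continuous_ex
    fun_prop
  · refine Eventually.of_forall fun t => ?_
    rw [norm_mul, norm_ex, mul_one, Complex.norm_real]

/-- Gaussian mean of `M` -/
lemma int_gauss_M {T : ℝ} (hT : 0 < T) (X : ℝ) (B : Finset (ℤ × ℤ)) (b : ℤ × ℤ → ℝ) :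
    ((∫ t : ℝ, Real.exp (-(Real.pi * (t - X) ^ 2 / T ^ 2)) * M B b t : ℝ) : ℂ) =
      ∑ x ∈ PP B, ((w2 b x.1 * w2 b x.2 : ℝ) : ℂ) *
        ((T : ℂ) * (Real.exp (-(Real.pi * T ^ 2 * (E2 x.1 - E2 x.2) ^ 2)) : ℂ) * ex (X * (E2 x.1 - E2 x.2))) := by
  rw [← integral_complex_ofReal]
  have e1 : ∀ t : ℝ, ((Real.exp (-(Real.pi * (t - X) ^ 2 / T ^ 2)) * M B b t : ℝ) : ℂ) =
      ∑ x ∈ PP B, ((w2 b x.1 * w2 b x.2 : ℝ) : ℂ) *
        ((Real.exp (-(Real.pi * (t - X) ^ 2 / T ^ 2)) : ℂ) * ex (t * (E2 x.1 - E2 x.2))) := by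
    intro t
    rw [Complex.ofReal_mul, M_eq, Finset.mul_sum]
    apply Finset.sum_congr rfl
    intro x _
    ring
  simp_rw [e1]
  rw [integral_finsetSum]
  · apply Finset.sum_congr rfl
    intro x _
    rw [integral_const_mul, int_gauss_ex hT]
  · intro x _
    exact (int_gauss_ex_integrable hT X _).const_mul _

lemma gauss_M_integrable {T : ℝ} (hT : 0 < T) (X : ℝ) (B : Finset (ℤ × ℤ)) (b : ℤ × ℤ → ℝ) :
    Integrable (fun t : ℝ => Real.exp (-(Real.pi * (t - X) ^ 2 / T ^ 2)) * M B b t) := by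
  have : Integrable (fun t : ℝ => ((Real.exp (-(Real.pi * (t - X) ^ 2 / T ^ 2)) * M B b t : ℝ) : ℂ)) := by
    have e1 : ∀ t : ℝ, ((Real.exp (-(Real.pi * (t - X) ^ 2 / T ^ 2)) * M B b t : ℝ) : ℂ) =
        ∑ x ∈ PP B, ((w2 b x.1 * w2 b x.2 : ℝ) : ℂ) *
          ((Real.exp (-(Real.pi * (t - X) ^ 2 / T ^ 2)) : ℂ) * ex (t * (E2 x.1 - E2 x.2))) := by
      intro t
      rw [Complex.ofReal_mul, M_eq, Finset.mul_sum]
      apply Finset.sum_congr rfl
      intro x _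
      ring
    simp_rw [e1]
    apply integrable_finsetSum
    intro x _
    exact (int_gauss_ex_integrable hT X _).const_mul _
  refine this.re.congr (Eventually.of_forall fun t => ?_)
  exact Complex.ofReal_re _

/-- upper bound for Gaussian means by the energy -/
theorem gauss_M_le {T : ℝ} (hT : 0 < T) (X : ℝ) (B : Finset (ℤ × ℤ)) (b : ℤ × ℤ → ℝ) {c : ℝ}
    (hb : ∀ k ∈ B, |b k| ≤ c) :
    ∫ t : ℝ, Real.exp (-(Real.pi * (t - X) ^ 2 / T ^ 2)) * M B b t ≤ T * c ^ 4 * En B T := by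
  have h1 := int_gauss_M hT X B b
  have h2 : ∫ t : ℝ, Real.exp (-(Real.pi * (t - X) ^ 2 / T ^ 2)) * M B b t ≤
      ‖((∫ t : ℝ, Real.exp (-(Real.pi * (t - X) ^ 2 / T ^ 2)) * M B b t : ℝ) : ℂ)‖ := by
    rw [Complex.norm_real]; exact le_abs_self _
  refine h2.trans ?_
  rw [h1]
  refine (norm_sum_le _ _).trans ?_
  unfold En
  rw [Finset.mul_sum]
  apply Finset.sum_le_sum
  intro x hx
  simp only [PP, Finset.mem_filter, Finset.mem_product] at hx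
  rw [norm_mul, norm_mul, norm_mul, norm_ex, mul_one, Complex.norm_real, Complex.norm_real,
    Complex.norm_real, Real.norm_eq_abs, Real.norm_eq_abs, Real.norm_eq_abs, abs_of_pos hT,
    abs_of_pos (Real.exp_pos _)]
  have h3 : |w2 b x.1 * w2 b x.2| ≤ c ^ 4 := by
    unfold w2
    rw [abs_mul, abs_mul, abs_mul]
    have a1 := hb _ hx.1.1.1
    have a2 := hb _ hx.1.1.2
    have a3 := hb _ hx.1.2.1
    have a4 := hb _ hx.1.2.2
    calc |b x.1.1| * |b x.1.2| * (|b x.2.1| * |b x.2.2|) ≤ c * c * (c * c) := by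
          have hc : 0 ≤ c := (abs_nonneg _).trans a1
          gcongr
      _ = c ^ 4 := by ring
  have h4 : 0 ≤ T * Real.exp (-(Real.pi * T ^ 2 * (E2 x.1 - E2 x.2) ^ 2)) := by positivity
  calc |w2 b x.1 * w2 b x.2| * (T * Real.exp (-(Real.pi * T ^ 2 * (E2 x.1 - E2 x.2) ^ 2)))
      ≤ c ^ 4 * (T * Real.exp (-(Real.pi * T ^ 2 * (E2 x.1 - E2 x.2) ^ 2))) := by gcongr
    _ = _ := by ring

/-- lower bound for Gaussian means by the energy -/
theorem le_gauss_M {T : ℝ} (hT : 0 < T) (B B0 : Finset (ℤ × ℤ)) (hB : B0 ⊆ B) (b : ℤ × ℤ → ℝ) {c : ℝ}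
    (hc : 0 ≤ c) (hb0 : ∀ k ∈ B, 0 ≤ b k) (hb : ∀ k ∈ B0, c ≤ b k) :
    T * c ^ 4 * En B0 T ≤ ∫ t : ℝ, Real.exp (-(Real.pi * t ^ 2 / T ^ 2)) * M B b t := by
  have h1 := int_gauss_M hT 0 B b
  have h2 : ∫ t : ℝ, Real.exp (-(Real.pi * (t - 0) ^ 2 / T ^ 2)) * M B b t =
      ∑ x ∈ PP B, (w2 b x.1 * w2 b x.2) * (T * Real.exp (-(Real.pi * T ^ 2 * (E2 x.1 - E2 x.2) ^ 2))) := by
    have := congrArg Complex.re h1
    rw [Complex.ofReal_re] at this
    rw [this]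
    simp only [zero_mul, ex_zero, mul_one]
    rw [Complex.re_sum]
    apply Finset.sum_congr rfl
    intro x _
    rw [← Complex.ofReal_mul, ← Complex.ofReal_mul, Complex.ofReal_re]
  simp only [sub_zero] at h2
  rw [h2]
  refine le_trans ?_ (Finset.sum_le_sum_of_subset_of_nonneg (PP_mono hB) ?_)
  · unfold En
    rw [Finset.mul_sum]
    apply Finset.sum_le_sum
    intro x hx
    simp only [PP, Finset.mem_filter, Finset.mem_product] at hx
    have h3 : c ^ 4 ≤ w2 b x.1 * w2 b x.2 := by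
      unfold w2
      have a1 := hb _ hx.1.1.1
      have a2 := hb _ hx.1.1.2
      have a3 := hb _ hx.1.2.1
      have a4 := hb _ hx.1.2.2
      have q1 : c * c ≤ b x.1.1 * b x.1.2 := by nlinarith
      have q2 : c * c ≤ b x.2.1 * b x.2.2 := by nlinarith
      have q0 : 0 ≤ c * c := by positivity
      calc c ^ 4 = c * c * (c * c) := by ring
        _ ≤ _ := mul_le_mul q1 q2 q0 (q0.trans q1)
    have h4 : 0 ≤ T * Real.exp (-(Real.pi * T ^ 2 * (E2 x.1 - E2 x.2) ^ 2)) := by positivity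
    calc T * c ^ 4 * Real.exp (-(Real.pi * T ^ 2 * (E2 x.1 - E2 x.2) ^ 2))
        = c ^ 4 * (T * Real.exp (-(Real.pi * T ^ 2 * (E2 x.1 - E2 x.2) ^ 2))) := by ring
      _ ≤ _ := by gcongr
  · intro x hx _
    simp only [PP, Finset.mem_filter, Finset.mem_product] at hx
    have : 0 ≤ w2 b x.1 * w2 b x.2 := by
      unfold w2
      have a1 := hb0 _ hx.1.1.1
      have a2 := hb0 _ hx.1.1.2
      have a3 := hb0 _ hx.1.2.1
      have a4 := hb0 _ hx.1.2.2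
      positivity
    positivity

/-- the energy as a Gaussian mean -/
lemma En_eq_int {T : ℝ} (hT : 0 < T) (B : Finset (ℤ × ℤ)) :
    T * En B T = ∫ t : ℝ, Real.exp (-(Real.pi * t ^ 2 / T ^ 2)) * M B (fun _ => 1) t := by
  apply le_antisymm
  · have := le_gauss_M hT B B (Finset.Subset.refl _) (fun _ => 1) (c := 1) zero_le_one
      (fun _ _ => zero_le_one) (fun _ _ => le_rfl)
    simpa using this
  · have := gauss_M_le hT 0 B (fun _ => 1) (c := 1) (fun _ _ => by simp)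
    simpa using this

/-- decreasing `T` costs at most the quotient -/
lemma En_le_mul (B : Finset (ℤ × ℤ)) {T T' : ℝ} (hT : 0 < T) (h : T ≤ T') :
    T * En B T ≤ T' * En B T' := by
  rw [En_eq_int hT, En_eq_int (hT.trans_le h)]
  have i1 := gauss_M_integrable hT 0 B (fun _ => 1)
  have i2 := gauss_M_integrable (hT.trans_le h) 0 B (fun _ => 1)
  simp only [sub_zero] at i1 i2
  apply integral_mono i1 i2
  intro t
  simp only
  apply mul_le_mul_of_nonneg_right _ (M_nonneg _ _ _)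
  apply Real.exp_le_exp.mpr
  have hpi := Real.pi_pos
  have : Real.pi * t ^ 2 / T' ^ 2 ≤ Real.pi * t ^ 2 / T ^ 2 := by gcongr
  linarith

end Pool.Agent.H593.U
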