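import Mathlib
import Pool.Agent.H593.U.Energy

open MeasureTheory Set Filter Topology
open Pool.Agent.H383.Gauss

namespace Pool.Agent.H593.U

/-- the unit square -/
def Q : Set (ℝ × ℝ) := Ico 0 1 ×ˢ Ico 0 1

lemma measurableSet_Q : MeasurableSet Q := measurableSet_Ico.prod measurableSet_Ico

lemma volume_Q : volume Q = 1 := by
  unfold Q
  rw [Measure.volume_eq_prod, Measure.prod_prod]
  simp

lemma int_ex_unit (n : ℤ) : ∫ x in Ico (0:ℝ) 1, ex (n * x) = if n = 0 then 1 else 0 := by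
  rw [integral_Ico_eq_integral_Ioc, ← intervalIntegral.integral_of_le zero_le_one]
  split_ifs with h
  · simp [h, ex_zero]
  · have hc : (2 * Real.pi * Complex.I * n : ℂ) ≠ 0 := by
      have : (n:ℂ) ≠ 0 := by exact_mod_cast h
      have hpi : (Real.pi:ℂ) ≠ 0 := by exact_mod_cast Real.pi_pos.ne'
      simp [this]
    have e : ∀ x : ℝ, ex (n * x) = Complex.exp ((2 * Real.pi * Complex.I * n) * x) := by
      intro x; unfold ex; congr 1; push_cast; ring
    simp_rw [e]
    rw [integral_exp_mul_complex hc]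
    have : (2 * Real.pi * Complex.I * n : ℂ) * ((1:ℝ):ℂ) = n * (2 * Real.pi * Complex.I) := by
      push_cast; ring
    rw [this, Complex.exp_int_mul_two_pi_mul_I]
    simp

lemma int_ex_Q (s : ℤ × ℤ) : ∫ a in Q, ex (dp s a) = if s = 0 then 1 else 0 := by
  unfold Q
  have e : ∀ a : ℝ × ℝ, ex (dp s a) = ex (s.1 * a.1) * ex (s.2 * a.2) := by
    intro a; unfold dp; rw [ex_add]
  simp_rw [e]
  rw [Measure.volume_eq_prod, setIntegral_prod_mul (fun x => ex (s.1 * x)) (fun y => ex (s.2 * y)),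
    int_ex_unit, int_ex_unit]
  by_cases h1 : s.1 = 0
  · by_cases h2 : s.2 = 0
    · have : s = 0 := Prod.ext h1 h2
      simp [this]
    · have : s ≠ 0 := fun h => h2 (by simp [h])
      simp [h2, this]
  · have : s ≠ 0 := fun h => h1 (by simp [h])
    simp [h1, this]

lemma integrable_ex_Q (s : ℤ × ℤ) : IntegrableOn (fun a => ex (dp s a)) Q := by
  have : IsFiniteMeasure (volume.restrict Q) := ⟨by simp [volume_Q]⟩
  refine Integrable.mono' (g := fun _ => (1:ℝ)) (integrable_const _) ?_ ?_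
  · exact (continuous_ex.comp (continuous_dp s)).aestronglyMeasurable
  · exact Eventually.of_forall fun a => (norm_ex _).le

theorem parseval (A : Finset (ℤ × ℤ)) (g : ℤ × ℤ → ℂ) :
    ∫ a in Q, ‖∑ s ∈ A, g s * ex (dp s a)‖ ^ 2 = ∑ s ∈ A, ‖g s‖ ^ 2 := by
  have h : ((∫ a in Q, ‖∑ s ∈ A, g s * ex (dp s a)‖ ^ 2 : ℝ) : ℂ) = ((∑ s ∈ A, ‖g s‖ ^ 2 : ℝ) : ℂ) := by
    rw [← integral_complex_ofReal]
    have e : ∀ a : ℝ × ℝ, ((‖∑ s ∈ A, g s * ex (dp s a)‖ ^ 2 : ℝ) : ℂ) =
        ∑ s ∈ A, ∑ s' ∈ A, (g s * (starRingEnd ℂ) (g s')) * ex (dp (s - s') a) := by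
      intro a
      have : ((‖∑ s ∈ A, g s * ex (dp s a)‖ ^ 2 : ℝ) : ℂ) =
          (∑ s ∈ A, g s * ex (dp s a)) * (starRingEnd ℂ) (∑ s ∈ A, g s * ex (dp s a)) := by
        rw [Complex.mul_conj, Complex.normSq_eq_norm_sq]
      rw [this, map_sum, Finset.sum_mul_sum]
      apply Finset.sum_congr rfl
      intro s _
      apply Finset.sum_congr rfl
      intro s' _
      have : dp (s - s') a = dp s a + (-dp s' a) := by
        simp only [dp, Prod.fst_sub, Prod.snd_sub]; push_cast; ring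
      rw [this, ex_add, ex_neg, map_mul]
      ring
    simp_rw [e]
    rw [integral_finsetSum]
    swap
    · intro s _
      apply integrable_finsetSum
      intro s' _
      exact (integrable_ex_Q _).const_mul _
    push_cast
    apply Finset.sum_congr rfl
    intro s hs
    rw [integral_finsetSum]
    swap
    · intro s' _
      exact (integrable_ex_Q _).const_mul _
    rw [Finset.sum_eq_single s]
    · rw [integral_const_mul, int_ex_Q]
      simp only [sub_self, if_true, mul_one]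
      rw [Complex.mul_conj, Complex.normSq_eq_norm_sq]
      push_cast; rfl
    · intro s' _ hne
      rw [integral_const_mul, int_ex_Q, if_neg (by rw [sub_eq_zero]; exact fun h => hne h.symm), mul_zero]
    · intro h; exact absurd hs h
  exact_mod_cast h

lemma continuous_S (B : Finset (ℤ × ℤ)) (b : ℤ × ℤ → ℝ) :
    Continuous (fun p : (ℝ × ℝ) × ℝ => S B b p.1 p.2) := by
  unfold S dp
  have := continuous_ex
  fun_prop

lemma continuous_S_left (B : Finset (ℤ × ℤ)) (b : ℤ × ℤ → ℝ) (t : ℝ) :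
    Continuous (fun a => S B b a t) := by
  unfold S dp
  have := continuous_ex
  fun_prop

lemma norm_S_le (B : Finset (ℤ × ℤ)) (b : ℤ × ℤ → ℝ) (a : ℝ × ℝ) (t : ℝ) :
    ‖S B b a t‖ ≤ ∑ k ∈ B, |b k| := by
  unfold S
  refine (norm_sum_le _ _).trans (le_of_eq ?_)
  apply Finset.sum_congr rfl
  intro k _
  rw [norm_mul, norm_ex, mul_one, Complex.norm_real, Real.norm_eq_abs]

theorem int_S_four (B : Finset (ℤ × ℤ)) (b : ℤ × ℤ → ℝ) (t : ℝ) :
    ∫ a in Q, ‖S B b a t‖ ^ 4 = M B b t := by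
  have e : ∀ a, ‖S B b a t‖ ^ 4 = ‖∑ s ∈ sm B, Gs B b s t * ex (dp s a)‖ ^ 2 := by
    intro a
    rw [← S_sq, norm_pow]; ring
  simp_rw [e]
  rw [parseval]
  rfl

lemma integrable_S_four (B : Finset (ℤ × ℤ)) (b : ℤ × ℤ → ℝ) (t : ℝ) :
    Integrable (fun a => ‖S B b a t‖ ^ 4) (volume.restrict Q) := by
  have hfin : IsFiniteMeasure (volume.restrict Q) := ⟨by simp [volume_Q]⟩
  have hc : Continuous (fun a => S B b a t) := continuous_S_left B b t
  obtain ⟨D, hD⟩ : ∃ D : ℝ, ∀ a, ‖S B b a t‖ ≤ D := ⟨_, fun a => norm_S_le B b a t⟩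
  obtain ⟨C, hC⟩ : ∃ C : ℝ, C = D ^ 4 := ⟨_, rfl⟩
  have hbd : ∀ a, ‖(‖S B b a t‖ ^ 4)‖ ≤ C := by
    intro a
    rw [hC, norm_pow, norm_norm]
    exact pow_le_pow_left₀ (norm_nonneg _) (hD a) 4
  have hint : Integrable (fun _ : ℝ × ℝ => C) (volume.restrict Q) := integrable_const C
  exact hint.mono' (hc.norm.pow 4).aestronglyMeasurable (Eventually.of_forall hbd)

theorem lint_S_four (B : Finset (ℤ × ℤ)) (b : ℤ × ℤ → ℝ) (t : ℝ) :
    ∫⁻ a in Q, ENNReal.ofReal (‖S B b a t‖ ^ 4) = ENNReal.ofReal (M B b t) := by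
  rw [← int_S_four, ofReal_integral_eq_lintegral_ofReal (integrable_S_four B b t)]
  exact Eventually.of_forall fun a => by positivity

end Pool.Agent.H593.U
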