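import Mathlib
import Pool.Graph.R_seed8.H383.Expand
import Pool.Agent.H593.U.Parseval

/-!
# Lattice points in discs with arbitrary centre
-/

open MeasureTheory Set Filter Topology
open scoped FourierTransform RealInnerProductSpace
open Pool.Agent.H383.Gauss

namespace Pool.Agent.H593.U

/-- lattice point as a complex number -/
noncomputable def pc (p : ℤ × ℤ) : ℂ := ((p.1:ℝ):ℂ) + ((p.2:ℝ):ℂ) * Complex.I

/-- point of the plane as a complex number -/
noncomputable def ac (a : ℝ × ℝ) : ℂ := (a.1:ℂ) + (a.2:ℂ) * Complex.I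

/-- squared distance of a lattice point to a point -/
noncomputable def d2 (p : ℤ × ℤ) (a : ℝ × ℝ) : ℝ := ((p.1:ℝ) - a.1)^2 + ((p.2:ℝ) - a.2)^2

/-- distance of a lattice point to a point -/
noncomputable def da (p : ℤ × ℤ) (a : ℝ × ℝ) : ℝ := √(d2 p a)

lemma d2_nonneg (p : ℤ × ℤ) (a : ℝ × ℝ) : 0 ≤ d2 p a := by unfold d2; positivity

lemma da_nonneg (p : ℤ × ℤ) (a : ℝ × ℝ) : 0 ≤ da p a := Real.sqrt_nonneg _

lemma da_sq (p : ℤ × ℤ) (a : ℝ × ℝ) : da p a ^ 2 = d2 p a := Real.sq_sqrt (d2_nonneg p a)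

lemma norm_pc_sub (p : ℤ × ℤ) (a : ℝ × ℝ) : ‖pc p - ac a‖ = da p a := by
  have : pc p - ac a = ((((p.1:ℝ) - a.1 : ℝ)) : ℂ) + ((((p.2:ℝ) - a.2 : ℝ)) : ℂ) * Complex.I := by
    unfold pc ac; push_cast; ring
  rw [this, Complex.norm_add_mul_I]
  rfl

lemma norm_ac (a : ℝ × ℝ) : ‖ac a‖ = √(a.1^2 + a.2^2) := by
  unfold ac; rw [Complex.norm_add_mul_I]

lemma four_shift (f : ℂ → ℂ) (c ξ : ℂ) :
    𝓕 (fun z => f (z - c)) ξ = Real.fourierChar (-⟪c, ξ⟫) • 𝓕 f ξ := by
  rw [Real.fourier_eq, Real.fourier_eq]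
  rw [← integral_add_right_eq_self (μ := volume) (fun v => Real.fourierChar (-⟪v, ξ⟫) • f (v - c)) c]
  rw [Circle.smul_def, ← integral_smul]
  congr 1
  ext v
  simp only [add_sub_cancel_right]
  rw [inner_add_left, neg_add, AddChar.map_add_eq_mul]
  simp only [Circle.smul_def, Circle.coe_mul, smul_eq_mul]
  ring

lemma re_char (x : ℝ) : ((Real.fourierChar (-x) : Circle) : ℂ).re = Real.cos (2 * Real.pi * x) := by
  rw [Real.fourierChar_apply, Complex.exp_ofReal_mul_I_re]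
  rw [show 2 * Real.pi * -x = -(2 * Real.pi * x) by ring, Real.cos_neg]

lemma inner_ac_pc (p : ℤ × ℤ) (a : ℝ × ℝ) : ⟪ac a, pc p⟫ = dp p a := by
  unfold ac pc
  rw [inner_re_im]
  unfold dp; ring

/-- the dual sum, without the zero frequency, for a disc with centre `a` -/
noncomputable def Esa (R δ : ℝ) (a : ℝ × ℝ) : ℝ :=
  ∑' p : ℤ × ℤ, if p = 0 then 0 else J (R * nz p) * J (δ * nz p) * Real.cos (2 * Real.pi * dp p a)

lemma Esa_summable {R δ : ℝ} (hR : 0 < R) (hδ : 0 < δ) (a : ℝ × ℝ) :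
    Summable (fun p : ℤ × ℤ => if p = 0 then 0 else
      J (R * nz p) * J (δ * nz p) * Real.cos (2 * Real.pi * dp p a)) := by
  have h1 := (summable_nz (s := 3) (by norm_num)).mul_left ((1/4) * (R * δ) ^ (-(3/2):ℝ))
  refine Summable.of_norm_bounded h1 ?_
  intro p
  by_cases hp : p = 0
  · simp [hp]
  · rw [if_neg hp, if_neg hp, Real.norm_eq_abs, abs_mul]
    calc |J (R * nz p) * J (δ * nz p)| * |Real.cos (2 * Real.pi * dp p a)|
        ≤ |J (R * nz p) * J (δ * nz p)| * 1 := by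
          gcongr; exact Real.abs_cos_le_one _
      _ ≤ _ := by rw [mul_one]; exact JJ_le hR hδ hp

lemma mem_ballS_of_da {B : ℝ} {p : ℤ × ℤ} {a : ℝ × ℝ} (h : da p a ≤ B) :
    p ∈ ballS (|B| + ‖ac a‖) := by
  rw [mem_ballS_nz (by positivity)]
  rw [← nz_norm]
  calc ‖((p.1:ℝ):ℂ) + ((p.2:ℝ):ℂ) * Complex.I‖ = ‖(pc p - ac a) + ac a‖ := by
        rw [sub_add_cancel]; rfl
    _ ≤ ‖pc p - ac a‖ + ‖ac a‖ := norm_add_le _ _
    _ ≤ |B| + ‖ac a‖ := by
        rw [norm_pc_sub]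
        gcongr
        exact h.trans (le_abs_self _)

lemma fs_supp {R δ : ℝ} (a : ℝ × ℝ) {p : ℤ × ℤ} (hp : p ∉ ballS (|R + δ| + ‖ac a‖)) :
    fs R δ (pc p - ac a) = 0 := by
  apply fs_zero
  rw [norm_pc_sub]
  by_contra h
  exact hp (mem_ballS_of_da (not_lt.mp h))

lemma fs_summable_a {R δ : ℝ} (a : ℝ × ℝ) : Summable (fun p : ℤ × ℤ => fs R δ (pc p - ac a)) := by
  apply summable_of_ne_finset_zero (s := ballS (|R + δ| + ‖ac a‖))
  intro p hp
  exact fs_supp a hp

lemma fs_summable_re_a {R δ : ℝ} (a : ℝ × ℝ) :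
    Summable (fun p : ℤ × ℤ => (fs R δ (pc p - ac a)).re) := by
  apply summable_of_ne_finset_zero (s := ballS (|R + δ| + ‖ac a‖))
  intro p hp
  rw [fs_supp a hp, Complex.zero_re]

theorem poisson_shift {R δ : ℝ} (hR : 0 < R) (hδ : 0 < δ) (a : ℝ × ℝ) :
    ∑' p : ℤ × ℤ, (fs R δ (pc p - ac a)).re = R^2 * δ^2 * (Real.pi^2 + Esa R δ a) := by
  have hsum := Esa_summable hR hδ a
  have hall : HasSum (fun p : ℤ × ℤ => J (R * nz p) * J (δ * nz p) * Real.cos (2 * Real.pi * dp p a))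
      (Real.pi^2 + Esa R δ a) := by
    have h1 : HasSum (fun p : ℤ × ℤ => if p = 0 then Real.pi^2 else 0) (Real.pi^2) := hasSum_ite_eq 0 _
    have h2 := h1.add hsum.hasSum
    refine h2.congr_fun ?_
    intro p
    by_cases hp : p = 0
    · have : dp 0 a = 0 := by simp [dp]
      simp only [hp, nz_zero, mul_zero, J_zero, if_true, this, Real.cos_zero]; ring
    · simp only [if_neg hp]; ring
  have hfour : ∀ p : ℤ × ℤ, 𝓕 (fun z => fs R δ (z - ac a)) (((p.1:ℝ):ℂ) + ((p.2:ℝ):ℂ) * Complex.I) =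
      ((Real.fourierChar (-(dp p a)) : Circle) : ℂ) * ((R^2 * δ^2 * (J (R * nz p) * J (δ * nz p)) : ℝ) : ℂ) := by
    intro p
    rw [four_shift, four_fs hR hδ, nz_norm]
    have : ⟪ac a, ((p.1:ℝ):ℂ) + ((p.2:ℝ):ℂ) * Complex.I⟫ = dp p a := inner_ac_pc p a
    rw [this, Circle.smul_def, smul_eq_mul]
    push_cast; ring
  have hs0 : Summable (fun p : ℤ × ℤ => ‖((R^2 * δ^2 * (J (R * nz p) * J (δ * nz p)) : ℝ) : ℂ)‖) := by
    have h1 : Summable (fun p : ℤ × ℤ => J (R * nz p) * J (δ * nz p)) := by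
      have h1 : HasSum (fun p : ℤ × ℤ => if p = 0 then Real.pi^2 else 0) (Real.pi^2) := hasSum_ite_eq 0 _
      have h2 := h1.add (Es_summable hR hδ).hasSum
      refine (h2.congr_fun ?_).summable
      intro p
      by_cases hp : p = 0
      · simp only [hp, nz_zero, mul_zero, J_zero, if_true]; ring
      · simp only [if_neg hp]; ring
    have := (h1.mul_left (R^2 * δ^2)).norm
    refine this.congr ?_
    intro p
    rw [Complex.norm_real]
  have hs : Summable (fun p : ℤ × ℤ => 𝓕 (fun z => fs R δ (z - ac a)) (((p.1:ℝ):ℂ) + ((p.2:ℝ):ℂ) * Complex.I)) := by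
    simp_rw [hfour]
    refine Summable.of_norm_bounded hs0 ?_
    intro p
    rw [norm_mul, Circle.norm_coe, one_mul]
  have hcont : Continuous (fun z => fs R δ (z - ac a)) :=
    (fs_cont R δ).comp (continuous_id.sub continuous_const)
  have hp := poisson2 hcont (B := R + δ + ‖ac a‖) (fun z hz => fs_zero (by
    have := norm_sub_norm_le z (ac a)
    linarith)) hs
  have e1 : ∀ p : ℤ × ℤ, fs R δ (((p.1:ℝ):ℂ) + ((p.2:ℝ):ℂ) * Complex.I - ac a) = fs R δ (pc p - ac a) :=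
    fun p => rfl
  simp_rw [e1] at hp
  have h3 := congrArg Complex.re hp
  rw [Complex.re_tsum (fs_summable_a a), Complex.re_tsum hs] at h3
  rw [h3, ← hall.tsum_eq, ← tsum_mul_left]
  congr 1
  ext p
  rw [hfour, Complex.re_mul_ofReal, re_char]
  ring

/-- number of lattice points in the closed disc of centre `a` and radius `R` -/
noncomputable def Na (a : ℝ × ℝ) (R : ℝ) : ℝ :=
  (Nat.card {p : ℤ × ℤ // ((p.1 : ℝ) - a.1) ^ 2 + ((p.2 : ℝ) - a.2) ^ 2 ≤ R ^ 2} : ℝ)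

/-- the finite set of lattice points in the disc of centre `a` -/
noncomputable def ballA (a : ℝ × ℝ) (R : ℝ) : Finset (ℤ × ℤ) :=
  (ballS (|R| + ‖ac a‖)).filter (fun p => d2 p a ≤ R ^ 2)

lemma mem_ballA {a : ℝ × ℝ} {R : ℝ} (hR : 0 ≤ R) (p : ℤ × ℤ) : p ∈ ballA a R ↔ da p a ≤ R := by
  unfold ballA
  rw [Finset.mem_filter, da, Real.sqrt_le_left hR]
  constructor
  · rintro ⟨_, h⟩; exact h
  · intro h
    refine ⟨mem_ballS_of_da (a := a) (B := R) ?_, h⟩
    rw [da, Real.sqrt_le_left hR]; exact h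

lemma Na_eq_card (a : ℝ × ℝ) {R : ℝ} (hR : 0 ≤ R) : Na a R = ((ballA a R).card : ℝ) := by
  unfold Na
  congr 1
  refine Nat.subtype_card (ballA a R) ?_
  intro p
  rw [mem_ballA hR, da, Real.sqrt_le_left hR]
  rfl

theorem Na_le (a : ℝ × ℝ) {R δ : ℝ} (hR : 0 ≤ R) (hδ : 0 < δ) :
    Na a R ≤ Real.pi * (R + δ)^2 + (R + δ)^2 / Real.pi * Esa (R + δ) δ a := by
  have h1 := poisson_shift (R := R + δ) (by linarith) hδ a
  have h2 : Na a R * (Real.pi * δ^2) ≤ ∑' p : ℤ × ℤ, (fs (R + δ) δ (pc p - ac a)).re := by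
    rw [Na_eq_card a hR]
    have : ((ballA a R).card : ℝ) * (Real.pi * δ^2) =
        ∑ p ∈ ballA a R, (fs (R + δ) δ (pc p - ac a)).re := by
      rw [← nsmul_eq_mul, ← Finset.sum_const]
      apply Finset.sum_congr rfl
      intro p hp
      rw [fs_one hδ, Complex.ofReal_re]
      rw [norm_pc_sub]
      rw [mem_ballA hR] at hp
      linarith
    rw [this]
    apply Summable.sum_le_tsum _ _ (fs_summable_re_a a)
    intro p _
    exact (fs_real hδ _).1
  rw [h1] at h2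
  have hp : 0 < Real.pi * δ^2 := by positivity
  rw [← mul_le_mul_iff_left₀ hp]
  refine h2.trans (le_of_eq ?_)
  have := Real.pi_pos.ne'
  field_simp

theorem le_Na (a : ℝ × ℝ) {R δ : ℝ} (hδ : 0 < δ) (h : δ < R) :
    Real.pi * (R - δ)^2 + (R - δ)^2 / Real.pi * Esa (R - δ) δ a ≤ Na a R := by
  have hR : 0 ≤ R := by linarith
  have h1 := poisson_shift (R := R - δ) (by linarith) hδ a
  have h2 : ∑' p : ℤ × ℤ, (fs (R - δ) δ (pc p - ac a)).re ≤ Na a R * (Real.pi * δ^2) := by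
    rw [tsum_eq_sum (s := ballA a R)]
    · rw [Na_eq_card a hR, ← nsmul_eq_mul, ← Finset.sum_const]
      apply Finset.sum_le_sum
      intro p _
      exact (fs_real hδ _).2
    · intro p hp
      rw [mem_ballA hR, not_le] at hp
      rw [fs_zero, Complex.zero_re]
      rw [norm_pc_sub]
      linarith
  rw [h1] at h2
  have hp : 0 < Real.pi * δ^2 := by positivity
  rw [← mul_le_mul_iff_left₀ hp]
  refine (le_of_eq ?_).trans h2
  have := Real.pi_pos.ne'
  field_simp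

/-- the weights -/
noncomputable def bw (δ : ℝ) (p : ℤ × ℤ) : ℝ := (1/Real.pi^2) * nz p ^ (-(3/2):ℝ) * J (δ * nz p)

/-- the truncated main sum -/
noncomputable def Va (R δ : ℝ) (Y : ℕ) (a : ℝ × ℝ) : ℝ :=
  ∑ p ∈ (ballS (Y:ℝ)).erase 0, bw δ p *
    Real.sin (2 * Real.pi * (R * nz p) - Real.pi/4) * Real.cos (2 * Real.pi * dp p a)

/-- normalised dual sum -/
noncomputable def Wa (R δ : ℝ) (a : ℝ × ℝ) : ℝ := (R ^ (3/2:ℝ) / Real.pi) * Esa R δ a

theorem Wa_sub_Va : ∃ C : ℝ, 0 < C ∧ ∀ (R δ : ℝ) (Y : ℕ) (a : ℝ × ℝ), 0 < R → 0 < δ → 1 ≤ Y →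
    |Wa R δ a - Va R δ Y a| ≤ C * (1/R + δ ^ (-(3/2):ℝ) * (Y:ℝ) ^ (-(9/10):ℝ)) := by
  have hs1 := summable_nz (s := 5/2) (by norm_num)
  have hs2 := summable_nz (s := 21/10) (by norm_num)
  set Z1 := ∑' p : ℤ × ℤ, if p = 0 then (0:ℝ) else nz p ^ (-(5/2):ℝ) with hZ1
  set Z2 := ∑' p : ℤ × ℤ, if p = 0 then (0:ℝ) else nz p ^ (-(21/10):ℝ) with hZ2
  have hZ1n : 0 ≤ Z1 := tsum_nonneg (fun p => by
    split_ifs
    · exact le_rfl
    · have := nz_nonneg p; positivity)
  have hZ2n : 0 ≤ Z2 := tsum_nonneg (fun p => by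
    split_ifs
    · exact le_rfl
    · have := nz_nonneg p; positivity)
  refine ⟨Z1 + Z2 + 1, by positivity, ?_⟩
  intro R δ Y a hR hδ hY
  have hY' : (1:ℝ) ≤ Y := by exact_mod_cast hY
  have hpi := Real.pi_gt_three
  set S := (ballS (Y:ℝ)).erase 0 with hS
  set c := R ^ (3/2:ℝ) / Real.pi with hc
  have hc0 : 0 ≤ c := by positivity
  -- the comparison function
  set v : ℤ × ℤ → ℝ := fun p => if p ∈ S then bw δ p *
    Real.sin (2 * Real.pi * (R * nz p) - Real.pi/4) * Real.cos (2 * Real.pi * dp p a) else 0 with hv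
  have hvs : HasSum v (Va R δ Y a) := by
    have : HasSum v (∑ p ∈ S, v p) := hasSum_sum_of_ne_finset_zero
      (fun p hp => by simp only [hv]; rw [if_neg hp])
    have e : ∑ p ∈ S, v p = Va R δ Y a := by
      unfold Va
      apply Finset.sum_congr rfl
      intro p hp
      simp only [hv]
      rw [if_pos hp]
    rwa [e] at this
  have hEs := (Esa_summable hR hδ a).hasSum.mul_left c
  have hdiff := hEs.sub hvs
  have hWe : Wa R δ a = c * (∑' p : ℤ × ℤ, if p = 0 then 0 else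
    J (R * nz p) * J (δ * nz p) * Real.cos (2 * Real.pi * dp p a)) := rfl
  rw [← hWe] at hdiff
  rw [← hdiff.tsum_eq]
  -- bound termwise
  set B : ℤ × ℤ → ℝ := fun p => (1/R) * (if p = 0 then (0:ℝ) else nz p ^ (-(5/2):ℝ)) +
    (δ ^ (-(3/2):ℝ) * (Y:ℝ) ^ (-(9/10):ℝ)) * (if p = 0 then (0:ℝ) else nz p ^ (-(21/10):ℝ)) with hB
  have hBs : HasSum B ((1/R) * Z1 + (δ ^ (-(3/2):ℝ) * (Y:ℝ) ^ (-(9/10):ℝ)) * Z2) :=
    (hs1.hasSum.mul_left _).add (hs2.hasSum.mul_left _)
  have hterm : ∀ p, ‖c * (if p = 0 then 0 else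
      J (R * nz p) * J (δ * nz p) * Real.cos (2 * Real.pi * dp p a)) - v p‖ ≤ B p := by
    intro p
    have hcos := Real.abs_cos_le_one (2 * Real.pi * dp p a)
    by_cases hp0 : p = 0
    · have : p ∉ S := by rw [hS, Finset.mem_erase]; simp [hp0]
      simp only [hv, hB]
      rw [if_pos hp0, if_neg this, if_pos hp0, if_pos hp0]
      simp
    · have hn1 := nz_ge_one hp0
      have hn0 : 0 < nz p := by linarith
      by_cases hpS : p ∈ S
      · simp only [hv, hB]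
        rw [if_neg hp0, if_pos hpS, if_neg hp0, if_neg hp0]
        have hkey : c * (J (R * nz p) * J (δ * nz p) * Real.cos (2 * Real.pi * dp p a)) - bw δ p *
            Real.sin (2 * Real.pi * (R * nz p) - Real.pi/4) * Real.cos (2 * Real.pi * dp p a) =
            c * J (δ * nz p) * (J (R * nz p) - (1/Real.pi) * (R * nz p) ^ (-(3/2):ℝ) *
              Real.sin (2 * Real.pi * (R * nz p) - Real.pi/4)) * Real.cos (2 * Real.pi * dp p a) := by
          have e1 : (R * nz p) ^ (-(3/2):ℝ) = R ^ (-(3/2):ℝ) * nz p ^ (-(3/2):ℝ) :=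
            Real.mul_rpow hR.le hn0.le
          have e2 : R ^ (3/2:ℝ) * R ^ (-(3/2):ℝ) = 1 := by
            rw [← Real.rpow_add hR]; simp
          rw [e1, hc, bw]
          have hpi0 := Real.pi_pos.ne'
          generalize Real.sin (2 * Real.pi * (R * nz p) - Real.pi/4) = sn
          generalize J (δ * nz p) = jj
          generalize Real.cos (2 * Real.pi * dp p a) = cc
          field_simp
          linear_combination (nz p ^ (-(3/2):ℝ) * jj * sn * cc) * e2
        rw [hkey, norm_mul, norm_mul, norm_mul, Real.norm_eq_abs, Real.norm_eq_abs, Real.norm_eq_abs,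
          Real.norm_eq_abs, abs_of_nonneg hc0]
        have ha := J_asymp (l := R * nz p) (by positivity)
        have hb := abs_J_le (δ * nz p)
        calc c * |J (δ * nz p)| * |J (R * nz p) - (1/Real.pi) * (R * nz p) ^ (-(3/2):ℝ) *
              Real.sin (2 * Real.pi * (R * nz p) - Real.pi/4)| * |Real.cos (2 * Real.pi * dp p a)|
            ≤ c * Real.pi * ((3 / (8 * Real.pi ^ 2)) * (R * nz p) ^ (-(5/2):ℝ)) * 1 := by gcongr
          _ = (3 / (8 * Real.pi ^ 2)) * ((1/R) * nz p ^ (-(5/2):ℝ)) := by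
              have e1 : (R * nz p) ^ (-(5/2):ℝ) = R ^ (-(5/2):ℝ) * nz p ^ (-(5/2):ℝ) :=
                Real.mul_rpow hR.le hn0.le
              have e2 : R ^ (3/2:ℝ) * R ^ (-(5/2):ℝ) = 1/R := by
                rw [← Real.rpow_add hR, one_div, ← Real.rpow_neg_one]; norm_num
              rw [e1, hc, ← e2]
              have hpi0 := Real.pi_pos.ne'
              field_simp
          _ ≤ 1 * ((1/R) * nz p ^ (-(5/2):ℝ)) := by
              apply mul_le_mul_of_nonneg_right _ (by positivity)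
              rw [div_le_one (by positivity)]
              nlinarith
          _ ≤ _ := by
              rw [one_mul]
              have : 0 ≤ (δ ^ (-(3/2):ℝ) * (Y:ℝ) ^ (-(9/10):ℝ)) * nz p ^ (-(21/10):ℝ) := by positivity
              linarith
      · simp only [hv, hB]
        rw [if_neg hp0, if_neg hpS, if_neg hp0, if_neg hp0, sub_zero, norm_mul, norm_mul, Real.norm_eq_abs,
          Real.norm_eq_abs, Real.norm_eq_abs, abs_of_nonneg hc0]
        have h1 := JJ_le hR hδ hp0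
        have hYn : (Y:ℝ) < nz p := by
          rw [hS, Finset.mem_erase, not_and_or] at hpS
          rcases hpS with h | h
          · exact absurd hp0 h
          · rw [mem_ballS_nz (by positivity), not_le] at h
            exact h
        have h2 : nz p ^ (-(3:ℝ)) ≤ (Y:ℝ) ^ (-(9/10):ℝ) * nz p ^ (-(21/10):ℝ) := by
          have e : nz p ^ (-(3:ℝ)) = nz p ^ (-(9/10):ℝ) * nz p ^ (-(21/10):ℝ) := by
            rw [← Real.rpow_add hn0]; norm_num
          rw [e]
          apply mul_le_mul_of_nonneg_right _ (by positivity)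
          exact Real.rpow_le_rpow_of_nonpos (by linarith) hYn.le (by norm_num)
        calc c * (|J (R * nz p) * J (δ * nz p)| * |Real.cos (2 * Real.pi * dp p a)|)
            ≤ c * (((1/4) * (R * δ) ^ (-(3/2):ℝ) * nz p ^ (-(3:ℝ))) * 1) := by gcongr
          _ = (1/(4*Real.pi)) * (δ ^ (-(3/2):ℝ) * nz p ^ (-(3:ℝ))) := by
              have e1 : (R * δ) ^ (-(3/2):ℝ) = R ^ (-(3/2):ℝ) * δ ^ (-(3/2):ℝ) :=
                Real.mul_rpow hR.le hδ.le
              have e2 : R ^ (3/2:ℝ) * R ^ (-(3/2):ℝ) = 1 := by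
                rw [← Real.rpow_add hR]; simp
              rw [e1, hc]
              have hpi0 := Real.pi_pos.ne'
              field_simp
              linear_combination e2
          _ ≤ 1 * (δ ^ (-(3/2):ℝ) * ((Y:ℝ) ^ (-(9/10):ℝ) * nz p ^ (-(21/10):ℝ))) := by
              apply mul_le_mul _ _ (by positivity) (by norm_num)
              · rw [div_le_one (by positivity)]; linarith
              · gcongr
          _ ≤ _ := by
              have : 0 ≤ (1/R) * nz p ^ (-(5/2):ℝ) := by positivity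
              linarith
  have hfin := tsum_of_norm_bounded hBs hterm
  rw [Real.norm_eq_abs] at hfin
  refine hfin.trans ?_
  have p1 : 0 ≤ 1/R := by positivity
  have p2 : 0 ≤ δ ^ (-(3/2):ℝ) * (Y:ℝ) ^ (-(9/10):ℝ) := by positivity
  nlinarith

/-- crude bound for the normalised dual sum -/
theorem abs_Wa_le : ∃ C : ℝ, 0 < C ∧ ∀ (R δ : ℝ) (a : ℝ × ℝ), 0 < R → 0 < δ →
    |Wa R δ a| ≤ C * δ ^ (-(3/2):ℝ) := by
  have hs1 := summable_nz (s := 3) (by norm_num)
  set Z1 := ∑' p : ℤ × ℤ, if p = 0 then (0:ℝ) else nz p ^ (-(3:ℝ)) with hZ1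
  have hZ1n : 0 ≤ Z1 := tsum_nonneg (fun p => by
    split_ifs
    · exact le_rfl
    · have := nz_nonneg p; positivity)
  refine ⟨Z1 + 1, by positivity, ?_⟩
  intro R δ a hR hδ
  have hE : |Esa R δ a| ≤ ((1/4) * (R * δ) ^ (-(3/2):ℝ)) * Z1 := by
    rw [← Real.norm_eq_abs]
    apply tsum_of_norm_bounded (hs1.hasSum.mul_left _)
    intro p
    by_cases hp : p = 0
    · simp [hp]
    · rw [if_neg hp, if_neg hp, Real.norm_eq_abs, abs_mul]
      calc |J (R * nz p) * J (δ * nz p)| * |Real.cos (2 * Real.pi * dp p a)|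
          ≤ |J (R * nz p) * J (δ * nz p)| * 1 := by
            gcongr; exact Real.abs_cos_le_one _
        _ ≤ _ := by rw [mul_one]; exact JJ_le hR hδ hp
  unfold Wa
  have hpi := Real.pi_gt_three
  rw [abs_mul, abs_of_nonneg (by positivity)]
  have e1 : (R * δ) ^ (-(3/2):ℝ) = R ^ (-(3/2):ℝ) * δ ^ (-(3/2):ℝ) :=
    Real.mul_rpow hR.le hδ.le
  have e2 : R ^ (3/2:ℝ) * R ^ (-(3/2):ℝ) = 1 := by
    rw [← Real.rpow_add hR]; simp
  calc R ^ (3/2:ℝ) / Real.pi * |Esa R δ a| ≤ R ^ (3/2:ℝ) / Real.pi * (((1/4) * (R * δ) ^ (-(3/2):ℝ)) * Z1) := by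
        gcongr
    _ = (R ^ (3/2:ℝ) * R ^ (-(3/2):ℝ)) * (δ ^ (-(3/2):ℝ) * Z1) / (4 * Real.pi) := by
        rw [e1]
        field_simp
    _ = (δ ^ (-(3/2):ℝ) * Z1) / (4 * Real.pi) := by rw [e2, one_mul]
    _ ≤ (δ ^ (-(3/2):ℝ) * Z1) := by
        apply div_le_self (by positivity) (by linarith)
    _ ≤ _ := by
        have : 0 ≤ δ ^ (-(3/2):ℝ) := by positivity
        nlinarith

/-- the sandwich in terms of `Wa` -/
theorem Na_le_W (a : ℝ × ℝ) {R δ : ℝ} (hR : 0 ≤ R) (hδ : 0 < δ) :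
    Na a R ≤ Real.pi * (R + δ)^2 + √(R + δ) * Wa (R + δ) δ a := by
  refine (Na_le a hR hδ).trans (le_of_eq ?_)
  congr 1
  unfold Wa
  have h : 0 < R + δ := by linarith
  have e : √(R+δ) * (R+δ) ^ (3/2:ℝ) = (R+δ)^2 := by
    rw [Real.sqrt_eq_rpow, ← Real.rpow_add h]; norm_num
  rw [← e]; ring

theorem le_Na_W (a : ℝ × ℝ) {R δ : ℝ} (hδ : 0 < δ) (h : δ < R) :
    Real.pi * (R - δ)^2 + √(R - δ) * Wa (R - δ) δ a ≤ Na a R := by
  refine (le_of_eq ?_).trans (le_Na a hδ h)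
  congr 1
  unfold Wa
  have h : 0 < R - δ := by linarith
  have e : √(R-δ) * (R-δ) ^ (3/2:ℝ) = (R-δ)^2 := by
    rw [Real.sqrt_eq_rpow, ← Real.rpow_add h]; norm_num
  rw [← e]; ring

end Pool.Agent.H593.U
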