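import Mathlib
import Pool.Agent.H593.U.Disc

/-!
# The main sum in terms of exponential sums, and dyadic shells
-/

open MeasureTheory Set Filter Topology
open Pool.Agent.H383.Gauss

namespace Pool.Agent.H593.U

/-- nonzero lattice points in the disc of radius `Y` -/
noncomputable def B0 (Y : ℕ) : Finset (ℤ × ℤ) := (ballS (Y:ℝ)).erase 0

lemma nz_neg (p : ℤ × ℤ) : nz (-p) = nz p := by
  unfold nz; simp

lemma dp_neg (p : ℤ × ℤ) (a : ℝ × ℝ) : dp (-p) a = -dp p a := by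
  unfold dp; simp; ring

lemma mem_B0 (Y : ℕ) (p : ℤ × ℤ) : p ∈ B0 Y ↔ p ≠ 0 ∧ nz p ≤ Y := by
  unfold B0
  rw [Finset.mem_erase, mem_ballS_nz (by positivity)]

lemma neg_mem_B0 {Y : ℕ} {p : ℤ × ℤ} (h : p ∈ B0 Y) : -p ∈ B0 Y := by
  rw [mem_B0] at h ⊢
  rw [nz_neg]
  exact ⟨neg_ne_zero.mpr h.1, h.2⟩

lemma odd_sum_zero {B : Finset (ℤ × ℤ)} (hB : ∀ p ∈ B, -p ∈ B) (f : ℤ × ℤ → ℂ)
    (hf : ∀ p, f (-p) = -f p) : ∑ p ∈ B, f p = 0 := by
  apply Finset.sum_involution (fun p _ => -p)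
  · intro p _; rw [hf]; ring
  · intro p _ hne heq
    apply hne
    have := hf p
    rw [heq] at this
    have h2 : (2:ℂ) * f p = 0 := by linear_combination this
    rcases mul_eq_zero.mp h2 with h | h
    · norm_num at h
    · exact h
  · intro p _; exact neg_neg p
  · intro p hp; exact hB p hp

lemma ex_eq (x : ℝ) : ex x = (Real.cos (2 * Real.pi * x) : ℂ) + (Real.sin (2 * Real.pi * x) : ℂ) * Complex.I := by
  unfold ex
  rw [Complex.exp_mul_I, ← Complex.ofReal_cos, ← Complex.ofReal_sin]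

lemma S_cos {B : Finset (ℤ × ℤ)} (hB : ∀ p ∈ B, -p ∈ B) {b : ℤ × ℤ → ℝ} (hb : ∀ p, b (-p) = b p)
    (a : ℝ × ℝ) (t : ℝ) :
    S B b a t = ∑ p ∈ B, ((b p * Real.cos (2 * Real.pi * dp p a) : ℝ) : ℂ) * ex (t * nz p) := by
  have h0 := odd_sum_zero hB (fun p => ((b p * Real.sin (2 * Real.pi * dp p a) : ℝ) : ℂ) * Complex.I * ex (t * nz p))
    (by
      intro p
      rw [hb, dp_neg, nz_neg, show 2 * Real.pi * -dp p a = -(2 * Real.pi * dp p a) by ring, Real.sin_neg]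
      push_cast; ring)
  rw [← add_zero (∑ p ∈ B, _), ← h0, ← Finset.sum_add_distrib]
  unfold S
  apply Finset.sum_congr rfl
  intro p _
  rw [ex_add, ex_eq (dp p a)]
  push_cast; ring

/-- the phase -/
noncomputable def ph : ℂ := Complex.exp ((-(Real.pi/4) : ℝ) * Complex.I)

lemma norm_ph : ‖ph‖ = 1 := by unfold ph; rw [Complex.norm_exp_ofReal_mul_I]

lemma im_ph (x : ℝ) : (ph * ex x).im = Real.sin (2 * Real.pi * x - Real.pi/4) := by
  unfold ph ex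
  rw [← Complex.exp_add, ← add_mul, ← Complex.ofReal_add, Complex.exp_ofReal_mul_I_im]
  congr 1; ring

lemma bw_neg (δ : ℝ) (p : ℤ × ℤ) : bw δ (-p) = bw δ p := by unfold bw; rw [nz_neg]

lemma Va_eq (R δ : ℝ) (Y : ℕ) (a : ℝ × ℝ) : Va R δ Y a = (ph * S (B0 Y) (bw δ) a R).im := by
  rw [S_cos (fun p hp => neg_mem_B0 hp) (bw_neg δ), Finset.mul_sum, Complex.im_sum]
  unfold Va
  apply Finset.sum_congr rfl
  intro p _
  have : ph * (((bw δ p * Real.cos (2 * Real.pi * dp p a) : ℝ) : ℂ) * ex (R * nz p)) =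
      ((bw δ p * Real.cos (2 * Real.pi * dp p a) : ℝ) : ℂ) * (ph * ex (R * nz p)) := by ring
  rw [this, Complex.im_ofReal_mul, im_ph]
  ring

lemma abs_Va_le (R δ : ℝ) (Y : ℕ) (a : ℝ × ℝ) : |Va R δ Y a| ≤ ‖S (B0 Y) (bw δ) a R‖ := by
  rw [Va_eq]
  refine (Complex.abs_im_le_norm _).trans ?_
  rw [norm_mul, norm_ph, one_mul]

/-- the weights of the difference -/
noncomputable def bd (δ h : ℝ) (p : ℤ × ℤ) : ℝ := bw δ p * Real.sin (2 * Real.pi * (h * nz p))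

lemma S_sub (B : Finset (ℤ × ℤ)) (δ : ℝ) (a : ℝ × ℝ) (m h : ℝ) :
    S B (bw δ) a (m + h) - S B (bw δ) a (m - h) = (2 * Complex.I) * S B (bd δ h) a m := by
  unfold S
  rw [← Finset.sum_sub_distrib, Finset.mul_sum]
  apply Finset.sum_congr rfl
  intro p _
  have e1 : dp p a + (m + h) * nz p = (dp p a + m * nz p) + h * nz p := by ring
  have e2 : dp p a + (m - h) * nz p = (dp p a + m * nz p) + -(h * nz p) := by ring
  rw [e1, e2, ex_add, ex_add _ (-(h * nz p)), ex_eq (h * nz p), ex_eq (-(h * nz p))]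
  unfold bd
  rw [show 2 * Real.pi * -(h * nz p) = -(2 * Real.pi * (h * nz p)) by ring, Real.sin_neg, Real.cos_neg]
  push_cast; ring

lemma abs_Va_sub_le (m h δ : ℝ) (Y : ℕ) (a : ℝ × ℝ) :
    |Va (m + h) δ Y a - Va (m - h) δ Y a| ≤ 2 * ‖S (B0 Y) (bd δ h) a m‖ := by
  rw [Va_eq, Va_eq, ← Complex.sub_im, ← mul_sub, S_sub]
  refine (Complex.abs_im_le_norm _).trans ?_
  rw [norm_mul, norm_mul, norm_ph, one_mul, norm_mul, Complex.norm_I, Complex.norm_ofNat, mul_one]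

/-- dyadic index -/
noncomputable def lg (p : ℤ × ℤ) : ℕ := Nat.log 2 ⌊nz p⌋₊

lemma lg_le {p : ℤ × ℤ} (hp : p ≠ 0) : (2:ℝ) ^ (lg p) ≤ nz p := by
  have h1 := nz_ge_one hp
  have h2 : ⌊nz p⌋₊ ≠ 0 := by
    have := Nat.floor_pos.mpr h1
    omega
  have h3 := Nat.pow_log_le_self 2 h2
  have h4 : ((2 ^ (lg p) : ℕ) : ℝ) ≤ (⌊nz p⌋₊ : ℝ) := by exact_mod_cast h3
  push_cast at h4
  exact h4.trans (Nat.floor_le (nz_nonneg p))

lemma lt_lg (p : ℤ × ℤ) : nz p < (2:ℝ) ^ (lg p + 1) := by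
  have h3 := Nat.lt_pow_succ_log_self (b := 2) (by norm_num) ⌊nz p⌋₊
  have h4 : ((⌊nz p⌋₊ + 1 : ℕ) : ℝ) ≤ ((2 ^ (lg p + 1) : ℕ) : ℝ) := by exact_mod_cast h3
  push_cast at h4
  exact (Nat.lt_floor_add_one (nz p)).trans_le h4

/-- the dyadic shell -/
noncomputable def sh (Y j : ℕ) : Finset (ℤ × ℤ) := (B0 Y).filter (fun p => lg p = j)

/-- the box -/
noncomputable def box (K : ℕ) : Finset (ℤ × ℤ) := Finset.Icc (-(K:ℤ)) K ×ˢ Finset.Icc (-(K:ℤ)) K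

lemma mem_box (K : ℕ) (p : ℤ × ℤ) : p ∈ box K ↔ |p.1| ≤ K ∧ |p.2| ≤ K := by
  unfold box
  rw [Finset.mem_product, Finset.mem_Icc, Finset.mem_Icc, abs_le, abs_le]

lemma abs_le_nz (p : ℤ × ℤ) : |(p.1:ℝ)| ≤ nz p ∧ |(p.2:ℝ)| ≤ nz p := by
  unfold nz
  constructor
  · apply Real.abs_le_sqrt; nlinarith [sq_nonneg (p.2:ℝ)]
  · apply Real.abs_le_sqrt; nlinarith [sq_nonneg (p.1:ℝ)]

lemma mem_box_of_nz {K : ℕ} {p : ℤ × ℤ} (h : nz p ≤ K) : p ∈ box K := by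
  rw [mem_box]
  have := abs_le_nz p
  constructor
  · have h1 : |(p.1:ℝ)| ≤ K := this.1.trans h
    exact_mod_cast h1
  · have h1 : |(p.2:ℝ)| ≤ K := this.2.trans h
    exact_mod_cast h1

lemma card_box (K : ℕ) : (box K).card = (2 * K + 1) ^ 2 := by
  unfold box
  rw [Finset.card_product, Int.card_Icc]
  have : ((K:ℤ) + 1 - -(K:ℤ)).toNat = 2 * K + 1 := by omega
  rw [this]; ring

lemma nz_le_of_mem_box {K : ℕ} {p : ℤ × ℤ} (h : p ∈ box K) : nz p ≤ 2 * K := by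
  rw [mem_box] at h
  unfold nz
  have h1 : |(p.1:ℝ)| ≤ K := by exact_mod_cast h.1
  have h2 : |(p.2:ℝ)| ≤ K := by exact_mod_cast h.2
  rw [Real.sqrt_le_left (by positivity)]
  have e1 := sq_abs (p.1:ℝ)
  have e2 := sq_abs (p.2:ℝ)
  have := abs_nonneg (p.1:ℝ)
  have := abs_nonneg (p.2:ℝ)
  nlinarith

lemma sh_sub_box (Y j : ℕ) : sh Y j ⊆ box (2 ^ (j+1)) := by
  intro p hp
  unfold sh at hp
  rw [Finset.mem_filter] at hp
  apply mem_box_of_nz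
  have := lt_lg p
  rw [hp.2] at this
  push_cast
  exact this.le

lemma sm_sub_box {B : Finset (ℤ × ℤ)} {K : ℕ} (h : B ⊆ box K) : sm B ⊆ box (2 * K) := by
  intro p hp
  unfold sm at hp
  rw [Finset.mem_image] at hp
  obtain ⟨q, hq, rfl⟩ := hp
  rw [Finset.mem_product] at hq
  have h1 := (mem_box K _).mp (h hq.1)
  have h2 := (mem_box K _).mp (h hq.2)
  rw [mem_box]
  constructor
  · have := abs_add_le q.1.1 q.2.1
    simp only [Prod.fst_add]; push_cast; omega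
  · have := abs_add_le q.1.2 q.2.2
    simp only [Prod.snd_add]; push_cast; omega

lemma card_sm_sh (Y j : ℕ) : ((sm (sh Y j)).card : ℝ) ≤ 100 * 4 ^ j := by
  have h1 := Finset.card_le_card (sm_sub_box (sh_sub_box Y j))
  rw [card_box] at h1
  have h2 : ((sm (sh Y j)).card : ℝ) ≤ ((2 * (2 * 2 ^ (j+1)) + 1) ^ 2 : ℕ) := by exact_mod_cast h1
  refine h2.trans ?_
  push_cast
  have e : (4:ℝ) ^ j = (2 ^ j) ^ 2 := by rw [← pow_mul, mul_comm j 2, pow_mul]; norm_num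
  have h3 : (1:ℝ) ≤ 2 ^ j := one_le_pow₀ (by norm_num)
  rw [e, show (2:ℝ) ^ (j+1) = 2 ^ j * 2 from pow_succ 2 j]
  generalize (2:ℝ) ^ j = x at h3
  nlinarith

lemma S_shells {Y J : ℕ} (hJ : Y < 2 ^ J) (b : ℤ × ℤ → ℝ) (a : ℝ × ℝ) (t : ℝ) :
    S (B0 Y) b a t = ∑ j ∈ Finset.range J, S (sh Y j) b a t := by
  unfold S sh
  rw [Finset.sum_fiberwise_of_maps_to (g := lg)]
  intro p hp
  rw [mem_B0] at hp
  rw [Finset.mem_range]
  by_contra h
  push Not at h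
  have h1 := lg_le hp.1
  have h2 : (2:ℝ) ^ J ≤ 2 ^ (lg p) := pow_le_pow_right₀ (by norm_num) h
  have h3 : ((Y:ℕ):ℝ) < ((2 ^ J : ℕ) : ℝ) := by exact_mod_cast hJ
  push_cast at h3
  linarith [hp.2]

lemma sum_pow4_le {J : ℕ} (f : ℕ → ℝ) (hf : ∀ j, 0 ≤ f j) :
    (∑ j ∈ Finset.range J, f j) ^ 4 ≤ (J:ℝ) ^ 3 * ∑ j ∈ Finset.range J, f j ^ 4 := by
  rcases Nat.eq_zero_or_pos J with h | h
  · subst h; simp
  · have := pow_sum_div_card_le_sum_pow (s := Finset.range J) (f := f) (fun a _ => hf a) 3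
    rw [Finset.card_range, div_le_iff₀ (by positivity)] at this
    rw [mul_comm]
    exact this

lemma S_four_shells {Y J : ℕ} (hJ : Y < 2 ^ J) (b : ℤ × ℤ → ℝ) (a : ℝ × ℝ) (t : ℝ) :
    ‖S (B0 Y) b a t‖ ^ 4 ≤ (J:ℝ) ^ 3 * ∑ j ∈ Finset.range J, ‖S (sh Y j) b a t‖ ^ 4 := by
  rw [S_shells hJ]
  refine le_trans ?_ (sum_pow4_le (fun j => ‖S (sh Y j) b a t‖) (fun j => norm_nonneg _))
  gcongr
  exact norm_sum_le _ _

lemma M_shells {Y J : ℕ} (hJ : Y < 2 ^ J) (b : ℤ × ℤ → ℝ) (t : ℝ) :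
    M (B0 Y) b t ≤ (J:ℝ) ^ 3 * ∑ j ∈ Finset.range J, M (sh Y j) b t := by
  rw [← int_S_four]
  have e : (J:ℝ) ^ 3 * ∑ j ∈ Finset.range J, M (sh Y j) b t =
      ∫ a in Q, (J:ℝ) ^ 3 * ∑ j ∈ Finset.range J, ‖S (sh Y j) b a t‖ ^ 4 := by
    rw [integral_const_mul, integral_finsetSum _ (fun j _ => integrable_S_four (sh Y j) b t)]
    congr 1
    apply Finset.sum_congr rfl
    intro j _
    rw [int_S_four]
  rw [e]
  apply integral_mono (integrable_S_four _ b t)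
  · exact (integrable_finsetSum _ (fun j _ => integrable_S_four (sh Y j) b t)).const_mul _
  · intro a
    exact S_four_shells hJ b a t

/-- sup bound by shells -/
lemma S_four_shells' {Y J : ℕ} (hJ : Y < 2 ^ J) (b : ℤ × ℤ → ℝ) (a : ℝ × ℝ) (t : ℝ) :
    ‖S (B0 Y) b a t‖ ^ 4 ≤ (J:ℝ) ^ 3 * ∑ j ∈ Finset.range J, 100 * 4 ^ j * M (sh Y j) b t := by
  refine (S_four_shells hJ b a t).trans ?_
  gcongr with j hj
  refine (S_four_le _ _ _ _).trans ?_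
  have := M_nonneg (sh Y j) b t
  gcongr
  exact card_sm_sh Y j

/-- bound for the energies of the boxes, at the natural scale -/
def HB (β : ℝ) : Prop := ∃ C : ℝ, 0 < C ∧ ∀ K : ℕ, 1 ≤ K → En (box K) K ≤ C * (K:ℝ) ^ β

lemma HB_mul {β : ℝ} (h : HB β) : ∃ C : ℝ, 0 < C ∧ ∀ (K : ℕ) (T : ℝ), 1 ≤ K → 0 < T →
    T * En (box K) T ≤ C * ((T + K) * (K:ℝ) ^ β) := by
  obtain ⟨C, hC, h⟩ := h
  refine ⟨C, hC, ?_⟩
  intro K T hK hT
  have hK' : (1:ℝ) ≤ K := by exact_mod_cast hK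
  have h1 := h K hK
  have h0 := En_nonneg (box K) T
  rcases le_total (K:ℝ) T with h2 | h2
  · have h3 := En_anti (box K) (by positivity) h2
    calc T * En (box K) T ≤ T * (C * (K:ℝ) ^ β) := by gcongr; exact h3.trans h1
      _ = C * (T * (K:ℝ) ^ β) := by ring
      _ ≤ _ := by gcongr; linarith
  · have h3 := En_le_mul (box K) hT h2
    calc T * En (box K) T ≤ K * (C * (K:ℝ) ^ β) := h3.trans (by gcongr)
      _ = C * (K * (K:ℝ) ^ β) := by ring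
      _ ≤ _ := by gcongr; linarith

/-- trivial bound -/
lemma HB_six : HB 6 := by
  refine ⟨27 ^ 2, by norm_num, ?_⟩
  intro K hK
  have hK' : (1:ℝ) ≤ K := by exact_mod_cast hK
  have h1 : En (box K) K ≤ ((PP (box K)).card : ℝ) := by
    unfold En
    refine (Finset.sum_le_card_nsmul _ _ 1 ?_).trans (le_of_eq (by simp))
    intro x _
    rw [Real.exp_le_one_iff]
    have := Real.pi_pos
    have : 0 ≤ Real.pi * (K:ℝ) ^ 2 * (E2 x.1 - E2 x.2) ^ 2 := by positivity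
    linarith
  have h2 : (PP (box K)).card ≤ (((box K) ×ˢ (box K)) ×ˢ (box K)).card := by
    apply Finset.card_le_card_of_injOn (fun x => (x.1, x.2.1))
    · intro x hx
      have hx' : x ∈ PP (box K) := hx
      simp only [PP, Finset.mem_filter, Finset.mem_product] at hx'
      simp only [Finset.coe_product, Set.mem_prod, Finset.mem_coe]
      exact ⟨hx'.1.1, hx'.1.2.1⟩
    · intro x hx y hy hxy
      have hx' : x ∈ PP (box K) := hx
      have hy' : y ∈ PP (box K) := hy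
      simp only [PP, Finset.mem_filter, Finset.mem_product] at hx' hy'
      simp only [Prod.mk.injEq] at hxy
      have h3 : x.2.2 = x.1.1 + x.1.2 - x.2.1 := by rw [hx'.2]; abel
      have h4 : y.2.2 = y.1.1 + y.1.2 - y.2.1 := by rw [hy'.2]; abel
      have h5 : x.2.2 = y.2.2 := by rw [h3, h4, hxy.1, hxy.2]
      exact Prod.ext hxy.1 (Prod.ext hxy.2 h5)
  rw [Finset.card_product, Finset.card_product, card_box] at h2
  have h3 : ((PP (box K)).card : ℝ) ≤ (((2 * K + 1) ^ 2 * (2 * K + 1) ^ 2 * (2 * K + 1) ^ 2 : ℕ) : ℝ) := by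
    exact_mod_cast h2
  refine h1.trans (h3.trans ?_)
  push_cast
  have h4 : (2 * (K:ℝ) + 1) ≤ 3 * K := by linarith
  have h5 : (K:ℝ) ^ (6:ℝ) = (K:ℝ) ^ 6 := by
    rw [show (6:ℝ) = ((6:ℕ):ℝ) by norm_num, Real.rpow_natCast]
  rw [h5]
  calc (2 * (K:ℝ) + 1) ^ 2 * (2 * (K:ℝ) + 1) ^ 2 * (2 * (K:ℝ) + 1) ^ 2 = (2 * (K:ℝ) + 1) ^ 6 := by ring
    _ ≤ (3 * (K:ℝ)) ^ 6 := by gcongr
    _ = _ := by ring

/-- the Gaussian mean of a shell -/
lemma gauss_shell {β : ℝ} (h : HB β) : ∃ C : ℝ, 0 < C ∧ ∀ (Y j : ℕ) (b : ℤ × ℤ → ℝ) (c X T : ℝ), 0 < T →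
    (∀ p ∈ sh Y j, |b p| ≤ c) →
    ∫ t : ℝ, Real.exp (-(Real.pi * (t - X) ^ 2 / T ^ 2)) * M (sh Y j) b t ≤
      C * (c ^ 4 * ((T + 2 ^ j) * ((2:ℝ) ^ j) ^ β)) := by
  obtain ⟨C, hC, h⟩ := HB_mul h
  refine ⟨C * (2 * 2 ^ β), by positivity, ?_⟩
  intro Y j b c X T hT hb
  refine (gauss_M_le hT X (sh Y j) b hb).trans ?_
  have h1 := En_mono (sh_sub_box Y j) T
  have h2 := h (2 ^ (j+1)) T Nat.one_le_two_pow hT
  push_cast at h2
  calc T * c ^ 4 * En (sh Y j) T ≤ T * c ^ 4 * En (box (2 ^ (j+1))) T := by gcongr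
    _ = c ^ 4 * (T * En (box (2 ^ (j+1))) T) := by ring
    _ ≤ c ^ 4 * (C * ((T + 2 ^ (j+1)) * ((2:ℝ) ^ (j+1)) ^ β)) := by gcongr
    _ = c ^ 4 * (C * ((T + 2 ^ j * 2) * (((2:ℝ) ^ j) ^ β * 2 ^ β))) := by
        rw [show (2:ℝ) ^ (j+1) = 2 ^ j * 2 from pow_succ 2 j, Real.mul_rpow (by positivity) (by norm_num)]
    _ ≤ c ^ 4 * (C * (((T + 2 ^ j) * 2) * (((2:ℝ) ^ j) ^ β * 2 ^ β))) := by
        gcongr; linarith
    _ = _ := by ring

end Pool.Agent.H593.U
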