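import Mathlib
import Pool.Agent.H593.U.VS

/-!
# Lattice points in annuli with variable centre: basic measure theory
-/

open MeasureTheory Set Filter Topology
open Pool.Agent.H383.Gauss
open scoped ENNReal

namespace Pool.Agent.H593.U

/-- cast of a lattice point to the plane -/
def zc (q : ℤ × ℤ) : ℝ × ℝ := ((q.1:ℝ), (q.2:ℝ))

lemma zc_add (p q : ℤ × ℤ) : zc (p + q) = zc p + zc q := by
  unfold zc; ext <;> simp

lemma lint_shift (g : ℝ × ℝ → ℝ≥0∞) (q : ℤ × ℤ) :
    ∫⁻ a in Q, g (a - zc q) = ∫⁻ a, ((fun x => x + zc q) ⁻¹' Q).indicator g a := by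
  rw [← lintegral_indicator measurableSet_Q]
  rw [← lintegral_add_right_eq_self (fun a => Q.indicator (fun x => g (x - zc q)) a) (zc q)]
  congr 1
  ext a
  simp only [Set.indicator, add_sub_cancel_right]
  rfl

lemma mem_Q_iff (a : ℝ × ℝ) (q : ℤ × ℤ) : a + zc q ∈ Q ↔ q = (-⌊a.1⌋, -⌊a.2⌋) := by
  unfold Q zc
  rw [Set.mem_prod]
  simp only [Prod.fst_add, Prod.snd_add, Set.mem_Ico]
  have key : ∀ (x : ℝ) (n : ℤ), (0 ≤ x + n ∧ x + n < 1) ↔ n = -⌊x⌋ := by
    intro x n
    rw [← Int.floor_eq_zero_iff.trans (Set.mem_Ico) , Int.floor_add_intCast]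
    omega
  rw [key, key]
  constructor
  · rintro ⟨h1, h2⟩; exact Prod.ext h1 h2
  · intro h; rw [h]; exact ⟨rfl, rfl⟩

/-- unfolding an integral over the unit square -/
theorem unfold_Q {g : ℝ × ℝ → ℝ≥0∞} (hg : Measurable g) :
    ∫⁻ a in Q, ∑' q : ℤ × ℤ, g (a - zc q) = ∫⁻ a, g a := by
  rw [lintegral_tsum]
  swap
  · intro q
    exact (hg.comp (measurable_id.sub_const _)).aemeasurable
  simp_rw [lint_shift]
  rw [← lintegral_tsum]
  swap
  · intro q
    apply Measurable.aemeasurable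
    apply hg.indicator
    exact measurableSet_Q.preimage (measurable_id.add_const _)
  congr 1
  ext a
  rw [tsum_eq_single (-⌊a.1⌋, -⌊a.2⌋)]
  · rw [Set.indicator_of_mem]
    exact (mem_Q_iff a _).mpr rfl
  · intro q hq
    rw [Set.indicator_of_notMem]
    intro h
    exact hq ((mem_Q_iff a q).mp h)

/-- squared norm in the plane -/
def sqn (a : ℝ × ℝ) : ℝ := a.1 ^ 2 + a.2 ^ 2

lemma sqn_nonneg (a : ℝ × ℝ) : 0 ≤ sqn a := by unfold sqn; positivity

lemma continuous_sqn : Continuous sqn := by unfold sqn; fun_prop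

lemma ofReal_pi : ENNReal.ofReal Real.pi = (NNReal.pi : ℝ≥0∞) := by
  rw [ENNReal.ofReal, ← NNReal.coe_real_pi, Real.toNNReal_coe]

lemma vol_open {w : ℝ} (hw : 0 ≤ w) : volume {a : ℝ × ℝ | sqn a < w} = ENNReal.ofReal (Real.pi * w) := by
  have h1 : MeasurePreserving (Complex.measurableEquivRealProd) := Complex.volume_preserving_equiv_real_prod
  have hms : MeasurableSet {a : ℝ × ℝ | sqn a < w} :=
    (isOpen_lt continuous_sqn continuous_const).measurableSet
  rw [← h1.measure_preimage hms.nullMeasurableSet]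
  have e : (Complex.measurableEquivRealProd) ⁻¹' {a : ℝ × ℝ | sqn a < w} = Metric.ball (0:ℂ) (√w) := by
    ext z
    simp only [Set.mem_preimage, Set.mem_ofPred_eq, Metric.mem_ball, dist_zero_right]
    have : sqn (Complex.measurableEquivRealProd z) = ‖z‖ ^ 2 := by
      rw [Complex.sq_norm, Complex.normSq_apply]
      unfold sqn
      simp only [Complex.measurableEquivRealProd_apply]
      ring
    rw [this, Real.lt_sqrt (norm_nonneg _)]
  rw [e, Complex.volume_ball]
  rw [ENNReal.ofReal_mul Real.pi_pos.le, ← ENNReal.ofReal_pow (Real.sqrt_nonneg _), Real.sq_sqrt hw, mul_comm,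
    ofReal_pi]

lemma vol_closed {w : ℝ} (hw : 0 ≤ w) : volume {a : ℝ × ℝ | sqn a ≤ w} = ENNReal.ofReal (Real.pi * w) := by
  have h1 : MeasurePreserving (Complex.measurableEquivRealProd) := Complex.volume_preserving_equiv_real_prod
  have hms : MeasurableSet {a : ℝ × ℝ | sqn a ≤ w} :=
    (isClosed_le continuous_sqn continuous_const).measurableSet
  rw [← h1.measure_preimage hms.nullMeasurableSet]
  have e : (Complex.measurableEquivRealProd) ⁻¹' {a : ℝ × ℝ | sqn a ≤ w} = Metric.closedBall (0:ℂ) (√w) := by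
    ext z
    simp only [Set.mem_preimage, Set.mem_ofPred_eq, Metric.mem_closedBall, dist_zero_right]
    have : sqn (Complex.measurableEquivRealProd z) = ‖z‖ ^ 2 := by
      rw [Complex.sq_norm, Complex.normSq_apply]
      unfold sqn
      simp only [Complex.measurableEquivRealProd_apply]
      ring
    rw [this, Real.le_sqrt (norm_nonneg _) hw]
  rw [e, Complex.volume_closedBall]
  rw [ENNReal.ofReal_mul Real.pi_pos.le, ← ENNReal.ofReal_pow (Real.sqrt_nonneg _), Real.sq_sqrt hw, mul_comm,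
    ofReal_pi]

lemma vol_ann (v s : ℝ) (hs : 0 ≤ s) :
    volume {a : ℝ × ℝ | |sqn a - v| ≤ s} ≤ ENNReal.ofReal (2 * Real.pi * s) := by
  have hpi := Real.pi_pos
  rcases lt_or_ge (v + s) 0 with h | h
  · have : {a : ℝ × ℝ | |sqn a - v| ≤ s} = ∅ := by
      ext a
      simp only [Set.mem_ofPred_eq, Set.mem_empty_iff_false, iff_false, not_le]
      have := sqn_nonneg a
      have := le_abs_self (sqn a - v)
      linarith
    rw [this]; simp
  rcases le_or_gt (v - s) 0 with h2 | h2
  · have : {a : ℝ × ℝ | |sqn a - v| ≤ s} ⊆ {a : ℝ × ℝ | sqn a ≤ v + s} := by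
      intro a ha
      simp only [Set.mem_ofPred_eq] at ha ⊢
      rw [abs_le] at ha
      linarith [ha.2]
    refine (measure_mono this).trans ?_
    rw [vol_closed h]
    apply ENNReal.ofReal_le_ofReal
    nlinarith
  · have hsub : {a : ℝ × ℝ | sqn a < v - s} ⊆ {a : ℝ × ℝ | sqn a ≤ v + s} := by
      intro a ha
      simp only [Set.mem_ofPred_eq] at ha ⊢
      linarith
    have hms : MeasurableSet {a : ℝ × ℝ | sqn a < v - s} :=
      (isOpen_lt continuous_sqn continuous_const).measurableSet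
    have : {a : ℝ × ℝ | |sqn a - v| ≤ s} ⊆ {a : ℝ × ℝ | sqn a ≤ v + s} \ {a : ℝ × ℝ | sqn a < v - s} := by
      intro a ha
      simp only [Set.mem_ofPred_eq, Set.mem_sdiff, not_lt] at ha ⊢
      rw [abs_le] at ha
      constructor
      · linarith [ha.2]
      · linarith [ha.1]
    refine (measure_mono this).trans ?_
    rw [measure_sdiff hsub hms.nullMeasurableSet (by rw [vol_open h2.le]; exact ENNReal.ofReal_ne_top),
      vol_closed h, vol_open h2.le, ← ENNReal.ofReal_sub _ (by positivity)]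
    apply ENNReal.ofReal_le_ofReal
    nlinarith

/-- indicator that the lattice point `p` is in the annulus of centre `a` -/
noncomputable def chi (p : ℤ × ℤ) (a : ℝ × ℝ) (v s : ℝ) : ℝ≥0∞ :=
  ({x : (ℝ × ℝ) × ℝ | |d2 p x.1 - x.2| ≤ s}).indicator (fun _ => 1) (a, v)

lemma chi_one {p : ℤ × ℤ} {a : ℝ × ℝ} {v s : ℝ} (h : |d2 p a - v| ≤ s) : chi p a v s = 1 := by
  unfold chi
  exact Set.indicator_of_mem (by exact h) _

lemma chi_nil {p : ℤ × ℤ} {a : ℝ × ℝ} {v s : ℝ} (h : ¬ |d2 p a - v| ≤ s) : chi p a v s = 0 := by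
  unfold chi
  exact Set.indicator_of_notMem (by exact h) _

lemma continuous_d2 (p : ℤ × ℤ) : Continuous (d2 p) := by unfold d2; fun_prop

lemma measurable_chi (p : ℤ × ℤ) (s : ℝ) :
    Measurable (fun x : (ℝ × ℝ) × ℝ => chi p x.1 x.2 s) := by
  unfold chi
  refine Measurable.indicator measurable_const ?_
  apply measurableSet_le _ measurable_const
  have := continuous_d2 p
  apply Continuous.measurable
  fun_prop

/-- number of lattice points in the annulus of centre `a`, squared radii `v - s`, `v + s` -/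
noncomputable def nn (a : ℝ × ℝ) (v s : ℝ) : ℝ≥0∞ := ∑' p : ℤ × ℤ, chi p a v s

lemma measurable_nn (s : ℝ) : Measurable (fun x : (ℝ × ℝ) × ℝ => nn x.1 x.2 s) := by
  unfold nn
  exact Measurable.tsum (fun p => measurable_chi p s)

lemma measurable_mk (v : ℝ) : Measurable (fun a : ℝ × ℝ => (a, v)) :=
  measurable_id.prodMk measurable_const

lemma measurable_nn_left (v s : ℝ) : Measurable (fun a : ℝ × ℝ => nn a v s) := by
  have h := (measurable_nn s).comp (measurable_mk v)
  exact h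

lemma measurable_chi_left (p : ℤ × ℤ) (v s : ℝ) : Measurable (fun a : ℝ × ℝ => chi p a v s) := by
  have h := (measurable_chi p s).comp (measurable_mk v)
  exact h

lemma chi_mono (p : ℤ × ℤ) (a : ℝ × ℝ) (v : ℝ) {s s' : ℝ} (h : s ≤ s') : chi p a v s ≤ chi p a v s' := by
  by_cases h1 : |d2 p a - v| ≤ s
  · rw [chi_one h1, chi_one (h1.trans h)]
  · rw [chi_nil h1]; exact zero_le

lemma nn_mono (a : ℝ × ℝ) (v : ℝ) {s s' : ℝ} (h : s ≤ s') : nn a v s ≤ nn a v s' :=
  ENNReal.tsum_le_tsum (fun p => chi_mono p a v h)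

lemma chi_shift (p q : ℤ × ℤ) (a : ℝ × ℝ) (v s : ℝ) : chi (q + p) a v s = chi p (a - zc q) v s := by
  have h0 : d2 (q + p) a = d2 p (a - zc q) := by
    unfold d2 zc; simp only [Prod.fst_add, Prod.snd_add, Prod.fst_sub, Prod.snd_sub]; push_cast; ring
  by_cases h1 : |d2 (q + p) a - v| ≤ s
  · rw [chi_one h1, chi_one (by rw [← h0]; exact h1)]
  · rw [chi_nil h1, chi_nil (by rw [← h0]; exact h1)]

lemma d2_zero (a : ℝ × ℝ) : d2 0 a = sqn a := by unfold d2 sqn; simp

/-- the mean number of lattice points -/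
lemma int_nn (v s : ℝ) (hs : 0 ≤ s) : ∫⁻ a in Q, nn a v s ≤ ENNReal.ofReal (2 * Real.pi * s) := by
  have e : ∀ a, nn a v s = ∑' q : ℤ × ℤ, chi 0 (a - zc q) v s := by
    intro a
    unfold nn
    congr 1
    ext q
    rw [← chi_shift, add_zero]
  simp_rw [e]
  rw [unfold_Q (g := fun a => chi 0 a v s) (measurable_chi_left 0 v s)]
  have e2 : ∀ a, chi 0 a v s = ({a : ℝ × ℝ | |sqn a - v| ≤ s}).indicator (fun _ => 1) a := by
    intro a
    by_cases h1 : |d2 0 a - v| ≤ s
    · rw [chi_one h1, Set.indicator_of_mem (by rw [d2_zero] at h1; exact h1)]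
    · rw [chi_nil h1, Set.indicator_of_notMem (by rw [d2_zero] at h1; exact h1)]
  simp_rw [e2]
  rw [lintegral_indicator, setLIntegral_const, one_mul]
  · exact vol_ann v s hs
  · apply measurableSet_le _ measurable_const
    have := continuous_sqn
    apply Continuous.measurable
    fun_prop

/-- the finite set of lattice points in the annulus -/
noncomputable def annF (a : ℝ × ℝ) (v s : ℝ) : Finset (ℤ × ℤ) :=
  (ballA a (√(v + s))).filter (fun p => |d2 p a - v| ≤ s)

lemma mem_annF (a : ℝ × ℝ) (v s : ℝ) (p : ℤ × ℤ) : p ∈ annF a v s ↔ |d2 p a - v| ≤ s := by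
  unfold annF
  rw [Finset.mem_filter, mem_ballA (Real.sqrt_nonneg _), and_iff_right_iff_imp]
  intro h
  unfold da
  apply Real.sqrt_le_sqrt
  rw [abs_le] at h
  linarith [h.2]

lemma nn_eq (a : ℝ × ℝ) (v s : ℝ) : nn a v s = ((annF a v s).card : ℝ≥0∞) := by
  unfold nn
  rw [tsum_eq_sum (s := annF a v s)]
  · rw [Finset.sum_congr rfl (g := fun _ => 1)]
    · simp
    · intro p hp
      rw [mem_annF] at hp
      exact chi_one hp
  · intro p hp
    rw [mem_annF] at hp
    exact chi_nil hp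

/-- the fourth moment -/
noncomputable def MM (lo hi s : ℝ) : ℝ≥0∞ := ∫⁻ v in Icc lo hi, ∫⁻ a in Q, nn a v s ^ 4

lemma MM_mono {lo hi s lo' hi' s' : ℝ} (h1 : lo' ≤ lo) (h2 : hi ≤ hi') (h3 : s ≤ s') :
    MM lo hi s ≤ MM lo' hi' s' := by
  unfold MM
  refine (lintegral_mono_set (Icc_subset_Icc h1 h2)).trans ?_
  gcongr with v a
  exact nn_mono a v h3

end Pool.Agent.H593.U
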