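import Mathlib
import Pool.Agent.H593.U.Ann

/-!
# Scalar integral identities
-/

open MeasureTheory Set Filter Topology
open Pool.Agent.H383.Gauss

namespace Pool.Agent.H593.U

/-- the substitution `x = w - m / w` -/
lemma cs_sub {m : ℝ} (hm : 0 < m) {f : ℝ → ℂ} (hf : Integrable f) (hfc : Continuous f)
    (heven : ∀ x, f (-x) = f x) :
    IntegrableOn (fun w => f (w - m / w)) (Ioi 0) ∧ ∫ x, f x = 2 * ∫ w in Ioi (0:ℝ), f (w - m / w) := by
  set φ : ℝ → ℝ := fun w => w - m / w with hφ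
  have hder : ∀ w ∈ Ioi (0:ℝ), HasDerivWithinAt φ (1 + m / w ^ 2) (Ioi 0) w := by
    intro w hw
    have hw0 : w ≠ 0 := (mem_Ioi.mp hw).ne'
    have h1 := (hasDerivAt_id w).sub ((hasDerivAt_inv hw0).const_mul m)
    have h2 : HasDerivAt φ (1 + m / w ^ 2) w := by
      refine HasDerivAt.congr_deriv (HasDerivAt.congr_of_eventuallyEq h1 ?_) ?_
      · exact Eventually.of_forall fun x => by simp [hφ, div_eq_mul_inv]
      · field_simp; ring
    exact h2.hasDerivWithinAt
  have hinj : InjOn φ (Ioi 0) := by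
    intro x hx y hy hxy
    rw [mem_Ioi] at hx hy
    simp only [hφ] at hxy
    have h1 : (x - y) * (x * y + m) = 0 := by
      field_simp at hxy
      linear_combination hxy
    rcases mul_eq_zero.mp h1 with h | h
    · linarith
    · have : 0 < x * y + m := by positivity
      linarith
  have himg : φ '' (Ioi 0) = univ := by
    ext x
    simp only [mem_univ, iff_true]
    have h4 : 0 < x ^ 2 + 4 * m := by positivity
    have h5 : √(x ^ 2 + 4 * m) ^ 2 = x ^ 2 + 4 * m := Real.sq_sqrt h4.le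
    have h6 : |x| < √(x ^ 2 + 4 * m) := by
      apply Real.lt_sqrt_of_sq_lt
      rw [sq_abs]; linarith
    have h7 := neg_abs_le x
    refine ⟨(x + √(x ^ 2 + 4 * m)) / 2, ?_, ?_⟩
    · rw [mem_Ioi]; linarith
    · simp only [hφ]
      have h8 : (x + √(x ^ 2 + 4 * m)) ≠ 0 := by
        have : 0 < x + √(x ^ 2 + 4 * m) := by linarith
        exact this.ne'
      field_simp
      linear_combination h5
  have h1 := integral_image_eq_integral_abs_deriv_smul measurableSet_Ioi hder hinj f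
  have h2 := integrableOn_image_iff_integrableOn_abs_deriv_smul measurableSet_Ioi hder hinj f
  rw [himg] at h1 h2
  rw [setIntegral_univ] at h1
  rw [integrableOn_univ] at h2
  have h3 := h2.mp hf
  have hcont : ContinuousOn (fun w => f (φ w)) (Ioi 0) := by
    apply hfc.comp_continuousOn
    apply ContinuousOn.sub continuousOn_id
    apply ContinuousOn.div continuousOn_const continuousOn_id
    intro x hx
    exact (mem_Ioi.mp hx).ne'
  have hI : IntegrableOn (fun w => f (φ w)) (Ioi 0) := by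
    refine Integrable.mono h3 (hcont.aestronglyMeasurable measurableSet_Ioi) ?_
    rw [ae_restrict_iff' measurableSet_Ioi]
    refine Eventually.of_forall fun w hw => ?_
    rw [norm_smul, Real.norm_eq_abs, abs_abs]
    rw [mem_Ioi] at hw
    have : 1 ≤ |1 + m / w ^ 2| := by
      rw [abs_of_nonneg (by positivity)]
      have : 0 ≤ m / w ^ 2 := by positivity
      linarith
    nlinarith [norm_nonneg (f (φ w))]
  refine ⟨hI, ?_⟩
  -- second substitution
  have hder2 : ∀ w ∈ Ioi (0:ℝ), HasDerivWithinAt (fun w => m / w) (-(m / w ^ 2)) (Ioi 0) w := by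
    intro w hw
    have hw0 : w ≠ 0 := (mem_Ioi.mp hw).ne'
    have h1 := (hasDerivAt_inv hw0).const_mul m
    have h2 : HasDerivAt (fun w => m / w) (-(m / w ^ 2)) w := by
      refine HasDerivAt.congr_deriv (HasDerivAt.congr_of_eventuallyEq h1 ?_) ?_
      · exact Eventually.of_forall fun x => by simp [div_eq_mul_inv]
      · field_simp
    exact h2.hasDerivWithinAt
  have hinj2 : InjOn (fun w : ℝ => m / w) (Ioi 0) := by
    intro x hx y hy hxy
    rw [mem_Ioi] at hx hy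
    simp only at hxy
    field_simp at hxy
    linarith
  have himg2 : (fun w : ℝ => m / w) '' (Ioi 0) = Ioi 0 := by
    ext x
    constructor
    · rintro ⟨w, hw, rfl⟩
      rw [mem_Ioi] at hw ⊢; positivity
    · intro hx
      rw [mem_Ioi] at hx
      refine ⟨m / x, by rw [mem_Ioi]; positivity, ?_⟩
      simp only
      field_simp
  have h4 := integral_image_eq_integral_abs_deriv_smul measurableSet_Ioi hder2 hinj2 (fun w => f (φ w))
  rw [himg2] at h4
  have h5 : ∫ w in Ioi (0:ℝ), |-(m / w ^ 2)| • f (φ (m / w)) = ∫ w in Ioi (0:ℝ), (m / w ^ 2) • f (φ w) := by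
    apply setIntegral_congr_fun measurableSet_Ioi
    intro w hw
    rw [mem_Ioi] at hw
    simp only
    rw [abs_neg, abs_of_nonneg (by positivity)]
    have : φ (m / w) = -φ w := by
      simp only [hφ]; field_simp; ring
    rw [this, heven]
  rw [h5] at h4
  have h6 : ∫ w in Ioi (0:ℝ), |1 + m / w ^ 2| • f (φ w) =
      ∫ w in Ioi (0:ℝ), (f (φ w) + (m / w ^ 2) • f (φ w)) := by
    apply setIntegral_congr_fun measurableSet_Ioi
    intro w hw
    rw [mem_Ioi] at hw
    simp only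
    rw [abs_of_nonneg (by positivity), add_smul, one_smul]
  have hI2 : IntegrableOn (fun w => (m / w ^ 2) • f (φ w)) (Ioi 0) := by
    have h7 : IntegrableOn (fun w => |1 + m / w ^ 2| • f (φ w) - f (φ w)) (Ioi 0) := h3.sub hI
    refine h7.congr_fun ?_ measurableSet_Ioi
    intro w hw
    rw [mem_Ioi] at hw
    simp only
    rw [abs_of_nonneg (by positivity), add_smul, one_smul]
    ring
  rw [h1, h6, integral_add hI hI2, ← h4]
  ring

open Complex in
lemma gauss_split {ζ : ℂ} {m w : ℝ} (hw : w ≠ 0) :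
    cexp (-(Real.pi * ζ * (w ^ 2 + m ^ 2 / w ^ 2))) =
      cexp (-(2 * Real.pi * ζ * m)) * cexp (-(Real.pi * ζ) * ((w - m / w : ℝ) : ℂ) ^ 2) := by
  rw [← Complex.exp_add]
  congr 1
  have : (w:ℂ) ≠ 0 := by exact_mod_cast hw
  push_cast
  field_simp
  ring

open Complex in
/-- the subordination identity -/
theorem K1 {ζ : ℂ} (hζ : 0 < ζ.re) {m : ℝ} (hm : 0 ≤ m) :
    IntegrableOn (fun w : ℝ => cexp (-(Real.pi * ζ * (w ^ 2 + m ^ 2 / w ^ 2)))) (Ioi 0) ∧
    ∫ w in Ioi (0:ℝ), cexp (-(Real.pi * ζ * (w ^ 2 + m ^ 2 / w ^ 2))) =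
      (1 / ζ) ^ (1 / 2 : ℂ) / 2 * cexp (-(2 * Real.pi * ζ * m)) := by
  have hpi : (Real.pi : ℂ) ≠ 0 := by exact_mod_cast Real.pi_pos.ne'
  have hζ0 : ζ ≠ 0 := by intro h; rw [h] at hζ; simp at hζ
  have hb : 0 < (Real.pi * ζ).re := by
    rw [Complex.re_ofReal_mul]; exact mul_pos Real.pi_pos hζ
  have e1 : (Real.pi : ℂ) / (Real.pi * ζ) = 1 / ζ := by field_simp
  rcases hm.eq_or_lt with h | h
  · subst h
    have e2 : ∀ w : ℝ, cexp (-(Real.pi * ζ * (w ^ 2 + ((0:ℝ):ℂ) ^ 2 / w ^ 2))) = cexp (-(Real.pi * ζ) * (w:ℂ) ^ 2) := by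
      intro w; congr 1; push_cast; ring
    simp_rw [e2]
    refine ⟨(integrable_cexp_neg_mul_sq hb).integrableOn, ?_⟩
    rw [integral_gaussian_complex_Ioi hb, e1]
    simp
  · have h1 := cs_sub h (f := fun x => cexp (-(Real.pi * ζ) * (x:ℂ) ^ 2)) (integrable_cexp_neg_mul_sq hb)
      (by fun_prop) (by intro x; congr 1; push_cast; ring)
    have e3 : ∀ w ∈ Ioi (0:ℝ), cexp (-(2 * Real.pi * ζ * m)) * cexp (-(Real.pi * ζ) * ((w - m / w : ℝ) : ℂ) ^ 2) =
        cexp (-(Real.pi * ζ * (w ^ 2 + m ^ 2 / w ^ 2))) := by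
      intro w hw
      exact (gauss_split (mem_Ioi.mp hw).ne').symm
    have h2 : IntegrableOn (fun w : ℝ => cexp (-(2 * Real.pi * ζ * m)) *
        cexp (-(Real.pi * ζ) * ((w - m / w : ℝ) : ℂ) ^ 2)) (Ioi 0) := h1.1.const_mul _
    refine ⟨h2.congr_fun e3 measurableSet_Ioi, ?_⟩
    rw [← setIntegral_congr_fun measurableSet_Ioi e3, integral_const_mul]
    have h3 := h1.2
    rw [integral_gaussian_complex hb, e1] at h3
    rw [h3]; ring

lemma tendsto_mul_gauss {β : ℂ} (hβ : 0 < β.re) :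
    Tendsto (fun w : ℝ => (w:ℂ) * Complex.exp (-β * (w:ℂ) ^ 2)) atTop (𝓝 0) := by
  rw [tendsto_zero_iff_norm_tendsto_zero]
  have h1 : ∀ w : ℝ, ‖(w:ℂ) * Complex.exp (-β * (w:ℂ) ^ 2)‖ = |w| * Real.exp (-β.re * w ^ 2) := by
    intro w
    rw [norm_mul, Complex.norm_real, Real.norm_eq_abs, norm_cexp_neg_mul_sq]
  simp_rw [h1]
  have h2 : Tendsto (fun w : ℝ => 1 / (β.re * w)) atTop (𝓝 0) := by
    have h3 : Tendsto (fun w : ℝ => β.re * w) atTop atTop := tendsto_id.const_mul_atTop hβ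
    simp only [one_div]
    exact tendsto_inv_atTop_zero.comp h3
  apply squeeze_zero' (Eventually.of_forall fun w => by positivity) _ h2
  filter_upwards [eventually_gt_atTop 0] with w hw
  rw [abs_of_pos hw]
  have h4 : 1 + β.re * w ^ 2 ≤ Real.exp (β.re * w ^ 2) := by
    have := Real.add_one_le_exp (β.re * w ^ 2); linarith
  rw [show -β.re * w ^ 2 = -(β.re * w ^ 2) by ring, Real.exp_neg, ← div_eq_mul_inv,
    div_le_div_iff₀ (Real.exp_pos _) (by positivity)]
  nlinarith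

open Complex in
/-- second moment of the complex Gaussian -/
theorem K0 {β : ℂ} (hβ : 0 < β.re) :
    IntegrableOn (fun w : ℝ => (w:ℂ) ^ 2 * cexp (-β * (w:ℂ) ^ 2)) (Ioi 0) ∧
    ∫ w in Ioi (0:ℝ), (w:ℂ) ^ 2 * cexp (-β * (w:ℂ) ^ 2) = 1 / (2 * β) * ((Real.pi / β) ^ (1 / 2 : ℂ) / 2) := by
  have hβ0 : β ≠ 0 := by intro h; rw [h] at hβ; simp at hβ
  have hI0 : IntegrableOn (fun w : ℝ => cexp (-β * (w:ℂ) ^ 2)) (Ioi 0) :=
    (integrable_cexp_neg_mul_sq hβ).integrableOn
  have hI : IntegrableOn (fun w : ℝ => (w:ℂ) ^ 2 * cexp (-β * (w:ℂ) ^ 2)) (Ioi 0) := by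
    have h1 := integrable_rpow_mul_exp_neg_mul_sq hβ (s := 2) (by norm_num)
    refine Integrable.mono' (h1.norm.integrableOn) ?_ ?_
    · apply Continuous.aestronglyMeasurable; fun_prop
    · refine Eventually.of_forall fun w => ?_
      rw [norm_mul, norm_cexp_neg_mul_sq, norm_mul, norm_pow, Complex.norm_real]
      rw [Real.norm_of_nonneg (Real.exp_pos _).le]
      have : ‖w ^ (2:ℝ)‖ = ‖w‖ ^ 2 := by
        rw [show (2:ℝ) = ((2:ℕ):ℝ) by norm_num, Real.rpow_natCast, norm_pow]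
      rw [this]
  refine ⟨hI, ?_⟩
  have hd : ∀ w ∈ Ioi (0:ℝ), HasDerivAt (fun w : ℝ => (w:ℂ) * cexp (-β * (w:ℂ) ^ 2))
      (cexp (-β * (w:ℂ) ^ 2) - (2 * β) * ((w:ℂ) ^ 2 * cexp (-β * (w:ℂ) ^ 2))) w := by
    intro w _
    have h1 : HasDerivAt (fun w : ℝ => (w:ℂ)) 1 w := by
      simpa using (hasDerivAt_id w).ofReal_comp
    have h2 : HasDerivAt (fun w : ℝ => -β * (w:ℂ) ^ 2) (-β * (2 * (w:ℂ))) w := by
      have := (h1.pow 2).const_mul (-β)
      simpa using this
    have h3 := h1.mul h2.cexp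
    convert! h3 using 1
    ring
  have hint : IntegrableOn (fun w : ℝ => cexp (-β * (w:ℂ) ^ 2) - (2 * β) * ((w:ℂ) ^ 2 * cexp (-β * (w:ℂ) ^ 2))) (Ioi 0) :=
    hI0.sub (hI.const_mul _)
  have h := integral_Ioi_of_hasDerivAt_of_tendsto (f := fun w : ℝ => (w:ℂ) * cexp (-β * (w:ℂ) ^ 2)) (a := 0)
    (by apply Continuous.continuousWithinAt; fun_prop) hd hint (tendsto_mul_gauss hβ)
  rw [integral_sub hI0 (hI.const_mul _), integral_const_mul, integral_gaussian_complex_Ioi hβ] at h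
  simp only [Complex.ofReal_zero, zero_mul, sub_zero] at h
  have h5 : (2 * β) * ∫ w in Ioi (0:ℝ), (w:ℂ) ^ 2 * cexp (-β * (w:ℂ) ^ 2) = (Real.pi / β) ^ (1 / 2 : ℂ) / 2 := by
    linear_combination -h
  rw [← h5, ← mul_assoc, one_div, inv_mul_cancel₀ (mul_ne_zero two_ne_zero hβ0), one_mul]

end Pool.Agent.H593.U
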