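import Mathlib
import Pool.Agent.H593.U.Ker1

/-!
# The two-dimensional Poisson kernel at complex height
-/

open MeasureTheory Set Filter Topology
open Pool.Agent.H383.Gauss

namespace Pool.Agent.H593.U

lemma summ_gauss {c : ℝ} (hc : 0 < c) (x : ℝ) : Summable (fun n : ℤ => Real.exp (-c * ((n:ℝ) - x) ^ 2)) := by
  have h1 := (summable_a (s := 2) (by norm_num)).mul_left (Real.exp (c * x ^ 2) * (1 + 2 / c))
  refine Summable.of_nonneg_of_le (fun n => (Real.exp_pos _).le) ?_ h1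
  intro n
  have h2 : Real.exp (-c * ((n:ℝ) - x) ^ 2) ≤ Real.exp (c * x ^ 2) * Real.exp (-(c/2) * (n:ℝ) ^ 2) := by
    rw [← Real.exp_add]
    apply Real.exp_le_exp.mpr
    nlinarith [mul_nonneg hc.le (sq_nonneg ((n:ℝ) - 2 * x))]
  refine h2.trans ?_
  rw [mul_assoc]
  gcongr
  have h3 : (0:ℝ) < 2 / c := by positivity
  by_cases hn : n = 0
  · rw [hn, if_pos rfl]
    have : |((0:ℤ):ℝ)| ^ (-(2:ℝ)) = 0 := by
      simp only [Int.cast_zero, abs_zero]; rw [Real.zero_rpow (by norm_num)]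
    rw [this]
    simp
    exact h3.le
  · rw [if_neg hn, add_zero]
    have hn1 : (1:ℝ) ≤ |(n:ℝ)| := by exact_mod_cast Int.one_le_abs hn
    have hn0 : (0:ℝ) < |(n:ℝ)| := by linarith
    have h4 : |(n:ℝ)| ^ (-(2:ℝ)) = 1 / (n:ℝ) ^ 2 := by
      rw [Real.rpow_neg hn0.le, show (2:ℝ) = ((2:ℕ):ℝ) by norm_num, Real.rpow_natCast, sq_abs, one_div]
    have hn2 : (0:ℝ) < (n:ℝ) ^ 2 := by rw [← sq_abs]; positivity
    rw [h4]
    have h5 : 1 + (c/2) * (n:ℝ) ^ 2 ≤ Real.exp ((c/2) * (n:ℝ) ^ 2) := by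
      have := Real.add_one_le_exp ((c/2) * (n:ℝ) ^ 2); linarith
    calc Real.exp (-(c/2) * (n:ℝ) ^ 2) = 1 / Real.exp ((c/2) * (n:ℝ) ^ 2) := by
          rw [neg_mul, Real.exp_neg, one_div]
      _ ≤ 1 / ((c/2) * (n:ℝ) ^ 2) := by
          apply one_div_le_one_div_of_le (by positivity)
          linarith
      _ = (2/c) * (1 / (n:ℝ) ^ 2) := by field_simp
      _ ≤ (1 + 2/c) * (1 / (n:ℝ) ^ 2) := by
          gcongr; linarith

open Complex in
lemma theta1 {τ : ℂ} (hτ : 0 < τ.re) (x : ℝ) :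
    ∑' n : ℤ, cexp (-(Real.pi * τ * (n:ℂ) ^ 2)) * ex (n * x) =
      1 / τ ^ (1 / 2 : ℂ) * ∑' n : ℤ, cexp (-(Real.pi / τ * ((n:ℂ) - x) ^ 2)) := by
  have h := Complex.tsum_exp_neg_quadratic hτ (I * x)
  have e1 : ∀ n : ℤ, cexp (-(Real.pi * τ * (n:ℂ) ^ 2)) * ex (n * x) =
      cexp (-Real.pi * τ * n ^ 2 + 2 * Real.pi * (I * x) * n) := by
    intro n
    unfold ex
    rw [← Complex.exp_add]
    congr 1
    push_cast; ring
  have e2 : ∀ n : ℤ, cexp (-(Real.pi / τ * ((n:ℂ) - x) ^ 2)) = cexp (-Real.pi / τ * (n + I * (I * x)) ^ 2) := by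
    intro n
    congr 1
    have : I * (I * (x:ℂ)) = -x := by rw [← mul_assoc, I_mul_I]; ring
    rw [this]; ring
  simp_rw [e1, e2]
  exact h

lemma norm_gauss_le (b : ℂ) (x : ℝ) : ‖Complex.exp (-(b * (x:ℂ) ^ 2))‖ = Real.exp (-b.re * x ^ 2) := by
  rw [← norm_cexp_neg_mul_sq, neg_mul]

open Complex in
/-- two-dimensional theta transformation -/
theorem theta2 {τ : ℂ} (hτ : 0 < τ.re) (a : ℝ × ℝ) :
    Summable (fun k : ℤ × ℤ => cexp (-(Real.pi * τ * ((nz k ^ 2 : ℝ) : ℂ))) * ex (dp k a)) ∧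
    ∑' k : ℤ × ℤ, cexp (-(Real.pi * τ * ((nz k ^ 2 : ℝ) : ℂ))) * ex (dp k a) =
      1 / τ * ∑' z : ℤ × ℤ, cexp (-(Real.pi / τ * (d2 z a : ℂ))) := by
  have hτ0 : τ ≠ 0 := by intro h; rw [h] at hτ; simp at hτ
  have hpi := Real.pi_pos
  have hb : 0 < (Real.pi * τ).re := by rw [Complex.re_ofReal_mul]; positivity
  have hb2 : 0 < (Real.pi / τ).re := by
    rw [div_eq_mul_inv, Complex.re_ofReal_mul, Complex.inv_re]
    have : 0 < Complex.normSq τ := Complex.normSq_pos.mpr hτ0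
    positivity
  -- summability
  have s1 : ∀ x : ℝ, Summable (fun n : ℤ => ‖cexp (-(Real.pi * τ * (n:ℂ) ^ 2)) * ex (n * x)‖) := by
    intro x
    have := summ_gauss hb 0
    refine this.congr ?_
    intro n
    rw [norm_mul, norm_ex, mul_one]
    have := norm_gauss_le (Real.pi * τ) n
    push_cast at this
    rw [this, sub_zero]
  have s2 : ∀ x : ℝ, Summable (fun n : ℤ => ‖cexp (-(Real.pi / τ * ((n:ℂ) - x) ^ 2))‖) := by
    intro x
    have := summ_gauss hb2 x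
    refine this.congr ?_
    intro n
    have := norm_gauss_le (Real.pi / τ) ((n:ℝ) - x)
    push_cast at this
    rw [this]
  have m1 := tsum_mul_tsum_of_summable_norm (s1 a.1) (s1 a.2)
  have m2 := tsum_mul_tsum_of_summable_norm (s2 a.1) (s2 a.2)
  have q1 := summable_mul_of_summable_norm (s1 a.1) (s1 a.2)
  have e1 : ∀ k : ℤ × ℤ, cexp (-(Real.pi * τ * (k.1:ℂ) ^ 2)) * ex (k.1 * a.1) *
      (cexp (-(Real.pi * τ * (k.2:ℂ) ^ 2)) * ex (k.2 * a.2)) =
      cexp (-(Real.pi * τ * ((nz k ^ 2 : ℝ) : ℂ))) * ex (dp k a) := by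
    intro k
    unfold dp
    rw [ex_add]
    have : cexp (-(Real.pi * τ * ((nz k ^ 2 : ℝ) : ℂ))) =
        cexp (-(Real.pi * τ * (k.1:ℂ) ^ 2)) * cexp (-(Real.pi * τ * (k.2:ℂ) ^ 2)) := by
      rw [← Complex.exp_add]
      congr 1
      have : nz k ^ 2 = (k.1:ℝ)^2 + (k.2:ℝ)^2 := by unfold nz; rw [Real.sq_sqrt (by positivity)]
      rw [this]; push_cast; ring
    rw [this]; ring
  have e2 : ∀ z : ℤ × ℤ, cexp (-(Real.pi / τ * ((z.1:ℂ) - a.1) ^ 2)) * cexp (-(Real.pi / τ * ((z.2:ℂ) - a.2) ^ 2)) =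
      cexp (-(Real.pi / τ * (d2 z a : ℂ))) := by
    intro z
    rw [← Complex.exp_add]
    congr 1
    unfold d2; push_cast; ring
  simp_rw [e1] at m1 q1
  simp_rw [e2] at m2
  refine ⟨q1, ?_⟩
  rw [← m1, ← m2, theta1 hτ, theta1 hτ]
  have e3 : (1 / τ ^ (1 / 2 : ℂ)) * (1 / τ ^ (1 / 2 : ℂ)) = 1 / τ := by
    have : τ ^ (1 / 2 : ℂ) * τ ^ (1 / 2 : ℂ) = τ := by
      rw [← Complex.cpow_add _ _ hτ0]; norm_num
    rw [div_mul_div_comm, this, one_mul]
  rw [← e3]; ring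

lemma summ_exp {y : ℝ} (hy : 0 < y) : Summable (fun k : ℤ × ℤ => Real.exp (-(2 * Real.pi * y * nz k))) := by
  have hpi := Real.pi_pos
  set c := 2 * Real.pi * y with hc
  have hc0 : 0 < c := by positivity
  have h1 := (summable_nz (s := 3) (by norm_num)).mul_left (6 / c ^ 3)
  have h2 : HasSum (fun p : ℤ × ℤ => if p = 0 then (1:ℝ) else 0) 1 := hasSum_ite_eq 0 _
  refine Summable.of_nonneg_of_le (fun n => (Real.exp_pos _).le) ?_ (h1.add h2.summable)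
  intro k
  by_cases hk : k = 0
  · rw [if_pos hk, if_pos hk, hk, nz_zero]; simp
  · rw [if_neg hk, if_neg hk, add_zero]
    have hn := nz_ge_one hk
    have hn0 : 0 < nz k := by linarith
    have h3 := Real.pow_div_factorial_le_exp (c * nz k) (by positivity) 3
    have h4 : nz k ^ (-(3:ℝ)) = 1 / nz k ^ 3 := by
      rw [Real.rpow_neg hn0.le, show (3:ℝ) = ((3:ℕ):ℝ) by norm_num, Real.rpow_natCast, one_div]
    rw [h4, Real.exp_neg, ← one_div]
    calc 1 / Real.exp (c * nz k) ≤ 1 / ((c * nz k) ^ 3 / (Nat.factorial 3 : ℝ)) := by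
          apply one_div_le_one_div_of_le (by positivity) h3
      _ = _ := by
          rw [show (Nat.factorial 3 : ℝ) = 6 by norm_num [Nat.factorial]]
          field_simp

/-- the lattice sum used for domination -/
lemma one_add_nz_le (z : ℤ × ℤ) (a : ℝ × ℝ) :
    1 + nz z ^ 2 ≤ (2 + 2 * sqn a) * (1 + d2 z a) := by
  have h0 := sqn_nonneg a
  have h1 := d2_nonneg z a
  have h2 : nz z ^ 2 ≤ 2 * d2 z a + 2 * sqn a := by
    have : nz z ^ 2 = (z.1:ℝ)^2 + (z.2:ℝ)^2 := by unfold nz; rw [Real.sq_sqrt (by positivity)]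
    rw [this]; unfold d2 sqn
    nlinarith [sq_nonneg ((z.1:ℝ) - 2 * a.1), sq_nonneg ((z.2:ℝ) - 2 * a.2)]
  nlinarith [mul_nonneg h0 h1]

lemma summ_inv {c : ℝ} (hc : 0 < c) : Summable (fun z : ℤ × ℤ => (c * (1 + nz z ^ 2)) ^ (-(3/2):ℝ)) := by
  have h1 := (summable_nz (s := 3) (by norm_num)).mul_left (c ^ (-(3/2):ℝ))
  have h2 : HasSum (fun p : ℤ × ℤ => if p = 0 then (c ^ (-(3/2):ℝ)) else 0) (c ^ (-(3/2):ℝ)) := hasSum_ite_eq 0 _
  refine Summable.of_nonneg_of_le (fun n => by have := nz_nonneg n; positivity) ?_ (h1.add h2.summable)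
  intro k
  by_cases hk : k = 0
  · rw [if_pos hk, if_pos hk, hk, nz_zero]; simp
  · rw [if_neg hk, if_neg hk, add_zero]
    have hn := nz_ge_one hk
    have hn0 : 0 < nz k := by linarith
    rw [Real.mul_rpow hc.le (by positivity)]
    gcongr
    have h3 : nz k ^ (-(3:ℝ)) = (nz k ^ 2) ^ (-(3/2):ℝ) := by
      rw [← Real.rpow_natCast, ← Real.rpow_mul hn0.le]; norm_num
    rw [h3]
    apply Real.rpow_le_rpow_of_nonpos (by positivity) (by linarith) (by norm_num)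

end Pool.Agent.H593.U
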