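import Mathlib
import Pool.Agent.H593.U.Ker2

/-!
# The kernel bound
-/

open MeasureTheory Set Filter Topology
open Pool.Agent.H383.Gauss

namespace Pool.Agent.H593.U

open Complex in
lemma re_bz {ζ : ℂ} (hζ : 0 < ζ.re) {d : ℝ} (hd : 0 ≤ d) :
    min ζ.re (ζ.re / normSq ζ) * (1 + d) ≤ (ζ + (d:ℂ) / ζ).re := by
  have hζ0 : ζ ≠ 0 := by intro h; rw [h] at hζ; simp at hζ
  have h1 : (ζ + (d:ℂ) / ζ).re = ζ.re + d * (ζ.re / normSq ζ) := by
    rw [add_re, div_eq_mul_inv, re_ofReal_mul, inv_re]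
  rw [h1]
  have h2 := min_le_left ζ.re (ζ.re / normSq ζ)
  have h3 := min_le_right ζ.re (ζ.re / normSq ζ)
  nlinarith

open Complex in
lemma K0_real {b : ℝ} (hb : 0 < b) :
    IntegrableOn (fun w : ℝ => w ^ 2 * Real.exp (-b * w ^ 2)) (Ioi 0) ∧
    ∫ w in Ioi (0:ℝ), w ^ 2 * Real.exp (-b * w ^ 2) ≤ b ^ (-(3/2):ℝ) := by
  have h := K0 (β := (b:ℂ)) (by simpa using hb)
  have e : ∀ w : ℝ, (w:ℂ) ^ 2 * cexp (-(b:ℂ) * (w:ℂ) ^ 2) = ((w ^ 2 * Real.exp (-b * w ^ 2) : ℝ) : ℂ) := by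
    intro w; push_cast; ring_nf
  simp_rw [e] at h
  obtain ⟨h1, h2⟩ := h
  have h3 : IntegrableOn (fun w : ℝ => w ^ 2 * Real.exp (-b * w ^ 2)) (Ioi 0) := by
    have := h1.re
    refine this.congr (Eventually.of_forall fun w => ?_)
    exact Complex.ofReal_re _
  refine ⟨h3, ?_⟩
  rw [integral_complex_ofReal] at h2
  have h4 := congrArg norm h2
  rw [Complex.norm_real, Real.norm_of_nonneg (setIntegral_nonneg measurableSet_Ioi (fun w _ => by positivity))] at h4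
  rw [h4, norm_mul, norm_div, norm_div, norm_mul]
  have e1 : ((1:ℂ)/2) = ((1/2 : ℝ) : ℂ) := by push_cast; rfl
  rw [e1, norm_cpow_real, norm_div, Complex.norm_real, Complex.norm_real, Complex.norm_two, norm_one]
  rw [Real.norm_of_nonneg hb.le, Real.norm_of_nonneg Real.pi_pos.le]
  rw [Real.div_rpow Real.pi_pos.le hb.le, show (-(3/2):ℝ) = -1 + -(1/2) by norm_num, Real.rpow_add hb,
    Real.rpow_neg_one, Real.rpow_neg hb.le]
  have h5 : Real.pi ^ (1/2:ℝ) ≤ 4 := by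
    have : Real.pi ^ (1/2:ℝ) ≤ 4 ^ (1/2:ℝ) := by
      apply Real.rpow_le_rpow Real.pi_pos.le (by linarith [Real.pi_lt_four]) (by norm_num)
    have h6 : (4:ℝ) ^ (1/2:ℝ) ≤ 4 ^ (1:ℝ) := Real.rpow_le_rpow_of_exponent_le (by norm_num) (by norm_num)
    rw [Real.rpow_one] at h6
    linarith
  have h7 : 0 < b ^ (1/2:ℝ) := by positivity
  calc 1 / (2 * b) * (Real.pi ^ (1/2:ℝ) / b ^ (1/2:ℝ) / 2) = (Real.pi ^ (1/2:ℝ) / 4) * (b⁻¹ * (b ^ (1/2:ℝ))⁻¹) := by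
        field_simp; norm_num
    _ ≤ 1 * (b⁻¹ * (b ^ (1/2:ℝ))⁻¹) := by
        gcongr
        linarith
    _ = _ := one_mul _

/-- the second term of the kernel -/
noncomputable def kz (ζ : ℂ) (z : ℤ × ℤ) (a : ℝ × ℝ) : ℝ := ‖ζ ^ 2 + (d2 z a : ℂ)‖ ^ (-(3/2):ℝ)

open Complex in
theorem kernel {ζ : ℂ} (hζ : 0 < ζ.re) (a : ℝ × ℝ) :
    Summable (fun z : ℤ × ℤ => kz ζ z a) ∧
    ‖∑' k : ℤ × ℤ, cexp (-(2 * Real.pi * ζ * nz k)) * ex (dp k a)‖ ≤ ‖ζ‖ * ∑' z : ℤ × ℤ, kz ζ z a := by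
  have hζ0 : ζ ≠ 0 := by intro h; rw [h] at hζ; simp at hζ
  have hζn : 0 < ‖ζ‖ := norm_pos_iff.mpr hζ0
  have hpi := Real.pi_gt_three
  have hpic : (Real.pi : ℂ) ≠ 0 := by exact_mod_cast Real.pi_pos.ne'
  set c := min ζ.re (ζ.re / normSq ζ) with hc
  have hc0 : 0 < c := by
    apply lt_min hζ
    have : 0 < normSq ζ := normSq_pos.mpr hζ0
    positivity
  set c2 := c / (2 + 2 * sqn a) with hc2
  have hsq := sqn_nonneg a
  have hc20 : 0 < c2 := by positivity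
  -- lower bound for the real part
  have hre : ∀ z : ℤ × ℤ, c2 * (1 + nz z ^ 2) ≤ (ζ + (d2 z a : ℂ) / ζ).re := by
    intro z
    refine le_trans ?_ (re_bz hζ (d2_nonneg z a))
    rw [← hc, hc2, div_mul_eq_mul_div, div_le_iff₀ (by positivity)]
    have := one_add_nz_le z a
    nlinarith
  have hre0 : ∀ z : ℤ × ℤ, 0 < c2 * (1 + nz z ^ 2) := by intro z; positivity
  have hβre : ∀ z : ℤ × ℤ, (Real.pi * (ζ + (d2 z a : ℂ) / ζ)).re = Real.pi * (ζ + (d2 z a : ℂ) / ζ).re := by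
    intro z; rw [re_ofReal_mul]
  have hβ : ∀ z : ℤ × ℤ, 0 < (Real.pi * (ζ + (d2 z a : ℂ) / ζ)).re := by
    intro z
    rw [hβre]
    exact mul_pos Real.pi_pos ((hre0 z).trans_le (hre z))
  -- frequency side
  set F : ℤ × ℤ → ℝ → ℂ := fun k w => cexp (-(Real.pi * ζ * (w ^ 2 + (nz k : ℂ) ^ 2 / w ^ 2))) * ex (dp k a) with hF
  have hFint : ∀ k, Integrable (F k) (volume.restrict (Ioi 0)) := by
    intro k
    exact (K1 hζ (nz_nonneg k)).1.mul_const _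
  have hFval : ∀ k, ∫ w in Ioi (0:ℝ), F k w = (1 / ζ) ^ (1 / 2 : ℂ) / 2 * (cexp (-(2 * Real.pi * ζ * nz k)) * ex (dp k a)) := by
    intro k
    simp only [hF]
    rw [integral_mul_const, (K1 hζ (nz_nonneg k)).2]
    ring
  have hFnorm : ∀ k, ∫ w in Ioi (0:ℝ), ‖F k w‖ ≤ ‖(1 / (ζ.re:ℂ)) ^ (1 / 2 : ℂ) / 2‖ * Real.exp (-(2 * Real.pi * ζ.re * nz k)) := by
    intro k
    have e : ∀ w : ℝ, ‖F k w‖ = ‖cexp (-(Real.pi * (ζ.re:ℂ) * (w ^ 2 + (nz k : ℂ) ^ 2 / w ^ 2)))‖ := by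
      intro w
      simp only [hF]
      rw [norm_mul, norm_ex, mul_one, Complex.norm_exp, Complex.norm_exp]
      congr 1
      have : ((w:ℂ) ^ 2 + (nz k : ℂ) ^ 2 / (w:ℂ) ^ 2) = ((w ^ 2 + nz k ^ 2 / w ^ 2 : ℝ) : ℂ) := by push_cast; ring
      rw [this, neg_re, neg_re, mul_assoc, mul_assoc, re_ofReal_mul, re_ofReal_mul, mul_comm ζ, re_ofReal_mul,
        re_ofReal_mul, ofReal_re]
      ring
    have hk := K1 (ζ := (ζ.re : ℂ)) (by simpa using hζ) (nz_nonneg k)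
    have e2 : ∀ w : ℝ, cexp (-(Real.pi * (ζ.re:ℂ) * (w ^ 2 + (nz k : ℂ) ^ 2 / w ^ 2))) =
        ((Real.exp (-(Real.pi * ζ.re * (w ^ 2 + nz k ^ 2 / w ^ 2))) : ℝ) : ℂ) := by
      intro w; push_cast; ring_nf
    simp_rw [e, e2, Complex.norm_real, Real.norm_of_nonneg (Real.exp_pos _).le]
    have h2 := hk.2
    simp_rw [e2] at h2
    rw [integral_complex_ofReal] at h2
    have h3 := congrArg norm h2
    rw [Complex.norm_real, Real.norm_of_nonneg (setIntegral_nonneg measurableSet_Ioi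
      (fun w _ => (Real.exp_pos _).le)), norm_mul] at h3
    rw [h3]
    gcongr
    rw [Complex.norm_exp]
    apply le_of_eq
    congr 1
    rw [neg_re, show (2 * (Real.pi:ℂ) * (ζ.re:ℂ) * (nz k : ℂ)) = ((2 * Real.pi * ζ.re * nz k : ℝ) : ℂ) by push_cast; ring,
      ofReal_re]
  have hFsum : Summable (fun k => ∫ w in Ioi (0:ℝ), ‖F k w‖) := by
    refine Summable.of_nonneg_of_le (fun k => ?_) hFnorm ((summ_exp hζ).mul_left _)
    exact integral_nonneg (fun w => norm_nonneg _)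
  have hI1 := integral_tsum_of_summable_integral_norm hFint hFsum
  -- space side
  set G : ℤ × ℤ → ℝ → ℂ := fun z w => (1 / ζ) * ((w:ℂ) ^ 2 * cexp (-(Real.pi * (ζ + (d2 z a : ℂ) / ζ)) * (w:ℂ) ^ 2)) with hG
  have hGint : ∀ z, Integrable (G z) (volume.restrict (Ioi 0)) := by
    intro z
    exact (K0 (hβ z)).1.const_mul _
  have hGval : ∀ z, ∫ w in Ioi (0:ℝ), G z w = (1 / ζ) * (1 / (2 * (Real.pi * (ζ + (d2 z a : ℂ) / ζ))) *
      ((Real.pi / (Real.pi * (ζ + (d2 z a : ℂ) / ζ))) ^ (1 / 2 : ℂ) / 2)) := by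
    intro z
    simp only [hG]
    rw [integral_const_mul, (K0 (hβ z)).2]
  have hGnorm : ∀ z, ∫ w in Ioi (0:ℝ), ‖G z w‖ ≤ ‖1 / ζ‖ * (c2 * (1 + nz z ^ 2)) ^ (-(3/2):ℝ) := by
    intro z
    have hb : 0 < c2 * (1 + nz z ^ 2) := hre0 z
    have e : ∀ w : ℝ, ‖G z w‖ ≤ ‖1 / ζ‖ * (w ^ 2 * Real.exp (-(c2 * (1 + nz z ^ 2)) * w ^ 2)) := by
      intro w
      simp only [hG]
      rw [norm_mul, norm_mul, norm_cexp_neg_mul_sq, norm_pow, Complex.norm_real, Real.norm_eq_abs, sq_abs]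
      gcongr
      rw [hβre]
      have h1 := hre z
      nlinarith
    have hk := K0_real hb
    calc ∫ w in Ioi (0:ℝ), ‖G z w‖ ≤ ∫ w in Ioi (0:ℝ), ‖1 / ζ‖ * (w ^ 2 * Real.exp (-(c2 * (1 + nz z ^ 2)) * w ^ 2)) := by
          apply integral_mono_of_nonneg (Eventually.of_forall fun w => norm_nonneg _) (hk.1.const_mul _)
            (Eventually.of_forall e)
      _ = ‖1 / ζ‖ * ∫ w in Ioi (0:ℝ), w ^ 2 * Real.exp (-(c2 * (1 + nz z ^ 2)) * w ^ 2) := by rw [integral_const_mul]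
      _ ≤ _ := by gcongr; exact hk.2
  have hGsum : Summable (fun z => ∫ w in Ioi (0:ℝ), ‖G z w‖) := by
    refine Summable.of_nonneg_of_le (fun k => ?_) hGnorm ((summ_inv hc20).mul_left _)
    exact integral_nonneg (fun w => norm_nonneg _)
  have hI2 := integral_tsum_of_summable_integral_norm hGint hGsum
  -- pointwise identity
  have hpt : ∀ w ∈ Ioi (0:ℝ), ∑' k, F k w = ∑' z, G z w := by
    intro w hw
    rw [mem_Ioi] at hw
    have hw0 : (w:ℂ) ≠ 0 := by exact_mod_cast hw.ne'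
    have hτ : 0 < (ζ / (w:ℂ) ^ 2).re := by
      rw [show (w:ℂ) ^ 2 = ((w ^ 2 : ℝ) : ℂ) by push_cast; rfl, div_ofReal_re]
      positivity
    have h := (theta2 hτ a).2
    have e1 : ∀ k : ℤ × ℤ, F k w = cexp (-(Real.pi * ζ * w ^ 2)) *
        (cexp (-(Real.pi * (ζ / (w:ℂ) ^ 2) * ((nz k ^ 2 : ℝ) : ℂ))) * ex (dp k a)) := by
      intro k
      simp only [hF]
      rw [← mul_assoc, ← Complex.exp_add]
      congr 2
      push_cast
      field_simp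
      ring
    have e2 : ∀ z : ℤ × ℤ, G z w = cexp (-(Real.pi * ζ * w ^ 2)) *
        (1 / (ζ / (w:ℂ) ^ 2) * cexp (-(Real.pi / (ζ / (w:ℂ) ^ 2) * (d2 z a : ℂ)))) := by
      intro z
      simp only [hG]
      have e3 : -(Real.pi * (ζ + (d2 z a : ℂ) / ζ)) * (w:ℂ) ^ 2 =
          -(Real.pi * ζ * w ^ 2) + (-(Real.pi / (ζ / (w:ℂ) ^ 2) * (d2 z a : ℂ))) := by
        field_simp
        ring
      rw [e3, Complex.exp_add]
      field_simp
    simp_rw [e1, e2]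
    rw [tsum_mul_left, tsum_mul_left, h, tsum_mul_left]
  have hI3 : ∫ w in Ioi (0:ℝ), ∑' k, F k w = ∫ w in Ioi (0:ℝ), ∑' z, G z w :=
    setIntegral_congr_fun measurableSet_Ioi hpt
  rw [hI3, ← hI2] at hI1
  simp_rw [hFval] at hI1
  rw [tsum_mul_left] at hI1
  -- norms
  have hGn : ∀ z, ‖∫ w in Ioi (0:ℝ), G z w‖ = (1 / (4 * Real.pi)) * (‖ζ‖ ^ (1/2:ℝ) * kz ζ z a) := by
    intro z
    rw [hGval]
    have hz0 : ζ + (d2 z a : ℂ) / ζ ≠ 0 := by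
      intro h
      have := hβ z
      rw [h] at this; simp at this
    have e4 : (Real.pi : ℂ) / (Real.pi * (ζ + (d2 z a : ℂ) / ζ)) = 1 / (ζ + (d2 z a : ℂ) / ζ) := by
      field_simp
    have e1 : ((1:ℂ)/2) = ((1/2 : ℝ) : ℂ) := by push_cast; rfl
    rw [e4, norm_mul, norm_mul, norm_div, norm_div, norm_div, e1, norm_cpow_real, norm_mul, norm_mul, norm_div,
      norm_one, Complex.norm_two, Complex.norm_real, Real.norm_of_nonneg Real.pi_pos.le]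
    have e5 : ‖ζ + (d2 z a : ℂ) / ζ‖ = ‖ζ ^ 2 + (d2 z a : ℂ)‖ / ‖ζ‖ := by
      rw [← norm_div]; congr 1; field_simp
    rw [e5]
    unfold kz
    set N := ‖ζ ^ 2 + (d2 z a : ℂ)‖ with hN
    have hN0 : 0 < N := by
      rw [hN, norm_pos_iff]
      intro h
      apply hz0
      have : ζ + (d2 z a : ℂ) / ζ = (ζ ^ 2 + (d2 z a : ℂ)) / ζ := by field_simp
      rw [this, h, zero_div]
    rw [show (-(3/2):ℝ) = -1 + -(1/2) by norm_num, Real.rpow_add hN0, Real.rpow_neg_one, Real.rpow_neg hN0.le]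
    rw [one_div (N / ‖ζ‖), inv_div, Real.div_rpow hζn.le hN0.le]
    have h8 : 0 < N ^ (1/2:ℝ) := by positivity
    field_simp
    norm_num
  have hkz : ∀ z, kz ζ z a = ((4 * Real.pi) / ‖ζ‖ ^ (1/2:ℝ)) * ‖∫ w in Ioi (0:ℝ), G z w‖ := by
    intro z
    rw [hGn]
    have : 0 < ‖ζ‖ ^ (1/2:ℝ) := by positivity
    field_simp
  have hsumG : Summable (fun z => ‖∫ w in Ioi (0:ℝ), G z w‖) := by
    refine Summable.of_nonneg_of_le (fun z => norm_nonneg _) (fun z => norm_integral_le_integral_norm _) hGsum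
  refine ⟨?_, ?_⟩
  · refine (hsumG.mul_left ((4 * Real.pi) / ‖ζ‖ ^ (1/2:ℝ))).congr ?_
    intro z
    exact (hkz z).symm
  · have h9 : ‖(1 / ζ) ^ (1 / 2 : ℂ) / 2‖ = ‖ζ‖ ^ (-(1/2):ℝ) / 2 := by
      have e1 : ((1:ℂ)/2) = ((1/2 : ℝ) : ℂ) := by push_cast; rfl
      rw [norm_div, e1, norm_cpow_real, norm_div, norm_one, Complex.norm_two, one_div, Real.inv_rpow hζn.le,
        Real.rpow_neg hζn.le]
    have h10 := congrArg norm hI1
    rw [norm_mul, h9] at h10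
    have h11 : ‖∑' z, ∫ w in Ioi (0:ℝ), G z w‖ ≤ (1 / (4 * Real.pi)) * (‖ζ‖ ^ (1/2:ℝ) * ∑' z, kz ζ z a) := by
      refine (norm_tsum_le_tsum_norm hsumG).trans (le_of_eq ?_)
      simp_rw [hGn]
      rw [tsum_mul_left, tsum_mul_left]
    rw [← h10] at h11
    have hS0 : 0 ≤ ∑' z, kz ζ z a := tsum_nonneg (fun z => by unfold kz; positivity)
    have h12 : ‖ζ‖ ^ (-(1/2):ℝ) * ‖ζ‖ ^ (1/2:ℝ) = 1 := by
      rw [← Real.rpow_add hζn]; norm_num
    have h13 : ‖ζ‖ ^ (1/2:ℝ) * ‖ζ‖ ^ (1/2:ℝ) = ‖ζ‖ := by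
      rw [← Real.rpow_add hζn]; norm_num
    set X := ‖∑' k : ℤ × ℤ, cexp (-(2 * Real.pi * ζ * nz k)) * ex (dp k a)‖ with hX
    set Sz := ∑' z, kz ζ z a
    calc X = 2 * ‖ζ‖ ^ (1/2:ℝ) * (‖ζ‖ ^ (-(1/2):ℝ) / 2 * X) := by
          linear_combination (-X) * h12
      _ ≤ 2 * ‖ζ‖ ^ (1/2:ℝ) * ((1 / (4 * Real.pi)) * (‖ζ‖ ^ (1/2:ℝ) * Sz)) := by gcongr
      _ = (1 / (2 * Real.pi)) * (‖ζ‖ * Sz) := by
          have hpi0 : Real.pi ≠ 0 := Real.pi_pos.ne'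
          linear_combination (1 / (2 * Real.pi) * Sz) * h13
      _ ≤ 1 * (‖ζ‖ * Sz) := by
          gcongr
          rw [div_le_one (by positivity)]; linarith
      _ = _ := one_mul _

end Pool.Agent.H593.U
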