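import Mathlib
import Pool.Agent.H593.U.Ann

/-!
# Fourth moments for thick annuli
-/

open MeasureTheory Set Filter Topology
open Pool.Agent.H383.Gauss
open scoped ENNReal

namespace Pool.Agent.H593.U

lemma card_annF_le (a : ℝ × ℝ) {t ρ s : ℝ} (hρ : 0 < ρ) (h6 : 6 * ρ ≤ t) (hs : s ≤ ρ * t) :
    ((annF a (t^2) s).card : ℝ) ≤ Na a (t + ρ) - Na a (t - 2 * ρ) := by
  have hsub : ballA a (t - 2 * ρ) ⊆ ballA a (t + ρ) := by
    intro p hp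
    rw [mem_ballA (by linarith)] at hp ⊢
    linarith
  have h1 : annF a (t^2) s ⊆ ballA a (t + ρ) \ ballA a (t - 2 * ρ) := by
    intro p hp
    rw [mem_annF, abs_le] at hp
    rw [Finset.mem_sdiff, mem_ballA (by linarith), mem_ballA (by linarith), not_le]
    have h2 := da_sq p a
    have h3 := da_nonneg p a
    constructor
    · apply abs_le_of_sq_le_sq' _ (by linarith) |>.2
      nlinarith [hp.2]
    · apply lt_of_pow_lt_pow_left₀ 2 h3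
      nlinarith [hp.1]
  have h2 := Finset.card_le_card h1
  rw [Finset.card_sdiff_of_subset hsub] at h2
  have h3 := Finset.card_le_card hsub
  rw [Na_eq_card a (by linarith), Na_eq_card a (by linarith)]
  have h4 : (annF a (t^2) s).card + (ballA a (t - 2 * ρ)).card ≤ (ballA a (t + ρ)).card := by omega
  have h5 : ((annF a (t^2) s).card : ℝ) + ((ballA a (t - 2 * ρ)).card : ℝ) ≤ ((ballA a (t + ρ)).card : ℝ) := by
    exact_mod_cast h4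
  linarith

theorem card_le_S : ∃ C : ℝ, 0 < C ∧ ∀ (t ρ s : ℝ) (Y : ℕ) (a : ℝ × ℝ), 1 ≤ t → 0 < ρ → 6 * ρ ≤ t →
    1 ≤ ρ * t → t^3 ≤ Y → s ≤ ρ * t →
    ((annF a (t^2) s).card : ℝ) ≤ C * (ρ * t + √t * ‖S (B0 Y) (bd ρ (5*ρ/2)) a (t - ρ/2)‖) := by
  obtain ⟨C1, hC1, h1⟩ := Wa_sub_Va
  obtain ⟨C2, hC2, h2⟩ := abs_Wa_le
  refine ⟨32 + 10 * C1 + 5 * C2, by positivity, ?_⟩
  intro t ρ s Y a ht hρ h6 hρt hY hs
  have ht0 : 0 < t := by linarith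
  have hpi := Real.pi_gt_three
  have hpi2 := Real.pi_lt_d2
  have hY1 : (1:ℝ) ≤ Y := by
    have : (1:ℝ) ≤ t^3 := one_le_pow₀ ht
    linarith
  have hY1' : 1 ≤ Y := by exact_mod_cast hY1
  have hR1 : 0 < t + 2 * ρ := by linarith
  have hR2 : 0 < t - 3 * ρ := by linarith
  have k0 := card_annF_le a hρ h6 hs
  have k1 := Na_le_W a (R := t + ρ) (δ := ρ) (by linarith) hρ
  have k2 := le_Na_W a (R := t - 2 * ρ) (δ := ρ) hρ (by linarith)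
  rw [show t + ρ + ρ = t + 2 * ρ by ring] at k1
  rw [show t - 2 * ρ - ρ = t - 3 * ρ by ring] at k2
  have k3 := h1 (t + 2 * ρ) ρ Y a hR1 hρ hY1'
  have k4 := h1 (t - 3 * ρ) ρ Y a hR2 hρ hY1'
  have k5 := abs_Va_sub_le (t - ρ/2) (5*ρ/2) ρ Y a
  rw [show t - ρ/2 + 5*ρ/2 = t + 2 * ρ by ring, show t - ρ/2 - 5*ρ/2 = t - 3 * ρ by ring] at k5
  have k6 := h2 (t - 3 * ρ) ρ a hR2 hρ
  set Wp := Wa (t + 2 * ρ) ρ a
  set Wm := Wa (t - 3 * ρ) ρ a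
  set Vp := Va (t + 2 * ρ) ρ Y a
  set Vm := Va (t - 3 * ρ) ρ Y a
  set N := ‖S (B0 Y) (bd ρ (5*ρ/2)) a (t - ρ/2)‖ with hN
  have hN0 : 0 ≤ N := norm_nonneg _
  -- error terms
  have hsq0 : 0 < √t := Real.sqrt_pos.mpr ht0
  have hsq1 : 1 ≤ √t := Real.one_le_sqrt.mpr ht
  have hsqt : √t * √t = t := Real.mul_self_sqrt ht0.le
  have e1 : ρ ^ (-(3/2):ℝ) * (Y:ℝ) ^ (-(9/10):ℝ) ≤ 1/t := by
    have a1 : ρ ^ (-(3/2):ℝ) ≤ t ^ (3/2:ℝ) := by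
      have : 1/t ≤ ρ := by rw [div_le_iff₀ ht0]; exact hρt
      calc ρ ^ (-(3/2):ℝ) ≤ (1/t) ^ (-(3/2):ℝ) :=
            Real.rpow_le_rpow_of_nonpos (by positivity) this (by norm_num)
        _ = t ^ (3/2:ℝ) := by
            rw [one_div, Real.inv_rpow ht0.le, ← Real.rpow_neg ht0.le]; norm_num
    have a2 : (Y:ℝ) ^ (-(9/10):ℝ) ≤ t ^ (-(27/10):ℝ) := by
      calc (Y:ℝ) ^ (-(9/10):ℝ) ≤ (t^3) ^ (-(9/10):ℝ) :=
            Real.rpow_le_rpow_of_nonpos (by positivity) hY (by norm_num)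
        _ = t ^ (-(27/10):ℝ) := by
            rw [← Real.rpow_natCast, ← Real.rpow_mul ht0.le]; norm_num
    calc ρ ^ (-(3/2):ℝ) * (Y:ℝ) ^ (-(9/10):ℝ) ≤ t ^ (3/2:ℝ) * t ^ (-(27/10):ℝ) := by gcongr
      _ = t ^ (-(6/5):ℝ) := by rw [← Real.rpow_add ht0]; norm_num
      _ ≤ t ^ (-1:ℝ) := Real.rpow_le_rpow_of_exponent_le ht (by norm_num)
      _ = 1/t := by rw [Real.rpow_neg_one, one_div]
  have e2 : 1/(t + 2 * ρ) ≤ 1/t := one_div_le_one_div_of_le ht0 (by linarith)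
  have e3 : 1/(t - 3 * ρ) ≤ 2/t := by
    rw [div_le_div_iff₀ hR2 ht0]; linarith
  have e4 : |Wp - Wm| ≤ 2 * N + C1 * (5/t) := by
    have b1 : |Wp - Wm| ≤ |Wp - Vp| + |Wm - Vm| + |Vp - Vm| := by
      have : Wp - Wm = (Wp - Vp) - (Wm - Vm) + (Vp - Vm) := by ring
      rw [this]
      refine (abs_add_le _ _).trans ?_
      gcongr
      exact abs_sub _ _
    have b2 : C1 * (1/(t + 2 * ρ) + ρ ^ (-(3/2):ℝ) * (Y:ℝ) ^ (-(9/10):ℝ)) ≤ C1 * (2/t) := by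
      gcongr
      calc _ ≤ 1/t + 1/t := by linarith
        _ = 2/t := by ring
    have b3 : C1 * (1/(t - 3 * ρ) + ρ ^ (-(3/2):ℝ) * (Y:ℝ) ^ (-(9/10):ℝ)) ≤ C1 * (3/t) := by
      gcongr
      calc _ ≤ 2/t + 1/t := by linarith
        _ = 3/t := by ring
    calc |Wp - Wm| ≤ C1 * (2/t) + C1 * (3/t) + 2 * N := by linarith
      _ = _ := by ring
  have e5 : √(t + 2 * ρ) ≤ 2 * √t := by
    rw [Real.sqrt_le_left (by positivity)]
    nlinarith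
  have e6 : √(t + 2 * ρ) - √(t - 3 * ρ) ≤ 5 * ρ / √t := by
    rw [le_div_iff₀ hsq0]
    have c1 : √t ≤ √(t + 2 * ρ) := Real.sqrt_le_sqrt (by linarith)
    have c2 : 0 ≤ √(t - 3 * ρ) := Real.sqrt_nonneg _
    have c3 : √(t + 2 * ρ) * √(t + 2 * ρ) = t + 2 * ρ := Real.mul_self_sqrt hR1.le
    have c4 : √(t - 3 * ρ) * √(t - 3 * ρ) = t - 3 * ρ := Real.mul_self_sqrt hR2.le
    have c5 : √(t - 3 * ρ) ≤ √(t + 2 * ρ) := Real.sqrt_le_sqrt (by linarith)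
    calc (√(t + 2 * ρ) - √(t - 3 * ρ)) * √t ≤ (√(t + 2 * ρ) - √(t - 3 * ρ)) * (√(t + 2 * ρ) + √(t - 3 * ρ)) := by
          apply mul_le_mul_of_nonneg_left _ (by linarith)
          linarith
      _ = 5 * ρ := by linear_combination c3 - c4
  have e6' : 0 ≤ √(t + 2 * ρ) - √(t - 3 * ρ) := by
    have c5 : √(t - 3 * ρ) ≤ √(t + 2 * ρ) := Real.sqrt_le_sqrt (by linarith)
    linarith
  have e7 : (√(t + 2 * ρ) - √(t - 3 * ρ)) * |Wm| ≤ 5 * C2 := by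
    calc (√(t + 2 * ρ) - √(t - 3 * ρ)) * |Wm| ≤ (5 * ρ / √t) * (C2 * ρ ^ (-(3/2):ℝ)) := by gcongr
      _ = 5 * C2 * ((ρ * ρ ^ (-(3/2):ℝ)) / √t) := by ring
      _ = 5 * C2 * (ρ ^ (-(1/2):ℝ) * t ^ (-(1/2):ℝ)) := by
          congr 1
          have d1 : ρ * ρ ^ (-(3/2):ℝ) = ρ ^ (-(1/2):ℝ) := by
            nth_rewrite 1 [← Real.rpow_one ρ]
            rw [← Real.rpow_add hρ]; norm_num
          rw [d1, Real.sqrt_eq_rpow, Real.rpow_neg ht0.le, div_eq_mul_inv]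
      _ = 5 * C2 * ((ρ * t) ^ (-(1/2):ℝ)) := by rw [Real.mul_rpow hρ.le ht0.le]
      _ ≤ 5 * C2 * 1 := by
          gcongr
          exact Real.rpow_le_one_of_one_le_of_nonpos hρt (by norm_num)
      _ = 5 * C2 := by ring
  have e8 : √(t + 2 * ρ) * |Wp - Wm| ≤ 4 * √t * N + 10 * C1 := by
    calc √(t + 2 * ρ) * |Wp - Wm| ≤ (2 * √t) * (2 * N + C1 * (5/t)) := by gcongr
      _ = 4 * √t * N + 10 * C1 * (√t / t) := by ring
      _ ≤ 4 * √t * N + 10 * C1 * 1 := by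
          gcongr
          rw [div_le_one ht0]
          nlinarith
      _ = _ := by ring
  have e9 : √(t + 2 * ρ) * Wp - √(t - 3 * ρ) * Wm ≤ 4 * √t * N + 10 * C1 + 5 * C2 := by
    have : √(t + 2 * ρ) * Wp - √(t - 3 * ρ) * Wm = √(t + 2 * ρ) * (Wp - Wm) + (√(t + 2 * ρ) - √(t - 3 * ρ)) * Wm := by ring
    rw [this]
    have f1 : √(t + 2 * ρ) * (Wp - Wm) ≤ √(t + 2 * ρ) * |Wp - Wm| := by
      gcongr; exact le_abs_self _
    have f2 : (√(t + 2 * ρ) - √(t - 3 * ρ)) * Wm ≤ (√(t + 2 * ρ) - √(t - 3 * ρ)) * |Wm| := by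
      gcongr; exact le_abs_self _
    linarith
  have e10 : Real.pi * (t + 2 * ρ) ^ 2 - Real.pi * (t - 3 * ρ) ^ 2 ≤ 32 * (ρ * t) := by
    have : Real.pi * (t + 2 * ρ) ^ 2 - Real.pi * (t - 3 * ρ) ^ 2 = Real.pi * (10 * (ρ * t) - 5 * ρ ^ 2) := by ring
    rw [this]
    have g1 : 0 ≤ ρ ^ 2 := sq_nonneg _
    have g2 : 0 < ρ * t := by positivity
    nlinarith
  have e11 : ((annF a (t^2) s).card : ℝ) ≤ 32 * (ρ * t) + 4 * √t * N + 10 * C1 + 5 * C2 := by linarith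
  refine e11.trans ?_
  have g3 : 0 ≤ √t * N := by positivity
  nlinarith [mul_nonneg hC1.le (sub_nonneg.mpr hρt), mul_nonneg hC2.le (sub_nonneg.mpr hρt),
    mul_nonneg hC1.le g3, mul_nonneg hC2.le g3]

end Pool.Agent.H593.U
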