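import Mathlib
import Pool.Agent.H593.U.A1

/-!
# Fourth moments for thick annuli: weights and integration
-/

open MeasureTheory Set Filter Topology
open Pool.Agent.H383.Gauss
open scoped ENNReal

namespace Pool.Agent.H593.U

/-- Gaussian means over all shells -/
lemma gauss_all {β : ℝ} (h : HB β) : ∃ C : ℝ, 0 < C ∧ ∀ (Y J : ℕ) (b : ℤ × ℤ → ℝ) (c : ℕ → ℝ) (X T : ℝ),
    0 < T → Y < 2 ^ J → (∀ j, ∀ p ∈ sh Y j, |b p| ≤ c j) →
    ∫ t : ℝ, Real.exp (-(Real.pi * (t - X) ^ 2 / T ^ 2)) * M (B0 Y) b t ≤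
      C * ((J:ℝ) ^ 3 * ∑ j ∈ Finset.range J, (c j) ^ 4 * ((T + 2 ^ j) * ((2:ℝ) ^ j) ^ β)) := by
  obtain ⟨C, hC, h1⟩ := gauss_shell (β := β) h
  refine ⟨C, hC, ?_⟩
  intro Y J b c X T hT hJ hb
  have h2 : ∫ t : ℝ, Real.exp (-(Real.pi * (t - X) ^ 2 / T ^ 2)) * M (B0 Y) b t ≤
      ∫ t : ℝ, (J:ℝ) ^ 3 * ∑ j ∈ Finset.range J, Real.exp (-(Real.pi * (t - X) ^ 2 / T ^ 2)) * M (sh Y j) b t := by
    apply integral_mono (gauss_M_integrable hT X _ _)
    · exact (integrable_finsetSum _ (fun j _ => gauss_M_integrable hT X _ _)).const_mul _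
    · intro t
      simp only
      rw [← Finset.mul_sum]
      have := M_shells hJ b t
      calc _ ≤ Real.exp (-(Real.pi * (t - X) ^ 2 / T ^ 2)) * ((J:ℝ) ^ 3 * ∑ j ∈ Finset.range J, M (sh Y j) b t) := by
            gcongr
        _ = _ := by ring
  refine h2.trans ?_
  rw [integral_const_mul, integral_finsetSum _ (fun j _ => gauss_M_integrable hT X _ _)]
  calc (J:ℝ) ^ 3 * ∑ j ∈ Finset.range J, ∫ t : ℝ, Real.exp (-(Real.pi * (t - X) ^ 2 / T ^ 2)) * M (sh Y j) b t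
      ≤ (J:ℝ) ^ 3 * ∑ j ∈ Finset.range J, C * ((c j) ^ 4 * ((T + 2 ^ j) * ((2:ℝ) ^ j) ^ β)) := by
        gcongr with j hj
        exact h1 Y j b (c j) X T hT (hb j)
    _ = _ := by rw [← Finset.mul_sum]; ring

/-- on a shell, the weights are small -/
lemma bw_shell {Y j : ℕ} {δ : ℝ} (hδ : 0 < δ) {p : ℤ × ℤ} (hp : p ∈ sh Y j) :
    |bw δ p| ≤ ((2:ℝ)^j) ^ (-(3/2):ℝ) * min 1 ((δ * 2 ^ j) ^ (-(3/2):ℝ)) := by
  unfold sh at hp
  rw [Finset.mem_filter, mem_B0] at hp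
  obtain ⟨⟨hp0, hpY⟩, hlg⟩ := hp
  have h1 := lg_le hp0
  rw [hlg] at h1
  have h2 := nz_ge_one hp0
  have hn0 : 0 < nz p := by linarith
  have hX : (0:ℝ) < 2 ^ j := by positivity
  have hpi := Real.pi_gt_three
  have k1 : nz p ^ (-(3/2):ℝ) ≤ ((2:ℝ)^j) ^ (-(3/2):ℝ) :=
    Real.rpow_le_rpow_of_nonpos hX h1 (by norm_num)
  have k2 : |J (δ * nz p)| ≤ (1/2) * (δ * 2 ^ j) ^ (-(3/2):ℝ) := by
    refine (abs_J_le_rpow (by positivity)).trans ?_
    gcongr ?_ * ?_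
    exact Real.rpow_le_rpow_of_nonpos (by positivity) (by gcongr) (by norm_num)
  have k3 := abs_J_le (δ * nz p)
  unfold bw
  rw [abs_mul, abs_mul, abs_of_pos (by positivity : (0:ℝ) < 1/Real.pi^2), abs_of_nonneg (by positivity : 0 ≤ nz p ^ (-(3/2):ℝ))]
  rw [mul_comm (1/Real.pi^2), mul_assoc]
  apply mul_le_mul k1 _ (by positivity) (by positivity)
  have k4 : 1/Real.pi^2 ≤ 1/Real.pi := by
    apply one_div_le_one_div_of_le (by positivity)
    nlinarith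
  apply le_min
  · calc 1/Real.pi^2 * |J (δ * nz p)| ≤ 1/Real.pi^2 * Real.pi := by gcongr
      _ = 1/Real.pi := by field_simp
      _ ≤ 1 := by rw [div_le_one (by positivity)]; linarith
  · have k5 : 1/Real.pi^2 ≤ 1 := by
      rw [div_le_one (by positivity)]; nlinarith
    calc 1/Real.pi^2 * |J (δ * nz p)| ≤ 1 * ((1/2) * (δ * 2 ^ j) ^ (-(3/2):ℝ)) := by gcongr
      _ ≤ (δ * 2 ^ j) ^ (-(3/2):ℝ) := by
          have : 0 ≤ (δ * 2 ^ j) ^ (-(3/2):ℝ) := by positivity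
          linarith

/-- the weights of the difference on a shell -/
lemma bd_shell {Y j : ℕ} {ρ : ℝ} (hρ : 0 < ρ) {p : ℤ × ℤ} (hp : p ∈ sh Y j) :
    |bd ρ (5*ρ/2) p| ≤ 32 * (((2:ℝ)^j) ^ (-(3/2):ℝ) * min (ρ * 2 ^ j) ((ρ * 2 ^ j) ^ (-(3/2):ℝ))) := by
  have h0 := bw_shell hρ hp
  unfold sh at hp
  rw [Finset.mem_filter, mem_B0] at hp
  obtain ⟨⟨hp0, hpY⟩, hlg⟩ := hp
  have h1 := lt_lg p
  rw [hlg] at h1
  have h2 := nz_ge_one hp0
  have hn0 : 0 < nz p := by linarith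
  have hX : (0:ℝ) < 2 ^ j := by positivity
  have hpi := Real.pi_gt_three
  have hpi2 := Real.pi_lt_d2
  have hA : 0 ≤ ((2:ℝ)^j) ^ (-(3/2):ℝ) := by positivity
  have hB : 0 ≤ (ρ * 2 ^ j) ^ (-(3/2):ℝ) := by positivity
  unfold bd
  rw [abs_mul]
  have s1 : |Real.sin (2 * Real.pi * (5*ρ/2 * nz p))| ≤ 1 := Real.abs_sin_le_one _
  have s2 : |Real.sin (2 * Real.pi * (5*ρ/2 * nz p))| ≤ 32 * (ρ * 2 ^ j) := by
    refine (Real.abs_sin_le_abs).trans ?_
    rw [abs_of_nonneg (by positivity)]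
    rw [pow_succ] at h1
    have h5 : Real.pi * (ρ * nz p) ≤ 3.15 * (ρ * (2 ^ j * 2)) := by gcongr
    have h6 : 0 < ρ * 2 ^ j := by positivity
    linarith
  rcases min_choice (ρ * 2 ^ j) ((ρ * 2 ^ j) ^ (-(3/2):ℝ)) with h | h
  · rw [h]
    calc |bw ρ p| * |Real.sin (2 * Real.pi * (5*ρ/2 * nz p))|
        ≤ (((2:ℝ)^j) ^ (-(3/2):ℝ) * 1) * (32 * (ρ * 2 ^ j)) := by
          gcongr
          refine h0.trans ?_
          gcongr
          exact min_le_left _ _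
      _ = _ := by ring
  · rw [h]
    calc |bw ρ p| * |Real.sin (2 * Real.pi * (5*ρ/2 * nz p))|
        ≤ (((2:ℝ)^j) ^ (-(3/2):ℝ) * ((ρ * 2 ^ j) ^ (-(3/2):ℝ))) * 1 := by
          gcongr
          refine h0.trans ?_
          gcongr
          exact min_le_right _ _
      _ ≤ _ := by
          have : 0 ≤ ((2:ℝ)^j) ^ (-(3/2):ℝ) * ((ρ * 2 ^ j) ^ (-(3/2):ℝ)) := by positivity
          linarith

/-- the sum over one shell -/
lemma shell_sum_le {β ρ T X : ℝ} (hβ : 4 ≤ β) (hβ2 : β ≤ 6) (hρ : 0 < ρ) (hT : 0 < T) (hX : 0 < X) (hρT : 1 ≤ ρ * T) :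
    (32 * (X ^ (-(3/2):ℝ) * min (ρ * X) ((ρ * X) ^ (-(3/2):ℝ)))) ^ 4 * ((4 * T + X) * X ^ β) ≤
      2 ^ 23 * (T * ρ ^ (6 - β)) := by
  set x := ρ * X with hx
  have hx0 : 0 < x := by positivity
  have hXx : X = x / ρ := by rw [hx]; field_simp
  have h1 : (X ^ (-(3/2):ℝ)) ^ 4 * X ^ β = x ^ (β - 6) * ρ ^ (6 - β) := by
    rw [← Real.rpow_natCast (X ^ (-(3/2):ℝ)) 4, ← Real.rpow_mul hX.le, ← Real.rpow_add hX]
    rw [show -(3/2) * ((4:ℕ):ℝ) + β = β - 6 by push_cast; ring]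
    rw [hXx, Real.div_rpow hx0.le hρ.le, show (6 - β) = -(β - 6) by ring, Real.rpow_neg hρ.le]
    field_simp
  have h2 : 4 * T + X ≤ T * (4 * (1 + x)) := by
    have : X ≤ T * x := by
      rw [hx]
      nlinarith
    nlinarith
  have h3 : min x (x ^ (-(3/2):ℝ)) ^ 4 * x ^ (β - 6) * (1 + x) ≤ 2 := by
    have hm0 : 0 ≤ min x (x ^ (-(3/2):ℝ)) := le_min hx0.le (by positivity)
    rcases le_total x 1 with hx1 | hx1
    · calc min x (x ^ (-(3/2):ℝ)) ^ 4 * x ^ (β - 6) * (1 + x) ≤ x ^ 4 * x ^ (β - 6) * 2 := by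
            gcongr
            · exact min_le_left _ _
            · linarith
        _ = x ^ (β - 2) * 2 := by
            rw [← Real.rpow_natCast x 4, ← Real.rpow_add hx0]; congr 2; push_cast; ring
        _ ≤ 1 * 2 := by
            gcongr
            exact Real.rpow_le_one hx0.le hx1 (by linarith)
        _ = 2 := by norm_num
    · calc min x (x ^ (-(3/2):ℝ)) ^ 4 * x ^ (β - 6) * (1 + x) ≤ (x ^ (-(3/2):ℝ)) ^ 4 * x ^ (β - 6) * (x + x) := by
            gcongr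
            exact min_le_right _ _
        _ = (x ^ (β - 12) * x) * 2 := by
            rw [← Real.rpow_natCast (x ^ (-(3/2):ℝ)) 4, ← Real.rpow_mul hx0.le, ← Real.rpow_add hx0]
            rw [show -(3/2) * ((4:ℕ):ℝ) + (β - 6) = β - 12 by push_cast; ring]
            ring
        _ = x ^ (β - 11) * 2 := by
            nth_rewrite 2 [← Real.rpow_one x]
            rw [← Real.rpow_add hx0]; congr 2; ring
        _ ≤ 1 * 2 := by
            gcongr
            exact Real.rpow_le_one_of_one_le_of_nonpos hx1 (by linarith)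
        _ = 2 := by norm_num
  calc (32 * (X ^ (-(3/2):ℝ) * min x (x ^ (-(3/2):ℝ)))) ^ 4 * ((4 * T + X) * X ^ β)
      = 32 ^ 4 * (((X ^ (-(3/2):ℝ)) ^ 4 * X ^ β) * min x (x ^ (-(3/2):ℝ)) ^ 4 * (4 * T + X)) := by ring
    _ = 32 ^ 4 * (x ^ (β - 6) * ρ ^ (6 - β) * min x (x ^ (-(3/2):ℝ)) ^ 4 * (4 * T + X)) := by rw [h1]
    _ ≤ 32 ^ 4 * (x ^ (β - 6) * ρ ^ (6 - β) * min x (x ^ (-(3/2):ℝ)) ^ 4 * (T * (4 * (1 + x)))) := by
        gcongr
    _ = 32 ^ 4 * 4 * (T * ρ ^ (6 - β)) * (min x (x ^ (-(3/2):ℝ)) ^ 4 * x ^ (β - 6) * (1 + x)) := by ring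
    _ ≤ 32 ^ 4 * 4 * (T * ρ ^ (6 - β)) * 2 := by gcongr
    _ = _ := by norm_num; ring

/-- change of variables `v = t²` -/
lemma lint_sq {f : ℝ → ℝ≥0∞} {a b : ℝ} (ha : 0 ≤ a) (hab : a ≤ b) :
    ∫⁻ v in Icc (a^2) (b^2), f (√v) ≤ ENNReal.ofReal (2 * b) * ∫⁻ t in Icc a b, f t := by
  have himg : (fun t : ℝ => t ^ 2) '' (Icc a b) = Icc (a^2) (b^2) := by
    ext v
    constructor
    · rintro ⟨t, ht, rfl⟩
      have h1 : a ^ 2 ≤ t ^ 2 := by have := ht.1; gcongr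
      have h2 : t ^ 2 ≤ b ^ 2 := by have := ht.2; have := ha.trans ht.1; gcongr
      exact ⟨h1, h2⟩
    · intro hv
      have hv0 : 0 ≤ v := (sq_nonneg a).trans hv.1
      refine ⟨√v, ⟨?_, ?_⟩, Real.sq_sqrt hv0⟩
      · exact Real.le_sqrt_of_sq_le hv.1
      · rw [Real.sqrt_le_left (ha.trans hab)]; exact hv.2
  have hinj : InjOn (fun t : ℝ => t ^ 2) (Icc a b) := by
    intro x hx y hy hxy
    simp only at hxy
    have hx0 : 0 ≤ x := ha.trans hx.1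
    have hy0 : 0 ≤ y := ha.trans hy.1
    rw [← Real.sqrt_sq hx0, hxy, Real.sqrt_sq hy0]
  have h := lintegral_image_eq_lintegral_abs_deriv_mul (s := Icc a b) (f := fun t : ℝ => t ^ 2)
    (f' := fun t => 2 * t) measurableSet_Icc (fun x _ => by
      have := (hasDerivAt_pow 2 x).hasDerivWithinAt (s := Icc a b)
      simpa using this) hinj (fun v => f (√v))
  rw [himg] at h
  rw [h, ← lintegral_const_mul' _ _ ENNReal.ofReal_ne_top]
  apply setLIntegral_mono' measurableSet_Icc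
  intro t ht
  have ht0 : 0 ≤ t := ha.trans ht.1
  rw [Real.sqrt_sq ht0]
  gcongr
  rw [abs_of_nonneg (by positivity)]
  have := ht.2
  linarith

/-- local means are bounded by Gaussian means -/
lemma lint_M_le {L : ℝ} (hL : 0 < L) (X : ℝ) (B : Finset (ℤ × ℤ)) (b : ℤ × ℤ → ℝ) {s : Set ℝ}
    (hs : ∀ t ∈ s, |t - X| ≤ L) (hms : MeasurableSet s) :
    ∫⁻ t in s, ENNReal.ofReal (M B b t) ≤
      ENNReal.ofReal (Real.exp Real.pi * ∫ t, Real.exp (-(Real.pi * (t - X) ^ 2 / L ^ 2)) * M B b t) := by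
  have hint := gauss_M_integrable hL X B b
  rw [ENNReal.ofReal_mul (Real.exp_pos _).le,
    ofReal_integral_eq_lintegral_ofReal hint (Eventually.of_forall fun t => by
      have := M_nonneg B b t
      positivity), ← lintegral_const_mul' _ _ ENNReal.ofReal_ne_top]
  refine le_trans ?_ (setLIntegral_le_lintegral s _)
  apply setLIntegral_mono' hms
  intro t ht
  rw [← ENNReal.ofReal_mul (Real.exp_pos _).le]
  apply ENNReal.ofReal_le_ofReal
  have h0 := M_nonneg B b t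
  have h1 : 1 ≤ Real.exp Real.pi * Real.exp (-(Real.pi * (t - X) ^ 2 / L ^ 2)) := by
    rw [← Real.exp_add]
    apply Real.one_le_exp
    have h2 : (t - X) ^ 2 ≤ L ^ 2 := by
      have := hs t ht
      rw [← sq_abs]
      gcongr
    have h3 : Real.pi * (t - X) ^ 2 / L ^ 2 ≤ Real.pi := by
      rw [div_le_iff₀ (by positivity)]
      have := Real.pi_pos
      gcongr
    linarith
  calc M B b t = 1 * M B b t := (one_mul _).symm
    _ ≤ (Real.exp Real.pi * Real.exp (-(Real.pi * (t - X) ^ 2 / L ^ 2))) * M B b t := by gcongr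
    _ = _ := by ring

end Pool.Agent.H593.U
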