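import Mathlib
import Pool.Agent.H593.U.A1b

/-!
# Fourth moments for thick annuli: conclusion
-/

open MeasureTheory Set Filter Topology
open Pool.Agent.H383.Gauss
open scoped ENNReal

namespace Pool.Agent.H593.U

lemma ofReal_alg {a b c d e : ℝ} (ha : 0 ≤ a) (hb : 0 ≤ b) (hc : 0 ≤ c) (hd : 0 ≤ d) (he : 0 ≤ e) :
    ENNReal.ofReal a * (ENNReal.ofReal b * ENNReal.ofReal c + ENNReal.ofReal d * ENNReal.ofReal e) =
      ENNReal.ofReal (a * (b * c + d * e)) := by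
  rw [ENNReal.ofReal_mul ha, ENNReal.ofReal_add (by positivity) (by positivity),
    ENNReal.ofReal_mul hb, ENNReal.ofReal_mul hd]

lemma add_pow4_le {x y : ℝ} : (x + y) ^ 4 ≤ 8 * (x ^ 4 + y ^ 4) := by
  have h1 : (x + y) ^ 2 ≤ 2 * (x ^ 2 + y ^ 2) := by nlinarith [sq_nonneg (x - y)]
  have h2 : (x + y) ^ 4 = ((x + y) ^ 2) ^ 2 := by ring
  have h3 : ((x + y) ^ 2) ^ 2 ≤ (2 * (x ^ 2 + y ^ 2)) ^ 2 := by gcongr
  rw [h2]
  refine h3.trans ?_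
  nlinarith [sq_nonneg (x ^ 2 - y ^ 2)]

lemma lint_shift_le (g : ℝ → ℝ≥0∞) {a b c d h : ℝ} (h1 : c ≤ a - h) (h2 : b - h ≤ d) :
    ∫⁻ t in Icc a b, g (t - h) ≤ ∫⁻ t in Icc c d, g t := by
  rw [← lintegral_indicator measurableSet_Icc, ← lintegral_indicator measurableSet_Icc]
  rw [← lintegral_sub_right_eq_self (fun t => (Icc c d).indicator g t) h]
  apply lintegral_mono
  intro t
  simp only [Set.indicator]
  split_ifs with k1 k2
  · exact le_rfl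
  · exfalso
    apply k2
    rw [Set.mem_Icc] at k1 ⊢
    constructor <;> linarith [k1.1, k1.2]
  · exact zero_le
  · exact le_rfl

theorem MM_thick {β : ℝ} (hβ : 4 ≤ β) (hβ2 : β ≤ 6) (h : HB β) : ∃ C : ℝ, 0 < C ∧
    ∀ (T ρ : ℝ) (J : ℕ), 0 < ρ → ρ ≤ 1 → 24 * ρ ≤ T → 4 ≤ ρ * T → ⌈(4 * T) ^ 3⌉₊ < 2 ^ J →
    MM ((T/4)^2) ((4*T)^2) (ρ * T / 4) ≤ ENNReal.ofReal (C * (ρ ^ 4 * T ^ 6 + (J:ℝ) ^ 4 * (T ^ 4 * ρ ^ (6 - β)))) := by
  obtain ⟨C, hC, h1⟩ := card_le_S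
  obtain ⟨C', hC', h2⟩ := gauss_all h
  refine ⟨2^16 * C ^ 4 + 1024 * C ^ 4 * (Real.exp Real.pi * C' * 2 ^ 23), by positivity, ?_⟩
  intro T ρ J hρ hρ1 h24 h4 hJ
  have hT4 : 4 ≤ T := by nlinarith
  have hT0 : 0 < T := by linarith
  set Y := ⌈(4 * T) ^ 3⌉₊ with hY
  set b := bd ρ (5*ρ/2) with hb
  -- pointwise
  have p1 : ∀ t ∈ Icc (T/4) (4*T), ∀ a, nn a (t^2) (ρ * T / 4) ^ 4 ≤
      ENNReal.ofReal (8 * C ^ 4 * (4 * ρ * T) ^ 4) +
        ENNReal.ofReal (128 * C ^ 4 * T ^ 2) * ENNReal.ofReal (‖S (B0 Y) b a (t - ρ/2)‖ ^ 4) := by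
    intro t ht a
    have ht1 : 1 ≤ t := by linarith [ht.1]
    have ht0 : 0 < t := by linarith
    have k1 := h1 t ρ (ρ * T / 4) Y a ht1 hρ (by linarith [ht.1]) (by nlinarith [ht.1]) (by
      have : t ^ 3 ≤ (4 * T) ^ 3 := by have := ht.2; gcongr
      exact this.trans (Nat.le_ceil _)) (by nlinarith [ht.1])
    rw [nn_eq]
    set N := ‖S (B0 Y) b a (t - ρ/2)‖ with hN
    have hN0 : 0 ≤ N := norm_nonneg _
    have k2 : (((annF a (t^2) (ρ * T / 4)).card : ℝ≥0∞)) ≤ ENNReal.ofReal (C * (ρ * t + √t * N)) := by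
      rw [← ENNReal.ofReal_natCast]
      exact ENNReal.ofReal_le_ofReal k1
    calc (((annF a (t^2) (ρ * T / 4)).card : ℝ≥0∞)) ^ 4 ≤ (ENNReal.ofReal (C * (ρ * t + √t * N))) ^ 4 := by gcongr
      _ = ENNReal.ofReal ((C * (ρ * t + √t * N)) ^ 4) := by rw [ENNReal.ofReal_pow (by positivity)]
      _ ≤ ENNReal.ofReal (8 * C ^ 4 * (4 * ρ * T) ^ 4 + 128 * C ^ 4 * T ^ 2 * N ^ 4) := by
          apply ENNReal.ofReal_le_ofReal
          have k3 := add_pow4_le (x := ρ * t) (y := √t * N)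
          have k4 : (√t) ^ 4 = t ^ 2 := by
            rw [show (√t) ^ 4 = ((√t) ^ 2) ^ 2 by ring, Real.sq_sqrt ht0.le]
          calc (C * (ρ * t + √t * N)) ^ 4 = C ^ 4 * (ρ * t + √t * N) ^ 4 := by ring
            _ ≤ C ^ 4 * (8 * ((ρ * t) ^ 4 + (√t * N) ^ 4)) := by gcongr
            _ = 8 * C ^ 4 * (ρ * t) ^ 4 + 8 * C ^ 4 * (t ^ 2) * N ^ 4 := by
                rw [mul_pow (√t), k4]; ring
            _ ≤ 8 * C ^ 4 * (ρ * (4 * T)) ^ 4 + 8 * C ^ 4 * ((4 * T) ^ 2) * N ^ 4 := by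
                have := ht.2
                gcongr
            _ = _ := by ring
      _ = _ := by
          rw [ENNReal.ofReal_add (by positivity) (by positivity),
            ENNReal.ofReal_mul (p := 128 * C ^ 4 * T ^ 2) (by positivity)]
  have p2 : ∀ t ∈ Icc (T/4) (4*T), ∫⁻ a in Q, nn a (t^2) (ρ * T / 4) ^ 4 ≤
      ENNReal.ofReal (8 * C ^ 4 * (4 * ρ * T) ^ 4) +
        ENNReal.ofReal (128 * C ^ 4 * T ^ 2) * ENNReal.ofReal (M (B0 Y) b (t - ρ/2)) := by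
    intro t ht
    refine (lintegral_mono (fun a => p1 t ht a)).trans ?_
    rw [lintegral_add_left measurable_const, setLIntegral_const, volume_Q, mul_one,
      lintegral_const_mul' _ _ ENNReal.ofReal_ne_top, lint_S_four]
  -- integrate
  unfold MM
  have p3 : ∫⁻ v in Icc ((T/4)^2) ((4*T)^2), ∫⁻ a in Q, nn a v (ρ * T / 4) ^ 4 ≤
      ENNReal.ofReal (2 * (4 * T)) * ∫⁻ t in Icc (T/4) (4*T), ∫⁻ a in Q, nn a (t^2) (ρ * T / 4) ^ 4 := by
    refine le_trans (le_of_eq ?_) (lint_sq (f := fun t => ∫⁻ a in Q, nn a (t^2) (ρ * T / 4) ^ 4)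
      (a := T/4) (b := 4*T) (by positivity) (by linarith))
    apply setLIntegral_congr_fun measurableSet_Icc
    intro v hv
    have hv0 : 0 ≤ v := (sq_nonneg _).trans hv.1
    simp only
    rw [Real.sq_sqrt hv0]
  refine p3.trans ?_
  have p4 : ∫⁻ t in Icc (T/4) (4*T), ENNReal.ofReal (M (B0 Y) b (t - ρ/2)) ≤
      ENNReal.ofReal (Real.exp Real.pi * (C' * ((J:ℝ) ^ 3 * (J * (2 ^ 23 * (T * ρ ^ (6 - β))))))) := by
    refine (lint_shift_le (fun t => ENNReal.ofReal (M (B0 Y) b t)) (c := 0) (d := 4*T) (by linarith) (by linarith)).trans ?_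
    refine (lint_M_le (L := 4*T) (by positivity) 0 (B0 Y) b (fun t ht => by
      rw [sub_zero, abs_of_nonneg ht.1]; exact ht.2) measurableSet_Icc).trans ?_
    apply ENNReal.ofReal_le_ofReal
    gcongr
    refine (h2 Y J b (fun j => 32 * (((2:ℝ)^j) ^ (-(3/2):ℝ) * min (ρ * 2 ^ j) ((ρ * 2 ^ j) ^ (-(3/2):ℝ))))
      0 (4*T) (by positivity) hJ (fun j p hp => bd_shell hρ hp)).trans ?_
    gcongr
    refine (Finset.sum_le_card_nsmul _ _ (2 ^ 23 * (T * ρ ^ (6 - β))) ?_).trans (le_of_eq ?_)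
    · intro j _
      exact shell_sum_le hβ hβ2 hρ hT0 (by positivity) (by linarith)
    · rw [Finset.card_range, nsmul_eq_mul]
  calc ENNReal.ofReal (2 * (4 * T)) * ∫⁻ t in Icc (T/4) (4*T), ∫⁻ a in Q, nn a (t^2) (ρ * T / 4) ^ 4
      ≤ ENNReal.ofReal (2 * (4 * T)) * ∫⁻ t in Icc (T/4) (4*T), (ENNReal.ofReal (8 * C ^ 4 * (4 * ρ * T) ^ 4) +
        ENNReal.ofReal (128 * C ^ 4 * T ^ 2) * ENNReal.ofReal (M (B0 Y) b (t - ρ/2))) := by
        exact mul_le_mul' le_rfl (setLIntegral_mono' measurableSet_Icc p2)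
    _ = ENNReal.ofReal (2 * (4 * T)) * (ENNReal.ofReal (8 * C ^ 4 * (4 * ρ * T) ^ 4) * ENNReal.ofReal (4 * T - T/4) +
        ENNReal.ofReal (128 * C ^ 4 * T ^ 2) * ∫⁻ t in Icc (T/4) (4*T), ENNReal.ofReal (M (B0 Y) b (t - ρ/2))) := by
        rw [lintegral_add_left measurable_const, setLIntegral_const, Real.volume_Icc,
          lintegral_const_mul' _ _ ENNReal.ofReal_ne_top]
    _ ≤ ENNReal.ofReal (2 * (4 * T)) * (ENNReal.ofReal (8 * C ^ 4 * (4 * ρ * T) ^ 4) * ENNReal.ofReal (4 * T) +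
        ENNReal.ofReal (128 * C ^ 4 * T ^ 2) *
          ENNReal.ofReal (Real.exp Real.pi * (C' * ((J:ℝ) ^ 3 * (J * (2 ^ 23 * (T * ρ ^ (6 - β)))))))) := by
        gcongr
        linarith
    _ = ENNReal.ofReal (2 * (4 * T) * (8 * C ^ 4 * (4 * ρ * T) ^ 4 * (4 * T) +
        128 * C ^ 4 * T ^ 2 * (Real.exp Real.pi * (C' * ((J:ℝ) ^ 3 * (J * (2 ^ 23 * (T * ρ ^ (6 - β))))))))) := by
        exact ofReal_alg (by positivity) (by positivity) (by positivity) (by positivity) (by positivity)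
    _ ≤ _ := by
        apply ENNReal.ofReal_le_ofReal
        have q1 : 0 ≤ ρ ^ 4 * T ^ 6 := by positivity
        have q2 : 0 ≤ (J:ℝ) ^ 4 * (T ^ 4 * ρ ^ (6 - β)) := by positivity
        have q3 : 2 * (4 * T) * (8 * C ^ 4 * (4 * ρ * T) ^ 4 * (4 * T) +
          128 * C ^ 4 * T ^ 2 * (Real.exp Real.pi * (C' * ((J:ℝ) ^ 3 * (J * (2 ^ 23 * (T * ρ ^ (6 - β)))))))) =
          (2 ^ 16 * C ^ 4) * (ρ ^ 4 * T ^ 6) +
          (1024 * C ^ 4 * (Real.exp Real.pi * C' * 2 ^ 23)) * ((J:ℝ) ^ 4 * (T ^ 4 * ρ ^ (6 - β))) := by ring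
        rw [q3]
        have q4 : 0 ≤ 2 ^ 16 * C ^ 4 := by positivity
        have q5 : 0 ≤ 1024 * C ^ 4 * (Real.exp Real.pi * C' * 2 ^ 23) := by positivity
        nlinarith [mul_nonneg q4 q2, mul_nonneg q5 q1]

end Pool.Agent.H593.U
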