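import Mathlib
import Pool.Agent.H593.U.Ann

/-!
# Dilation of the set of annuli through four lattice points
-/

open MeasureTheory Set Filter Topology
open Pool.Agent.H383.Gauss
open scoped ENNReal

namespace Pool.Agent.H593.U

/-- the affine function attached to a lattice point -/
noncomputable def gp (p : ℤ × ℤ) (x : (ℝ × ℝ) × ℝ) : ℝ := ((p.1:ℝ)^2 + (p.2:ℝ)^2) - 2 * dp p x.1 - x.2

lemma gp_eq (p : ℤ × ℤ) (a : ℝ × ℝ) (c : ℝ) : d2 p a - (c + sqn a) = gp p (a, c) := by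
  unfold d2 sqn gp dp; ring

lemma sqn_eq (a : ℝ × ℝ) : ‖ac a‖ ^ 2 = sqn a := by
  rw [norm_ac, Real.sq_sqrt (by positivity)]; rfl

lemma norm_pc (p : ℤ × ℤ) : ‖pc p‖ = nz p := nz_norm p

lemma nz_sq (p : ℤ × ℤ) : nz p ^ 2 = (p.1:ℝ)^2 + (p.2:ℝ)^2 := by
  unfold nz; rw [Real.sq_sqrt (by positivity)]

/-- the determinant -/
def dt (p q : ℤ × ℤ) : ℤ := p.1 * q.2 - p.2 * q.1

lemma det_id (p q : ℤ × ℤ) (a : ℝ × ℝ) :
    ac a * (dt p q : ℂ) = Complex.I * ((dp q a : ℂ) * pc p - (dp p a : ℂ) * pc q) := by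
  unfold ac dt dp pc
  apply Complex.ext
  · simp; ring
  · simp; ring

lemma inv_id (p q : ℤ × ℤ) :
    ‖((nz q ^ 2 : ℝ) : ℂ) * pc p - ((nz p ^ 2 : ℝ) : ℂ) * pc q‖ = nz p * nz q * nz (p - q) := by
  have h1 : ∀ r : ℤ × ℤ, ((nz r ^ 2 : ℝ) : ℂ) = pc r * (starRingEnd ℂ) (pc r) := by
    intro r
    rw [Complex.mul_conj, Complex.normSq_eq_norm_sq, norm_pc]
  have h2 : pc (p - q) = pc p - pc q := by
    unfold pc; simp only [Prod.fst_sub, Prod.snd_sub]; push_cast; ring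
  rw [h1, h1]
  have h3 : pc q * (starRingEnd ℂ) (pc q) * pc p - pc p * (starRingEnd ℂ) (pc p) * pc q =
      -(pc p * pc q * (starRingEnd ℂ) (pc (p - q))) := by
    rw [h2, map_sub]; ring
  rw [h3, norm_neg, norm_mul, norm_mul, RCLike.norm_conj, norm_pc, norm_pc, norm_pc]

lemma det_lower {p q : ℤ × ℤ} (hp : p ≠ 0) (hq : q ≠ 0) (hpq : p ≠ q) {s T : ℝ} (hs : s ≤ 1/8)
    (hT : 1 ≤ T) {x : (ℝ × ℝ) × ℝ} (hx : |x.2| ≤ s) (h1 : |gp p x| ≤ s) (h2 : |gp q x| ≤ s)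
    (ha : ‖ac x.1‖ ≤ 3 * T) :
    nz p * nz q * nz (p - q) ≤ 12 * T * |(dt p q : ℝ)| := by
  have hP := nz_ge_one hp
  have hQ := nz_ge_one hq
  have hD := nz_ge_one (sub_ne_zero.mpr hpq)
  set P := nz p
  set Qn := nz q
  set D := nz (p - q)
  obtain ⟨ep, hep⟩ : ∃ ep : ℝ, ep = dp p x.1 - P ^ 2 / 2 := ⟨_, rfl⟩
  obtain ⟨eq, heq⟩ : ∃ eq : ℝ, eq = dp q x.1 - Qn ^ 2 / 2 := ⟨_, rfl⟩
  have he1 : |ep| ≤ s := by
    have : ep = -(x.2 + gp p x)/2 := by
      rw [hep]; unfold gp; rw [← nz_sq]; ring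
    rw [this, abs_div, abs_neg]
    have := abs_add_le x.2 (gp p x)
    have h22 : |(2:ℝ)| = 2 := by norm_num
    rw [h22]
    linarith
  have he2 : |eq| ≤ s := by
    have : eq = -(x.2 + gp q x)/2 := by
      rw [heq]; unfold gp; rw [← nz_sq]; ring
    rw [this, abs_div, abs_neg]
    have := abs_add_le x.2 (gp q x)
    have h22 : |(2:ℝ)| = 2 := by norm_num
    rw [h22]
    linarith
  have hid := det_id p q x.1
  have hdp : (dp p x.1 : ℂ) = ((P ^ 2 : ℝ) : ℂ) / 2 + (ep : ℂ) := by rw [hep]; push_cast; ring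
  have hdq : (dp q x.1 : ℂ) = ((Qn ^ 2 : ℝ) : ℂ) / 2 + (eq : ℂ) := by rw [heq]; push_cast; ring
  have hn : ‖ac x.1‖ * |(dt p q : ℝ)| = ‖(1/2 : ℂ) * (((Qn ^ 2 : ℝ) : ℂ) * pc p - ((P ^ 2 : ℝ) : ℂ) * pc q) +
      ((eq : ℂ) * pc p - (ep : ℂ) * pc q)‖ := by
    have := congrArg norm hid
    rw [norm_mul, norm_mul, Complex.norm_I, one_mul] at this
    have e0 : ‖(dt p q : ℂ)‖ = |(dt p q : ℝ)| := by
      rw [show (dt p q : ℂ) = ((dt p q : ℝ) : ℂ) by push_cast; rfl, Complex.norm_real, Real.norm_eq_abs]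
    rw [e0] at this
    rw [this, hdp, hdq]
    congr 1; ring
  have hmain : ‖(1/2 : ℂ) * (((Qn ^ 2 : ℝ) : ℂ) * pc p - ((P ^ 2 : ℝ) : ℂ) * pc q)‖ = P * Qn * D / 2 := by
    rw [norm_mul, inv_id]
    norm_num
    ring
  have herr : ‖(eq : ℂ) * pc p - (ep : ℂ) * pc q‖ ≤ s * (P + Qn) := by
    refine (norm_sub_le _ _).trans ?_
    rw [norm_mul, norm_mul, Complex.norm_real, Complex.norm_real, Real.norm_eq_abs, Real.norm_eq_abs,
      norm_pc, norm_pc]
    have a1 : |eq| * P ≤ s * P := by gcongr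
    have a2 : |ep| * Qn ≤ s * Qn := by gcongr
    calc |eq| * nz p + |ep| * nz q ≤ s * P + s * Qn := add_le_add a1 a2
      _ = _ := by ring
  have htri := norm_sub_le_norm_add ((1/2 : ℂ) * (((Qn ^ 2 : ℝ) : ℂ) * pc p - ((P ^ 2 : ℝ) : ℂ) * pc q))
    ((eq : ℂ) * pc p - (ep : ℂ) * pc q)
  rw [← hn, hmain] at htri
  have hsm : s * (P + Qn) ≤ P * Qn * D / 4 := by
    have b1 : P + Qn ≤ 2 * (P * Qn) := by nlinarith
    have b2 : P * Qn ≤ P * Qn * D := by
      have : 0 ≤ P * Qn := by positivity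
      nlinarith
    have b3 : 0 ≤ P + Qn := by positivity
    calc s * (P + Qn) ≤ (1/8) * (P + Qn) := by gcongr
      _ ≤ _ := by linarith
  have hfin : P * Qn * D / 4 ≤ ‖ac x.1‖ * |(dt p q : ℝ)| := by linarith
  have : ‖ac x.1‖ * |(dt p q : ℝ)| ≤ 3 * T * |(dt p q : ℝ)| := by gcongr
  linarith

lemma nz_add_le (p q : ℤ × ℤ) : nz (p + q) ≤ nz p + nz q := by
  rw [← norm_pc, ← norm_pc, ← norm_pc]
  have h2 : pc (p + q) = pc p + pc q := by
    unfold pc; simp only [Prod.fst_add, Prod.snd_add]; push_cast; ring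
  rw [h2]; exact norm_add_le _ _

lemma sum_le_det {p q : ℤ × ℤ} (hp : p ≠ 0) (hq : q ≠ 0) (hpq : p ≠ q) {T : ℝ}
    (hT : 1 ≤ T) (h : nz p * nz q * nz (p - q) ≤ 12 * T * |(dt p q : ℝ)|) :
    nz p + nz q ≤ 9 * √T * |(dt p q : ℝ)| ∧ 1 ≤ |(dt p q : ℝ)| := by
  have hP := nz_ge_one hp
  have hQ := nz_ge_one hq
  have hD := nz_ge_one (sub_ne_zero.mpr hpq)
  have t1 : nz p ≤ nz q + nz (p - q) := by
    have := nz_add_le q (p - q)
    rwa [add_sub_cancel] at this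
  have t2 : nz q ≤ nz p + nz (p - q) := by
    have := nz_add_le p (q - p)
    rw [add_sub_cancel] at this
    rwa [← nz_neg (q - p), neg_sub] at this
  have hd0 : dt p q ≠ 0 := by
    intro h0
    rw [h0] at h
    simp only [Int.cast_zero, abs_zero, mul_zero] at h
    have : 0 < nz p * nz q * nz (p - q) := by positivity
    linarith
  have hd1 : 1 ≤ |(dt p q : ℝ)| := by
    have := Int.one_le_abs hd0
    exact_mod_cast this
  refine ⟨?_, hd1⟩
  set P := nz p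
  set Qn := nz q
  set D := nz (p - q)
  set δ := |(dt p q : ℝ)|
  have hsq1 : 1 ≤ √T := Real.one_le_sqrt.mpr hT
  have hsqt : √T * √T = T := Real.mul_self_sqrt (by linarith)
  set r := √T
  -- symmetric argument
  have key : ∀ m n : ℝ, 1 ≤ m → m ≤ n → n ≤ m + D → m * n * D ≤ 12 * T * δ → m + n ≤ 9 * r * δ := by
    intro m n hm hmn hn hmul
    rcases le_total (m * D) (3 * r) with hc | hc
    · have : m + n ≤ 3 * (m * D) := by nlinarith
      calc m + n ≤ 3 * (3 * r) := this.trans (by linarith)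
        _ = 9 * r * 1 := by ring
        _ ≤ 9 * r * δ := by gcongr
    · have h3 : n * (3 * r) ≤ 12 * (r * r) * δ := by
        calc n * (3 * r) ≤ n * (m * D) := by
              have : 0 ≤ n := by linarith
              gcongr
          _ = m * n * D := by ring
          _ ≤ 12 * T * δ := hmul
          _ = _ := by rw [hsqt]
      have h4 : n ≤ 4 * r * δ := by
        have hr : 0 < 3 * r := by linarith
        have : n * (3 * r) ≤ (4 * r * δ) * (3 * r) := by linarith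
        exact le_of_mul_le_mul_right this hr
      have h5 : 0 ≤ r * δ := by positivity
      linarith
  rcases le_total P Qn with h1 | h1
  · exact key P Qn hP h1 t2 h
  · have := key Qn P hQ h1 t1 (by linarith [mul_comm P Qn])
    linarith

/-- displacement bound -/
lemma disp {p q : ℤ × ℤ} (hp : p ≠ 0) (hq : q ≠ 0) (hpq : p ≠ q) {s T : ℝ} (hs : s ≤ 1/8)
    (hT : 1 ≤ T) {x y : (ℝ × ℝ) × ℝ} (hx : |x.2| ≤ s) (h1 : |gp p x| ≤ s) (h2 : |gp q x| ≤ s)
    (hy : |y.2| ≤ s) (h3 : |gp p y| ≤ s) (h4 : |gp q y| ≤ s)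
    (ha : ‖ac x.1‖ ≤ 3 * T) : ‖ac (x.1 - y.1)‖ ≤ 18 * s * √T := by
  obtain ⟨k1, k2⟩ := sum_le_det hp hq hpq hT (det_lower hp hq hpq hs hT hx h1 h2 ha)
  have hdp : ∀ r : ℤ × ℤ, |gp r x| ≤ s → |gp r y| ≤ s → |dp r (x.1 - y.1)| ≤ 2 * s := by
    intro r hr1 hr2
    have : dp r (x.1 - y.1) = (-(gp r x - gp r y) - (x.2 - y.2))/2 := by
      unfold gp dp; simp only [Prod.fst_sub, Prod.snd_sub]; ring
    rw [this, abs_div]
    have e1 := abs_sub (-(gp r x - gp r y)) (x.2 - y.2)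
    have e2 := abs_sub (gp r x) (gp r y)
    have e3 := abs_sub x.2 y.2
    rw [abs_neg] at e1
    have h22 : |(2:ℝ)| = 2 := by norm_num
    rw [h22]
    linarith
  have g1 := hdp p h1 h3
  have g2 := hdp q h2 h4
  have hid := det_id p q (x.1 - y.1)
  have := congrArg norm hid
  rw [norm_mul, norm_mul, Complex.norm_I, one_mul] at this
  have e0 : ‖(dt p q : ℂ)‖ = |(dt p q : ℝ)| := by
    rw [show (dt p q : ℂ) = ((dt p q : ℝ) : ℂ) by push_cast; rfl, Complex.norm_real, Real.norm_eq_abs]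
  rw [e0] at this
  have hb : ‖(dp q (x.1 - y.1) : ℂ) * pc p - (dp p (x.1 - y.1) : ℂ) * pc q‖ ≤ 2 * s * (nz p + nz q) := by
    refine (norm_sub_le _ _).trans ?_
    rw [norm_mul, norm_mul, Complex.norm_real, Complex.norm_real, Real.norm_eq_abs, Real.norm_eq_abs,
      norm_pc, norm_pc]
    have a1 : |dp q (x.1 - y.1)| * nz p ≤ 2 * s * nz p := by
      have := nz_nonneg p; gcongr
    have a2 : |dp p (x.1 - y.1)| * nz q ≤ 2 * s * nz q := by
      have := nz_nonneg q; gcongr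
    linarith
  have hs0 : 0 ≤ s := (abs_nonneg _).trans hx
  have hfin : ‖ac (x.1 - y.1)‖ * |(dt p q : ℝ)| ≤ (18 * s * √T) * |(dt p q : ℝ)| := by
    rw [this]
    refine hb.trans ?_
    calc 2 * s * (nz p + nz q) ≤ 2 * s * (9 * √T * |(dt p q : ℝ)|) := by gcongr
      _ = _ := by ring
  exact le_of_mul_le_mul_right hfin (by linarith)

end Pool.Agent.H593.U
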