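import Mathlib
import Pool.Agent.H593.U.A2a

/-!
# Dilation and volume
-/

open MeasureTheory Set Filter Topology
open Pool.Agent.H383.Gauss
open scoped ENNReal

namespace Pool.Agent.H593.U

/-- the polytope of the constraints -/
def cst (s : ℝ) (P : (ℤ × ℤ) × (ℤ × ℤ) × (ℤ × ℤ)) : Set ((ℝ × ℝ) × ℝ) :=
  {x | |x.2| ≤ s ∧ |gp P.1 x| ≤ s ∧ |gp P.2.1 x| ≤ s ∧ |gp P.2.2 x| ≤ s}

/-- the polytope restricted to a range of radii -/
def US (s lo hi : ℝ) (P : (ℤ × ℤ) × (ℤ × ℤ) × (ℤ × ℤ)) : Set ((ℝ × ℝ) × ℝ) :=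
  {x | x ∈ cst s P ∧ x.2 + sqn x.1 ∈ Icc lo hi}

lemma gp_dil (r : ℤ × ℤ) (x y : (ℝ × ℝ) × ℝ) (l : ℝ) :
    gp r (l • (x - y) + y) = (1 - l) * gp r y + l * gp r x := by
  unfold gp dp
  simp only [Prod.fst_add, Prod.snd_add, Prod.smul_fst, Prod.smul_snd, Prod.fst_sub, Prod.snd_sub, smul_eq_mul]
  ring

lemma abs_comb_le {l s u v : ℝ} (hl : 1 ≤ l) (hu : |u| ≤ s) (hv : |v| ≤ s) :
    |(1 - l) * u + l * v| ≤ 2 * l * s := by
  have h1 := abs_add_le ((1 - l) * u) (l * v)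
  rw [abs_mul, abs_mul, abs_of_nonpos (by linarith : 1 - l ≤ 0), abs_of_nonneg (by linarith : 0 ≤ l)] at h1
  have h2 : -(1 - l) * |u| ≤ -(1 - l) * s := by
    apply mul_le_mul_of_nonneg_left hu; linarith
  have h3 : l * |v| ≤ l * s := by
    apply mul_le_mul_of_nonneg_left hv; linarith
  have hs : 0 ≤ s := (abs_nonneg _).trans hu
  nlinarith

lemma dil_mem {P : (ℤ × ℤ) × (ℤ × ℤ) × (ℤ × ℤ)} (h1 : P.1 ≠ 0) (h2 : P.2.1 ≠ 0) (h3 : P.1 ≠ P.2.1)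
    {T s l : ℝ} (hT : 1 ≤ T) (hs : s ≤ 1/8) (hl : 1 ≤ l) (hls : l * s ≤ √T / 1000)
    {x y : (ℝ × ℝ) × ℝ} (hx : x ∈ US s (T^2/4) (8*T^2) P) (hy : y ∈ US s (T^2/4) (8*T^2) P) :
    l • (x - y) + y ∈ US (2 * l * s) ((T/4)^2) ((4*T)^2) P := by
  obtain ⟨⟨x0, x1, x2, x3⟩, x4⟩ := hx
  obtain ⟨⟨y0, y1, y2, y3⟩, y4⟩ := hy
  rw [Set.mem_Icc] at x4 y4
  have hs0 : 0 ≤ s := (abs_nonneg _).trans x0
  have hT2 : 1 ≤ T ^ 2 := one_le_pow₀ hT
  have hxb : ‖ac x.1‖ ≤ 3 * T := by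
    apply abs_le_of_sq_le_sq' _ (by linarith) |>.2
    rw [sqn_eq]
    have := neg_abs_le x.2
    nlinarith [x4.2]
  have hd := disp h1 h2 h3 hs hT x0 x1 x2 y0 y1 y2 hxb
  set z := l • (x - y) + y with hz
  have hz2 : |z.2| ≤ 2 * l * s := by
    have : z.2 = (1 - l) * y.2 + l * x.2 := by
      rw [hz]; simp only [Prod.snd_add, Prod.smul_snd, Prod.snd_sub, smul_eq_mul]; ring
    rw [this]
    exact abs_comb_le hl y0 x0
  have hac : ac z.1 = (l : ℂ) * ac (x.1 - y.1) + ac y.1 := by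
    rw [hz]; unfold ac
    simp only [Prod.fst_add, Prod.snd_add, Prod.smul_fst, Prod.smul_snd, Prod.fst_sub, Prod.snd_sub, smul_eq_mul]
    push_cast; ring
  have hsq1 : 1 ≤ √T := Real.one_le_sqrt.mpr hT
  have hsqt : √T * √T = T := Real.mul_self_sqrt (by linarith)
  have hsqT : √T ≤ T ^ 2 := by nlinarith
  have hdz : ‖(l : ℂ) * ac (x.1 - y.1)‖ ≤ 18 * T / 1000 := by
    rw [norm_mul, Complex.norm_real, Real.norm_eq_abs, abs_of_nonneg (by linarith : 0 ≤ l)]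
    calc l * ‖ac (x.1 - y.1)‖ ≤ l * (18 * s * √T) := by gcongr
      _ = 18 * (l * s) * √T := by ring
      _ ≤ 18 * (√T / 1000) * √T := by gcongr
      _ = 18 * (√T * √T) / 1000 := by ring
      _ = _ := by rw [hsqt]
  have hN := sqn_eq y.1
  have hN' := sqn_eq z.1
  have hup : ‖ac z.1‖ ≤ ‖ac y.1‖ + 18 * T / 1000 := by
    rw [hac]
    refine (norm_add_le _ _).trans ?_
    linarith
  have hlo : ‖ac y.1‖ - 18 * T / 1000 ≤ ‖ac z.1‖ := by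
    have : ac y.1 = ac z.1 - (l : ℂ) * ac (x.1 - y.1) := by rw [hac]; ring
    have h5 := norm_sub_le (ac z.1) ((l : ℂ) * ac (x.1 - y.1))
    rw [← this] at h5
    linarith
  have hNn := norm_nonneg (ac y.1)
  have hNn' := norm_nonneg (ac z.1)
  have b1 := (abs_le.mp y0)
  have b2 := (abs_le.mp hz2)
  have hlo1 : 35/100 * T ≤ ‖ac y.1‖ := by
    apply abs_le_of_sq_le_sq' _ hNn |>.2
    rw [hN]; nlinarith [y4.1, b1.2]
  have hup1 : ‖ac y.1‖ ≤ 286/100 * T := by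
    apply abs_le_of_sq_le_sq' _ (by linarith) |>.2
    rw [hN]; nlinarith [y4.2, b1.1]
  have hlo2 : 33/100 * T ≤ ‖ac z.1‖ := by linarith
  have hup2 : ‖ac z.1‖ ≤ 288/100 * T := by linarith
  have hlo3 : (33/100 * T) ^ 2 ≤ sqn z.1 := by
    rw [← hN']; gcongr
  have hup3 : sqn z.1 ≤ (288/100 * T) ^ 2 := by
    rw [← hN']; gcongr
  have hls2 : 2 * l * s ≤ T ^ 2 / 500 := by
    have : 2 * l * s = 2 * (l * s) := by ring
    rw [this]; linarith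
  refine ⟨⟨hz2, ?_, ?_, ?_⟩, ?_, ?_⟩
  · rw [gp_dil]; exact abs_comb_le hl y1 x1
  · rw [gp_dil]; exact abs_comb_le hl y2 x2
  · rw [gp_dil]; exact abs_comb_le hl y3 x3
  · nlinarith
  · nlinarith

lemma haar2 : (volume : Measure (ℝ × ℝ)).IsAddHaarMeasure := by
  rw [Measure.volume_eq_prod]; infer_instance

lemma haar3 : (volume : Measure ((ℝ × ℝ) × ℝ)).IsAddHaarMeasure := by
  rw [Measure.volume_eq_prod]
  have := haar2
  exact Measure.prod.instIsAddHaarMeasure volume volume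

lemma vol_dil {P : (ℤ × ℤ) × (ℤ × ℤ) × (ℤ × ℤ)} (h1 : P.1 ≠ 0) (h2 : P.2.1 ≠ 0) (h3 : P.1 ≠ P.2.1)
    {T s l : ℝ} (hT : 1 ≤ T) (hs : s ≤ 1/8) (hl : 1 ≤ l) (hls : l * s ≤ √T / 1000) :
    ENNReal.ofReal (l ^ 3) * volume (US s (T^2/4) (8*T^2) P) ≤
      volume (US (2 * l * s) ((T/4)^2) ((4*T)^2) P) := by
  rcases Set.eq_empty_or_nonempty (US s (T^2/4) (8*T^2) P) with h | ⟨y, hy⟩
  · rw [h]; simp
  · have hh := haar3
    have h4 := Measure.addHaar_image_homothety (volume : Measure ((ℝ × ℝ) × ℝ)) y l (US s (T^2/4) (8*T^2) P)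
    have hf : Module.finrank ℝ ((ℝ × ℝ) × ℝ) = 3 := by simp
    rw [hf, abs_of_nonneg (by positivity)] at h4
    rw [← h4]
    apply measure_mono
    rintro z ⟨x, hx, rfl⟩
    rw [AffineMap.homothety_apply]
    exact dil_mem h1 h2 h3 hT hs hl hls hx hy

end Pool.Agent.H593.U
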