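import Mathlib
import Pool.Agent.H593.U.A2b

/-!
# Thin annuli: counting quadruples
-/

open MeasureTheory Set Filter Topology
open Pool.Agent.H383.Gauss
open scoped ENNReal

namespace Pool.Agent.H593.U

/-- triples of lattice points -/
abbrev Z3 := (ℤ × ℤ) × (ℤ × ℤ) × (ℤ × ℤ)

lemma chi_le_one (p : ℤ × ℤ) (a : ℝ × ℝ) (v s : ℝ) : chi p a v s ≤ 1 := by
  by_cases h : |d2 p a - v| ≤ s
  · rw [chi_one h]
  · rw [chi_nil h]; exact zero_le

lemma chi_sq (p : ℤ × ℤ) (a : ℝ × ℝ) (v s : ℝ) : chi p a v s * chi p a v s = chi p a v s := by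
  by_cases h : |d2 p a - v| ≤ s
  · rw [chi_one h, one_mul]
  · rw [chi_nil h, zero_mul]

lemma nn_periodic (a : ℝ × ℝ) (q : ℤ × ℤ) (v s : ℝ) : nn (a - zc q) v s = nn a v s := by
  unfold nn
  simp_rw [← chi_shift]
  exact (Equiv.addLeft q).tsum_eq (fun p => chi p a v s)

lemma nn_eq_zero_sum (a : ℝ × ℝ) (v s : ℝ) : nn a v s = ∑' q : ℤ × ℤ, chi 0 (a - zc q) v s := by
  unfold nn
  congr 1
  ext q
  rw [← chi_shift, add_zero]

/-- indicator of a quadruple -/
noncomputable def GG (P : Z3) (a : ℝ × ℝ) (v s : ℝ) : ℝ≥0∞ :=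
  chi 0 a v s * (chi P.1 a v s * (chi P.2.1 a v s * chi P.2.2 a v s))

lemma measurable_GG (P : Z3) (s : ℝ) : Measurable (fun x : (ℝ × ℝ) × ℝ => GG P x.1 x.2 s) := by
  unfold GG
  exact (measurable_chi 0 s).mul ((measurable_chi P.1 s).mul ((measurable_chi P.2.1 s).mul (measurable_chi P.2.2 s)))

lemma measurable_GG_left (P : Z3) (v s : ℝ) : Measurable (fun a : ℝ × ℝ => GG P a v s) := by
  have h := (measurable_GG P s).comp (measurable_mk v)
  exact h

lemma tsum_three (u : ℤ × ℤ → ℤ × ℤ → ℝ≥0∞) (x : ℤ × ℤ → ℝ≥0∞) :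
    ∑' P : Z3, u P.1 P.2.1 * (x P.1 * (x P.2.1 * x P.2.2)) =
      (∑' p, ∑' q, u p q * (x p * x q)) * ∑' r, x r := by
  rw [ENNReal.tsum_prod (f := fun a (b : (ℤ × ℤ) × (ℤ × ℤ)) => u a b.1 * (x a * (x b.1 * x b.2)))]
  rw [← ENNReal.tsum_mul_right]
  congr 1
  ext p
  rw [ENNReal.tsum_prod (f := fun b c => u p b * (x p * (x b * x c)))]
  rw [← ENNReal.tsum_mul_right]
  congr 1
  ext q
  rw [← ENNReal.tsum_mul_left]
  congr 1
  ext r
  ring

/-- sum over all triples -/
lemma tsum_GG (a : ℝ × ℝ) (v s : ℝ) : ∑' P : Z3, GG P a v s = chi 0 a v s * nn a v s ^ 3 := by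
  unfold GG
  rw [ENNReal.tsum_mul_left]
  congr 1
  have := tsum_three (fun _ _ => 1) (fun p => chi p a v s)
  simp only [one_mul] at this
  rw [this]
  have h2 : ∑' p, ∑' q, chi p a v s * chi q a v s = nn a v s * nn a v s := by
    unfold nn
    rw [← ENNReal.tsum_mul_right]
    congr 1
    ext p
    rw [ENNReal.tsum_mul_left]
  rw [h2]
  change nn a v s * nn a v s * nn a v s = _
  ring

/-- weight of distinctness -/
noncomputable def wd (P : Z3) : ℝ≥0∞ := if P.1 ≠ 0 ∧ P.2.1 ≠ 0 ∧ P.1 ≠ P.2.1 then 1 else 0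

lemma one_le_wd (P : Z3) : (1:ℝ≥0∞) ≤ wd P + ((if P.1 = 0 then 1 else 0) + ((if P.2.1 = 0 then 1 else 0) +
    (if P.1 = P.2.1 then 1 else 0))) := by
  unfold wd
  by_cases h1 : P.1 = 0
  · simp only [h1, if_true]
    exact le_add_left le_self_add
  · by_cases h2 : P.2.1 = 0
    · simp only [h2, if_true]
      exact le_add_left (le_add_left le_self_add)
    · by_cases h3 : P.1 = P.2.1
      · simp only [h3, if_true]
        exact le_add_left (le_add_left (le_add_left le_rfl))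
      · rw [if_pos ⟨h1, h2, h3⟩]
        exact le_self_add

lemma degen (a : ℝ × ℝ) (v s : ℝ) (u : ℤ × ℤ → ℤ × ℤ → ℝ≥0∞)
    (hu : ∑' p, ∑' q, u p q * (chi p a v s * chi q a v s) ≤ nn a v s) :
    ∑' P : Z3, u P.1 P.2.1 * GG P a v s ≤ chi 0 a v s * nn a v s ^ 2 := by
  have e : ∀ P : Z3, u P.1 P.2.1 * GG P a v s =
      chi 0 a v s * (u P.1 P.2.1 * (chi P.1 a v s * (chi P.2.1 a v s * chi P.2.2 a v s))) := by
    intro P; unfold GG; ring
  simp_rw [e]
  rw [ENNReal.tsum_mul_left]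
  gcongr
  rw [tsum_three u (fun p => chi p a v s)]
  rw [sq]
  exact mul_le_mul' hu le_rfl

lemma claim_GG (a : ℝ × ℝ) (v s : ℝ) :
    chi 0 a v s * nn a v s ^ 3 ≤ ∑' P : Z3, wd P * GG P a v s + 3 * (chi 0 a v s * nn a v s ^ 2) := by
  rw [← tsum_GG]
  have h1 : ∑' P : Z3, GG P a v s ≤ ∑' P : Z3, (wd P * GG P a v s + ((if P.1 = 0 then 1 else 0) * GG P a v s +
      ((if P.2.1 = 0 then 1 else 0) * GG P a v s + (if P.1 = P.2.1 then 1 else 0) * GG P a v s))) := by
    apply ENNReal.tsum_le_tsum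
    intro P
    have := mul_le_mul' (one_le_wd P) (le_refl (GG P a v s))
    rw [one_mul, add_mul, add_mul, add_mul] at this
    exact this
  refine h1.trans ?_
  rw [ENNReal.tsum_add, ENNReal.tsum_add, ENNReal.tsum_add]
  have k1 := degen a v s (fun p _ => if p = 0 then 1 else 0) (by
    rw [tsum_eq_single 0]
    · simp only [if_true, one_mul]
      rw [ENNReal.tsum_mul_left]
      calc chi 0 a v s * ∑' q, chi q a v s ≤ 1 * ∑' q, chi q a v s := mul_le_mul' (chi_le_one _ _ _ _) le_rfl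
        _ = _ := by rw [one_mul]; rfl
    · intro p hp
      simp [hp])
  have k2 := degen a v s (fun _ q => if q = 0 then 1 else 0) (by
    rw [show nn a v s = ∑' p, chi p a v s from rfl]
    apply ENNReal.tsum_le_tsum
    intro p
    rw [tsum_eq_single 0]
    · simp only [if_true, one_mul]
      calc chi p a v s * chi 0 a v s ≤ chi p a v s * 1 := mul_le_mul' le_rfl (chi_le_one _ _ _ _)
        _ = _ := mul_one _
    · intro q hq
      simp [hq])
  have k3 := degen a v s (fun p q => if p = q then 1 else 0) (by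
    rw [show nn a v s = ∑' p, chi p a v s from rfl]
    apply ENNReal.tsum_le_tsum
    intro p
    rw [tsum_eq_single p]
    · simp only [if_true, one_mul]
      rw [chi_sq]
    · intro q hq
      simp [hq.symm])
  calc _ ≤ ∑' P : Z3, wd P * GG P a v s + (chi 0 a v s * nn a v s ^ 2 + (chi 0 a v s * nn a v s ^ 2 + chi 0 a v s * nn a v s ^ 2)) := by
        gcongr
    _ = _ := by ring

/-- the count of quadruples with weights -/
noncomputable def ZZ (w : Z3 → ℝ≥0∞) (a : ℝ × ℝ) (v s : ℝ) : ℝ≥0∞ :=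
  ∑' q : ℤ × ℤ, ∑' P : Z3, w P * GG P (a - zc q) v s

lemma ZZ_one (a : ℝ × ℝ) (v s : ℝ) : ZZ (fun _ => 1) a v s = nn a v s ^ 4 := by
  unfold ZZ
  simp only [one_mul]
  simp_rw [tsum_GG, nn_periodic]
  rw [ENNReal.tsum_mul_right, ← nn_eq_zero_sum]
  ring

lemma nn_pow_le' (a : ℝ × ℝ) (v s : ℝ) : nn a v s ^ 4 ≤ ZZ wd a v s + 3 * nn a v s ^ 3 := by
  have h : ∀ q : ℤ × ℤ, chi 0 (a - zc q) v s * nn a v s ^ 3 ≤
      ∑' P : Z3, wd P * GG P (a - zc q) v s + 3 * (chi 0 (a - zc q) v s * nn a v s ^ 2) := by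
    intro q
    have := claim_GG (a - zc q) v s
    rwa [nn_periodic] at this
  have h2 := ENNReal.tsum_le_tsum h
  rw [ENNReal.tsum_add, ENNReal.tsum_mul_right, ENNReal.tsum_mul_left, ENNReal.tsum_mul_right,
    ← nn_eq_zero_sum] at h2
  calc nn a v s ^ 4 = nn a v s * nn a v s ^ 3 := by ring
    _ ≤ _ := h2
    _ = _ := by unfold ZZ; ring

lemma nat_pow_aux (n : ℕ) (Z : ℝ≥0∞) (h : (n:ℝ≥0∞) ^ 4 ≤ Z + 3 * (n:ℝ≥0∞) ^ 3) :
    (n:ℝ≥0∞) ^ 4 ≤ 27 * n + 4 * Z := by
  rcases le_or_gt n 3 with h3 | h3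
  · refine le_trans ?_ le_self_add
    have : n ^ 4 ≤ 27 * n := by interval_cases n <;> norm_num
    exact_mod_cast this
  · refine le_trans ?_ le_add_self
    by_cases hZ : Z = ⊤
    · rw [hZ]; simp
    · have hZ2 : Z = ENNReal.ofReal Z.toReal := (ENNReal.ofReal_toReal hZ).symm
      rw [hZ2] at h ⊢
      have hn : (n:ℝ≥0∞) = ENNReal.ofReal (n:ℝ) := (ENNReal.ofReal_natCast n).symm
      have e3 : (3:ℝ≥0∞) = ENNReal.ofReal 3 := by simp
      have e4 : (4:ℝ≥0∞) = ENNReal.ofReal 4 := by simp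
      have hz0 : 0 ≤ Z.toReal := ENNReal.toReal_nonneg
      have hn0 : (0:ℝ) ≤ n := Nat.cast_nonneg n
      rw [hn, e3, ← ENNReal.ofReal_pow hn0, ← ENNReal.ofReal_pow hn0, ← ENNReal.ofReal_mul (by norm_num),
        ← ENNReal.ofReal_add hz0 (by positivity), ENNReal.ofReal_le_ofReal_iff (by positivity)] at h
      rw [hn, e4, ← ENNReal.ofReal_pow hn0, ← ENNReal.ofReal_mul (by norm_num)]
      apply ENNReal.ofReal_le_ofReal
      have h4 : (4:ℝ) ≤ n := by exact_mod_cast h3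
      have h5 : 4 * (n:ℝ) ^ 3 ≤ (n:ℝ) ^ 4 := by
        have : (0:ℝ) ≤ (n:ℝ) ^ 3 := by positivity
        nlinarith
      linarith

lemma nn_pow_le (a : ℝ × ℝ) (v s : ℝ) : nn a v s ^ 4 ≤ 27 * nn a v s + 4 * ZZ wd a v s := by
  have h := nn_pow_le' a v s
  rw [nn_eq] at h ⊢
  exact nat_pow_aux _ _ h

lemma int_ZZ (w : Z3 → ℝ≥0∞) (v s : ℝ) :
    ∫⁻ a in Q, ZZ w a v s = ∑' P : Z3, w P * ∫⁻ a, GG P a v s := by
  unfold ZZ
  have hm : ∀ P : Z3, Measurable (fun a : ℝ × ℝ => w P * GG P a v s) :=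
    fun P => (measurable_GG_left P v s).const_mul _
  rw [unfold_Q (g := fun a => ∑' P : Z3, w P * GG P a v s) (Measurable.tsum hm)]
  rw [lintegral_tsum (fun P => (hm P).aemeasurable)]
  congr 1
  ext P
  rw [lintegral_const_mul _ (measurable_GG_left P v s)]

lemma measurableSet_US (s lo hi : ℝ) (P : Z3) : MeasurableSet (US s lo hi P) := by
  have h1 : ∀ p : ℤ × ℤ, Continuous (gp p) := by
    intro p
    have := continuous_dp p
    unfold gp
    fun_prop
  have h2 := continuous_sqn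
  have e : US s lo hi P = ({x | |x.2| ≤ s} ∩ ({x | |gp P.1 x| ≤ s} ∩ ({x | |gp P.2.1 x| ≤ s} ∩ {x | |gp P.2.2 x| ≤ s}))) ∩
      {x | x.2 + sqn x.1 ∈ Icc lo hi} := by
    ext x; rfl
  rw [e]
  have c1 := h1 P.1
  have c2 := h1 P.2.1
  have c3 := h1 P.2.2
  refine MeasurableSet.inter (MeasurableSet.inter ?_ (MeasurableSet.inter ?_ (MeasurableSet.inter ?_ ?_))) ?_
  · exact (isClosed_le (by fun_prop) continuous_const).measurableSet
  · exact (isClosed_le (by fun_prop) continuous_const).measurableSet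
  · exact (isClosed_le (by fun_prop) continuous_const).measurableSet
  · exact (isClosed_le (by fun_prop) continuous_const).measurableSet
  · have hc : Continuous (fun x : (ℝ × ℝ) × ℝ => x.2 + sqn x.1) := by fun_prop
    exact (isClosed_Icc.preimage hc).measurableSet

lemma GG_ind (P : Z3) (a : ℝ × ℝ) (c s lo hi : ℝ) :
    (Icc lo hi).indicator (fun v => GG P a v s) (c + sqn a) = (US s lo hi P).indicator (fun _ => 1) (a, c) := by
  have k : ∀ p : ℤ × ℤ, |d2 p a - (c + sqn a)| ≤ s ↔ |gp p (a, c)| ≤ s := by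
    intro p; rw [gp_eq]
  have k0 : |d2 0 a - (c + sqn a)| ≤ s ↔ |c| ≤ s := by
    rw [k]; unfold gp dp; simp
  by_cases h : (a, c) ∈ US s lo hi P
  · rw [Set.indicator_of_mem h]
    obtain ⟨⟨h0, h1, h2, h3⟩, h4⟩ := h
    rw [Set.indicator_of_mem (by exact h4)]
    unfold GG
    rw [chi_one (k0.mpr h0), chi_one ((k _).mpr h1), chi_one ((k _).mpr h2), chi_one ((k _).mpr h3)]
    simp
  · rw [Set.indicator_of_notMem h]
    by_cases h4 : c + sqn a ∈ Icc lo hi
    · rw [Set.indicator_of_mem h4]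
      unfold GG
      by_cases h0 : |c| ≤ s
      · by_cases h1 : |gp P.1 (a, c)| ≤ s
        · by_cases h2 : |gp P.2.1 (a, c)| ≤ s
          · by_cases h3 : |gp P.2.2 (a, c)| ≤ s
            · exact absurd ⟨⟨h0, h1, h2, h3⟩, h4⟩ h
            · rw [chi_nil (fun hh => h3 ((k _).mp hh))]; simp
          · rw [chi_nil (p := P.2.1) (fun hh => h2 ((k _).mp hh))]; simp
        · rw [chi_nil (p := P.1) (fun hh => h1 ((k _).mp hh))]; simp
      · rw [chi_nil (p := 0) (fun hh => h0 (k0.mp hh))]; simp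
    · rw [Set.indicator_of_notMem h4]

lemma measurable_GG_swap (P : Z3) (s : ℝ) : Measurable (fun x : ℝ × (ℝ × ℝ) => GG P x.2 x.1 s) := by
  have h := (measurable_GG P s).comp (measurable_swap (α := ℝ) (β := ℝ × ℝ))
  exact h

lemma vol_US (P : Z3) (s lo hi : ℝ) :
    volume (US s lo hi P) = ∫⁻ a : ℝ × ℝ, ∫⁻ c : ℝ, (US s lo hi P).indicator (fun _ => (1:ℝ≥0∞)) (a, c) := by
  have hU := measurableSet_US s lo hi P
  have h1 : volume (US s lo hi P) = ∫⁻ x : (ℝ × ℝ) × ℝ, (US s lo hi P).indicator (fun _ => (1:ℝ≥0∞)) x := by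
    rw [lintegral_indicator_const hU, one_mul]
  have hm : AEMeasurable (fun x : (ℝ × ℝ) × ℝ => (US s lo hi P).indicator (fun _ => (1:ℝ≥0∞)) x)
      ((volume : Measure (ℝ × ℝ)).prod (volume : Measure ℝ)) :=
    (measurable_const.indicator hU).aemeasurable
  rw [h1, Measure.volume_eq_prod (ℝ × ℝ) ℝ, lintegral_prod _ hm]

lemma int_GG (P : Z3) (s lo hi : ℝ) :
    ∫⁻ v in Icc lo hi, ∫⁻ a, GG P a v s = volume (US s lo hi P) := by
  have hm2 := measurable_GG_swap P s
  rw [← lintegral_indicator measurableSet_Icc]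
  have e1 : ∀ v : ℝ, (Icc lo hi).indicator (fun v => ∫⁻ a, GG P a v s) v =
      ∫⁻ a, (Icc lo hi).indicator (fun v => GG P a v s) v := by
    intro v
    by_cases h : v ∈ Icc lo hi
    · simp only [Set.indicator_of_mem h]
    · simp only [Set.indicator_of_notMem h, lintegral_zero]
  simp_rw [e1]
  have hm3 : AEMeasurable (Function.uncurry fun (x : ℝ) (y : ℝ × ℝ) => (Icc lo hi).indicator (fun v => GG P y v s) x)
      ((volume : Measure ℝ).prod (volume : Measure (ℝ × ℝ))) := by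
    apply Measurable.aemeasurable
    have : (Function.uncurry fun (x : ℝ) (y : ℝ × ℝ) => (Icc lo hi).indicator (fun v => GG P y v s) x) =
        (Prod.fst ⁻¹' (Icc lo hi)).indicator (fun x : ℝ × (ℝ × ℝ) => GG P x.2 x.1 s) := by
      ext x
      rfl
    rw [this]
    exact hm2.indicator (measurableSet_Icc.preimage measurable_fst)
  rw [lintegral_lintegral_swap hm3, vol_US]
  congr 1
  ext a
  rw [← lintegral_add_right_eq_self (fun v => (Icc lo hi).indicator (fun v => GG P a v s) v) (sqn a)]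
  congr 1
  ext c
  exact GG_ind P a c s lo hi

/-- the fourth moment as a sum of volumes -/
lemma MM_eq (lo hi s : ℝ) : MM lo hi s = ∑' P : Z3, volume (US s lo hi P) := by
  unfold MM
  have e : ∀ v : ℝ, ∫⁻ a in Q, nn a v s ^ 4 = ∑' P : Z3, ∫⁻ a, GG P a v s := by
    intro v
    have := int_ZZ (fun _ => 1) v s
    simp_rw [ZZ_one, one_mul] at this
    exact this
  simp_rw [e]
  rw [lintegral_tsum]
  · congr 1
    ext P
    exact int_GG P s lo hi
  · intro P
    apply Measurable.aemeasurable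
    exact (measurable_GG P s).lintegral_prod_left'

lemma MM_le (lo hi s : ℝ) (hs : 0 ≤ s) : MM lo hi s ≤ 27 * ENNReal.ofReal (2 * Real.pi * s * (hi - lo)) +
    4 * ∑' P : Z3, wd P * volume (US s lo hi P) := by
  have hmZ : Measurable (fun v : ℝ => ∑' P : Z3, wd P * ∫⁻ a, GG P a v s) := by
    apply Measurable.tsum
    intro P
    exact ((measurable_GG P s).lintegral_prod_left').const_mul _
  unfold MM
  calc ∫⁻ v in Icc lo hi, ∫⁻ a in Q, nn a v s ^ 4
      ≤ ∫⁻ v in Icc lo hi, (27 * ENNReal.ofReal (2 * Real.pi * s) + 4 * ∑' P : Z3, wd P * ∫⁻ a, GG P a v s) := by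
        apply lintegral_mono
        intro v
        calc ∫⁻ a in Q, nn a v s ^ 4 ≤ ∫⁻ a in Q, (27 * nn a v s + 4 * ZZ wd a v s) :=
              lintegral_mono (fun a => nn_pow_le a v s)
          _ = 27 * (∫⁻ a in Q, nn a v s) + 4 * ∫⁻ a in Q, ZZ wd a v s := by
              rw [lintegral_add_left ((measurable_nn_left v s).const_mul _),
                lintegral_const_mul' _ _ (by simp), lintegral_const_mul' _ _ (by simp)]
          _ ≤ _ := by
              rw [int_ZZ]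
              exact add_le_add (mul_le_mul' le_rfl (int_nn v s hs)) le_rfl
    _ = 27 * ENNReal.ofReal (2 * Real.pi * s) * ENNReal.ofReal (hi - lo) +
        4 * ∫⁻ v in Icc lo hi, ∑' P : Z3, wd P * ∫⁻ a, GG P a v s := by
        rw [lintegral_add_left measurable_const, setLIntegral_const, Real.volume_Icc,
          lintegral_const_mul' _ _ (by simp)]
    _ = _ := by
        rw [mul_assoc, ← ENNReal.ofReal_mul (by have := Real.pi_pos; positivity)]
        congr 2
        rw [lintegral_tsum]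
        · congr 1
          ext P
          rw [lintegral_const_mul _ ((measurable_GG P s).lintegral_prod_left'), int_GG]
        · intro P
          exact (((measurable_GG P s).lintegral_prod_left').const_mul _).aemeasurable

/-- the dilation inequality for the fourth moment -/
theorem MM_dil {T s l : ℝ} (hT : 1 ≤ T) (hs0 : 0 ≤ s) (hs : s ≤ 1/8) (hl : 1 ≤ l) (hls : l * s ≤ √T / 1000) :
    MM (T^2/4) (8*T^2) s ≤ 27 * ENNReal.ofReal (2 * Real.pi * s * (8*T^2 - T^2/4)) +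
      4 * (ENNReal.ofReal ((l ^ 3)⁻¹) * MM ((T/4)^2) ((4*T)^2) (2 * l * s)) := by
  refine (MM_le _ _ s hs0).trans ?_
  gcongr
  rw [MM_eq, ← ENNReal.tsum_mul_left]
  apply ENNReal.tsum_le_tsum
  intro P
  unfold wd
  split_ifs with h
  · rw [one_mul]
    have := vol_dil h.1 h.2.1 h.2.2 hT hs hl hls
    calc volume (US s (T^2/4) (8*T^2) P) =
        ENNReal.ofReal ((l ^ 3)⁻¹) * (ENNReal.ofReal (l ^ 3) * volume (US s (T^2/4) (8*T^2) P)) := by
          rw [← mul_assoc, ← ENNReal.ofReal_mul (by positivity), inv_mul_cancel₀ (by positivity),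
            ENNReal.ofReal_one, one_mul]
      _ ≤ _ := by gcongr
  · rw [zero_mul]; exact zero_le

end Pool.Agent.H593.U
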