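import Mathlib
import Pool.Agent.H593.U.A1c
import Pool.Agent.H593.U.A2c

/-!
# From energies to fourth moments of annuli
-/

open MeasureTheory Set Filter Topology
open Pool.Agent.H383.Gauss
open scoped ENNReal

namespace Pool.Agent.H593.U

lemma log_pow_le (m : ℕ) {ε : ℝ} (hε : 0 < ε) : ∃ C : ℝ, 0 < C ∧ ∀ x : ℝ, 1 ≤ x →
    (Real.log x + 1) ^ m ≤ C * x ^ ε := by
  set δ := ε / (m + 1) with hδ
  have hδ0 : 0 < δ := by positivity
  refine ⟨(1/δ + 1) ^ m, by positivity, ?_⟩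
  intro x hx
  have hx0 : 0 < x := by linarith
  have h1 := Real.log_le_rpow_div hx0.le hδ0
  have h2 : 1 ≤ x ^ δ := Real.one_le_rpow hx hδ0.le
  have h3 : 0 ≤ Real.log x := Real.log_nonneg hx
  calc (Real.log x + 1) ^ m ≤ ((1/δ + 1) * x ^ δ) ^ m := by
        gcongr
        calc Real.log x + 1 ≤ x ^ δ / δ + x ^ δ := by linarith
          _ = _ := by ring
    _ = (1/δ + 1) ^ m * x ^ (δ * m) := by
        rw [mul_pow, ← Real.rpow_natCast (x ^ δ) m, ← Real.rpow_mul hx0.le]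
    _ ≤ (1/δ + 1) ^ m * x ^ ε := by
        have h5 : δ * m ≤ ε := by
          rw [hδ, div_mul_eq_mul_div, div_le_iff₀ (by positivity)]
          nlinarith
        have h6 := Real.rpow_le_rpow_of_exponent_le hx h5
        gcongr

lemma natlog_le (N : ℕ) : (Nat.log 2 N : ℝ) ≤ 2 * Real.log N := by
  rcases Nat.eq_zero_or_pos N with h | h
  · subst h; simp
  · have h1 : (2:ℝ) ^ (Nat.log 2 N) ≤ N := by
      have := Nat.pow_log_le_self 2 (by omega : N ≠ 0)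
      exact_mod_cast this
    have h2 := Real.log_le_log (by positivity) h1
    rw [Real.log_pow] at h2
    have h3 := Real.log_two_gt_d9
    have h4 : (0:ℝ) ≤ (Nat.log 2 N : ℝ) := Nat.cast_nonneg _
    nlinarith

/-- number of shells -/
lemma shells_count (m : ℕ) {ε : ℝ} (hε : 0 < ε) : ∃ C : ℝ, 0 < C ∧ ∀ T : ℝ, 1 ≤ T →
    ∃ J : ℕ, ⌈(4 * T) ^ 3⌉₊ < 2 ^ J ∧ (J:ℝ) ^ m ≤ C * T ^ ε := by
  obtain ⟨C, hC, h⟩ := log_pow_le m hε
  refine ⟨11 ^ m * C, by positivity, ?_⟩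
  intro T hT
  refine ⟨Nat.log 2 ⌈(4 * T) ^ 3⌉₊ + 1, Nat.lt_pow_succ_log_self (by norm_num) _, ?_⟩
  have h0 := natlog_le ⌈(4 * T) ^ 3⌉₊
  have h1 : ((⌈(4 * T) ^ 3⌉₊ : ℕ) : ℝ) ≤ 65 * T ^ 3 := by
    have := Nat.ceil_lt_add_one (a := (4 * T) ^ 3) (by positivity)
    have h2 : 1 ≤ T ^ 3 := one_le_pow₀ hT
    nlinarith
  have h1' : (0:ℝ) < ((⌈(4 * T) ^ 3⌉₊ : ℕ) : ℝ) := by
    have : 0 < ⌈(4 * T) ^ 3⌉₊ := Nat.ceil_pos.mpr (by positivity)
    exact_mod_cast this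
  have h3 := Real.log_le_log h1' h1
  rw [Real.log_mul (by norm_num) (by positivity), Real.log_pow] at h3
  have h4 : Real.log 65 ≤ 5 := by
    rw [Real.log_le_iff_le_exp (by norm_num)]
    have h5 := Real.exp_one_gt_d9
    have : Real.exp 5 = (Real.exp 1) ^ 5 := by rw [← Real.exp_nat_mul]; norm_num
    rw [this]
    calc (65:ℝ) ≤ 2.7 ^ 5 := by norm_num
      _ ≤ _ := by gcongr; linarith
  have h6 : 0 ≤ Real.log T := Real.log_nonneg hT
  have h7 : ((Nat.log 2 ⌈(4 * T) ^ 3⌉₊ + 1 : ℕ) : ℝ) ≤ 11 * (Real.log T + 1) := by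
    push_cast at h3 ⊢
    linarith
  calc ((Nat.log 2 ⌈(4 * T) ^ 3⌉₊ + 1 : ℕ) : ℝ) ^ m ≤ (11 * (Real.log T + 1)) ^ m := by gcongr
    _ = 11 ^ m * (Real.log T + 1) ^ m := by rw [mul_pow]
    _ ≤ 11 ^ m * (C * T ^ ε) := by gcongr; exact h T hT
    _ = _ := by ring

lemma norm_ac_le_of_mem_Q {a : ℝ × ℝ} (ha : a ∈ Q) : ‖ac a‖ ≤ 2 := by
  rw [norm_ac, Real.sqrt_le_left (by norm_num)]
  unfold Q at ha
  rw [Set.mem_prod, Set.mem_Ico, Set.mem_Ico] at ha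
  nlinarith [ha.1.1, ha.1.2, ha.2.1, ha.2.2]

/-- trivial bound for the number of points -/
lemma nn_triv {a : ℝ × ℝ} (ha : a ∈ Q) {v s R : ℝ} (hR : 0 ≤ R) (h : v + s ≤ R ^ 2) :
    nn a v s ≤ (((2 * (⌈R⌉₊ + 2) + 1) ^ 2 : ℕ) : ℝ≥0∞) := by
  rw [nn_eq]
  have h1 : annF a v s ⊆ box (⌈R⌉₊ + 2) := by
    intro p hp
    rw [mem_annF, abs_le] at hp
    apply mem_box_of_nz
    have h2 : da p a ≤ R := by
      unfold da
      rw [Real.sqrt_le_left hR]
      linarith [hp.2]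
    have h3 : nz p ≤ da p a + ‖ac a‖ := by
      rw [← norm_pc, ← norm_pc_sub]
      calc ‖pc p‖ = ‖(pc p - ac a) + ac a‖ := by rw [sub_add_cancel]
        _ ≤ _ := norm_add_le _ _
    have h4 := norm_ac_le_of_mem_Q ha
    have h5 := Nat.le_ceil R
    push_cast
    linarith
  have h2 := Finset.card_le_card h1
  rw [card_box] at h2
  exact_mod_cast h2

lemma MM_triv {lo hi s R : ℝ} (hs : 0 ≤ s) (hR : 0 ≤ R) (h : hi + s ≤ R ^ 2) :
    MM lo hi s ≤ ENNReal.ofReal (((((2 * (⌈R⌉₊ + 2) + 1) ^ 2 : ℕ) : ℝ) ^ 3 * (2 * Real.pi * s)) * (hi - lo)) := by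
  set n0 := (2 * (⌈R⌉₊ + 2) + 1) ^ 2 with hn0
  unfold MM
  have h1 : ∀ v ∈ Icc lo hi, ∫⁻ a in Q, nn a v s ^ 4 ≤ ENNReal.ofReal ((n0:ℝ) ^ 3 * (2 * Real.pi * s)) := by
    intro v hv
    calc ∫⁻ a in Q, nn a v s ^ 4 ≤ ∫⁻ a in Q, ((n0:ℝ≥0∞) ^ 3) * nn a v s := by
          apply setLIntegral_mono' measurableSet_Q
          intro a ha
          have h2 := nn_triv ha hR (by linarith [hv.2] : v + s ≤ R ^ 2)
          rw [pow_succ]
          gcongr
      _ = ((n0:ℝ≥0∞) ^ 3) * ∫⁻ a in Q, nn a v s := by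
          rw [lintegral_const_mul' _ _ (by simp)]
      _ ≤ ((n0:ℝ≥0∞) ^ 3) * ENNReal.ofReal (2 * Real.pi * s) := by
          gcongr; exact int_nn v s hs
      _ = _ := by
          rw [ENNReal.ofReal_mul (p := (n0:ℝ) ^ 3) (by positivity), ENNReal.ofReal_pow (by positivity),
            ENNReal.ofReal_natCast]
  calc ∫⁻ v in Icc lo hi, ∫⁻ a in Q, nn a v s ^ 4
      ≤ ∫⁻ v in Icc lo hi, ENNReal.ofReal ((n0:ℝ) ^ 3 * (2 * Real.pi * s)) := setLIntegral_mono' measurableSet_Icc h1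
    _ = _ := by
        rw [setLIntegral_const, Real.volume_Icc, ← ENNReal.ofReal_mul (by have := Real.pi_pos; positivity)]

/-- bound for fourth moments of thin annuli -/
def HM (γ : ℝ) : Prop := ∃ C : ℝ, 0 < C ∧ ∀ T s : ℝ, 1 ≤ T → 0 < s → s ≤ 1/8 →
  MM (T^2/4) (8*T^2) s ≤ ENNReal.ofReal (C * (T^2 * s + T ^ γ * s ^ 3))

theorem stepA {β : ℝ} (hβ : 4 < β) (hβ2 : β ≤ 6) (h : HB β) {ε : ℝ} (hε : 0 < ε) :
    HM (3 - 2/(β-2) + ε) := by
  set θ := 2/(β-2) with hθ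
  have hθ1 : θ < 1 := by rw [hθ, div_lt_one (by linarith)]; linarith
  have hθ2 : 1/2 ≤ θ := by rw [hθ, div_le_div_iff₀ (by norm_num) (by linarith)]; linarith
  have hθb : θ * (β - 2) = 2 := by rw [hθ]; exact div_mul_cancel₀ _ (by linarith)
  obtain ⟨C1, hC1, h1⟩ := MM_thick hβ.le hβ2 h
  obtain ⟨C2, hC2, h2⟩ := shells_count 4 hε
  -- threshold
  obtain ⟨T0, hT0, hT0'⟩ : ∃ T0 : ℝ, 24 ≤ T0 ∧ ∀ T, T0 ≤ T → 125 ≤ T ^ (1 - θ) := by
    have := (tendsto_rpow_atTop (by linarith : 0 < 1 - θ)).eventually_ge_atTop 125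
    rw [eventually_atTop] at this
    obtain ⟨A, hA⟩ := this
    exact ⟨max 24 A, le_max_left _ _, fun T hT => hA T ((le_max_right _ _).trans hT)⟩
  set n0 : ℝ := ((((2 * (⌈3 * T0⌉₊ + 2) + 1) ^ 2 : ℕ) : ℝ) ^ 3) with hn0
  have hn0' : 0 ≤ n0 := by positivity
  have hpi := Real.pi_gt_three
  have hpi2 := Real.pi_lt_d2
  refine ⟨64 * n0 + 1728 + 4 * (10 ^ 9 * (C1 * (1 + C2))), by positivity, ?_⟩
  intro T s hT hs hs8
  have hT0p : 0 < T := by linarith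
  rcases lt_or_ge T T0 with hcase | hcase
  · have h3 := MM_triv (lo := T^2/4) (hi := 8*T^2) (s := s) (R := 3 * T0) hs.le (by linarith) (by nlinarith)
    refine h3.trans ?_
    apply ENNReal.ofReal_le_ofReal
    rw [← hn0]
    have e1 : n0 * (2 * Real.pi * s) * (8 * T^2 - T^2/4) ≤ 64 * n0 * (T^2 * s) := by
      have e2 : 2 * Real.pi * (8 * T^2 - T^2/4) ≤ 64 * T^2 := by nlinarith [sq_nonneg T]
      calc n0 * (2 * Real.pi * s) * (8 * T^2 - T^2/4) = n0 * s * (2 * Real.pi * (8 * T^2 - T^2/4)) := by ring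
        _ ≤ n0 * s * (64 * T^2) := by gcongr
        _ = _ := by ring
    refine e1.trans ?_
    have e3 : 0 ≤ T^2 * s := by positivity
    have e4 : 0 ≤ T ^ (3 - θ + ε) * s ^ 3 := by positivity
    have e5 : 0 ≤ 4 * (10 ^ 9 * (C1 * (1 + C2))) := by positivity
    nlinarith [mul_nonneg e5 e3, mul_nonneg e5 e4, mul_nonneg hn0' e4]
  · have hTt := hT0' T hcase
    obtain ⟨J, hJ1, hJ2⟩ := h2 T hT
    set ρ := T ^ (-θ) with hρ
    have hρ0 : 0 < ρ := by positivity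
    have hρ1 : ρ ≤ 1 := Real.rpow_le_one_of_one_le_of_nonpos hT (by linarith)
    have hρT : ρ * T = T ^ (1 - θ) := by
      rw [hρ]
      nth_rewrite 2 [← Real.rpow_one T]
      rw [← Real.rpow_add hT0p]; congr 1; ring
    have h4 := h1 T ρ J hρ0 hρ1 (by linarith) (by rw [hρT]; linarith) hJ1
    set U := T ^ (1 - θ) with hU
    rw [hρT] at h4
    have hUle : U ≤ √T := by
      rw [hU, Real.sqrt_eq_rpow]
      exact Real.rpow_le_rpow_of_exponent_le hT (by linarith)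
    set l := U / (1000 * s) with hl
    have hl1 : 1 ≤ l := by
      rw [hl, le_div_iff₀ (by positivity)]; linarith
    have hls : l * s = U / 1000 := by rw [hl]; field_simp
    have h5 := MM_dil hT hs.le hs8 hl1 (by rw [hls]; gcongr)
    have h6 : MM ((T/4)^2) ((4*T)^2) (2 * l * s) ≤ MM ((T/4)^2) ((4*T)^2) (U / 4) := by
      apply MM_mono le_rfl le_rfl
      rw [mul_assoc, hls]
      have : 0 < U := by positivity
      linarith
    -- algebra of exponents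
    have ea : ρ ^ 4 * T ^ 6 = T ^ (6 - 4 * θ) := by
      rw [hρ, ← Real.rpow_natCast (T ^ (-θ)) 4, ← Real.rpow_mul hT0p.le, ← Real.rpow_natCast T 6,
        ← Real.rpow_add hT0p]
      congr 1; push_cast; ring
    have eb : T ^ 4 * ρ ^ (6 - β) = T ^ (6 - 4 * θ) := by
      rw [hρ, ← Real.rpow_mul hT0p.le, ← Real.rpow_natCast T 4, ← Real.rpow_add hT0p]
      congr 1
      push_cast
      linear_combination hθb
    have ec : ρ ^ 4 * T ^ 6 + (J:ℝ) ^ 4 * (T ^ 4 * ρ ^ (6 - β)) ≤ (1 + C2) * T ^ (6 - 4 * θ + ε) := by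
      rw [ea, eb]
      have k1 : T ^ (6 - 4 * θ) ≤ T ^ (6 - 4 * θ + ε) := Real.rpow_le_rpow_of_exponent_le hT (by linarith)
      have k2 : (J:ℝ) ^ 4 * T ^ (6 - 4 * θ) ≤ C2 * T ^ (6 - 4 * θ + ε) := by
        calc (J:ℝ) ^ 4 * T ^ (6 - 4 * θ) ≤ (C2 * T ^ ε) * T ^ (6 - 4 * θ) := by gcongr
          _ = C2 * (T ^ (6 - 4 * θ) * T ^ ε) := by ring
          _ = _ := by rw [← Real.rpow_add hT0p]
      linarith
    have ed : (l ^ 3)⁻¹ * T ^ (6 - 4 * θ + ε) = 10 ^ 9 * (T ^ (3 - θ + ε) * s ^ 3) := by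
      have k1 : (l ^ 3)⁻¹ = (1000 * s) ^ 3 * T ^ (-(3 * (1 - θ))) := by
        have k2 : U ^ 3 = T ^ (3 * (1 - θ)) := by
          rw [hU, ← Real.rpow_natCast (T ^ (1 - θ)) 3, ← Real.rpow_mul hT0p.le]
          congr 1; push_cast; ring
        rw [hl, div_pow, inv_div, k2, Real.rpow_neg hT0p.le, div_eq_mul_inv]
      rw [k1, mul_assoc, ← Real.rpow_add hT0p]
      rw [show -(3 * (1 - θ)) + (6 - 4 * θ + ε) = 3 - θ + ε by ring]
      ring
    refine h5.trans ?_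
    calc 27 * ENNReal.ofReal (2 * Real.pi * s * (8*T^2 - T^2/4)) +
          4 * (ENNReal.ofReal ((l ^ 3)⁻¹) * MM ((T/4)^2) ((4*T)^2) (2 * l * s))
        ≤ ENNReal.ofReal 27 * ENNReal.ofReal (64 * (T^2 * s)) +
          ENNReal.ofReal 4 * (ENNReal.ofReal ((l ^ 3)⁻¹) * ENNReal.ofReal (C1 * ((1 + C2) * T ^ (6 - 4 * θ + ε)))) := by
          have z27 : (27:ℝ≥0∞) = ENNReal.ofReal 27 := by simp
          have z4 : (4:ℝ≥0∞) = ENNReal.ofReal 4 := by simp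
          rw [z27, z4]
          refine add_le_add (mul_le_mul' le_rfl ?_) (mul_le_mul' le_rfl (mul_le_mul' le_rfl ?_))
          · apply ENNReal.ofReal_le_ofReal
            have e2 : 2 * Real.pi * (8 * T^2 - T^2/4) ≤ 64 * T^2 := by nlinarith [sq_nonneg T]
            calc 2 * Real.pi * s * (8*T^2 - T^2/4) = s * (2 * Real.pi * (8 * T^2 - T^2/4)) := by ring
              _ ≤ s * (64 * T^2) := by gcongr
              _ = _ := by ring
          · refine (h6.trans h4).trans (ENNReal.ofReal_le_ofReal ?_)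
            gcongr
      _ = ENNReal.ofReal (27 * (64 * (T^2 * s)) + 4 * ((l ^ 3)⁻¹ * (C1 * ((1 + C2) * T ^ (6 - 4 * θ + ε))))) := by
          rw [ENNReal.ofReal_add (by positivity) (by positivity)]
          rw [ENNReal.ofReal_mul (p := 27) (by positivity), ENNReal.ofReal_mul (p := 4) (by positivity),
            ENNReal.ofReal_mul (p := (l ^ 3)⁻¹) (by positivity)]
      _ ≤ _ := by
          apply ENNReal.ofReal_le_ofReal
          have e0 : 27 * (64 * (T^2 * s)) + 4 * ((l ^ 3)⁻¹ * (C1 * ((1 + C2) * T ^ (6 - 4 * θ + ε)))) =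
              1728 * (T^2 * s) + (4 * (10 ^ 9 * (C1 * (1 + C2)))) * (T ^ (3 - θ + ε) * s ^ 3) := by
            linear_combination (4 * C1 * (1 + C2)) * ed
          rw [e0]
          have e3 : 0 ≤ T^2 * s := by positivity
          have e4 : 0 ≤ T ^ (3 - θ + ε) * s ^ 3 := by positivity
          have e5 : 0 ≤ 4 * (10 ^ 9 * (C1 * (1 + C2))) := by positivity
          nlinarith [mul_nonneg e5 e3, mul_nonneg e5 e4, mul_nonneg hn0' e4, mul_nonneg hn0' e3]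

end Pool.Agent.H593.U
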