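import Mathlib
import Pool.Agent.H593.U.Ker3
import Pool.Agent.H593.U.StepA

/-!
# The exponential sum in terms of annuli
-/

open MeasureTheory Set Filter Topology
open Pool.Agent.H383.Gauss
open scoped ENNReal

namespace Pool.Agent.H593.U

/-- complex height -/
noncomputable def zt (y t : ℝ) : ℂ := (y:ℂ) - (t:ℂ) * Complex.I

lemma zt_re (y t : ℝ) : (zt y t).re = y := by simp [zt]

lemma norm_zt_le {y t : ℝ} (hy : 0 ≤ y) (ht : 0 ≤ t) : ‖zt y t‖ ≤ y + t := by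
  unfold zt
  refine (norm_sub_le _ _).trans (le_of_eq ?_)
  rw [norm_mul, Complex.norm_real, Complex.norm_real, Complex.norm_I, mul_one,
    Real.norm_of_nonneg hy, Real.norm_of_nonneg ht]

lemma zt_fac (y t : ℝ) (z : ℤ × ℤ) (a : ℝ × ℝ) :
    ‖zt y t ^ 2 + (d2 z a : ℂ)‖ = ‖(y:ℂ) + ((da z a - t : ℝ) : ℂ) * Complex.I‖ *
      ‖(y:ℂ) + ((-(da z a + t) : ℝ) : ℂ) * Complex.I‖ := by
  rw [← norm_mul]
  congr 1
  rw [← da_sq z a]
  unfold zt
  push_cast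
  ring_nf
  rw [Complex.I_sq]
  ring

lemma norm_ge_max (y x : ℝ) (hy : 0 ≤ y) : max y |x| ≤ ‖(y:ℂ) + (x:ℂ) * Complex.I‖ := by
  apply max_le
  · have := Complex.abs_re_le_norm ((y:ℂ) + (x:ℂ) * Complex.I)
    simp at this
    rwa [abs_of_nonneg hy] at this
  · have := Complex.abs_im_le_norm ((y:ℂ) + (x:ℂ) * Complex.I)
    simpa using this

lemma kz_near {y t : ℝ} (hy : 0 < y) (ht : 0 ≤ t) (z : ℤ × ℤ) (a : ℝ × ℝ) :
    ‖zt y t‖ * kz (zt y t) z a ≤ 3 * (y + t) ^ (-(1/2):ℝ) * (max y |da z a - t|) ^ (-(3/2):ℝ) := by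
  have hu : 0 < y + t := by linarith
  have hm : 0 < max y |da z a - t| := lt_max_of_lt_left hy
  have h1 := norm_ge_max y (da z a - t) hy.le
  have h2 := norm_ge_max y (-(da z a + t)) hy.le
  have h3 : (y + t) / 2 ≤ ‖(y:ℂ) + ((-(da z a + t) : ℝ) : ℂ) * Complex.I‖ := by
    refine le_trans ?_ h2
    rw [abs_neg, abs_of_nonneg (by have := da_nonneg z a; linarith)]
    have k1 := le_max_left y (da z a + t)
    have k2 := le_max_right y (da z a + t)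
    have k3 := da_nonneg z a
    linarith
  have h4 : kz (zt y t) z a ≤ (max y |da z a - t| * ((y + t) / 2)) ^ (-(3/2):ℝ) := by
    unfold kz
    rw [zt_fac]
    apply Real.rpow_le_rpow_of_nonpos (by positivity) (by gcongr) (by norm_num)
  have h5 := norm_zt_le hy.le ht
  calc ‖zt y t‖ * kz (zt y t) z a ≤ (y + t) * (max y |da z a - t| * ((y + t) / 2)) ^ (-(3/2):ℝ) := by
        have : 0 ≤ kz (zt y t) z a := by unfold kz; positivity
        gcongr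
    _ = ((1/2:ℝ) ^ (-(3/2):ℝ)) * ((y + t) * (y + t) ^ (-(3/2):ℝ)) * (max y |da z a - t|) ^ (-(3/2):ℝ) := by
        rw [show (y + t) / 2 = (1/2) * (y + t) by ring, Real.mul_rpow hm.le (by positivity),
          Real.mul_rpow (by norm_num) hu.le]
        ring
    _ = ((1/2:ℝ) ^ (-(3/2):ℝ)) * (y + t) ^ (-(1/2):ℝ) * (max y |da z a - t|) ^ (-(3/2):ℝ) := by
        congr 2
        nth_rewrite 1 [← Real.rpow_one (y + t)]
        rw [← Real.rpow_add hu]; norm_num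
    _ ≤ 3 * (y + t) ^ (-(1/2):ℝ) * (max y |da z a - t|) ^ (-(3/2):ℝ) := by
        gcongr
        have e : (1/2:ℝ) ^ (-(3/2):ℝ) = 2 ^ (3/2:ℝ) := by
          rw [one_div, Real.inv_rpow (by norm_num), ← Real.rpow_neg (by norm_num)]; norm_num
        rw [e]
        have h9 : ((2:ℝ) ^ (3/2:ℝ)) ^ 2 = 8 := by
          rw [← Real.rpow_natCast, ← Real.rpow_mul (by norm_num)]; norm_num
        nlinarith [Real.rpow_pos_of_pos (by norm_num : (0:ℝ) < 2) (3/2:ℝ)]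

lemma kz_far {y t : ℝ} (hy : 0 < y) (hy1 : y ≤ 1) (ht : 0 ≤ t) {z : ℤ × ℤ} {a : ℝ × ℝ} (ha : a ∈ Q)
    (hr : 2 * t + 1 ≤ da z a) :
    ‖zt y t‖ * kz (zt y t) z a ≤ 3 * (1 + t) * ((1/12) * (1 + nz z ^ 2)) ^ (-(3/2):ℝ) := by
  have h1 := norm_ge_max y (da z a - t) hy.le
  have h2 := norm_ge_max y (-(da z a + t)) hy.le
  have hr0 : 0 < da z a := by linarith
  have h3 : da z a ≤ ‖(y:ℂ) + ((-(da z a + t) : ℝ) : ℂ) * Complex.I‖ := by
    refine le_trans ?_ ((le_max_right _ _).trans h2)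
    rw [abs_neg, abs_of_nonneg (by linarith)]
    linarith
  have h3' : da z a / 2 ≤ ‖(y:ℂ) + ((da z a - t : ℝ) : ℂ) * Complex.I‖ := by
    refine le_trans ?_ ((le_max_right _ _).trans h1)
    rw [abs_of_nonneg (by linarith)]
    linarith
  have hsq : sqn a ≤ 2 := by
    unfold Q at ha
    rw [Set.mem_prod, Set.mem_Ico, Set.mem_Ico] at ha
    unfold sqn
    nlinarith [ha.1.1, ha.1.2, ha.2.1, ha.2.2]
  have hd : (1/12) * (1 + nz z ^ 2) ≤ da z a ^ 2 := by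
    have k1 := one_add_nz_le z a
    have k2 := d2_nonneg z a
    rw [da_sq]
    have k3 : 1 ≤ d2 z a := by rw [← da_sq]; nlinarith
    have k4 : (2 + 2 * sqn a) * (1 + d2 z a) ≤ 6 * (1 + d2 z a) := by gcongr; linarith
    linarith
  have h4 : kz (zt y t) z a ≤ ((1/2) * ((1/12) * (1 + nz z ^ 2))) ^ (-(3/2):ℝ) := by
    unfold kz
    rw [zt_fac]
    apply Real.rpow_le_rpow_of_nonpos (by positivity) _ (by norm_num)
    calc (1/2) * ((1/12) * (1 + nz z ^ 2)) ≤ (1/2) * da z a ^ 2 := by gcongr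
      _ = da z a / 2 * da z a := by ring
      _ ≤ _ := by gcongr
  have h5 := norm_zt_le hy.le ht
  have e : (1/2:ℝ) ^ (-(3/2):ℝ) ≤ 3 := by
    have e : (1/2:ℝ) ^ (-(3/2):ℝ) = 2 ^ (3/2:ℝ) := by
      rw [one_div, Real.inv_rpow (by norm_num), ← Real.rpow_neg (by norm_num)]; norm_num
    rw [e]
    have h9 : ((2:ℝ) ^ (3/2:ℝ)) ^ 2 = 8 := by
      rw [← Real.rpow_natCast, ← Real.rpow_mul (by norm_num)]; norm_num
    nlinarith [Real.rpow_pos_of_pos (by norm_num : (0:ℝ) < 2) (3/2:ℝ)]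
  calc ‖zt y t‖ * kz (zt y t) z a ≤ (1 + t) * ((1/2) * ((1/12) * (1 + nz z ^ 2))) ^ (-(3/2):ℝ) := by
        have : 0 ≤ kz (zt y t) z a := by unfold kz; positivity
        have : ‖zt y t‖ ≤ 1 + t := by linarith
        gcongr
    _ = (1 + t) * ((1/2:ℝ) ^ (-(3/2):ℝ) * ((1/12) * (1 + nz z ^ 2)) ^ (-(3/2):ℝ)) := by
        rw [Real.mul_rpow (by norm_num) (by positivity)]
    _ ≤ (1 + t) * (3 * ((1/12) * (1 + nz z ^ 2)) ^ (-(3/2):ℝ)) := by gcongr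
    _ = _ := by ring

lemma dyadic_pick {y x : ℝ} (hy : 0 < y) (hx : 0 ≤ x) (J : ℕ) (h : x ≤ 2 ^ J * y) :
    ∃ j ∈ Finset.range (J + 1), x ≤ 2 ^ j * y ∧ (max y x) ^ (-(3/2):ℝ) ≤ 3 * (2 ^ j * y) ^ (-(3/2):ℝ) := by
  induction J with
  | zero =>
    refine ⟨0, by simp, h, ?_⟩
    simp only [pow_zero, one_mul] at h ⊢
    rw [max_eq_left h]
    have : 0 ≤ y ^ (-(3/2):ℝ) := by positivity
    linarith
  | succ J ih =>
    by_cases h1 : x ≤ 2 ^ J * y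
    · obtain ⟨j, hj, h2, h3⟩ := ih h1
      refine ⟨j, ?_, h2, h3⟩
      rw [Finset.mem_range] at hj ⊢
      omega
    · push Not at h1
      refine ⟨J + 1, by simp, h, ?_⟩
      have e : (2:ℝ) ^ (-(3/2):ℝ) * 3 ≥ 1 := by
        have e2 : (2:ℝ) ^ (-(3/2):ℝ) = (2 ^ (3/2:ℝ))⁻¹ := by rw [← Real.rpow_neg (by norm_num)]
        have h9 : ((2:ℝ) ^ (3/2:ℝ)) ^ 2 = 8 := by
          rw [← Real.rpow_natCast, ← Real.rpow_mul (by norm_num)]; norm_num
        have h10 := Real.rpow_pos_of_pos (by norm_num : (0:ℝ) < 2) (3/2:ℝ)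
        have h11 : (2:ℝ) ^ (3/2:ℝ) ≤ 3 := by nlinarith
        rw [e2, ge_iff_le, inv_mul_eq_div, le_div_iff₀ h10]
        linarith
      calc (max y x) ^ (-(3/2):ℝ) ≤ (2 ^ J * y) ^ (-(3/2):ℝ) := by
            apply Real.rpow_le_rpow_of_nonpos (by positivity) (h1.le.trans (le_max_right _ _)) (by norm_num)
        _ = 1 * (2 ^ J * y) ^ (-(3/2):ℝ) := (one_mul _).symm
        _ ≤ ((2:ℝ) ^ (-(3/2):ℝ) * 3) * (2 ^ J * y) ^ (-(3/2):ℝ) := by gcongr
        _ = 3 * (2 ^ (J + 1) * y) ^ (-(3/2):ℝ) := by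
            have e3 : (2 * (2 ^ J * y)) ^ (-(3/2):ℝ) = (2:ℝ) ^ (-(3/2):ℝ) * (2 ^ J * y) ^ (-(3/2):ℝ) :=
              Real.mul_rpow (by norm_num) (by positivity)
            rw [show (2:ℝ) ^ (J+1) * y = 2 * (2 ^ J * y) by ring, e3]
            ring

/-- pointwise bound for one term -/
lemma term_le {y t : ℝ} (hy : 0 < y) (hy1 : y ≤ 1) (ht : 0 ≤ t) {J : ℕ} (hJ : t + 1 ≤ 2 ^ J * y)
    (z : ℤ × ℤ) {a : ℝ × ℝ} (ha : a ∈ Q) :
    ENNReal.ofReal (‖zt y t‖ * kz (zt y t) z a) ≤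
      ENNReal.ofReal (9 * (y + t) ^ (-(1/2):ℝ)) * (∑ j ∈ Finset.range (J + 1),
        ENNReal.ofReal ((2 ^ j * y) ^ (-(3/2):ℝ)) * chi z a (t^2) (2 ^ j * y * (2 * t + 2 ^ j * y))) +
      ENNReal.ofReal (3 * (1 + t)) * ENNReal.ofReal (((1/12) * (1 + nz z ^ 2)) ^ (-(3/2):ℝ)) := by
  rcases le_or_gt (2 * t + 1) (da z a) with h | h
  · refine le_trans ?_ le_add_self
    rw [← ENNReal.ofReal_mul (by positivity)]
    exact ENNReal.ofReal_le_ofReal (kz_far hy hy1 ht ha h)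
  · refine le_trans ?_ le_self_add
    have hx : |da z a - t| ≤ 2 ^ J * y := by
      refine le_trans ?_ hJ
      rw [abs_le]
      have := da_nonneg z a
      constructor <;> linarith
    obtain ⟨j, hj, h1, h2⟩ := dyadic_pick hy (abs_nonneg _) J hx
    have h3 : chi z a (t^2) (2 ^ j * y * (2 * t + 2 ^ j * y)) = 1 := by
      apply chi_one
      have : d2 z a - t^2 = (da z a - t) * (da z a + t) := by rw [← da_sq]; ring
      rw [this, abs_mul]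
      have h4 : |da z a + t| ≤ 2 * t + 2 ^ j * y := by
        rw [abs_of_nonneg (by have := da_nonneg z a; linarith)]
        have := (abs_le.mp h1).2
        linarith
      gcongr
    calc ENNReal.ofReal (‖zt y t‖ * kz (zt y t) z a)
        ≤ ENNReal.ofReal (9 * (y + t) ^ (-(1/2):ℝ) * (2 ^ j * y) ^ (-(3/2):ℝ)) := by
          apply ENNReal.ofReal_le_ofReal
          refine (kz_near hy ht z a).trans ?_
          calc 3 * (y + t) ^ (-(1/2):ℝ) * (max y |da z a - t|) ^ (-(3/2):ℝ)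
              ≤ 3 * (y + t) ^ (-(1/2):ℝ) * (3 * (2 ^ j * y) ^ (-(3/2):ℝ)) := by gcongr
            _ = _ := by ring
      _ = ENNReal.ofReal (9 * (y + t) ^ (-(1/2):ℝ)) * (ENNReal.ofReal ((2 ^ j * y) ^ (-(3/2):ℝ)) *
            chi z a (t^2) (2 ^ j * y * (2 * t + 2 ^ j * y))) := by
          rw [h3, mul_one, ENNReal.ofReal_mul (by positivity)]
      _ ≤ _ := by
          gcongr
          exact Finset.single_le_sum (f := fun j => ENNReal.ofReal ((2 ^ j * y) ^ (-(3/2):ℝ)) *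
            chi z a (t^2) (2 ^ j * y * (2 * t + 2 ^ j * y))) (fun _ _ => zero_le) hj

/-- the sum with exponential weights -/
noncomputable def Fs (y : ℝ) (a : ℝ × ℝ) (t : ℝ) : ℂ :=
  ∑' k : ℤ × ℤ, Complex.exp (-(2 * Real.pi * zt y t * nz k)) * ex (dp k a)

theorem Fs_le : ∃ C : ℝ, 0 < C ∧ ∀ (y t : ℝ) (J : ℕ) (a : ℝ × ℝ), 0 < y → y ≤ 1 → 0 ≤ t →
    t + 1 ≤ 2 ^ J * y → a ∈ Q →
    ENNReal.ofReal ‖Fs y a t‖ ≤
      ENNReal.ofReal (9 * (y + t) ^ (-(1/2):ℝ)) * (∑ j ∈ Finset.range (J + 1),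
        ENNReal.ofReal ((2 ^ j * y) ^ (-(3/2):ℝ)) * nn a (t^2) (2 ^ j * y * (2 * t + 2 ^ j * y))) +
      ENNReal.ofReal (C * (1 + t)) := by
  have hs := summ_inv (c := 1/12) (by norm_num)
  set C := ∑' z : ℤ × ℤ, ((1/12:ℝ) * (1 + nz z ^ 2)) ^ (-(3/2):ℝ) with hC
  have hC0 : 0 ≤ C := tsum_nonneg (fun z => by have := nz_nonneg z; positivity)
  refine ⟨3 * C + 1, by positivity, ?_⟩
  intro y t J a hy hy1 ht hJ ha
  obtain ⟨h1, h2⟩ := kernel (ζ := zt y t) (by rw [zt_re]; exact hy) a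
  have h3 : ENNReal.ofReal ‖Fs y a t‖ ≤ ∑' z : ℤ × ℤ, ENNReal.ofReal (‖zt y t‖ * kz (zt y t) z a) := by
    rw [← ENNReal.ofReal_tsum_of_nonneg (fun z => by unfold kz; positivity) (h1.mul_left _), tsum_mul_left]
    exact ENNReal.ofReal_le_ofReal h2
  refine h3.trans ((ENNReal.tsum_le_tsum (fun z => term_le hy hy1 ht hJ z ha)).trans ?_)
  rw [ENNReal.tsum_add, ENNReal.tsum_mul_left, ENNReal.tsum_mul_left]
  have h4 : ∑' z : ℤ × ℤ, ∑ j ∈ Finset.range (J + 1),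
        ENNReal.ofReal ((2 ^ j * y) ^ (-(3/2):ℝ)) * chi z a (t^2) (2 ^ j * y * (2 * t + 2 ^ j * y)) =
      ∑ j ∈ Finset.range (J + 1),
        ENNReal.ofReal ((2 ^ j * y) ^ (-(3/2):ℝ)) * nn a (t^2) (2 ^ j * y * (2 * t + 2 ^ j * y)) := by
    rw [Summable.tsum_finsetSum (fun _ _ => ENNReal.summable)]
    apply Finset.sum_congr rfl
    intro j _
    rw [ENNReal.tsum_mul_left]; rfl
  have h5 : ∑' z : ℤ × ℤ, ENNReal.ofReal (((1/12) * (1 + nz z ^ 2)) ^ (-(3/2):ℝ)) = ENNReal.ofReal C := by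
    rw [hC, ENNReal.ofReal_tsum_of_nonneg (fun z => by have := nz_nonneg z; positivity) hs]
  rw [h4, h5, ← ENNReal.ofReal_mul (by positivity)]
  apply add_le_add le_rfl
  apply ENNReal.ofReal_le_ofReal
  nlinarith

end Pool.Agent.H593.U
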