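import Mathlib
import Pool.Agent.H593.U.SB1

/-!
# Fourth moments of the exponential sum
-/

open MeasureTheory Set Filter Topology
open Pool.Agent.H383.Gauss
open scoped ENNReal

namespace Pool.Agent.H593.U

lemma add_pow4_le' (x y : ℝ≥0∞) : (x + y) ^ 4 ≤ 16 * (x ^ 4 + y ^ 4) := by
  rcases le_total x y with h | h
  · calc (x + y) ^ 4 ≤ (y + y) ^ 4 := by gcongr
      _ = 16 * y ^ 4 := by ring
      _ ≤ 16 * (x ^ 4 + y ^ 4) := by gcongr; exact le_add_self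
  · calc (x + y) ^ 4 ≤ (x + x) ^ 4 := by gcongr
      _ = 16 * x ^ 4 := by ring
      _ ≤ 16 * (x ^ 4 + y ^ 4) := by gcongr; exact le_self_add

lemma sum_pow4_le' (n : ℕ) (x : ℕ → ℝ≥0∞) :
    (∑ j ∈ Finset.range n, x j) ^ 4 ≤ (n:ℝ≥0∞) ^ 4 * ∑ j ∈ Finset.range n, x j ^ 4 := by
  rcases Nat.eq_zero_or_pos n with h | h
  · subst h; simp
  · obtain ⟨j0, hj0, hmax⟩ := Finset.exists_max_image (Finset.range n) x ⟨0, Finset.mem_range.mpr h⟩
    have h1 : ∑ j ∈ Finset.range n, x j ≤ n * x j0 := by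
      refine (Finset.sum_le_card_nsmul _ _ _ hmax).trans (le_of_eq ?_)
      rw [Finset.card_range, nsmul_eq_mul]
    calc (∑ j ∈ Finset.range n, x j) ^ 4 ≤ (n * x j0) ^ 4 := by gcongr
      _ = (n:ℝ≥0∞) ^ 4 * x j0 ^ 4 := by rw [mul_pow]
      _ ≤ _ := by
          gcongr
          exact Finset.single_le_sum (f := fun j => x j ^ 4) (fun _ _ => zero_le) hj0

theorem Fs_four : ∃ C : ℝ, 0 < C ∧ ∀ (y t : ℝ) (J : ℕ), 0 < y → y ≤ 1 → 0 ≤ t →
    t + 1 ≤ 2 ^ J * y →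
    ∫⁻ a in Q, ENNReal.ofReal ‖Fs y a t‖ ^ 4 ≤
      ENNReal.ofReal (C * ((y + t) ^ (-2:ℝ) * ((J:ℝ) + 1) ^ 4)) * (∑ j ∈ Finset.range (J + 1),
        ENNReal.ofReal ((2 ^ j * y) ^ (-6:ℝ)) * ∫⁻ a in Q, nn a (t^2) (2 ^ j * y * (2 * t + 2 ^ j * y)) ^ 4) +
      ENNReal.ofReal (C * (1 + t) ^ 4) := by
  obtain ⟨C, hC, h⟩ := Fs_le
  refine ⟨16 * (9 ^ 4 + C ^ 4), by positivity, ?_⟩
  intro y t J hy hy1 ht hJ
  have hu : 0 < y + t := by linarith
  have h1 : ∀ a ∈ Q, ENNReal.ofReal ‖Fs y a t‖ ^ 4 ≤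
      ENNReal.ofReal (16 * (9 ^ 4 * ((y + t) ^ (-2:ℝ) * ((J:ℝ) + 1) ^ 4))) * (∑ j ∈ Finset.range (J + 1),
        ENNReal.ofReal ((2 ^ j * y) ^ (-6:ℝ)) * nn a (t^2) (2 ^ j * y * (2 * t + 2 ^ j * y)) ^ 4) +
      ENNReal.ofReal (16 * (C * (1 + t)) ^ 4) := by
    intro a ha
    have e1 : ENNReal.ofReal (9 * (y + t) ^ (-(1/2):ℝ)) ^ 4 = ENNReal.ofReal (9 ^ 4 * (y + t) ^ (-2:ℝ)) := by
      rw [← ENNReal.ofReal_pow (by positivity), mul_pow, ← Real.rpow_natCast ((y + t) ^ (-(1/2):ℝ)),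
        ← Real.rpow_mul hu.le]
      norm_num
    have e2 : ∀ j : ℕ, ENNReal.ofReal ((2 ^ j * y) ^ (-(3/2):ℝ)) ^ 4 = ENNReal.ofReal ((2 ^ j * y) ^ (-6:ℝ)) := by
      intro j
      have hr : 0 < 2 ^ j * y := by positivity
      rw [← ENNReal.ofReal_pow (by positivity), ← Real.rpow_natCast ((2 ^ j * y) ^ (-(3/2):ℝ)),
        ← Real.rpow_mul hr.le]
      norm_num
    have e3 : (((J + 1 : ℕ)) : ℝ≥0∞) ^ 4 = ENNReal.ofReal (((J:ℝ) + 1) ^ 4) := by
      rw [ENNReal.ofReal_pow (by positivity), ← ENNReal.ofReal_natCast]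
      push_cast; rfl
    have e16 : (16:ℝ≥0∞) = ENNReal.ofReal 16 := by simp
    calc ENNReal.ofReal ‖Fs y a t‖ ^ 4 ≤ (ENNReal.ofReal (9 * (y + t) ^ (-(1/2):ℝ)) * (∑ j ∈ Finset.range (J + 1),
          ENNReal.ofReal ((2 ^ j * y) ^ (-(3/2):ℝ)) * nn a (t^2) (2 ^ j * y * (2 * t + 2 ^ j * y))) +
          ENNReal.ofReal (C * (1 + t))) ^ 4 := by gcongr; exact h y t J a hy hy1 ht hJ ha
      _ ≤ 16 * ((ENNReal.ofReal (9 * (y + t) ^ (-(1/2):ℝ)) * (∑ j ∈ Finset.range (J + 1),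
          ENNReal.ofReal ((2 ^ j * y) ^ (-(3/2):ℝ)) * nn a (t^2) (2 ^ j * y * (2 * t + 2 ^ j * y)))) ^ 4 +
          ENNReal.ofReal (C * (1 + t)) ^ 4) := add_pow4_le' _ _
      _ ≤ 16 * (ENNReal.ofReal (9 ^ 4 * (y + t) ^ (-2:ℝ)) * (ENNReal.ofReal (((J:ℝ) + 1) ^ 4) * (∑ j ∈ Finset.range (J + 1),
          ENNReal.ofReal ((2 ^ j * y) ^ (-6:ℝ)) * nn a (t^2) (2 ^ j * y * (2 * t + 2 ^ j * y)) ^ 4)) +
          ENNReal.ofReal ((C * (1 + t)) ^ 4)) := by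
          rw [mul_pow, e1]
          refine mul_le_mul' le_rfl (add_le_add (mul_le_mul' le_rfl ?_)
            (le_of_eq (ENNReal.ofReal_pow (by positivity) 4).symm))
          refine (sum_pow4_le' _ _).trans ?_
          rw [e3]
          refine mul_le_mul' le_rfl (Finset.sum_le_sum fun j _ => ?_)
          rw [mul_pow, e2]
      _ = _ := by
          rw [mul_add, e16, ← ENNReal.ofReal_mul (by norm_num) , ← mul_assoc, ← mul_assoc,
            ← ENNReal.ofReal_mul (by norm_num), ← ENNReal.ofReal_mul (by positivity)]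
          congr 3
          ring
  have hm : ∀ j : ℕ, Measurable (fun a : ℝ × ℝ => nn a (t^2) (2 ^ j * y * (2 * t + 2 ^ j * y)) ^ 4) :=
    fun j => (measurable_nn_left _ _).pow_const 4
  calc ∫⁻ a in Q, ENNReal.ofReal ‖Fs y a t‖ ^ 4
      ≤ ∫⁻ a in Q, (ENNReal.ofReal (16 * (9 ^ 4 * ((y + t) ^ (-2:ℝ) * ((J:ℝ) + 1) ^ 4))) * (∑ j ∈ Finset.range (J + 1),
        ENNReal.ofReal ((2 ^ j * y) ^ (-6:ℝ)) * nn a (t^2) (2 ^ j * y * (2 * t + 2 ^ j * y)) ^ 4) +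
        ENNReal.ofReal (16 * (C * (1 + t)) ^ 4)) := setLIntegral_mono' measurableSet_Q h1
    _ = ENNReal.ofReal (16 * (9 ^ 4 * ((y + t) ^ (-2:ℝ) * ((J:ℝ) + 1) ^ 4))) * (∑ j ∈ Finset.range (J + 1),
        ENNReal.ofReal ((2 ^ j * y) ^ (-6:ℝ)) * ∫⁻ a in Q, nn a (t^2) (2 ^ j * y * (2 * t + 2 ^ j * y)) ^ 4) +
        ENNReal.ofReal (16 * (C * (1 + t)) ^ 4) := by
        rw [lintegral_add_right _ measurable_const, lintegral_const_mul' _ _ ENNReal.ofReal_ne_top,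
          lintegral_finsetSum _ (fun j _ => (hm j).const_mul _), setLIntegral_const, volume_Q, mul_one]
        congr 2
        apply Finset.sum_congr rfl
        intro j _
        rw [lintegral_const_mul' _ _ ENNReal.ofReal_ne_top]
    _ ≤ _ := by
        have p1 : (0:ℝ) ≤ (y + t) ^ (-2:ℝ) * ((J:ℝ) + 1) ^ 4 := by positivity
        have p2 : 0 ≤ C ^ 4 := by positivity
        apply add_le_add
        · apply mul_le_mul' _ le_rfl
          apply ENNReal.ofReal_le_ofReal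
          nlinarith [mul_nonneg p2 p1]
        · apply ENNReal.ofReal_le_ofReal
          rw [mul_pow]
          have p3 : 0 ≤ (1 + t) ^ 4 := by positivity
          nlinarith

/-- subdivision of an annulus into annuli of width `1/8` -/
lemma nn_subdiv (a : ℝ × ℝ) (v : ℝ) {s : ℝ} (hs0 : 0 < s) :
    nn a v s ≤ ∑ i ∈ Finset.range ⌈8 * s⌉₊, nn a (v - s + (2 * i + 1) / 8) (1/8) := by
  have h : ∀ p : ℤ × ℤ, chi p a v s ≤ ∑ i ∈ Finset.range ⌈8 * s⌉₊, chi p a (v - s + (2 * i + 1) / 8) (1/8) := by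
    intro p
    by_cases h1 : |d2 p a - v| ≤ s
    · rw [chi_one h1]
      rw [abs_le] at h1
      -- the index
      set x := 4 * (d2 p a - v + s) with hx
      have hx0 : 0 ≤ x := by rw [hx]; linarith [h1.1]
      have hx1 : x ≤ 8 * s := by rw [hx]; linarith [h1.2]
      · have hc : 0 < ⌈8 * s⌉₊ := Nat.ceil_pos.mpr (by linarith)
        obtain ⟨i, hi, hi1, hi2⟩ : ∃ i : ℕ, i < ⌈8 * s⌉₊ ∧ (i:ℝ) ≤ x ∧ x ≤ i + 1 := by
          rcases lt_or_ge ⌊x⌋₊ ⌈8 * s⌉₊ with h2 | h2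
          · exact ⟨⌊x⌋₊, h2, Nat.floor_le hx0, (Nat.lt_floor_add_one x).le⟩
          · have h3 : ((⌈8 * s⌉₊ : ℕ) : ℝ) ≤ x := by
              have := Nat.floor_le hx0
              have h4 : ((⌈8 * s⌉₊ : ℕ) : ℝ) ≤ ((⌊x⌋₊ : ℕ) : ℝ) := by exact_mod_cast h2
              linarith
            refine ⟨⌈8 * s⌉₊ - 1, by omega, ?_, ?_⟩
            · have : ((⌈8 * s⌉₊ - 1 : ℕ) : ℝ) = ((⌈8 * s⌉₊ : ℕ) : ℝ) - 1 := by
                rw [Nat.cast_sub hc]; simp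
              rw [this]; linarith
            · have : ((⌈8 * s⌉₊ - 1 : ℕ) : ℝ) = ((⌈8 * s⌉₊ : ℕ) : ℝ) - 1 := by
                rw [Nat.cast_sub hc]; simp
              rw [this]
              have := Nat.le_ceil (8 * s)
              linarith
        have h5 : chi p a (v - s + (2 * i + 1) / 8) (1/8) = 1 := by
          apply chi_one
          rw [abs_le]
          rw [hx] at hi1 hi2
          constructor <;> linarith
        rw [← h5]
        exact Finset.single_le_sum (f := fun i : ℕ => chi p a (v - s + (2 * i + 1) / 8) (1/8))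
          (fun _ _ => zero_le) (Finset.mem_range.mpr hi)
    · rw [chi_nil h1]; exact zero_le
  unfold nn
  rw [← Summable.tsum_finsetSum (fun _ _ => ENNReal.summable)]
  exact ENNReal.tsum_le_tsum h

end Pool.Agent.H593.U
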