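import Mathlib
import Pool.Agent.H593.U.SB2

/-!
# Dyadic pieces
-/

open MeasureTheory Set Filter Topology
open Pool.Agent.H383.Gauss
open scoped ENNReal

namespace Pool.Agent.H593.U

lemma MM_subdiv {lo hi s : ℝ} (hs : 0 < s) :
    MM lo hi s ≤ ((⌈8 * s⌉₊ : ℕ) : ℝ≥0∞) ^ 5 * MM (lo - s) (hi + s + 1/4) (1/8) := by
  set n := ⌈8 * s⌉₊ with hn
  have hm : ∀ d : ℝ, Measurable (fun v : ℝ => ∫⁻ a in Q, nn a (v + d) (1/8) ^ 4) := by
    intro d
    have h1 : Measurable (fun x : (ℝ × ℝ) × ℝ => nn x.1 x.2 (1/8) ^ 4) := (measurable_nn (1/8)).pow_const 4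
    have h2 : Measurable (fun v : ℝ => ∫⁻ a in Q, nn a v (1/8) ^ 4) := h1.lintegral_prod_left'
    have h3 := h2.comp (measurable_id.add_const d)
    exact h3
  unfold MM
  calc ∫⁻ v in Icc lo hi, ∫⁻ a in Q, nn a v s ^ 4
      ≤ ∫⁻ v in Icc lo hi, ∑ i ∈ Finset.range n, (n:ℝ≥0∞) ^ 4 * ∫⁻ a in Q, nn a (v + (-s + (2 * i + 1) / 8)) (1/8) ^ 4 := by
        apply lintegral_mono
        intro v
        have h1 : ∀ a, nn a v s ^ 4 ≤ ∑ i ∈ Finset.range n, (n:ℝ≥0∞) ^ 4 * nn a (v + (-s + (2 * i + 1) / 8)) (1/8) ^ 4 := by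
          intro a
          have h2 := nn_subdiv a v hs
          rw [← hn] at h2
          have e : ∀ i : ℕ, v - s + (2 * i + 1) / 8 = v + (-s + (2 * i + 1) / 8) := by intro i; ring
          simp_rw [e] at h2
          calc nn a v s ^ 4 ≤ (∑ i ∈ Finset.range n, nn a (v + (-s + (2 * i + 1) / 8)) (1/8)) ^ 4 := by gcongr
            _ ≤ (n:ℝ≥0∞) ^ 4 * ∑ i ∈ Finset.range n, nn a (v + (-s + (2 * i + 1) / 8)) (1/8) ^ 4 := sum_pow4_le' n _
            _ = _ := by rw [Finset.mul_sum]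
        refine (lintegral_mono (fun a => h1 a)).trans (le_of_eq ?_)
        rw [lintegral_finsetSum]
        · apply Finset.sum_congr rfl
          intro i _
          rw [lintegral_const_mul' _ _ (by simp)]
        · intro i _
          exact ((measurable_nn_left _ _).pow_const 4).const_mul _
    _ = ∑ i ∈ Finset.range n, (n:ℝ≥0∞) ^ 4 * ∫⁻ v in Icc lo hi, ∫⁻ a in Q, nn a (v + (-s + (2 * i + 1) / 8)) (1/8) ^ 4 := by
        rw [lintegral_finsetSum]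
        · apply Finset.sum_congr rfl
          intro i _
          rw [lintegral_const_mul' _ _ (by simp)]
        · intro i _
          exact (hm _).const_mul _
    _ ≤ ∑ i ∈ Finset.range n, (n:ℝ≥0∞) ^ 4 * ∫⁻ v in Icc (lo - s) (hi + s + 1/4), ∫⁻ a in Q, nn a v (1/8) ^ 4 := by
        apply Finset.sum_le_sum
        intro i hi'
        rw [Finset.mem_range] at hi'
        refine mul_le_mul' le_rfl ?_
        have h3 := lint_shift_le (fun v => ∫⁻ a in Q, nn a v (1/8) ^ 4) (a := lo) (b := hi)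
          (c := lo - s) (d := hi + s + 1/4) (h := -(-s + (2 * i + 1) / 8)) (by
            have : (0:ℝ) ≤ i := Nat.cast_nonneg i
            linarith) (by
            have h4 : ((i:ℕ):ℝ) + 1 ≤ ((n:ℕ):ℝ) := by exact_mod_cast hi'
            have h5 := Nat.ceil_lt_add_one (a := 8 * s) (by positivity)
            rw [← hn] at h5
            linarith)
        simp only [sub_neg_eq_add] at h3
        exact h3
    _ = _ := by
        rw [Finset.sum_const, Finset.card_range, nsmul_eq_mul]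
        ring

lemma MM_big {γ : ℝ} (hγ : 2 ≤ γ) (h : HM γ) : ∃ C : ℝ, 0 < C ∧ ∀ τ s : ℝ, 1 ≤ τ → 1/8 ≤ s →
    MM (τ^2) (4*τ^2) s ≤ ENNReal.ofReal (C * (s ^ 5 * τ ^ γ)) := by
  obtain ⟨C, hC, h⟩ := h
  refine ⟨16 ^ 5 * C + 676 ^ 3 * 160, by positivity, ?_⟩
  intro τ s hτ hs
  have hs0 : 0 < s := by linarith
  have hτ0 : 0 < τ := by linarith
  have hτγ : τ ^ 2 ≤ τ ^ γ := by
    rw [← Real.rpow_natCast]; exact Real.rpow_le_rpow_of_exponent_le hτ (by exact_mod_cast hγ)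
  have hpi := Real.pi_gt_three
  have hpi2 := Real.pi_lt_d2
  have hn := Nat.ceil_lt_add_one (a := 8 * s) (by positivity)
  have q1 : 0 ≤ s ^ 5 * τ ^ γ := by positivity
  rcases le_or_gt s (τ^2/2) with hc | hc
  · have h1 := MM_subdiv (lo := τ^2) (hi := 4*τ^2) hs0
    have h2 : MM (τ^2 - s) (4*τ^2 + s + 1/4) (1/8) ≤ MM (τ^2/4) (8*τ^2) (1/8) := by
      have : 1 ≤ τ^2 := one_le_pow₀ hτ
      apply MM_mono (by linarith) (by linarith) le_rfl
    have h3 := h τ (1/8) hτ (by norm_num) le_rfl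
    have h4 : MM (τ^2 - s) (4*τ^2 + s + 1/4) (1/8) ≤ ENNReal.ofReal (C * τ ^ γ) := by
      refine h2.trans (h3.trans (ENNReal.ofReal_le_ofReal ?_))
      have : 0 ≤ τ ^ γ := by positivity
      have h5 : τ^2 * (1/8) + τ ^ γ * (1/8) ^ 3 ≤ τ ^ γ := by nlinarith
      gcongr
    have h5 : ((⌈8 * s⌉₊ : ℕ) : ℝ≥0∞) ^ 5 ≤ ENNReal.ofReal ((16 * s) ^ 5) := by
      rw [ENNReal.ofReal_pow (by positivity), ← ENNReal.ofReal_natCast]
      gcongr
      linarith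
    calc MM (τ^2) (4*τ^2) s ≤ ENNReal.ofReal ((16 * s) ^ 5) * ENNReal.ofReal (C * τ ^ γ) :=
          h1.trans (mul_le_mul' h5 h4)
      _ = ENNReal.ofReal ((16 ^ 5 * C) * (s ^ 5 * τ ^ γ)) := by
          rw [← ENNReal.ofReal_mul (by positivity)]; congr 1; ring
      _ ≤ _ := by
          apply ENNReal.ofReal_le_ofReal
          nlinarith
  · have hsq : √s * √s = s := Real.mul_self_sqrt hs0.le
    have hsq1 : 35/100 ≤ √s := by
      apply Real.le_sqrt_of_sq_le; norm_num; linarith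
    have h1 := MM_triv (lo := τ^2) (hi := 4*τ^2) (s := s) (R := 3 * √s) hs0.le (by positivity) (by
      rw [mul_pow, sq (√s), hsq]; linarith)
    refine h1.trans (ENNReal.ofReal_le_ofReal ?_)
    have h2 : (((2 * (⌈3 * √s⌉₊ + 2) + 1) ^ 2 : ℕ) : ℝ) ≤ 676 * s := by
      push_cast
      have h3 := Nat.ceil_lt_add_one (a := 3 * √s) (by positivity)
      have h4 : 2 * ((⌈3 * √s⌉₊ : ℕ) + 2 : ℝ) + 1 ≤ 26 * √s := by linarith
      calc (2 * ((⌈3 * √s⌉₊ : ℕ) + 2 : ℝ) + 1) ^ 2 ≤ (26 * √s) ^ 2 := by gcongr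
        _ = 676 * (√s * √s) := by ring
        _ = _ := by rw [hsq]
    calc (((2 * (⌈3 * √s⌉₊ + 2) + 1) ^ 2 : ℕ) : ℝ) ^ 3 * (2 * Real.pi * s) * (4 * τ^2 - τ^2)
        ≤ (676 * s) ^ 3 * (2 * 3.15 * s) * (3 * τ^2) := by
          have e : 4 * τ^2 - τ^2 = 3 * τ^2 := by ring
          rw [e]
          gcongr
      _ = (676 ^ 3 * 18.9) * (s ^ 4 * τ^2) := by ring
      _ ≤ (676 ^ 3 * 18.9) * (s ^ 4 * ((8 * s) * τ ^ γ)) := by
          gcongr
          calc τ^2 = 1 * τ^2 := (one_mul _).symm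
            _ ≤ (8 * s) * τ ^ γ := by gcongr; linarith
      _ ≤ _ := by
          have : (676 ^ 3 * 18.9) * (s ^ 4 * ((8 * s) * τ ^ γ)) = (676 ^ 3 * 151.2) * (s ^ 5 * τ ^ γ) := by ring
          rw [this]
          apply mul_le_mul_of_nonneg_right _ q1
          nlinarith

/-- reverse change of variables -/
lemma lint_sq_ge {f : ℝ → ℝ≥0∞} {a b : ℝ} (ha : 0 < a) (hab : a ≤ b) :
    ∫⁻ t in Icc a b, f t ≤ ENNReal.ofReal (1 / (2 * a)) * ∫⁻ v in Icc (a^2) (b^2), f (√v) := by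
  have himg : (fun t : ℝ => t ^ 2) '' (Icc a b) = Icc (a^2) (b^2) := by
    ext v
    constructor
    · rintro ⟨t, ht, rfl⟩
      have h1 : a ^ 2 ≤ t ^ 2 := by have := ht.1; gcongr
      have h2 : t ^ 2 ≤ b ^ 2 := by have := ht.2; have := ha.le.trans ht.1; gcongr
      exact ⟨h1, h2⟩
    · intro hv
      have hv0 : 0 ≤ v := (sq_nonneg a).trans hv.1
      refine ⟨√v, ⟨?_, ?_⟩, Real.sq_sqrt hv0⟩
      · exact Real.le_sqrt_of_sq_le hv.1
      · rw [Real.sqrt_le_left (ha.le.trans hab)]; exact hv.2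
  have hinj : InjOn (fun t : ℝ => t ^ 2) (Icc a b) := by
    intro x hx y hy hxy
    simp only at hxy
    have hx0 : 0 ≤ x := ha.le.trans hx.1
    have hy0 : 0 ≤ y := ha.le.trans hy.1
    rw [← Real.sqrt_sq hx0, hxy, Real.sqrt_sq hy0]
  have h := lintegral_image_eq_lintegral_abs_deriv_mul (s := Icc a b) (f := fun t : ℝ => t ^ 2)
    (f' := fun t => 2 * t) measurableSet_Icc (fun x _ => by
      have := (hasDerivAt_pow 2 x).hasDerivWithinAt (s := Icc a b)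
      simpa using this) hinj (fun v => f (√v))
  rw [himg] at h
  rw [h, ← lintegral_const_mul' _ _ ENNReal.ofReal_ne_top]
  apply setLIntegral_mono' measurableSet_Icc
  intro t ht
  have ht0 : 0 < t := ha.trans_le ht.1
  rw [Real.sqrt_sq ht0.le, ← mul_assoc, ← ENNReal.ofReal_mul (by positivity), abs_of_nonneg (by positivity)]
  have h1 : 1 ≤ 1 / (2 * a) * (2 * t) := by
    rw [div_mul_eq_mul_div, one_mul, one_le_div (by positivity)]
    linarith [ht.1]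
  calc f t = 1 * f t := (one_mul _).symm
    _ ≤ _ := by
        gcongr
        rw [← ENNReal.ofReal_one]
        exact ENNReal.ofReal_le_ofReal h1

lemma ofReal_alg2 {a b c d e : ℝ} (ha : 0 ≤ a) (hb : 0 ≤ b) (hc : 0 ≤ c) (hd : 0 ≤ d) (he : 0 ≤ e) :
    ENNReal.ofReal a * (ENNReal.ofReal b * ENNReal.ofReal c) + ENNReal.ofReal d * ENNReal.ofReal e =
      ENNReal.ofReal (a * (b * c) + d * e) := by
  rw [ENNReal.ofReal_add (by positivity) (by positivity), ENNReal.ofReal_mul ha,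
    ENNReal.ofReal_mul hb, ENNReal.ofReal_mul hd]

/-- one dyadic range of `t` -/
theorem dyad {γ : ℝ} (hγ : 2 ≤ γ) (h : HM γ) : ∃ C : ℝ, 0 < C ∧ ∀ (K τ : ℝ) (J : ℕ), 1 ≤ τ → τ ≤ K →
    2 * τ + 1 ≤ 2 ^ J * (1/K) → 2 ^ J * (1/K) ≤ 12 * τ →
    ∫⁻ t in Icc τ (2*τ), ∫⁻ a in Q, ENNReal.ofReal ‖Fs (1/K) a t‖ ^ 4 ≤
      ENNReal.ofReal (C * (((J:ℝ) + 1) ^ 5 * (K ^ 5 + K ^ 3 * τ ^ γ))) := by
  obtain ⟨C1, hC1, h1⟩ := Fs_four
  obtain ⟨C2, hC2, h2⟩ := MM_big hγ h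
  obtain ⟨C3, hC3, h3⟩ := h
  refine ⟨C1 * (2048 * C3 + 2 ^ 19 * C2 + 81), by positivity, ?_⟩
  intro K τ J hτ hτK hJ1 hJ2
  have hK : 1 ≤ K := hτ.trans hτK
  have hK0 : 0 < K := by linarith
  have hτ0 : 0 < τ := by linarith
  set y := 1/K with hy
  have hy0 : 0 < y := by positivity
  have hy1 : y ≤ 1 := by rw [hy, div_le_one hK0]; exact hK
  set E := K ^ 5 + K ^ 3 * τ ^ γ with hE
  have hE0 : 0 ≤ E := by positivity
  -- pointwise
  have p1 : ∀ t ∈ Icc τ (2*τ), ∫⁻ a in Q, ENNReal.ofReal ‖Fs y a t‖ ^ 4 ≤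
      ENNReal.ofReal (C1 * (τ ^ (-2:ℝ) * ((J:ℝ) + 1) ^ 4)) * (∑ j ∈ Finset.range (J + 1),
        ENNReal.ofReal ((2 ^ j * y) ^ (-6:ℝ)) * ∫⁻ a in Q, nn a (t^2) (16 * τ * (2 ^ j * y)) ^ 4) +
      ENNReal.ofReal (C1 * (1 + 2 * τ) ^ 4) := by
    intro t ht
    have ht0 : 0 < t := by linarith [ht.1]
    refine (h1 y t J hy0 hy1 ht0.le (by linarith [ht.2])).trans ?_
    apply add_le_add
    · apply mul_le_mul'
      · apply ENNReal.ofReal_le_ofReal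
        have : (y + t) ^ (-2:ℝ) ≤ τ ^ (-2:ℝ) :=
          Real.rpow_le_rpow_of_nonpos hτ0 (by linarith [ht.1]) (by norm_num)
        gcongr
      · apply Finset.sum_le_sum
        intro j hj
        rw [Finset.mem_range] at hj
        refine mul_le_mul' le_rfl ?_
        gcongr with a
        apply nn_mono
        have h5 : (2:ℝ) ^ j * y ≤ 12 * τ := by
          refine le_trans ?_ hJ2
          gcongr
          · norm_num
          · omega
        have h6 : 0 < (2:ℝ) ^ j * y := by positivity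
        have h7 : 2 * t + 2 ^ j * y ≤ 16 * τ := by linarith [ht.2]
        calc 2 ^ j * y * (2 * t + 2 ^ j * y) ≤ 2 ^ j * y * (16 * τ) := by gcongr
          _ = _ := by ring
    · apply ENNReal.ofReal_le_ofReal
      have := ht.2
      gcongr
  -- each term
  have p2 : ∀ j ∈ Finset.range (J+1), ENNReal.ofReal ((2 ^ j * y) ^ (-6:ℝ)) *
      (∫⁻ t in Icc τ (2*τ), ∫⁻ a in Q, nn a (t^2) (16 * τ * (2 ^ j * y)) ^ 4) ≤
      ENNReal.ofReal ((2048 * C3 + 2 ^ 19 * C2) * (τ ^ 2 * E)) := by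
    intro j _
    set ρ := (2:ℝ) ^ j * y with hρ
    have hρ0 : 0 < ρ := by positivity
    have hρy : y ≤ ρ := by
      rw [hρ]
      have : (1:ℝ) ≤ 2 ^ j := one_le_pow₀ (by norm_num)
      nlinarith
    have hρK : ρ⁻¹ ≤ K := by
      rw [inv_le_comm₀ hρ0 hK0, ← one_div]; exact hρy
    have hρi : 0 < ρ⁻¹ := by positivity
    have e6 : ρ ^ (-6:ℝ) = ρ⁻¹ ^ 6 := by
      rw [Real.rpow_neg hρ0.le, show (6:ℝ) = ((6:ℕ):ℝ) by norm_num, Real.rpow_natCast, inv_pow]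
    have q1 : ∫⁻ t in Icc τ (2*τ), ∫⁻ a in Q, nn a (t^2) (16 * τ * ρ) ^ 4 ≤
        ENNReal.ofReal (1 / (2 * τ)) * MM (τ^2) (4*τ^2) (16 * τ * ρ) := by
      refine (lint_sq_ge (f := fun t => ∫⁻ a in Q, nn a (t^2) (16 * τ * ρ) ^ 4) hτ0 (by linarith)).trans ?_
      rw [show (2 * τ)^2 = 4 * τ^2 by ring]
      refine mul_le_mul' le_rfl (le_of_eq ?_)
      unfold MM
      apply setLIntegral_congr_fun measurableSet_Icc
      intro v hv
      have hv0 : 0 ≤ v := (sq_nonneg _).trans hv.1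
      simp only
      rw [Real.sq_sqrt hv0]
    have q3 : ∀ W : ℝ, 0 ≤ W → MM (τ^2) (4*τ^2) (16 * τ * ρ) ≤ ENNReal.ofReal W →
        ρ⁻¹ ^ 6 * (1 / (2 * τ) * W) ≤ (2048 * C3 + 2 ^ 19 * C2) * (τ ^ 2 * E) →
        ENNReal.ofReal (ρ ^ (-6:ℝ)) * (∫⁻ t in Icc τ (2*τ), ∫⁻ a in Q, nn a (t^2) (16 * τ * ρ) ^ 4) ≤
        ENNReal.ofReal ((2048 * C3 + 2 ^ 19 * C2) * (τ ^ 2 * E)) := by
      intro W hW hMW hWW
      calc _ ≤ ENNReal.ofReal (ρ ^ (-6:ℝ)) * (ENNReal.ofReal (1 / (2 * τ)) * ENNReal.ofReal W) :=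
            mul_le_mul' le_rfl (q1.trans (mul_le_mul' le_rfl hMW))
        _ = ENNReal.ofReal (ρ⁻¹ ^ 6 * (1 / (2 * τ) * W)) := by
            rw [e6, ← ENNReal.ofReal_mul (by positivity), ← ENNReal.ofReal_mul (by positivity)]
        _ ≤ _ := ENNReal.ofReal_le_ofReal hWW
    rcases le_or_gt (16 * τ * ρ) (1/8) with hc | hc
    · apply q3 (C3 * (τ^2 * (16 * τ * ρ) + τ ^ γ * (16 * τ * ρ) ^ 3)) (by positivity)
      · refine le_trans (MM_mono ?_ ?_ le_rfl) (h3 τ (16 * τ * ρ) hτ (by positivity) hc)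
        · nlinarith [sq_nonneg τ]
        · nlinarith [sq_nonneg τ]
      · have r1 : ρ⁻¹ * ρ = 1 := inv_mul_cancel₀ hρ0.ne'
        have e7 : ρ⁻¹ ^ 6 * (1 / (2 * τ) * (C3 * (τ^2 * (16 * τ * ρ) + τ ^ γ * (16 * τ * ρ) ^ 3))) =
            C3 * τ ^ 2 * (8 * ρ⁻¹ ^ 5 + 2048 * (ρ⁻¹ ^ 3 * τ ^ γ)) := by
          have a1 : ρ⁻¹ ^ 6 * ρ = ρ⁻¹ ^ 5 := by rw [pow_succ, mul_assoc, r1, mul_one]
          have a2 : ρ⁻¹ ^ 6 * ρ ^ 3 = ρ⁻¹ ^ 3 := by
            calc ρ⁻¹ ^ 6 * ρ ^ 3 = ρ⁻¹ ^ 3 * (ρ⁻¹ * ρ) ^ 3 := by ring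
              _ = _ := by rw [r1]; ring
          rw [← a1, ← a2]
          field_simp
          ring
        rw [e7]
        have b1 : ρ⁻¹ ^ 5 ≤ K ^ 5 := by gcongr
        have b2 : ρ⁻¹ ^ 3 * τ ^ γ ≤ K ^ 3 * τ ^ γ := by gcongr
        calc C3 * τ ^ 2 * (8 * ρ⁻¹ ^ 5 + 2048 * (ρ⁻¹ ^ 3 * τ ^ γ)) ≤ C3 * τ ^ 2 * (2048 * E) := by
              gcongr
              have : 0 ≤ K ^ 5 := by positivity
              rw [hE]; linarith
          _ = 2048 * C3 * (τ ^ 2 * E) := by ring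
          _ ≤ _ := by gcongr; linarith [(by positivity : 0 ≤ 2 ^ 19 * C2)]
    · apply q3 (C2 * ((16 * τ * ρ) ^ 5 * τ ^ γ)) (by positivity)
      · exact h2 τ (16 * τ * ρ) hτ hc.le
      · have r1 : ρ⁻¹ * ρ = 1 := inv_mul_cancel₀ hρ0.ne'
        have e7 : ρ⁻¹ ^ 6 * (1 / (2 * τ) * (C2 * ((16 * τ * ρ) ^ 5 * τ ^ γ))) =
            2 ^ 19 * C2 * τ ^ 2 * (τ ^ 2 * ρ⁻¹ * τ ^ γ) := by
          have a1 : ρ⁻¹ ^ 6 * ρ ^ 5 = ρ⁻¹ := by
            calc ρ⁻¹ ^ 6 * ρ ^ 5 = ρ⁻¹ * (ρ⁻¹ * ρ) ^ 5 := by ring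
              _ = _ := by rw [r1]; ring
          rw [← a1]
          field_simp
          ring
        rw [e7]
        have b1 : τ ^ 2 * ρ⁻¹ * τ ^ γ ≤ K ^ 2 * K * τ ^ γ := by gcongr
        calc 2 ^ 19 * C2 * τ ^ 2 * (τ ^ 2 * ρ⁻¹ * τ ^ γ) ≤ 2 ^ 19 * C2 * τ ^ 2 * (K ^ 2 * K * τ ^ γ) := by gcongr
          _ ≤ 2 ^ 19 * C2 * τ ^ 2 * E := by
              gcongr
              have : 0 ≤ K ^ 5 := by positivity
              rw [hE]; linarith
          _ = 2 ^ 19 * C2 * (τ ^ 2 * E) := by ring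
          _ ≤ _ := by gcongr; linarith [(by positivity : 0 ≤ 2048 * C3)]
  have hmj : ∀ j : ℕ, Measurable (fun t : ℝ => ∫⁻ a in Q, nn a (t^2) (16 * τ * (2 ^ j * y)) ^ 4) := by
    intro j
    have k1 : Measurable (fun x : (ℝ × ℝ) × ℝ => nn x.1 x.2 (16 * τ * (2 ^ j * y)) ^ 4) := (measurable_nn _).pow_const 4
    have k2 : Measurable (fun v : ℝ => ∫⁻ a in Q, nn a v (16 * τ * (2 ^ j * y)) ^ 4) := k1.lintegral_prod_left'
    have k3 := k2.comp (measurable_id.pow_const 2)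
    exact k3
  calc ∫⁻ t in Icc τ (2*τ), ∫⁻ a in Q, ENNReal.ofReal ‖Fs y a t‖ ^ 4
      ≤ ∫⁻ t in Icc τ (2*τ), (ENNReal.ofReal (C1 * (τ ^ (-2:ℝ) * ((J:ℝ) + 1) ^ 4)) * (∑ j ∈ Finset.range (J + 1),
        ENNReal.ofReal ((2 ^ j * y) ^ (-6:ℝ)) * ∫⁻ a in Q, nn a (t^2) (16 * τ * (2 ^ j * y)) ^ 4) +
        ENNReal.ofReal (C1 * (1 + 2 * τ) ^ 4)) := setLIntegral_mono' measurableSet_Icc p1
    _ = ENNReal.ofReal (C1 * (τ ^ (-2:ℝ) * ((J:ℝ) + 1) ^ 4)) * (∑ j ∈ Finset.range (J + 1),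
        ENNReal.ofReal ((2 ^ j * y) ^ (-6:ℝ)) * ∫⁻ t in Icc τ (2*τ), ∫⁻ a in Q, nn a (t^2) (16 * τ * (2 ^ j * y)) ^ 4) +
        ENNReal.ofReal (C1 * (1 + 2 * τ) ^ 4) * ENNReal.ofReal τ := by
        rw [lintegral_add_right _ measurable_const, lintegral_const_mul' _ _ ENNReal.ofReal_ne_top,
          lintegral_finsetSum _ (fun j _ => (hmj j).const_mul _), setLIntegral_const, Real.volume_Icc,
          show 2 * τ - τ = τ by ring]
        congr 2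
        apply Finset.sum_congr rfl
        intro j _
        rw [lintegral_const_mul' _ _ ENNReal.ofReal_ne_top]
    _ ≤ ENNReal.ofReal (C1 * (τ ^ (-2:ℝ) * ((J:ℝ) + 1) ^ 4)) * (((J + 1 : ℕ) : ℝ≥0∞) *
          ENNReal.ofReal ((2048 * C3 + 2 ^ 19 * C2) * (τ ^ 2 * E))) +
        ENNReal.ofReal (C1 * (1 + 2 * τ) ^ 4) * ENNReal.ofReal τ := by
        refine add_le_add (mul_le_mul' le_rfl ?_) le_rfl
        refine (Finset.sum_le_card_nsmul _ _ _ p2).trans (le_of_eq ?_)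
        rw [Finset.card_range, nsmul_eq_mul]
    _ = ENNReal.ofReal (C1 * (τ ^ (-2:ℝ) * ((J:ℝ) + 1) ^ 4) * (((J:ℝ) + 1) * ((2048 * C3 + 2 ^ 19 * C2) * (τ ^ 2 * E))) +
        C1 * (1 + 2 * τ) ^ 4 * τ) := by
        have e1 : ((J + 1 : ℕ) : ℝ≥0∞) = ENNReal.ofReal ((J:ℝ) + 1) := by
          rw [← ENNReal.ofReal_natCast]; push_cast; rfl
        rw [e1]
        exact ofReal_alg2 (by positivity) (by positivity) (by positivity) (by positivity) (by positivity)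
    _ ≤ _ := by
        apply ENNReal.ofReal_le_ofReal
        have f1 : τ ^ (-2:ℝ) * τ ^ 2 = 1 := by
          rw [← Real.rpow_natCast τ 2, ← Real.rpow_add hτ0]; norm_num
        have f2 : C1 * (τ ^ (-2:ℝ) * ((J:ℝ) + 1) ^ 4) * (((J:ℝ) + 1) * ((2048 * C3 + 2 ^ 19 * C2) * (τ ^ 2 * E))) =
            C1 * (2048 * C3 + 2 ^ 19 * C2) * (((J:ℝ) + 1) ^ 5 * E) := by
          linear_combination (C1 * (2048 * C3 + 2 ^ 19 * C2) * (((J:ℝ) + 1) ^ 5 * E)) * f1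
        have f3 : (1 + 2 * τ) ^ 4 * τ ≤ 81 * K ^ 5 := by
          calc (1 + 2 * τ) ^ 4 * τ ≤ (3 * τ) ^ 4 * τ := by gcongr; linarith
            _ = 81 * τ ^ 5 := by ring
            _ ≤ 81 * K ^ 5 := by gcongr
        have f4 : K ^ 5 ≤ ((J:ℝ) + 1) ^ 5 * E := by
          have g1 : (1:ℝ) ≤ ((J:ℝ) + 1) ^ 5 := by
            apply one_le_pow₀
            have : (0:ℝ) ≤ J := Nat.cast_nonneg J
            linarith
          have g2 : K ^ 5 ≤ E := by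
            rw [hE]
            have : 0 ≤ K ^ 3 * τ ^ γ := by positivity
            linarith
          calc K ^ 5 = 1 * K ^ 5 := (one_mul _).symm
            _ ≤ _ := by gcongr
        rw [f2]
        calc C1 * (2048 * C3 + 2 ^ 19 * C2) * (((J:ℝ) + 1) ^ 5 * E) + C1 * (1 + 2 * τ) ^ 4 * τ
            = C1 * (2048 * C3 + 2 ^ 19 * C2) * (((J:ℝ) + 1) ^ 5 * E) + C1 * ((1 + 2 * τ) ^ 4 * τ) := by ring
          _ ≤ C1 * (2048 * C3 + 2 ^ 19 * C2) * (((J:ℝ) + 1) ^ 5 * E) + C1 * (81 * (((J:ℝ) + 1) ^ 5 * E)) := by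
              have f5 : (1 + 2 * τ) ^ 4 * τ ≤ 81 * (((J:ℝ) + 1) ^ 5 * E) := by linarith
              have f6 := mul_le_mul_of_nonneg_left f5 hC1.le
              linarith
          _ = _ := by ring

end Pool.Agent.H593.U
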