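import Mathlib
import Pool.Agent.H593.U.SB3

/-!
# The integral over all times up to `T`
-/

open MeasureTheory Set Filter Topology
open Pool.Agent.H383.Gauss
open scoped ENNReal

namespace Pool.Agent.H593.U

lemma pickJ (m : ℕ) {ε : ℝ} (hε : 0 < ε) : ∃ C : ℝ, 0 < C ∧ ∀ (K τ : ℝ), 1 ≤ K → 1/2 ≤ τ → τ ≤ K →
    ∃ J : ℕ, 2 * τ + 1 ≤ 2 ^ J * (1/K) ∧ 2 ^ J * (1/K) ≤ 12 * τ ∧ ((J:ℝ) + 1) ^ m ≤ C * K ^ ε := by
  obtain ⟨C, hC, h⟩ := log_pow_le m hε
  refine ⟨6 ^ m * C, by positivity, ?_⟩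
  intro K τ hK hτ hτK
  have hK0 : 0 < K := by linarith
  set N := ⌈(2 * τ + 1) * K⌉₊ with hN
  have hN1 : (2 * τ + 1) * K ≤ N := Nat.le_ceil _
  have hN2 : (N:ℝ) < (2 * τ + 1) * K + 1 := Nat.ceil_lt_add_one (by positivity)
  have hN0 : N ≠ 0 := by
    have : 0 < N := Nat.ceil_pos.mpr (by positivity)
    omega
  have h1 : N < 2 ^ (Nat.log 2 N + 1) := Nat.lt_pow_succ_log_self (by norm_num) N
  have h2 : 2 ^ (Nat.log 2 N) ≤ N := Nat.pow_log_le_self 2 hN0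
  have h1' : (N:ℝ) < (2:ℝ) ^ (Nat.log 2 N + 1) := by exact_mod_cast h1
  have h2' : (2:ℝ) ^ (Nat.log 2 N) ≤ N := by exact_mod_cast h2
  refine ⟨Nat.log 2 N + 1, ?_, ?_, ?_⟩
  · rw [mul_one_div, le_div_iff₀ hK0]; linarith
  · rw [mul_one_div, div_le_iff₀ hK0, pow_succ]
    nlinarith
  · have h3 := natlog_le N
    have h4 : (N:ℝ) ≤ 4 * K ^ 2 := by nlinarith
    have h5 := Real.log_le_log (by have : 0 < N := by omega
                                   exact_mod_cast this) h4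
    rw [Real.log_mul (by norm_num) (by positivity), Real.log_pow] at h5
    have h6 : Real.log 4 ≤ 2 := by
      rw [Real.log_le_iff_le_exp (by norm_num)]
      have h7 := Real.exp_one_gt_d9
      have : Real.exp 2 = (Real.exp 1) ^ 2 := by rw [← Real.exp_nat_mul]; norm_num
      rw [this]
      nlinarith
    have h8 : 0 ≤ Real.log K := Real.log_nonneg hK
    have h9 : (((Nat.log 2 N + 1 : ℕ) : ℝ) + 1) ≤ 6 * (Real.log K + 1) := by
      push_cast at h5 ⊢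
      linarith
    calc (((Nat.log 2 N + 1 : ℕ) : ℝ) + 1) ^ m ≤ (6 * (Real.log K + 1)) ^ m := by gcongr
      _ = 6 ^ m * (Real.log K + 1) ^ m := by rw [mul_pow]
      _ ≤ 6 ^ m * (C * K ^ ε) := by gcongr; exact h K hK
      _ = _ := by ring

lemma lint_inv {y : ℝ} (hy : 0 < y) :
    ∫⁻ t in Icc (0:ℝ) 1, ENNReal.ofReal ((y + t)⁻¹) = ENNReal.ofReal (Real.log ((y + 1) / y)) := by
  have hint : IntegrableOn (fun t : ℝ => (y + t)⁻¹) (Icc 0 1) := by
    apply ContinuousOn.integrableOn_Icc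
    apply ContinuousOn.inv₀ (by fun_prop)
    intro t ht
    have := ht.1
    have : 0 < y + t := by linarith
    exact this.ne'
  rw [← ofReal_integral_eq_lintegral_ofReal hint]
  · congr 1
    rw [integral_Icc_eq_integral_Ioc, ← intervalIntegral.integral_of_le zero_le_one]
    rw [intervalIntegral.integral_comp_add_left (fun x => x⁻¹) y, add_zero]
    exact integral_inv_of_pos hy (by linarith)
  · rw [EventuallyLE, ae_restrict_iff' measurableSet_Icc]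
    refine Eventually.of_forall fun t ht => ?_
    have := ht.1
    have : 0 < y + t := by linarith
    simp only [Pi.zero_apply]
    positivity

lemma ofReal_alg3 {a b c : ℝ} (ha : 0 ≤ a) (hb : 0 ≤ b) (hc : 0 ≤ c) :
    ENNReal.ofReal a * ENNReal.ofReal b + ENNReal.ofReal c = ENNReal.ofReal (a * b + c) := by
  rw [ENNReal.ofReal_add (by positivity) hc, ENNReal.ofReal_mul ha]

/-- small times -/
theorem dyad0 : ∃ C : ℝ, 0 < C ∧ ∀ (K : ℝ) (J : ℕ), 1 ≤ K →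
    2 ≤ 2 ^ J * (1/K) → 2 ^ J * (1/K) ≤ 6 →
    ∫⁻ t in Icc (0:ℝ) 1, ∫⁻ a in Q, ENNReal.ofReal ‖Fs (1/K) a t‖ ^ 4 ≤
      ENNReal.ofReal (C * (((J:ℝ) + 1) ^ 5 * (K ^ 5 * (Real.log K + 1)))) := by
  obtain ⟨C1, hC1, h1⟩ := Fs_four
  set N0 : ℝ := (((2 * (⌈(7:ℝ)⌉₊ + 2) + 1) ^ 2 : ℕ) : ℝ) ^ 3 with hN0
  have hN0' : 0 ≤ N0 := by positivity
  have hpi := Real.pi_pos
  refine ⟨C1 * (6 * Real.pi * N0 + 16), by positivity, ?_⟩
  intro K J hK hJ1 hJ2
  have hK0 : 0 < K := by linarith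
  set y := 1/K with hy
  have hy0 : 0 < y := by positivity
  have hy1 : y ≤ 1 := by rw [hy, div_le_one hK0]; exact hK
  have p1 : ∀ t ∈ Icc (0:ℝ) 1, ∫⁻ a in Q, ENNReal.ofReal ‖Fs y a t‖ ^ 4 ≤
      ENNReal.ofReal (C1 * (6 * Real.pi * N0) * (((J:ℝ) + 1) ^ 5 * K ^ 5)) * ENNReal.ofReal ((y + t)⁻¹) +
      ENNReal.ofReal (C1 * 16) := by
    intro t ht
    have hu : 0 < y + t := by linarith [ht.1]
    refine (h1 y t J hy0 hy1 ht.1 (by linarith [ht.2])).trans ?_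
    apply add_le_add
    · have q1 : ∀ j ∈ Finset.range (J+1), ENNReal.ofReal ((2 ^ j * y) ^ (-6:ℝ)) *
          ∫⁻ a in Q, nn a (t^2) (2 ^ j * y * (2 * t + 2 ^ j * y)) ^ 4 ≤
          ENNReal.ofReal (2 * Real.pi * N0 * (3 * K ^ 5 * (y + t))) := by
        intro j hj
        rw [Finset.mem_range] at hj
        set ρ := (2:ℝ) ^ j * y with hρ
        have hρ0 : 0 < ρ := by positivity
        have hρy : y ≤ ρ := by
          rw [hρ]
          have : (1:ℝ) ≤ 2 ^ j := one_le_pow₀ (by norm_num)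
          nlinarith
        have hρ6 : ρ ≤ 6 := by
          refine le_trans ?_ hJ2
          rw [hρ]
          gcongr
          · norm_num
          · omega
        have hρK : ρ⁻¹ ≤ K := by
          rw [inv_le_comm₀ hρ0 hK0, ← one_div]; exact hρy
        have hρi : 0 < ρ⁻¹ := by positivity
        have e6 : ρ ^ (-6:ℝ) = ρ⁻¹ ^ 6 := by
          rw [Real.rpow_neg hρ0.le, show (6:ℝ) = ((6:ℕ):ℝ) by norm_num, Real.rpow_natCast, inv_pow]
        have hs48 : t ^ 2 + ρ * (2 * t + ρ) ≤ 7 ^ 2 := by nlinarith [ht.1, ht.2]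
        have hs0 : 0 ≤ ρ * (2 * t + ρ) := by have := ht.1; positivity
        have q2 : ∫⁻ a in Q, nn a (t^2) (ρ * (2 * t + ρ)) ^ 4 ≤ ENNReal.ofReal (N0 * (2 * Real.pi * (ρ * (2 * t + ρ)))) := by
          set n0 := (2 * (⌈(7:ℝ)⌉₊ + 2) + 1) ^ 2 with hn0
          calc ∫⁻ a in Q, nn a (t^2) (ρ * (2 * t + ρ)) ^ 4
              ≤ ∫⁻ a in Q, ((n0:ℝ≥0∞) ^ 3) * nn a (t^2) (ρ * (2 * t + ρ)) := by
                apply setLIntegral_mono' measurableSet_Q
                intro a ha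
                have h2 := nn_triv ha (by norm_num : (0:ℝ) ≤ 7) hs48
                rw [pow_succ]
                gcongr
            _ = ((n0:ℝ≥0∞) ^ 3) * ∫⁻ a in Q, nn a (t^2) (ρ * (2 * t + ρ)) := by
                rw [lintegral_const_mul' _ _ (by simp)]
            _ ≤ ((n0:ℝ≥0∞) ^ 3) * ENNReal.ofReal (2 * Real.pi * (ρ * (2 * t + ρ))) := by
                gcongr; exact int_nn _ _ hs0
            _ = _ := by
                rw [ENNReal.ofReal_mul hN0', hN0, ENNReal.ofReal_pow (by positivity), ENNReal.ofReal_natCast]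
        calc ENNReal.ofReal (ρ ^ (-6:ℝ)) * ∫⁻ a in Q, nn a (t^2) (ρ * (2 * t + ρ)) ^ 4
            ≤ ENNReal.ofReal (ρ ^ (-6:ℝ)) * ENNReal.ofReal (N0 * (2 * Real.pi * (ρ * (2 * t + ρ)))) :=
              mul_le_mul' le_rfl q2
          _ = ENNReal.ofReal (ρ⁻¹ ^ 6 * (N0 * (2 * Real.pi * (ρ * (2 * t + ρ))))) := by
              rw [e6, ← ENNReal.ofReal_mul (by positivity)]
          _ ≤ _ := by
              apply ENNReal.ofReal_le_ofReal
              have r1 : ρ⁻¹ * ρ = 1 := inv_mul_cancel₀ hρ0.ne'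
              have e7 : ρ⁻¹ ^ 6 * (N0 * (2 * Real.pi * (ρ * (2 * t + ρ)))) =
                  2 * Real.pi * N0 * (2 * t * ρ⁻¹ ^ 5 + ρ⁻¹ ^ 4) := by
                have a1 : ρ⁻¹ ^ 6 * ρ = ρ⁻¹ ^ 5 := by rw [pow_succ, mul_assoc, r1, mul_one]
                have a2 : ρ⁻¹ ^ 5 * ρ = ρ⁻¹ ^ 4 := by rw [pow_succ, mul_assoc, r1, mul_one]
                rw [← a2, ← a1]; ring
              rw [e7]
              gcongr
              have b1 : ρ⁻¹ ^ 5 ≤ K ^ 5 := by gcongr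
              have b2 : ρ⁻¹ ^ 4 ≤ K ^ 4 := by gcongr
              have b3 : K ^ 4 = K ^ 5 * y := by rw [hy]; field_simp
              have b4 : 2 * t * ρ⁻¹ ^ 5 ≤ 2 * t * K ^ 5 := by have := ht.1; gcongr
              have b5 : 0 ≤ K ^ 5 * t := by have := ht.1; positivity
              have b6 : 0 ≤ K ^ 5 * y := by positivity
              nlinarith
      calc ENNReal.ofReal (C1 * ((y + t) ^ (-2:ℝ) * ((J:ℝ) + 1) ^ 4)) * ∑ j ∈ Finset.range (J + 1),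
            ENNReal.ofReal ((2 ^ j * y) ^ (-6:ℝ)) * ∫⁻ a in Q, nn a (t^2) (2 ^ j * y * (2 * t + 2 ^ j * y)) ^ 4
          ≤ ENNReal.ofReal (C1 * ((y + t) ^ (-2:ℝ) * ((J:ℝ) + 1) ^ 4)) *
            (ENNReal.ofReal ((J:ℝ) + 1) * ENNReal.ofReal (2 * Real.pi * N0 * (3 * K ^ 5 * (y + t)))) := by
            refine mul_le_mul' le_rfl ?_
            refine (Finset.sum_le_card_nsmul _ _ _ q1).trans (le_of_eq ?_)
            rw [Finset.card_range, nsmul_eq_mul]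
            congr 1
            rw [← ENNReal.ofReal_natCast]; push_cast; rfl
        _ = ENNReal.ofReal (C1 * ((y + t) ^ (-2:ℝ) * ((J:ℝ) + 1) ^ 4) * (((J:ℝ) + 1) * (2 * Real.pi * N0 * (3 * K ^ 5 * (y + t))))) := by
            rw [← ENNReal.ofReal_mul (by positivity), ← ENNReal.ofReal_mul (by positivity)]
        _ = _ := by
            rw [← ENNReal.ofReal_mul (by positivity)]
            congr 1
            have f1 : (y + t) ^ (-2:ℝ) * (y + t) = (y + t)⁻¹ := by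
              nth_rewrite 2 [← Real.rpow_one (y + t)]
              rw [← Real.rpow_add hu, ← Real.rpow_neg_one]; norm_num
            linear_combination (C1 * (6 * Real.pi * N0) * (((J:ℝ) + 1) ^ 5 * K ^ 5)) * f1
    · apply ENNReal.ofReal_le_ofReal
      gcongr
      have : 1 + t ≤ 2 := by linarith [ht.2]
      calc (1 + t) ^ 4 ≤ 2 ^ 4 := by have := ht.1; gcongr
        _ = 16 := by norm_num
  calc ∫⁻ t in Icc (0:ℝ) 1, ∫⁻ a in Q, ENNReal.ofReal ‖Fs y a t‖ ^ 4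
      ≤ ∫⁻ t in Icc (0:ℝ) 1, (ENNReal.ofReal (C1 * (6 * Real.pi * N0) * (((J:ℝ) + 1) ^ 5 * K ^ 5)) * ENNReal.ofReal ((y + t)⁻¹) +
        ENNReal.ofReal (C1 * 16)) := setLIntegral_mono' measurableSet_Icc p1
    _ = ENNReal.ofReal (C1 * (6 * Real.pi * N0) * (((J:ℝ) + 1) ^ 5 * K ^ 5)) * ENNReal.ofReal (Real.log ((y + 1) / y)) +
        ENNReal.ofReal (C1 * 16) := by
        rw [lintegral_add_right _ measurable_const, lintegral_const_mul' _ _ ENNReal.ofReal_ne_top, lint_inv hy0,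
          setLIntegral_const, Real.volume_Icc]
        simp
    _ ≤ ENNReal.ofReal (C1 * (6 * Real.pi * N0) * (((J:ℝ) + 1) ^ 5 * K ^ 5)) * ENNReal.ofReal (Real.log K + 1) +
        ENNReal.ofReal (C1 * 16 * (((J:ℝ) + 1) ^ 5 * (K ^ 5 * (Real.log K + 1)))) := by
        have hlog : 0 ≤ Real.log K := Real.log_nonneg hK
        apply add_le_add
        · apply mul_le_mul' le_rfl
          apply ENNReal.ofReal_le_ofReal
          have e1 : (y + 1) / y = K + 1 := by rw [hy]; field_simp; ring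
          rw [e1]
          have e2 : Real.log (K + 1) ≤ Real.log (2 * K) := Real.log_le_log (by linarith) (by linarith)
          rw [Real.log_mul (by norm_num) (by positivity)] at e2
          have := Real.log_two_lt_d9
          linarith
        · apply ENNReal.ofReal_le_ofReal
          have g1 : (1:ℝ) ≤ ((J:ℝ) + 1) ^ 5 := by
            apply one_le_pow₀
            have : (0:ℝ) ≤ J := Nat.cast_nonneg J
            linarith
          have g2 : (1:ℝ) ≤ K ^ 5 := one_le_pow₀ hK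
          have g3 : 1 ≤ ((J:ℝ) + 1) ^ 5 * (K ^ 5 * (Real.log K + 1)) := by
            calc (1:ℝ) = 1 * (1 * 1) := by norm_num
              _ ≤ _ := by gcongr; linarith
          nlinarith
    _ = ENNReal.ofReal (C1 * (6 * Real.pi * N0) * (((J:ℝ) + 1) ^ 5 * K ^ 5) * (Real.log K + 1) +
        C1 * 16 * (((J:ℝ) + 1) ^ 5 * (K ^ 5 * (Real.log K + 1)))) := by
        have hlog : 0 ≤ Real.log K := Real.log_nonneg hK
        exact ofReal_alg3 (by positivity) (by positivity) (by positivity)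
    _ = _ := by congr 1; ring

/-- all times up to `T` -/
theorem upto {γ : ℝ} (hγ : 2 ≤ γ) (h : HM γ) {ε : ℝ} (hε : 0 < ε) : ∃ C : ℝ, 0 < C ∧ ∀ (K T : ℝ),
    1 ≤ T → T ≤ K →
    ∫⁻ t in Icc (0:ℝ) T, ∫⁻ a in Q, ENNReal.ofReal ‖Fs (1/K) a t‖ ^ 4 ≤
      ENNReal.ofReal (C * (K ^ ε * (K ^ 5 + K ^ 3 * T ^ γ))) := by
  obtain ⟨C1, hC1, h1⟩ := dyad hγ h
  obtain ⟨C2, hC2, h2⟩ := dyad0
  obtain ⟨C3, hC3, h3⟩ := pickJ 5 (ε := ε/2) (by positivity)
  obtain ⟨C4, hC4, h4⟩ := log_pow_le 1 (ε := ε/2) (by positivity)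
  refine ⟨C2 * C3 * C4 + C1 * C3 * (2 * C4), by positivity, ?_⟩
  intro K T hT hTK
  have hK : 1 ≤ K := hT.trans hTK
  have hK0 : 0 < K := by linarith
  have hlog : 0 ≤ Real.log K := Real.log_nonneg hK
  have h4' := h4 K hK
  rw [pow_one] at h4'
  set f : ℝ → ℝ≥0∞ := fun t => ∫⁻ a in Q, ENNReal.ofReal ‖Fs (1/K) a t‖ ^ 4 with hf
  set n := Nat.log 2 ⌊T⌋₊ + 1 with hn
  have hT0 : ⌊T⌋₊ ≠ 0 := by
    have := Nat.floor_pos.mpr hT
    omega
  have hn1 : T ≤ 2 ^ n := by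
    have k1 : ⌊T⌋₊ < 2 ^ n := Nat.lt_pow_succ_log_self (by norm_num) _
    have k2 : ((⌊T⌋₊ + 1 : ℕ) : ℝ) ≤ ((2 ^ n : ℕ) : ℝ) := by exact_mod_cast k1
    push_cast at k2
    exact (Nat.lt_floor_add_one T).le.trans k2
  have hn2 : ∀ i < n, (2:ℝ) ^ i ≤ T := by
    intro i hi
    have k1 : 2 ^ (Nat.log 2 ⌊T⌋₊) ≤ ⌊T⌋₊ := Nat.pow_log_le_self 2 hT0
    have k2 : ((2 ^ (Nat.log 2 ⌊T⌋₊) : ℕ) : ℝ) ≤ (⌊T⌋₊ : ℝ) := by exact_mod_cast k1
    push_cast at k2
    calc (2:ℝ) ^ i ≤ 2 ^ (Nat.log 2 ⌊T⌋₊) := pow_le_pow_right₀ (by norm_num) (by omega)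
      _ ≤ (⌊T⌋₊ : ℝ) := k2
      _ ≤ T := Nat.floor_le (by linarith)
  have hn3 : (n:ℝ) ≤ 2 * (Real.log K + 1) := by
    have k1 := natlog_le ⌊T⌋₊
    have k2 : Real.log ((⌊T⌋₊ : ℕ) : ℝ) ≤ Real.log K := by
      apply Real.log_le_log
      · have : 0 < ⌊T⌋₊ := by omega
        exact_mod_cast this
      · exact (Nat.floor_le (by linarith)).trans hTK
    rw [hn]; push_cast
    linarith
  -- decomposition
  have hdec : ∀ m : ℕ, ∫⁻ t in Icc (0:ℝ) (2 ^ m), f t ≤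
      (∫⁻ t in Icc (0:ℝ) 1, f t) + ∑ i ∈ Finset.range m, ∫⁻ t in Icc ((2:ℝ) ^ i) (2 * 2 ^ i), f t := by
    intro m
    induction m with
    | zero => simp
    | succ m ih =>
      rw [Finset.sum_range_succ, ← add_assoc]
      have hsub : Icc (0:ℝ) (2 ^ (m+1)) ⊆ Icc (0:ℝ) (2 ^ m) ∪ Icc ((2:ℝ) ^ m) (2 * 2 ^ m) := by
        intro t ht
        rcases le_total t (2 ^ m) with h5 | h5
        · left; exact ⟨ht.1, h5⟩
        · right; refine ⟨h5, ?_⟩
          have := ht.2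
          rw [pow_succ] at this; linarith
      calc ∫⁻ t in Icc (0:ℝ) (2 ^ (m+1)), f t ≤ ∫⁻ t in Icc (0:ℝ) (2 ^ m) ∪ Icc ((2:ℝ) ^ m) (2 * 2 ^ m), f t :=
            lintegral_mono_set hsub
        _ ≤ (∫⁻ t in Icc (0:ℝ) (2 ^ m), f t) + ∫⁻ t in Icc ((2:ℝ) ^ m) (2 * 2 ^ m), f t := lintegral_union_le _ _ _
        _ ≤ _ := add_le_add ih le_rfl
  set E := K ^ 5 + K ^ 3 * T ^ γ with hE
  have hE0 : 0 ≤ E := by positivity
  have hK2 : K ^ (ε/2) * K ^ (ε/2) = K ^ ε := by rw [← Real.rpow_add hK0]; congr 1; ring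
  -- the piece at small times
  have z0 : ∫⁻ t in Icc (0:ℝ) 1, f t ≤ ENNReal.ofReal (C2 * C3 * C4 * (K ^ ε * E)) := by
    obtain ⟨J, j1, j2, j3⟩ := h3 K (1/2) hK le_rfl (by linarith)
    refine (h2 K J hK (by linarith) (by linarith)).trans (ENNReal.ofReal_le_ofReal ?_)
    calc C2 * (((J:ℝ) + 1) ^ 5 * (K ^ 5 * (Real.log K + 1)))
        ≤ C2 * ((C3 * K ^ (ε/2)) * (E * (C4 * K ^ (ε/2)))) := by
          gcongr
          rw [hE]
          have : 0 ≤ K ^ 3 * T ^ γ := by positivity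
          linarith
      _ = C2 * C3 * C4 * ((K ^ (ε/2) * K ^ (ε/2)) * E) := by ring
      _ = _ := by rw [hK2]
  have zi : ∀ i ∈ Finset.range n, ∫⁻ t in Icc ((2:ℝ) ^ i) (2 * 2 ^ i), f t ≤
      ENNReal.ofReal (C1 * C3 * (K ^ (ε/2) * E)) := by
    intro i hi
    rw [Finset.mem_range] at hi
    have k1 : (1:ℝ) ≤ 2 ^ i := one_le_pow₀ (by norm_num)
    have k2 := hn2 i hi
    obtain ⟨J, j1, j2, j3⟩ := h3 K (2 ^ i) hK (by linarith) (by linarith)
    refine (h1 K (2 ^ i) J k1 (by linarith) j1 j2).trans (ENNReal.ofReal_le_ofReal ?_)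
    calc C1 * (((J:ℝ) + 1) ^ 5 * (K ^ 5 + K ^ 3 * ((2:ℝ) ^ i) ^ γ)) ≤ C1 * ((C3 * K ^ (ε/2)) * E) := by
          have k3 : K ^ 5 + K ^ 3 * ((2:ℝ) ^ i) ^ γ ≤ E := by rw [hE]; gcongr
          gcongr
      _ = _ := by ring
  calc ∫⁻ t in Icc (0:ℝ) T, f t ≤ ∫⁻ t in Icc (0:ℝ) (2 ^ n), f t := lintegral_mono_set (Icc_subset_Icc le_rfl hn1)
    _ ≤ (∫⁻ t in Icc (0:ℝ) 1, f t) + ∑ i ∈ Finset.range n, ∫⁻ t in Icc ((2:ℝ) ^ i) (2 * 2 ^ i), f t := hdec n
    _ ≤ ENNReal.ofReal (C2 * C3 * C4 * (K ^ ε * E)) + ENNReal.ofReal (n:ℝ) * ENNReal.ofReal (C1 * C3 * (K ^ (ε/2) * E)) := by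
        apply add_le_add z0
        refine (Finset.sum_le_card_nsmul _ _ _ zi).trans (le_of_eq ?_)
        rw [Finset.card_range, nsmul_eq_mul, ENNReal.ofReal_natCast]
    _ = ENNReal.ofReal (C2 * C3 * C4 * (K ^ ε * E) + n * (C1 * C3 * (K ^ (ε/2) * E))) := by
        rw [ENNReal.ofReal_add (by positivity) (by positivity), ENNReal.ofReal_mul (p := (n:ℝ)) (by positivity)]
    _ ≤ _ := by
        apply ENNReal.ofReal_le_ofReal
        calc C2 * C3 * C4 * (K ^ ε * E) + n * (C1 * C3 * (K ^ (ε/2) * E))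
            ≤ C2 * C3 * C4 * (K ^ ε * E) + (2 * (C4 * K ^ (ε/2))) * (C1 * C3 * (K ^ (ε/2) * E)) := by
              gcongr
              linarith
          _ = C2 * C3 * C4 * (K ^ ε * E) + C1 * C3 * (2 * C4) * ((K ^ (ε/2) * K ^ (ε/2)) * E) := by ring
          _ = _ := by rw [hK2]; ring

end Pool.Agent.H593.U
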