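import Mathlib
import Pool.Agent.H593.U.SB4

/-!
# From annuli back to energies
-/

open MeasureTheory Set Filter Topology
open Pool.Agent.H383.Gauss
open scoped ENNReal

namespace Pool.Agent.H593.U

/-- exponential weights -/
noncomputable def bb (y : ℝ) (k : ℤ × ℤ) : ℝ := Real.exp (-(2 * Real.pi * y * nz k))

lemma Fs_term (y t : ℝ) (a : ℝ × ℝ) (k : ℤ × ℤ) :
    Complex.exp (-(2 * Real.pi * zt y t * nz k)) * ex (dp k a) = (bb y k : ℂ) * ex (dp k a + t * nz k) := by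
  rw [ex_add]
  have : Complex.exp (-(2 * Real.pi * zt y t * nz k)) = (bb y k : ℂ) * ex (t * nz k) := by
    unfold bb ex zt
    rw [Complex.ofReal_exp, ← Complex.exp_add]
    congr 1
    push_cast; ring
  rw [this]; ring

lemma tail_set {y : ℝ} (hy : 0 < y) (B1 : Finset (ℤ × ℤ)) : ∃ B : Finset (ℤ × ℤ), B1 ⊆ B ∧
    ∀ (a : ℝ × ℝ) (t : ℝ), ‖Fs y a t - S B (bb y) a t‖ ≤ 1 := by
  have hs : Summable (bb y) := summ_exp hy
  have hlim := hs.hasSum
  rw [HasSum, SummationFilter.unconditional_filter, Metric.tendsto_atTop] at hlim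
  obtain ⟨B0, hB0⟩ := hlim 1 one_pos
  refine ⟨B0 ∪ B1, Finset.subset_union_right, ?_⟩
  intro a t
  have h1 := hB0 (B0 ∪ B1) Finset.subset_union_left
  set B := B0 ∪ B1
  rw [Real.dist_eq] at h1
  set f : ℤ × ℤ → ℂ := fun k => (bb y k : ℂ) * ex (dp k a + t * nz k) with hf
  have hbb : ∀ k, 0 ≤ bb y k := fun k => (Real.exp_pos _).le
  have hfn : ∀ k, ‖f k‖ = bb y k := by
    intro k
    simp only [hf]
    rw [norm_mul, norm_ex, mul_one, Complex.norm_real, Real.norm_of_nonneg (hbb k)]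
  have hfs : Summable f := by
    apply Summable.of_norm
    refine hs.congr fun k => (hfn k).symm
  have e1 : Fs y a t = ∑' k, f k := by
    unfold Fs
    congr 1
    ext k
    exact Fs_term y t a k
  have e2 : Fs y a t - S B (bb y) a t = ∑' k : {k // k ∉ B}, f k := by
    rw [e1, ← hfs.sum_add_tsum_subtype_compl B]
    unfold S
    simp only [hf]
    ring
  rw [e2]
  have h2 : ∑' k : {k // k ∉ B}, bb y k = (∑' k, bb y k) - ∑ k ∈ B, bb y k := by
    rw [← hs.sum_add_tsum_subtype_compl B]; ring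
  have h3 : Summable (fun k : {k // k ∉ B} => ‖f k‖) := by
    have : Summable (fun k : {k // k ∉ B} => bb y k) := hs.subtype _
    exact this.congr fun k => (hfn k).symm
  refine (norm_tsum_le_tsum_norm h3).trans ?_
  simp_rw [hfn]
  rw [h2]
  have := (abs_lt.mp h1).1
  linarith

lemma M_le_Fs {y : ℝ} {B : Finset (ℤ × ℤ)} (hB : ∀ (a : ℝ × ℝ) (t : ℝ), ‖Fs y a t - S B (bb y) a t‖ ≤ 1) (t : ℝ) :
    ENNReal.ofReal (M B (bb y) t) ≤ 16 * (∫⁻ a in Q, ENNReal.ofReal ‖Fs y a t‖ ^ 4) + 16 := by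
  rw [← lint_S_four]
  calc ∫⁻ a in Q, ENNReal.ofReal (‖S B (bb y) a t‖ ^ 4)
      ≤ ∫⁻ a in Q, (16 * ENNReal.ofReal ‖Fs y a t‖ ^ 4 + 16) := by
        apply lintegral_mono
        intro a
        have h1 : ‖S B (bb y) a t‖ ≤ ‖Fs y a t‖ + 1 := by
          have : S B (bb y) a t = Fs y a t - (Fs y a t - S B (bb y) a t) := by ring
          rw [this]
          refine (norm_sub_le _ _).trans ?_
          linarith [hB a t]
        calc ENNReal.ofReal (‖S B (bb y) a t‖ ^ 4) = ENNReal.ofReal (‖S B (bb y) a t‖) ^ 4 := by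
              rw [ENNReal.ofReal_pow (norm_nonneg _)]
          _ ≤ (ENNReal.ofReal ‖Fs y a t‖ + 1) ^ 4 := by
              gcongr
              rw [← ENNReal.ofReal_one, ← ENNReal.ofReal_add (norm_nonneg _) zero_le_one]
              exact ENNReal.ofReal_le_ofReal h1
          _ ≤ 16 * (ENNReal.ofReal ‖Fs y a t‖ ^ 4 + 1 ^ 4) := add_pow4_le' _ _
          _ = _ := by ring
    _ = _ := by
        rw [lintegral_add_right _ measurable_const, lintegral_const_mul' _ _ (by simp), setLIntegral_const,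
          volume_Q, mul_one]

lemma M_even (B : Finset (ℤ × ℤ)) (b : ℤ × ℤ → ℝ) (t : ℝ) : M B b (-t) = M B b t := by
  unfold M
  apply Finset.sum_congr rfl
  intro s _
  have : Gs B b s (-t) = (starRingEnd ℂ) (Gs B b s t) := by
    unfold Gs
    rw [map_sum]
    apply Finset.sum_congr rfl
    intro p _
    rw [map_mul, Complex.conj_ofReal, ← ex_neg]
    congr 2; ring
  rw [this, RCLike.norm_conj]

lemma gauss_M_eq {T : ℝ} (hT : 0 < T) (B : Finset (ℤ × ℤ)) (b : ℤ × ℤ → ℝ) :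
    ∫ t : ℝ, Real.exp (-(Real.pi * t ^ 2 / T ^ 2)) * M B b t =
      ∑ x ∈ PP B, (w2 b x.1 * w2 b x.2) * (T * Real.exp (-(Real.pi * T ^ 2 * (E2 x.1 - E2 x.2) ^ 2))) := by
  have h1 := int_gauss_M hT 0 B b
  have h2 : ∫ t : ℝ, Real.exp (-(Real.pi * (t - 0) ^ 2 / T ^ 2)) * M B b t =
      ∑ x ∈ PP B, (w2 b x.1 * w2 b x.2) * (T * Real.exp (-(Real.pi * T ^ 2 * (E2 x.1 - E2 x.2) ^ 2))) := by
    have := congrArg Complex.re h1
    rw [Complex.ofReal_re] at this
    rw [this]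
    simp only [zero_mul, ex_zero, mul_one]
    rw [Complex.re_sum]
    apply Finset.sum_congr rfl
    intro x _
    rw [← Complex.ofReal_mul, ← Complex.ofReal_mul, Complex.ofReal_re]
  simp only [sub_zero] at h2
  exact h2

lemma gauss_M_sqrt {T : ℝ} (hT : 0 < T) (B : Finset (ℤ × ℤ)) (b : ℤ × ℤ → ℝ) (hb : ∀ k ∈ B, 0 ≤ b k) :
    ∫ t : ℝ, Real.exp (-(Real.pi * t ^ 2 / (√2 * T) ^ 2)) * M B b t ≤
      √2 * ∫ t : ℝ, Real.exp (-(Real.pi * t ^ 2 / T ^ 2)) * M B b t := by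
  rw [gauss_M_eq (by positivity), gauss_M_eq hT, Finset.mul_sum]
  apply Finset.sum_le_sum
  intro x hx
  simp only [PP, Finset.mem_filter, Finset.mem_product] at hx
  have h0 : 0 ≤ w2 b x.1 * w2 b x.2 := by
    unfold w2
    have a1 := hb _ hx.1.1.1
    have a2 := hb _ hx.1.1.2
    have a3 := hb _ hx.1.2.1
    have a4 := hb _ hx.1.2.2
    positivity
  have h1 : Real.exp (-(Real.pi * (√2 * T) ^ 2 * (E2 x.1 - E2 x.2) ^ 2)) ≤
      Real.exp (-(Real.pi * T ^ 2 * (E2 x.1 - E2 x.2) ^ 2)) := by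
    apply Real.exp_le_exp.mpr
    have e : (√2 * T) ^ 2 = 2 * T ^ 2 := by rw [mul_pow, Real.sq_sqrt (by norm_num)]
    rw [e]
    have : 0 ≤ Real.pi * T ^ 2 * (E2 x.1 - E2 x.2) ^ 2 := by have := Real.pi_pos; positivity
    nlinarith
  calc w2 b x.1 * w2 b x.2 * (√2 * T * Real.exp (-(Real.pi * (√2 * T) ^ 2 * (E2 x.1 - E2 x.2) ^ 2)))
      ≤ w2 b x.1 * w2 b x.2 * (√2 * T * Real.exp (-(Real.pi * T ^ 2 * (E2 x.1 - E2 x.2) ^ 2))) := by gcongr
    _ = _ := by ring

/-- Gaussian means with nonnegative weights are controlled by short means -/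
lemma gauss_le_short {T : ℝ} (hT : 0 < T) (B : Finset (ℤ × ℤ)) (b : ℤ × ℤ → ℝ) (hb : ∀ k ∈ B, 0 ≤ b k) :
    ∫ t : ℝ, Real.exp (-(Real.pi * t ^ 2 / T ^ 2)) * M B b t ≤ 2 * ∫ t in Icc (-T) T, M B b t := by
  have hT2 : 0 < √2 * T := by positivity
  have i1 := gauss_M_integrable hT 0 B b
  have i2 := gauss_M_integrable hT2 0 B b
  simp only [sub_zero] at i1 i2
  have i3 : Integrable (fun t => (Icc (-T) T).indicator (fun t => M B b t) t) := by
    rw [integrable_indicator_iff measurableSet_Icc]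
    exact (continuous_M B b).continuousOn.integrableOn_Icc
  have hexp : Real.exp (-(Real.pi/2)) * √2 ≤ 1/2 := by
    have h1 : Real.exp (-(Real.pi/2)) ≤ Real.exp (-(3/2)) := by
      apply Real.exp_le_exp.mpr; linarith [Real.pi_gt_three]
    have h2 : Real.exp (-(3/2)) ≤ 1/4 := by
      rw [Real.exp_neg, inv_le_comm₀ (Real.exp_pos _) (by norm_num)]
      have h3 := Real.exp_one_gt_d9
      have h4 : Real.exp (3/2) ^ 2 = Real.exp 1 ^ 3 := by rw [← Real.exp_nat_mul, ← Real.exp_nat_mul]; norm_num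
      have h5 : (19:ℝ) ≤ Real.exp 1 ^ 3 := by
        calc (19:ℝ) ≤ 2.7 ^ 3 := by norm_num
          _ ≤ _ := by gcongr; linarith
      have h6 : (4:ℝ) ^ 2 ≤ Real.exp (3/2) ^ 2 := by rw [h4]; linarith
      have := abs_le_of_sq_le_sq' h6 (Real.exp_pos _).le
      norm_num
      exact this.2
    have h3 : √2 ≤ 2 := by rw [Real.sqrt_le_left (by norm_num)]; norm_num
    have h4 : 0 ≤ √2 := Real.sqrt_nonneg _
    calc Real.exp (-(Real.pi/2)) * √2 ≤ (1/4) * 2 := by
          gcongr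
          linarith
      _ = 1/2 := by norm_num
  have h1 : ∫ t : ℝ, Real.exp (-(Real.pi * t ^ 2 / T ^ 2)) * M B b t ≤
      ∫ t : ℝ, ((Icc (-T) T).indicator (fun t => M B b t) t +
        Real.exp (-(Real.pi/2)) * (Real.exp (-(Real.pi * t ^ 2 / (√2 * T) ^ 2)) * M B b t)) := by
    have i4 : Integrable (fun t : ℝ => (Icc (-T) T).indicator (fun t => M B b t) t +
        Real.exp (-(Real.pi/2)) * (Real.exp (-(Real.pi * t ^ 2 / (√2 * T) ^ 2)) * M B b t)) :=
      i3.add (i2.const_mul _)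
    apply integral_mono i1 i4
    intro t
    simp only
    have hM := M_nonneg B b t
    by_cases ht : t ∈ Icc (-T) T
    · rw [Set.indicator_of_mem ht]
      have k1 : Real.exp (-(Real.pi * t ^ 2 / T ^ 2)) * M B b t ≤ 1 * M B b t := by
        gcongr
        rw [Real.exp_le_one_iff]
        have := Real.pi_pos
        have : 0 ≤ Real.pi * t ^ 2 / T ^ 2 := by positivity
        linarith
      have k2 : 0 ≤ Real.exp (-(Real.pi/2)) * (Real.exp (-(Real.pi * t ^ 2 / (√2 * T) ^ 2)) * M B b t) := by positivity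
      linarith
    · rw [Set.indicator_of_notMem ht, zero_add, ← mul_assoc, ← Real.exp_add]
      gcongr
      have e : (√2 * T) ^ 2 = 2 * T ^ 2 := by rw [mul_pow, Real.sq_sqrt (by norm_num)]
      rw [e]
      have ht2 : T ^ 2 ≤ t ^ 2 := by
        rw [Set.mem_Icc, not_and_or, not_le, not_le] at ht
        rcases ht with h | h <;> nlinarith
      have k1 : Real.pi/2 ≤ Real.pi * t ^ 2 / (2 * T ^ 2) := by
        rw [div_le_div_iff₀ (by norm_num) (by positivity)]
        have := Real.pi_pos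
        nlinarith
      have k2 : Real.pi * t ^ 2 / T ^ 2 = 2 * (Real.pi * t ^ 2 / (2 * T ^ 2)) := by field_simp
      rw [k2]
      linarith
  rw [integral_add i3 (i2.const_mul _), integral_const_mul, integral_indicator measurableSet_Icc] at h1
  have h2 := gauss_M_sqrt hT B b hb
  set G := ∫ t : ℝ, Real.exp (-(Real.pi * t ^ 2 / T ^ 2)) * M B b t with hG
  have hG0 : 0 ≤ G := integral_nonneg fun t => by have := M_nonneg B b t; positivity
  have h3 : Real.exp (-(Real.pi/2)) * ∫ t : ℝ, Real.exp (-(Real.pi * t ^ 2 / (√2 * T) ^ 2)) * M B b t ≤ (1/2) * G := by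
    calc _ ≤ Real.exp (-(Real.pi/2)) * (√2 * G) := by gcongr
      _ = (Real.exp (-(Real.pi/2)) * √2) * G := by ring
      _ ≤ _ := by gcongr
  linarith

theorem stepB0 {γ : ℝ} (hγ : 2 ≤ γ) (h : HM γ) {ε : ℝ} (hε : 0 < ε) : ∃ C : ℝ, 0 < C ∧ ∀ (K : ℕ) (T : ℝ),
    1 ≤ T → T ≤ K → T * En (box K) T ≤ C * ((K:ℝ) ^ ε * ((K:ℝ) ^ 5 + (K:ℝ) ^ 3 * T ^ γ)) := by
  obtain ⟨C, hC, h1⟩ := upto hγ h hε
  set c := Real.exp (-(4 * Real.pi)) with hc
  have hc0 : 0 < c := Real.exp_pos _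
  refine ⟨(4 * (16 * C + 16)) / c ^ 4, by positivity, ?_⟩
  intro K T hT hTK
  have hT0 : 0 < T := by linarith
  have hK : (1:ℝ) ≤ K := hT.trans hTK
  have hK0 : (0:ℝ) < K := by linarith
  set y : ℝ := 1 / K with hy
  have hy0 : 0 < y := by positivity
  obtain ⟨B, hB1, hB2⟩ := tail_set hy0 (box K)
  have hbb : ∀ k, 0 ≤ bb y k := fun k => (Real.exp_pos _).le
  have hpi := Real.pi_pos
  -- lower bound
  have h2 := le_gauss_M hT0 B (box K) hB1 (bb y) (c := c) hc0.le (fun k _ => hbb k) (by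
    intro k hk
    unfold bb
    rw [hc]
    apply Real.exp_le_exp.mpr
    have h3 := nz_le_of_mem_box hk
    have h4 : 2 * Real.pi * y * nz k ≤ 2 * Real.pi * y * (2 * K) := by gcongr
    have h5 : 2 * Real.pi * y * (2 * K) = 4 * Real.pi := by rw [hy]; field_simp; norm_num
    linarith)
  have h3 := gauss_le_short hT0 B (bb y) (fun k _ => hbb k)
  set E := (K:ℝ) ^ ε * ((K:ℝ) ^ 5 + (K:ℝ) ^ 3 * T ^ γ) with hE
  have hE0 : 0 ≤ E := by positivity
  -- upper bound
  have h4 : ENNReal.ofReal (∫ t in Icc (-T) T, M B (bb y) t) ≤ ENNReal.ofReal (2 * (16 * (C * E) + 16 * T)) := by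
    have hint : IntegrableOn (fun t => M B (bb y) t) (Icc (-T) T) :=
      (continuous_M B (bb y)).continuousOn.integrableOn_Icc
    rw [ofReal_integral_eq_lintegral_ofReal hint (Eventually.of_forall fun t => M_nonneg B (bb y) t)]
    have h5 : ∫⁻ t in Icc 0 T, ENNReal.ofReal (M B (bb y) t) ≤ ENNReal.ofReal (16 * (C * E) + 16 * T) := by
      calc ∫⁻ t in Icc 0 T, ENNReal.ofReal (M B (bb y) t)
          ≤ ∫⁻ t in Icc 0 T, (16 * (∫⁻ a in Q, ENNReal.ofReal ‖Fs y a t‖ ^ 4) + 16) :=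
            lintegral_mono (fun t => M_le_Fs hB2 t)
        _ = 16 * (∫⁻ t in Icc 0 T, ∫⁻ a in Q, ENNReal.ofReal ‖Fs y a t‖ ^ 4) + 16 * ENNReal.ofReal T := by
            rw [lintegral_add_right _ measurable_const, lintegral_const_mul' _ _ (by simp), setLIntegral_const,
              Real.volume_Icc, sub_zero]
        _ ≤ 16 * ENNReal.ofReal (C * E) + 16 * ENNReal.ofReal T := by
            gcongr
            exact h1 K T hT hTK
        _ = _ := by
            have e16 : (16:ℝ≥0∞) = ENNReal.ofReal 16 := by simp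
            rw [e16, ← ENNReal.ofReal_mul (by norm_num), ← ENNReal.ofReal_mul (by norm_num),
              ENNReal.ofReal_add (by positivity) (by positivity)]
    have h6 : ∫⁻ t in Icc (-T) 0, ENNReal.ofReal (M B (bb y) t) = ∫⁻ t in Icc 0 T, ENNReal.ofReal (M B (bb y) t) := by
      rw [← lintegral_indicator measurableSet_Icc, ← lintegral_indicator measurableSet_Icc]
      rw [← lintegral_neg_eq_self]
      congr 1
      ext t
      simp only [Set.indicator, Set.mem_Icc]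
      rw [M_even]
      have : (-T ≤ -t ∧ -t ≤ 0) ↔ (0 ≤ t ∧ t ≤ T) := by constructor <;> rintro ⟨a1, a2⟩ <;> constructor <;> linarith
      simp only [this]
    have h7 : ∫⁻ t in Icc (-T) T, ENNReal.ofReal (M B (bb y) t) ≤
        (∫⁻ t in Icc (-T) 0, ENNReal.ofReal (M B (bb y) t)) + ∫⁻ t in Icc 0 T, ENNReal.ofReal (M B (bb y) t) := by
      refine (lintegral_mono_set ?_).trans (lintegral_union_le _ _ _)
      intro t ht
      rcases le_total t 0 with h8 | h8
      · left; exact ⟨ht.1, h8⟩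
      · right; exact ⟨h8, ht.2⟩
    refine h7.trans ?_
    rw [h6]
    calc _ ≤ ENNReal.ofReal (16 * (C * E) + 16 * T) + ENNReal.ofReal (16 * (C * E) + 16 * T) := add_le_add h5 h5
      _ = _ := by rw [← ENNReal.ofReal_add (by positivity) (by positivity)]; congr 1; ring
  rw [ENNReal.ofReal_le_ofReal_iff (by positivity)] at h4
  have hTE : T ≤ E := by
    have g1 : (1:ℝ) ≤ (K:ℝ) ^ ε := Real.one_le_rpow hK hε.le
    have g2 : T ≤ (K:ℝ) ^ 5 := by
      calc T ≤ (K:ℝ) ^ 1 := by rw [pow_one]; exact hTK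
        _ ≤ (K:ℝ) ^ 5 := pow_le_pow_right₀ hK (by norm_num)
    have g3 : 0 ≤ (K:ℝ) ^ 3 * T ^ γ := by positivity
    calc T = 1 * T := (one_mul _).symm
      _ ≤ (K:ℝ) ^ ε * ((K:ℝ) ^ 5 + (K:ℝ) ^ 3 * T ^ γ) := by gcongr; linarith
  have h9 : c ^ 4 * (T * En (box K) T) ≤ 4 * (16 * C + 16) * E := by
    have : T * c ^ 4 * En (box K) T = c ^ 4 * (T * En (box K) T) := by ring
    rw [← this]
    linarith
  rw [div_mul_eq_mul_div, le_div_iff₀ (by positivity)]
  linarith

/-- from fourth moments of annuli to energies -/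
theorem stepB {γ : ℝ} (hγ : 2 ≤ γ) (h : HM γ) {ε : ℝ} (hε : 0 < ε) : HB (5 - 2/γ + ε) := by
  obtain ⟨C, hC, h1⟩ := stepB0 hγ h hε
  refine ⟨2 * C, by positivity, ?_⟩
  intro K hK
  have hK' : (1:ℝ) ≤ K := by exact_mod_cast hK
  have hK0 : (0:ℝ) < K := by linarith
  set T := (K:ℝ) ^ (2/γ) with hT
  have hγ0 : 0 < γ := by linarith
  have hT1 : 1 ≤ T := Real.one_le_rpow hK' (by positivity)
  have hTK : T ≤ K := by
    rw [hT]
    nth_rewrite 2 [← Real.rpow_one (K:ℝ)]
    apply Real.rpow_le_rpow_of_exponent_le hK'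
    rw [div_le_one hγ0]; exact hγ
  have hT0 : 0 < T := by linarith
  have hTγ : T ^ γ = (K:ℝ) ^ 2 := by
    rw [hT, ← Real.rpow_mul hK0.le, div_mul_cancel₀ _ hγ0.ne', ← Real.rpow_natCast]; norm_num
  have h2 := h1 K T hT1 hTK
  rw [hTγ] at h2
  have h3 := En_anti (box K) hT0.le hTK
  refine h3.trans ?_
  have h4 : T * En (box K) T ≤ T * (2 * C * (K:ℝ) ^ (5 - 2/γ + ε)) := by
    refine h2.trans (le_of_eq ?_)
    have e1 : T * (K:ℝ) ^ (5 - 2/γ + ε) = (K:ℝ) ^ 5 * (K:ℝ) ^ ε := by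
      rw [hT, ← Real.rpow_add hK0, ← Real.rpow_natCast (K:ℝ) 5, ← Real.rpow_add hK0]
      congr 1; push_cast; ring
    linear_combination (-2 * C) * e1
  exact le_of_mul_le_mul_left h4 hT0

/-- one step of the recursion -/
theorem step {x : ℝ} (hx : 0 < x) (hx2 : x ≤ 2) (h : HB (4 + x)) : HB (4 + x/2) := by
  have hA := stepA (β := 4 + x) (by linarith) (by linarith) h (ε := x/16) (by positivity)
  rw [show 4 + x - 2 = 2 + x by ring] at hA
  set γ := 3 - 2/(2+x) + x/16 with hγ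
  have h1 : 2/(2+x) < 1 := by rw [div_lt_one (by linarith)]; linarith
  have hγ2 : 2 ≤ γ := by rw [hγ]; linarith
  have hB := stepB hγ2 hA (ε := x/16) (by positivity)
  -- compare exponents
  have hexp : 5 - 2/γ + x/16 ≤ 4 + x/2 := by
    have h2 : 1 - 2/γ ≤ (γ - 2)/2 := by
      rw [← sub_nonneg]
      have : (γ - 2)/2 - (1 - 2/γ) = (γ - 2)^2 / (2 * γ) := by
        have : γ ≠ 0 := by linarith
        field_simp
      rw [this]; positivity
    have h3 : γ - 2 ≤ x/2 + x/16 := by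
      rw [hγ]
      have : 1 - 2/(2+x) ≤ x/2 := by
        rw [← sub_nonneg]
        have : x/2 - (1 - 2/(2+x)) = x^2 / (2 * (2 + x)) := by field_simp; ring
        rw [this]; positivity
      linarith
    linarith
  obtain ⟨C, hC, h4⟩ := hB
  refine ⟨C, hC, ?_⟩
  intro K hK
  refine (h4 K hK).trans ?_
  have hK' : (1:ℝ) ≤ K := by exact_mod_cast hK
  gcongr

/-- the energy bound -/
theorem HB_all {β : ℝ} (hβ : 4 < β) : HB β := by
  have h : ∀ n : ℕ, HB (4 + 2 / 2 ^ n) := by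
    intro n
    induction n with
    | zero =>
      have := HB_six
      norm_num
      exact this
    | succ n ih =>
      have := step (x := 2 / 2 ^ n) (by positivity) (by
        rw [div_le_iff₀ (by positivity)]
        have : (1:ℝ) ≤ 2 ^ n := one_le_pow₀ (by norm_num)
        linarith) ih
      rwa [show (4 + 2 / 2 ^ n / 2 : ℝ) = 4 + 2 / 2 ^ (n+1) by rw [pow_succ]; field_simp] at this
  obtain ⟨n, hn⟩ : ∃ n : ℕ, 2 / (2:ℝ) ^ n ≤ β - 4 := by
    obtain ⟨n, hn⟩ := exists_nat_gt (2 / (β - 4))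
    refine ⟨n, ?_⟩
    have h1 : (n:ℝ) < 2 ^ n := by exact_mod_cast Nat.lt_two_pow_self
    rw [div_lt_iff₀ (by linarith)] at hn
    rw [div_le_iff₀ (by positivity)]
    nlinarith
  obtain ⟨C, hC, h4⟩ := h n
  refine ⟨C, hC, ?_⟩
  intro K hK
  refine (h4 K hK).trans ?_
  have hK' : (1:ℝ) ≤ K := by exact_mod_cast hK
  have : 4 + 2 / (2:ℝ) ^ n ≤ β := by linarith
  gcongr

end Pool.Agent.H593.U
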