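import Mathlib
import Pool.Agent.H593.U.SB5

/-!
# Error terms for all centres
-/

open MeasureTheory Set Filter Topology
open Pool.Agent.H383.Gauss
open scoped ENNReal

namespace Pool.Agent.H593.U

/-- the error term for the disc of centre `a` and radius `R` -/
noncomputable def Pa (a : ℝ × ℝ) (R : ℝ) : ℝ := Na a R - Real.pi * R ^ 2

/-- the majorant of the fourth power of the exponential sum -/
noncomputable def GJ (Y J : ℕ) (δ t : ℝ) : ℝ :=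
  (J:ℝ) ^ 3 * ∑ j ∈ Finset.range J, 100 * 4 ^ j * M (sh Y j) (bw δ) t

lemma GJ_nonneg (Y J : ℕ) (δ t : ℝ) : 0 ≤ GJ Y J δ t := by
  unfold GJ
  have : ∀ j ∈ Finset.range J, 0 ≤ 100 * 4 ^ j * M (sh Y j) (bw δ) t := by
    intro j _
    have := M_nonneg (sh Y j) (bw δ) t
    positivity
  have := Finset.sum_nonneg this
  positivity

lemma continuous_GJ (Y J : ℕ) (δ : ℝ) : Continuous (GJ Y J δ) := by
  unfold GJ
  have : ∀ j, Continuous (M (sh Y j) (bw δ)) := fun j => continuous_M _ _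
  fun_prop

lemma add3_pow4 (x y z : ℝ) : (x + y + z) ^ 4 ≤ 27 * (x ^ 4 + y ^ 4 + z ^ 4) := by
  have h1 : (x + y + z) ^ 2 ≤ 3 * (x ^ 2 + y ^ 2 + z ^ 2) := by
    nlinarith [sq_nonneg (x - y), sq_nonneg (y - z), sq_nonneg (x - z)]
  have h2 : (x ^ 2 + y ^ 2 + z ^ 2) ^ 2 ≤ 3 * (x ^ 4 + y ^ 4 + z ^ 4) := by
    nlinarith [sq_nonneg (x ^ 2 - y ^ 2), sq_nonneg (y ^ 2 - z ^ 2), sq_nonneg (x ^ 2 - z ^ 2)]
  calc (x + y + z) ^ 4 = ((x + y + z) ^ 2) ^ 2 := by ring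
    _ ≤ (3 * (x ^ 2 + y ^ 2 + z ^ 2)) ^ 2 := by gcongr
    _ = 9 * (x ^ 2 + y ^ 2 + z ^ 2) ^ 2 := by ring
    _ ≤ 9 * (3 * (x ^ 4 + y ^ 4 + z ^ 4)) := by gcongr
    _ = _ := by ring

theorem Pa_le : ∃ C : ℝ, 0 < C ∧ ∀ (X R : ℝ) (J : ℕ) (a : ℝ × ℝ), 4 ≤ X → X ≤ R → R ≤ 3 * X →
    ⌈(4 * X) ^ 3⌉₊ < 2 ^ J →
    |Pa a R| ^ 4 ≤ C * (X ^ 2 * (1 + GJ ⌈(4 * X) ^ 3⌉₊ J (X ^ (-(1/2):ℝ)) (R + X ^ (-(1/2):ℝ)) +
      GJ ⌈(4 * X) ^ 3⌉₊ J (X ^ (-(1/2):ℝ)) (R - X ^ (-(1/2):ℝ)))) := by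
  obtain ⟨C1, hC1, h1⟩ := Wa_sub_Va
  refine ⟨27 * ((22 + 8 * C1) ^ 4 + 16), by positivity, ?_⟩
  intro X R J a hX hXR hRX hJ
  set δ := X ^ (-(1/2):ℝ) with hδ
  set Y := ⌈(4 * X) ^ 3⌉₊ with hY
  have hX0 : 0 < X := by linarith
  have hX1 : 1 ≤ X := by linarith
  have hδ0 : 0 < δ := by positivity
  have hδ1 : δ ≤ 1 := Real.rpow_le_one_of_one_le_of_nonpos hX1 (by norm_num)
  have hsq : √X * √X = X := Real.mul_self_sqrt hX0.le
  have hsq1 : 1 ≤ √X := Real.one_le_sqrt.mpr hX1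
  have hδs : X * δ = √X := by
    rw [hδ, Real.sqrt_eq_rpow]
    nth_rewrite 1 [← Real.rpow_one X]
    rw [← Real.rpow_add hX0]; norm_num
  have hpi := Real.pi_gt_three
  have hpi2 := Real.pi_lt_d2
  have hY1 : (1:ℝ) ≤ Y := by
    have : (4 * X) ^ 3 ≤ Y := Nat.le_ceil _
    have h2 : 1 ≤ (4 * X) ^ 3 := one_le_pow₀ (by linarith)
    linarith
  have hY1' : 1 ≤ Y := by exact_mod_cast hY1
  -- error of truncation
  have e1 : δ ^ (-(3/2):ℝ) * (Y:ℝ) ^ (-(9/10):ℝ) ≤ 1/X := by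
    have a1 : δ ^ (-(3/2):ℝ) = X ^ (3/4:ℝ) := by
      rw [hδ, ← Real.rpow_mul hX0.le]; norm_num
    have a2 : (Y:ℝ) ^ (-(9/10):ℝ) ≤ X ^ (-(27/10):ℝ) := by
      have this0 : X ^ 3 ≤ (4 * X) ^ 3 := by gcongr; linarith
      have this1 : (4 * X) ^ 3 ≤ (Y:ℝ) := Nat.le_ceil _
      have : X ^ 3 ≤ (Y:ℝ) := this0.trans this1
      calc (Y:ℝ) ^ (-(9/10):ℝ) ≤ (X^3) ^ (-(9/10):ℝ) :=
            Real.rpow_le_rpow_of_nonpos (by positivity) this (by norm_num)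
        _ = X ^ (-(27/10):ℝ) := by
            rw [← Real.rpow_natCast, ← Real.rpow_mul hX0.le]; norm_num
    calc δ ^ (-(3/2):ℝ) * (Y:ℝ) ^ (-(9/10):ℝ) ≤ X ^ (3/4:ℝ) * X ^ (-(27/10):ℝ) := by rw [a1]; gcongr
      _ = X ^ (-(39/20):ℝ) := by rw [← Real.rpow_add hX0]; norm_num
      _ ≤ X ^ (-1:ℝ) := Real.rpow_le_rpow_of_exponent_le hX1 (by norm_num)
      _ = 1/X := by rw [Real.rpow_neg_one, one_div]
  -- bound of W at a point
  have hW : ∀ R' : ℝ, X/2 ≤ R' → R' ≤ 4 * X → √R' * |Wa R' δ a| ≤ 2 * √X * ‖S (B0 Y) (bw δ) a R'‖ + 8 * C1 := by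
    intro R' h3 h4
    have hR0 : 0 < R' := by linarith
    have k1 := h1 R' δ Y a hR0 hδ0 hY1'
    have k2 := abs_Va_le R' δ Y a
    have k3 : |Wa R' δ a| ≤ ‖S (B0 Y) (bw δ) a R'‖ + C1 * (3/X) := by
      have : |Wa R' δ a| ≤ |Wa R' δ a - Va R' δ Y a| + |Va R' δ Y a| := by
        have := abs_add_le (Wa R' δ a - Va R' δ Y a) (Va R' δ Y a)
        rwa [sub_add_cancel] at this
      have k4 : C1 * (1/R' + δ ^ (-(3/2):ℝ) * (Y:ℝ) ^ (-(9/10):ℝ)) ≤ C1 * (3/X) := by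
        gcongr
        have : 1/R' ≤ 2/X := by rw [div_le_div_iff₀ hR0 hX0]; linarith
        calc _ ≤ 2/X + 1/X := by linarith
          _ = 3/X := by ring
      linarith
    have k5 : √R' ≤ 2 * √X := by
      rw [Real.sqrt_le_left (by positivity)]
      nlinarith
    calc √R' * |Wa R' δ a| ≤ (2 * √X) * (‖S (B0 Y) (bw δ) a R'‖ + C1 * (3/X)) := by gcongr
      _ = 2 * √X * ‖S (B0 Y) (bw δ) a R'‖ + 6 * C1 * (√X / X) := by ring
      _ ≤ 2 * √X * ‖S (B0 Y) (bw δ) a R'‖ + 6 * C1 * 1 := by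
          gcongr
          rw [div_le_one hX0]; nlinarith
      _ ≤ _ := by linarith
  have k1 := Na_le_W a (R := R) (δ := δ) (by linarith) hδ0
  have k2 := le_Na_W a (R := R) (δ := δ) hδ0 (by linarith)
  have w1 := hW (R + δ) (by linarith) (by linarith)
  have w2 := hW (R - δ) (by linarith) (by linarith)
  set Np := ‖S (B0 Y) (bw δ) a (R + δ)‖ with hNp
  set Nm := ‖S (B0 Y) (bw δ) a (R - δ)‖ with hNm
  have hNp0 : 0 ≤ Np := norm_nonneg _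
  have hNm0 : 0 ≤ Nm := norm_nonneg _
  have hRδ : R * δ ≤ 3 * √X := by
    calc R * δ ≤ (3 * X) * δ := by gcongr
      _ = 3 * (X * δ) := by ring
      _ = 3 * √X := by rw [hδs]
  have hδ2 : δ ^ 2 ≤ 1 := pow_le_one₀ hδ0.le hδ1
  have hR0' : 0 < R := by linarith
  have hRδ0 : 0 ≤ R * δ := by positivity
  have hmain : |Pa a R| ≤ (22 + 8 * C1) * √X + 2 * √X * Np + 2 * √X * Nm := by
    unfold Pa
    have u1 : √(R + δ) * Wa (R + δ) δ a ≤ √(R + δ) * |Wa (R + δ) δ a| := by gcongr; exact le_abs_self _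
    have u2 : -(√(R - δ) * |Wa (R - δ) δ a|) ≤ √(R - δ) * Wa (R - δ) δ a := by
      have : -|Wa (R - δ) δ a| ≤ Wa (R - δ) δ a := neg_abs_le _
      have h0 : 0 ≤ √(R - δ) := Real.sqrt_nonneg _
      nlinarith
    have u3 : Real.pi * (R + δ) ^ 2 - Real.pi * R ^ 2 ≤ 22 * √X := by
      have : Real.pi * (R + δ) ^ 2 - Real.pi * R ^ 2 = Real.pi * (2 * (R * δ) + δ ^ 2) := by ring
      rw [this]
      calc Real.pi * (2 * (R * δ) + δ ^ 2) ≤ 3.15 * (2 * (3 * √X) + 1) := by gcongr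
        _ ≤ _ := by nlinarith
    have u4 : -(22 * √X) ≤ Real.pi * (R - δ) ^ 2 - Real.pi * R ^ 2 := by
      have : Real.pi * (R - δ) ^ 2 - Real.pi * R ^ 2 = -(Real.pi * (2 * (R * δ) - δ ^ 2)) := by ring
      rw [this]
      have : Real.pi * (2 * (R * δ) - δ ^ 2) ≤ 3.15 * (2 * (3 * √X)) := by
        calc Real.pi * (2 * (R * δ) - δ ^ 2) ≤ Real.pi * (2 * (R * δ)) := by
              gcongr; linarith [sq_nonneg δ]
          _ ≤ _ := by gcongr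
      nlinarith
    have u5 : 8 * C1 ≤ 8 * C1 * √X := by nlinarith
    rw [abs_le]
    constructor
    · nlinarith [mul_nonneg (Real.sqrt_nonneg X) hNp0]
    · nlinarith [mul_nonneg (Real.sqrt_nonneg X) hNm0]
  have g1 := S_four_shells' hJ (bw δ) a (R + δ)
  have g2 := S_four_shells' hJ (bw δ) a (R - δ)
  rw [← hNp] at g1
  rw [← hNm] at g2
  have g1' : Np ^ 4 ≤ GJ Y J δ (R + δ) := g1
  have g2' : Nm ^ 4 ≤ GJ Y J δ (R - δ) := g2
  have hs4 : √X ^ 4 = X ^ 2 := by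
    calc √X ^ 4 = (√X * √X) ^ 2 := by ring
      _ = X ^ 2 := by rw [hsq]
  have G1 := GJ_nonneg Y J δ (R + δ)
  have G2 := GJ_nonneg Y J δ (R - δ)
  calc |Pa a R| ^ 4 ≤ ((22 + 8 * C1) * √X + 2 * √X * Np + 2 * √X * Nm) ^ 4 := by gcongr
    _ ≤ 27 * (((22 + 8 * C1) * √X) ^ 4 + (2 * √X * Np) ^ 4 + (2 * √X * Nm) ^ 4) := add3_pow4 _ _ _
    _ = 27 * (√X ^ 4 * ((22 + 8 * C1) ^ 4 + 16 * Np ^ 4 + 16 * Nm ^ 4)) := by ring
    _ ≤ 27 * (X ^ 2 * ((22 + 8 * C1) ^ 4 + 16 * GJ Y J δ (R + δ) + 16 * GJ Y J δ (R - δ))) := by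
        rw [hs4]; gcongr
    _ ≤ 27 * (X ^ 2 * (((22 + 8 * C1) ^ 4 + 16) * (1 + GJ Y J δ (R + δ) + GJ Y J δ (R - δ)))) := by
        gcongr
        have : 0 ≤ (22 + 8 * C1) ^ 4 := by positivity
        nlinarith [mul_nonneg this G1, mul_nonneg this G2]
    _ = _ := by ring

/-- the sum over one shell -/
lemma shell_sum2 {η δ L X : ℝ} (hη : 0 ≤ η) (hη2 : η ≤ 5) (hδ : 0 < δ) (hL : 0 < L) (hX : 0 < X) :
    X ^ 2 * ((X ^ (-(3/2):ℝ) * min 1 ((δ * X) ^ (-(3/2):ℝ))) ^ 4 * ((L + X) * X ^ (4 + η))) ≤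
      δ ^ (-η) * (L + δ⁻¹) := by
  set x := δ * X with hx
  have hx0 : 0 < x := by positivity
  have hXx : X = x * δ⁻¹ := by rw [hx]; field_simp
  have h1 : X ^ 2 * ((X ^ (-(3/2):ℝ)) ^ 4 * X ^ (4 + η)) = x ^ η * δ ^ (-η) := by
    rw [← Real.rpow_natCast (X ^ (-(3/2):ℝ)) 4, ← Real.rpow_mul hX.le, ← Real.rpow_add hX,
      ← Real.rpow_natCast X 2, ← Real.rpow_add hX]
    rw [show ((2:ℕ):ℝ) + (-(3/2) * ((4:ℕ):ℝ) + (4 + η)) = η by push_cast; ring]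
    nth_rewrite 1 [hXx]
    rw [Real.mul_rpow hx0.le (by positivity), Real.inv_rpow hδ.le, Real.rpow_neg hδ.le]
  have h3 : min 1 (x ^ (-(3/2):ℝ)) ^ 4 * x ^ η * (L + X) ≤ L + δ⁻¹ := by
    have hd : 0 < δ⁻¹ := by positivity
    rcases le_total x 1 with hx1 | hx1
    · calc min 1 (x ^ (-(3/2):ℝ)) ^ 4 * x ^ η * (L + X) ≤ 1 ^ 4 * 1 * (L + δ⁻¹) := by
            gcongr
            · exact min_le_left _ _
            · exact Real.rpow_le_one hx0.le hx1 hη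
            · rw [hXx]; nlinarith
        _ = _ := by ring
    · have e1 : (x ^ (-(3/2):ℝ)) ^ 4 * x ^ η * x = x ^ (η - 5) := by
        rw [← Real.rpow_natCast (x ^ (-(3/2):ℝ)) 4, ← Real.rpow_mul hx0.le, ← Real.rpow_add hx0]
        nth_rewrite 2 [← Real.rpow_one x]
        rw [← Real.rpow_add hx0]; congr 1; push_cast; ring
      calc min 1 (x ^ (-(3/2):ℝ)) ^ 4 * x ^ η * (L + X) ≤ (x ^ (-(3/2):ℝ)) ^ 4 * x ^ η * (x * (L + δ⁻¹)) := by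
            gcongr
            · exact min_le_right _ _
            · rw [hXx]; nlinarith
        _ = ((x ^ (-(3/2):ℝ)) ^ 4 * x ^ η * x) * (L + δ⁻¹) := by ring
        _ = x ^ (η - 5) * (L + δ⁻¹) := by rw [e1]
        _ ≤ 1 * (L + δ⁻¹) := by
            gcongr
            exact Real.rpow_le_one_of_one_le_of_nonpos hx1 (by linarith)
        _ = _ := one_mul _
  calc X ^ 2 * ((X ^ (-(3/2):ℝ) * min 1 (x ^ (-(3/2):ℝ))) ^ 4 * ((L + X) * X ^ (4 + η)))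
      = (X ^ 2 * ((X ^ (-(3/2):ℝ)) ^ 4 * X ^ (4 + η))) * (min 1 (x ^ (-(3/2):ℝ)) ^ 4 * (L + X)) := by ring
    _ = (x ^ η * δ ^ (-η)) * (min 1 (x ^ (-(3/2):ℝ)) ^ 4 * (L + X)) := by rw [h1]
    _ = δ ^ (-η) * (min 1 (x ^ (-(3/2):ℝ)) ^ 4 * x ^ η * (L + X)) := by ring
    _ ≤ _ := by gcongr

/-- local means of the majorant -/
theorem GJ_int {ε : ℝ} (hε : 0 < ε) : ∃ C : ℝ, 0 < C ∧ ∀ (X H : ℝ), 4 ≤ X → 0 ≤ H →
    ∃ J : ℕ, ⌈(4 * X) ^ 3⌉₊ < 2 ^ J ∧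
    ∫⁻ t in Icc (X - 1) (X + H + 1), ENNReal.ofReal (GJ ⌈(4 * X) ^ 3⌉₊ J (X ^ (-(1/2):ℝ)) t) ≤
      ENNReal.ofReal (C * (X ^ ε * (H + √X))) := by
  set η := min ε 5 with hη
  have hη0 : 0 < η := lt_min hε (by norm_num)
  have hη5 : η ≤ 5 := min_le_right _ _
  have hηε : η ≤ ε := min_le_left _ _
  have hHB : HB (4 + η) := HB_all (by linarith)
  obtain ⟨C1, hC1, h1⟩ := gauss_shell hHB
  obtain ⟨C2, hC2, h2⟩ := shells_count 4 (ε := ε/2) (by positivity)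
  refine ⟨100 * Real.exp Real.pi * C1 * C2 * 3, by positivity, ?_⟩
  intro X H hX hH
  have hX0 : 0 < X := by linarith
  have hX1 : 1 ≤ X := by linarith
  obtain ⟨J, hJ1, hJ2⟩ := h2 X hX1
  refine ⟨J, hJ1, ?_⟩
  set δ := X ^ (-(1/2):ℝ) with hδ
  set Y := ⌈(4 * X) ^ 3⌉₊ with hY
  have hδ0 : 0 < δ := by positivity
  set L := H + 1 with hL
  have hL0 : 0 < L := by linarith
  have hδinv : δ⁻¹ = √X := by
    rw [hδ, ← Real.rpow_neg_one, ← Real.rpow_mul hX0.le, Real.sqrt_eq_rpow]; norm_num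
  have hδη : δ ^ (-η) = X ^ (η/2) := by
    rw [hδ, ← Real.rpow_mul hX0.le]; congr 1; ring
  have hsq1 : 1 ≤ √X := Real.one_le_sqrt.mpr hX1
  -- each shell
  have p1 : ∀ j ∈ Finset.range J, ∫⁻ t in Icc (X - 1) (X + H + 1), ENNReal.ofReal (100 * 4 ^ j * M (sh Y j) (bw δ) t) ≤
      ENNReal.ofReal (100 * Real.exp Real.pi * C1 * (X ^ (η/2) * (L + √X))) := by
    intro j _
    have q1 := lint_M_le hL0 X (sh Y j) (bw δ) (s := Icc (X - 1) (X + H + 1)) (by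
      intro t ht
      rw [abs_le]
      constructor <;> linarith [ht.1, ht.2]) measurableSet_Icc
    have q2 := h1 Y j (bw δ) (((2:ℝ)^j) ^ (-(3/2):ℝ) * min 1 ((δ * 2 ^ j) ^ (-(3/2):ℝ))) X L hL0
      (fun p hp => bw_shell hδ0 hp)
    have q3 := shell_sum2 hη0.le hη5 hδ0 hL0 (by positivity : (0:ℝ) < 2 ^ j)
    have e4 : (4:ℝ) ^ j = (2 ^ j) ^ 2 := by rw [← pow_mul, mul_comm j 2, pow_mul]; norm_num
    calc ∫⁻ t in Icc (X - 1) (X + H + 1), ENNReal.ofReal (100 * 4 ^ j * M (sh Y j) (bw δ) t)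
        = ENNReal.ofReal (100 * 4 ^ j) * ∫⁻ t in Icc (X - 1) (X + H + 1), ENNReal.ofReal (M (sh Y j) (bw δ) t) := by
          rw [← lintegral_const_mul' _ _ ENNReal.ofReal_ne_top]
          congr 1
          ext t
          rw [ENNReal.ofReal_mul (by positivity)]
      _ ≤ ENNReal.ofReal (100 * 4 ^ j) * ENNReal.ofReal (Real.exp Real.pi * ∫ t, Real.exp (-(Real.pi * (t - X) ^ 2 / L ^ 2)) * M (sh Y j) (bw δ) t) :=
          mul_le_mul' le_rfl q1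
      _ = ENNReal.ofReal (100 * 4 ^ j * (Real.exp Real.pi * ∫ t, Real.exp (-(Real.pi * (t - X) ^ 2 / L ^ 2)) * M (sh Y j) (bw δ) t)) := by
          rw [ENNReal.ofReal_mul (p := 100 * 4 ^ j) (by positivity)]
      _ ≤ _ := by
          apply ENNReal.ofReal_le_ofReal
          calc 100 * 4 ^ j * (Real.exp Real.pi * ∫ t, Real.exp (-(Real.pi * (t - X) ^ 2 / L ^ 2)) * M (sh Y j) (bw δ) t)
              ≤ 100 * 4 ^ j * (Real.exp Real.pi * (C1 * ((((2:ℝ)^j) ^ (-(3/2):ℝ) * min 1 ((δ * 2 ^ j) ^ (-(3/2):ℝ))) ^ 4 *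
                ((L + 2 ^ j) * ((2:ℝ) ^ j) ^ (4 + η))))) := by gcongr
            _ = 100 * Real.exp Real.pi * C1 * ((2 ^ j) ^ 2 * ((((2:ℝ)^j) ^ (-(3/2):ℝ) * min 1 ((δ * 2 ^ j) ^ (-(3/2):ℝ))) ^ 4 *
                ((L + 2 ^ j) * ((2:ℝ) ^ j) ^ (4 + η)))) := by rw [e4]; ring
            _ ≤ 100 * Real.exp Real.pi * C1 * (δ ^ (-η) * (L + δ⁻¹)) := by gcongr
            _ = _ := by rw [hδη, hδinv]
  have hm : ∀ j : ℕ, Measurable (fun t => ENNReal.ofReal (100 * 4 ^ j * M (sh Y j) (bw δ) t)) := by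
    intro j
    have := continuous_M (sh Y j) (bw δ)
    apply Measurable.ennreal_ofReal
    apply Continuous.measurable
    fun_prop
  calc ∫⁻ t in Icc (X - 1) (X + H + 1), ENNReal.ofReal (GJ Y J δ t)
      = ENNReal.ofReal ((J:ℝ) ^ 3) * ∑ j ∈ Finset.range J, ∫⁻ t in Icc (X - 1) (X + H + 1), ENNReal.ofReal (100 * 4 ^ j * M (sh Y j) (bw δ) t) := by
        rw [← lintegral_finsetSum _ (fun j _ => hm j), ← lintegral_const_mul' _ _ ENNReal.ofReal_ne_top]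
        congr 1
        ext t
        unfold GJ
        rw [ENNReal.ofReal_mul (by positivity), ENNReal.ofReal_sum_of_nonneg]
        intro j _
        have := M_nonneg (sh Y j) (bw δ) t
        positivity
    _ ≤ ENNReal.ofReal ((J:ℝ) ^ 3) * (ENNReal.ofReal (J:ℝ) * ENNReal.ofReal (100 * Real.exp Real.pi * C1 * (X ^ (η/2) * (L + √X)))) := by
        refine mul_le_mul' le_rfl ?_
        refine (Finset.sum_le_card_nsmul _ _ _ p1).trans (le_of_eq ?_)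
        rw [Finset.card_range, nsmul_eq_mul, ENNReal.ofReal_natCast]
    _ = ENNReal.ofReal ((J:ℝ) ^ 4 * (100 * Real.exp Real.pi * C1 * (X ^ (η/2) * (L + √X)))) := by
        rw [← ENNReal.ofReal_mul (by positivity), ← ENNReal.ofReal_mul (by positivity)]
        congr 1; ring
    _ ≤ _ := by
        apply ENNReal.ofReal_le_ofReal
        have r1 : X ^ (η/2) ≤ X ^ (ε/2) := Real.rpow_le_rpow_of_exponent_le hX1 (by linarith)
        have r2 : L + √X ≤ 3 * (H + √X) := by linarith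
        have r3 : X ^ (ε/2) * X ^ (ε/2) = X ^ ε := by rw [← Real.rpow_add hX0]; congr 1; ring
        calc (J:ℝ) ^ 4 * (100 * Real.exp Real.pi * C1 * (X ^ (η/2) * (L + √X)))
            ≤ (C2 * X ^ (ε/2)) * (100 * Real.exp Real.pi * C1 * (X ^ (ε/2) * (3 * (H + √X)))) := by gcongr
          _ = 100 * Real.exp Real.pi * C1 * C2 * 3 * ((X ^ (ε/2) * X ^ (ε/2)) * (H + √X)) := by ring
          _ = _ := by rw [r3]

end Pool.Agent.H593.U
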