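import Mathlib
import Pool.Agent.H593.U.Fin1

/-!
# Large values for all centres
-/

open MeasureTheory Set Filter Topology
open scoped ENNReal

namespace Pool.Agent.H593.U

lemma Na_mono (a : ℝ × ℝ) {R R' : ℝ} (hR : 0 ≤ R) (h : R ≤ R') : Na a R ≤ Na a R' := by
  rw [Na_eq_card a hR, Na_eq_card a (hR.trans h)]
  have : ballA a R ⊆ ballA a R' := by
    intro p hp
    rw [mem_ballA hR] at hp
    rw [mem_ballA (hR.trans h)]
    exact hp.trans h
  exact_mod_cast Finset.card_le_card this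

lemma Na_nonneg (a : ℝ × ℝ) (R : ℝ) : 0 ≤ Na a R := by
  unfold Na; positivity

lemma le_one_add_of_pow_four {x K : ℝ} (h : x ^ 4 ≤ K) : x ≤ 1 + K := by
  by_contra hc
  push Not at hc
  have hK : 0 ≤ K := le_trans (by positivity) h
  have h1 : 1 ≤ x := by linarith
  have h2 : x ≤ x ^ 4 := by
    calc x = x ^ 1 := (pow_one x).symm
      _ ≤ x ^ 4 := pow_le_pow_right₀ h1 (by norm_num)
  linarith

/-- bounded radii -/
lemma Pa_small : ∃ C0 : ℝ, 0 < C0 ∧ ∀ (a : ℝ × ℝ) (R : ℝ), 0 ≤ R → R ≤ 64 → |Pa a R| ≤ C0 := by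
  obtain ⟨C, hC, h⟩ := Pa_le
  set K := C * ((64:ℝ) ^ 2 * (1 + GJ ⌈(4 * (64:ℝ)) ^ 3⌉₊ ⌈(4 * (64:ℝ)) ^ 3⌉₊ ((64:ℝ) ^ (-(1/2):ℝ)) (64 + (64:ℝ) ^ (-(1/2):ℝ)) +
      GJ ⌈(4 * (64:ℝ)) ^ 3⌉₊ ⌈(4 * (64:ℝ)) ^ 3⌉₊ ((64:ℝ) ^ (-(1/2):ℝ)) (64 - (64:ℝ) ^ (-(1/2):ℝ)))) with hK
  have hK0 : 0 ≤ K := by
    have g1 := GJ_nonneg ⌈(4 * (64:ℝ)) ^ 3⌉₊ ⌈(4 * (64:ℝ)) ^ 3⌉₊ ((64:ℝ) ^ (-(1/2):ℝ)) (64 + (64:ℝ) ^ (-(1/2):ℝ))
    have g2 := GJ_nonneg ⌈(4 * (64:ℝ)) ^ 3⌉₊ ⌈(4 * (64:ℝ)) ^ 3⌉₊ ((64:ℝ) ^ (-(1/2):ℝ)) (64 - (64:ℝ) ^ (-(1/2):ℝ))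
    positivity
  have hpi := Real.pi_gt_three
  have hpi2 := Real.pi_lt_d2
  refine ⟨1 + K + 3.15 * 64 ^ 2 + 3.15 * 64 ^ 2, by positivity, ?_⟩
  intro a R hR hR2
  have h1 := h 64 64 ⌈(4 * (64:ℝ)) ^ 3⌉₊ a (by norm_num) le_rfl (by norm_num) Nat.lt_two_pow_self
  have h2 : |Pa a 64| ≤ 1 + K := le_one_add_of_pow_four h1
  have h3 : Na a 64 ≤ 1 + K + 3.15 * 64 ^ 2 := by
    have := (abs_le.mp h2).2
    unfold Pa at this
    nlinarith
  have h4 := Na_mono a hR hR2
  have h5 := Na_nonneg a R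
  have h6 : Real.pi * R ^ 2 ≤ 3.15 * 64 ^ 2 := by gcongr
  have h7 : 0 ≤ Real.pi * R ^ 2 := by positivity
  unfold Pa
  rw [abs_le]
  constructor
  · norm_num at h3 h6 ⊢
    linarith
  · norm_num at h3 h6 ⊢
    linarith

/-- the measure of the radii with a large error for some centre -/
theorem big_set {ε : ℝ} (hε : 0 < ε) : ∃ C : ℝ, 0 < C ∧ ∀ X H V : ℝ, 4 ≤ X → 0 ≤ H → H ≤ 2 * X → 0 < V →
    volume {R : ℝ | X ≤ R ∧ R ≤ X + H ∧ ∃ a : ℝ × ℝ, V * √R < |Pa a R|} ≤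
      ENNReal.ofReal (C * (X ^ ε * (H + √X) / V ^ 4)) := by
  obtain ⟨C1, hC1, h1⟩ := Pa_le
  obtain ⟨C2, hC2, h2⟩ := GJ_int hε
  refine ⟨C1 * (1 + 2 * C2), by positivity, ?_⟩
  intro X H V hX hH hHX hV
  have hX0 : 0 < X := by linarith
  have hX1 : 1 ≤ X := by linarith
  obtain ⟨J, hJ, hI⟩ := h2 X H hX hH
  set δ := X ^ (-(1/2):ℝ) with hδ
  set Y := ⌈(4 * X) ^ 3⌉₊ with hY
  have hδ0 : 0 < δ := by positivity
  have hδ1 : δ ≤ 1 := Real.rpow_le_one_of_one_le_of_nonpos hX1 (by norm_num)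
  have hcG := continuous_GJ Y J δ
  set f : ℝ → ℝ≥0∞ := fun R => ENNReal.ofReal (C1 * (1 + GJ Y J δ (R + δ) + GJ Y J δ (R - δ))) with hf
  have hfm : Measurable f := by
    apply Measurable.ennreal_ofReal
    apply Continuous.measurable
    fun_prop
  have hsub : {R : ℝ | X ≤ R ∧ R ≤ X + H ∧ ∃ a : ℝ × ℝ, V * √R < |Pa a R|} ⊆
      {R : ℝ | ENNReal.ofReal (V ^ 4) ≤ f R} ∩ Icc X (X + H) := by
    rintro R ⟨hR1, hR2, a, ha⟩
    refine ⟨?_, hR1, hR2⟩
    rw [mem_ofPred_eq, hf]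
    apply ENNReal.ofReal_le_ofReal
    have k1 := h1 X R J a hX hR1 (by linarith) hJ
    have k2 : (V * √R) ^ 4 ≤ |Pa a R| ^ 4 := by gcongr
    have hR0 : 0 ≤ R := by linarith
    have k3 : (V * √R) ^ 4 = V ^ 4 * R ^ 2 := by
      calc (V * √R) ^ 4 = V ^ 4 * (√R ^ 2) ^ 2 := by ring
        _ = _ := by rw [Real.sq_sqrt hR0]
    have k4 : X ^ 2 * V ^ 4 ≤ X ^ 2 * (C1 * (1 + GJ Y J δ (R + δ) + GJ Y J δ (R - δ))) := by
      calc X ^ 2 * V ^ 4 ≤ R ^ 2 * V ^ 4 := by gcongr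
        _ = (V * √R) ^ 4 := by rw [k3]; ring
        _ ≤ _ := k2
        _ ≤ _ := k1
        _ = _ := by ring
    exact le_of_mul_le_mul_left k4 (by positivity)
  have hM : ENNReal.ofReal (V ^ 4) * (volume.restrict (Icc X (X + H))) {R : ℝ | ENNReal.ofReal (V ^ 4) ≤ f R} ≤
      ∫⁻ R in Icc X (X + H), f R := mul_meas_ge_le_lintegral hfm _
  have hint : ∫⁻ R in Icc X (X + H), f R ≤ ENNReal.ofReal (C1 * (1 + 2 * C2) * (X ^ ε * (H + √X))) := by
    have i1 : ∫⁻ R in Icc X (X + H), ENNReal.ofReal (GJ Y J δ (R + δ)) ≤ ENNReal.ofReal (C2 * (X ^ ε * (H + √X))) := by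
      refine le_trans ?_ hI
      have := lint_shift_le (fun t => ENNReal.ofReal (GJ Y J δ t)) (a := X) (b := X + H) (c := X - 1) (d := X + H + 1) (h := -δ)
        (by linarith) (by linarith)
      simpa [sub_neg_eq_add] using this
    have i2 : ∫⁻ R in Icc X (X + H), ENNReal.ofReal (GJ Y J δ (R - δ)) ≤ ENNReal.ofReal (C2 * (X ^ ε * (H + √X))) := by
      refine le_trans ?_ hI
      exact lint_shift_le (fun t => ENNReal.ofReal (GJ Y J δ t)) (a := X) (b := X + H) (c := X - 1) (d := X + H + 1) (h := δ)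
        (by linarith) (by linarith)
    have i0 : ∫⁻ _ in Icc X (X + H), (1:ℝ≥0∞) = ENNReal.ofReal H := by
      rw [lintegral_const, one_mul, Measure.restrict_apply_univ, Real.volume_Icc]
      congr 1; ring
    have hfe : ∀ R, f R = ENNReal.ofReal C1 * (1 + ENNReal.ofReal (GJ Y J δ (R + δ)) + ENNReal.ofReal (GJ Y J δ (R - δ))) := by
      intro R
      have g1 := GJ_nonneg Y J δ (R + δ)
      have g2 := GJ_nonneg Y J δ (R - δ)
      rw [hf]
      simp only
      rw [ENNReal.ofReal_mul hC1.le, ENNReal.ofReal_add (by positivity) g2, ENNReal.ofReal_add (by norm_num) g1, ENNReal.ofReal_one]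
    have hm1 : Measurable (fun R => ENNReal.ofReal (GJ Y J δ (R + δ))) := by
      apply Measurable.ennreal_ofReal; apply Continuous.measurable; fun_prop
    have hm2 : Measurable (fun R => ENNReal.ofReal (GJ Y J δ (R - δ))) := by
      apply Measurable.ennreal_ofReal; apply Continuous.measurable; fun_prop
    calc ∫⁻ R in Icc X (X + H), f R
        = ENNReal.ofReal C1 * ((∫⁻ _ in Icc X (X + H), (1:ℝ≥0∞)) + (∫⁻ R in Icc X (X + H), ENNReal.ofReal (GJ Y J δ (R + δ))) +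
          (∫⁻ R in Icc X (X + H), ENNReal.ofReal (GJ Y J δ (R - δ)))) := by
          rw [← lintegral_add_right _ hm1, ← lintegral_add_right _ hm2, ← lintegral_const_mul' _ _ ENNReal.ofReal_ne_top]
          congr 1
          ext R
          exact hfe R
      _ ≤ ENNReal.ofReal C1 * (ENNReal.ofReal H + ENNReal.ofReal (C2 * (X ^ ε * (H + √X))) + ENNReal.ofReal (C2 * (X ^ ε * (H + √X)))) := by
          rw [i0]
          gcongr
      _ = ENNReal.ofReal (C1 * (H + C2 * (X ^ ε * (H + √X)) + C2 * (X ^ ε * (H + √X)))) := by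
          rw [← ENNReal.ofReal_add hH (by positivity), ← ENNReal.ofReal_add (by positivity) (by positivity),
            ← ENNReal.ofReal_mul hC1.le]
      _ ≤ _ := by
          apply ENNReal.ofReal_le_ofReal
          have hXe : 1 ≤ X ^ ε := Real.one_le_rpow hX1 hε.le
          have : H ≤ X ^ ε * (H + √X) := by
            have h0 : 0 ≤ √X := Real.sqrt_nonneg _
            calc H ≤ H + √X := by linarith
              _ = 1 * (H + √X) := (one_mul _).symm
              _ ≤ _ := by gcongr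
          calc C1 * (H + C2 * (X ^ ε * (H + √X)) + C2 * (X ^ ε * (H + √X)))
              ≤ C1 * (X ^ ε * (H + √X) + C2 * (X ^ ε * (H + √X)) + C2 * (X ^ ε * (H + √X))) := by gcongr
            _ = _ := by ring
  set m := (volume.restrict (Icc X (X + H))) {R : ℝ | ENNReal.ofReal (V ^ 4) ≤ f R} with hm
  have e1 : volume {R : ℝ | X ≤ R ∧ R ≤ X + H ∧ ∃ a : ℝ × ℝ, V * √R < |Pa a R|} ≤ m :=
    (measure_mono hsub).trans (Measure.le_restrict_apply _ _)
  have e2 : m = ENNReal.ofReal (1 / V ^ 4) * (ENNReal.ofReal (V ^ 4) * m) := by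
    rw [← mul_assoc, ← ENNReal.ofReal_mul (by positivity), one_div_mul_cancel (by positivity), ENNReal.ofReal_one, one_mul]
  calc _ ≤ m := e1
    _ = ENNReal.ofReal (1 / V ^ 4) * (ENNReal.ofReal (V ^ 4) * m) := e2
    _ ≤ ENNReal.ofReal (1 / V ^ 4) * ENNReal.ofReal (C1 * (1 + 2 * C2) * (X ^ ε * (H + √X))) :=
        mul_le_mul' le_rfl (hM.trans hint)
    _ = _ := by
        rw [← ENNReal.ofReal_mul (by positivity)]
        congr 1
        ring

/-- packing of intervals -/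
lemma pack (T : Finset ℝ) {η : ℝ} (c : ℝ → ℝ) (S : Set ℝ)
    (h1 : ∀ r ∈ T, r - η ≤ c r ∧ c r ≤ r) (h2 : ∀ r ∈ T, Icc (c r) (c r + η) ⊆ S)
    (h3 : ∀ r ∈ T, ∀ s ∈ T, r ≠ s → 2 * η < |r - s|) :
    (T.card : ℝ≥0∞) * ENNReal.ofReal η ≤ volume S := by
  have hd : (T : Set ℝ).PairwiseDisjoint (fun r => Icc (c r) (c r + η)) := by
    intro r hr s hs hrs
    rw [Function.onFun, Set.disjoint_left]
    intro x hx hx'
    have k1 := h1 r hr
    have k2 := h1 s hs
    have k3 := h3 r hr s hs hrs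
    have : |r - s| ≤ 2 * η := by
      rw [abs_le]
      constructor <;> linarith [hx.1, hx.2, hx'.1, hx'.2]
    linarith
  calc (T.card : ℝ≥0∞) * ENNReal.ofReal η = ∑ r ∈ T, volume (Icc (c r) (c r + η)) := by
        rw [Finset.sum_congr rfl (fun r _ => by rw [Real.volume_Icc, add_sub_cancel_left]), Finset.sum_const, nsmul_eq_mul]
    _ = volume (⋃ r ∈ T, Icc (c r) (c r + η)) := (measure_biUnion_finset hd (fun r _ => measurableSet_Icc)).symm
    _ ≤ volume S := measure_mono (iUnion₂_subset h2)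

/-- persistence of large values -/
lemma persist {a : ℝ × ℝ} {R V X η : ℝ} (hX : 16 ≤ X) (hR : X ≤ R) (hR2 : R ≤ 3 * X) (hV : 0 < V) (hη0 : 0 < η)
    (hη : η ≤ 1) (hη2 : η * √X ≤ V / 100) (h : V * √R < |Pa a R|) :
    ∃ c : ℝ, R - η ≤ c ∧ c ≤ R ∧ ∀ R' : ℝ, c ≤ R' → R' ≤ c + η → V / 4 * √R' < |Pa a R'| := by
  have hX0 : 0 < X := by linarith
  have hR0 : 0 < R := by linarith
  have hpi := Real.pi_gt_three
  have hpi2 := Real.pi_lt_d2
  have hsX : √X * √X = X := Real.mul_self_sqrt hX0.le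
  have hsR : √R * √R = R := Real.mul_self_sqrt hR0.le
  have hsX0 : 0 < √X := Real.sqrt_pos.mpr hX0
  have hXR : √X ≤ √R := Real.sqrt_le_sqrt hR
  have hRX : √R ≤ 2 * √X := by
    rw [Real.sqrt_le_left (by positivity)]; nlinarith
  have hR1 : η * R ≤ V / 50 * √R := by
    calc η * R = η * (√R * √R) := by rw [hsR]
      _ ≤ η * ((2 * √X) * √R) := by gcongr
      _ = 2 * (η * √X) * √R := by ring
      _ ≤ 2 * (V / 100) * √R := by gcongr
      _ = _ := by ring
  -- size of square roots nearby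
  have hs : ∀ R' : ℝ, R' ≤ R + η → √R' ≤ 2 * √R := by
    intro R' h'
    rw [Real.sqrt_le_left (by positivity)]
    nlinarith
  have harea : ∀ R1 R2 : ℝ, 0 ≤ R1 → R1 ≤ R2 → R2 ≤ R1 + η → R2 ≤ R + η → Real.pi * R2 ^ 2 - Real.pi * R1 ^ 2 ≤ V / 4 * √R := by
    intro R1 R2 k0 k1 k2 k3
    have : Real.pi * R2 ^ 2 - Real.pi * R1 ^ 2 = Real.pi * ((R2 - R1) * (R2 + R1)) := by ring
    rw [this]
    have k4 : (R2 - R1) * (R2 + R1) ≤ η * (2 * (R + η)) := by
      apply mul_le_mul <;> linarith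
    have k5 : η * (2 * (R + η)) ≤ 3 * (η * R) := by nlinarith
    calc Real.pi * ((R2 - R1) * (R2 + R1)) ≤ 3.15 * (3 * (V / 50 * √R)) := by
          apply mul_le_mul hpi2.le (k4.trans (k5.trans (by gcongr))) (mul_nonneg (by linarith) (by linarith)) (by norm_num)
      _ = (3.15 * 3 / 50) * (V * √R) := by ring
      _ ≤ (1 / 4) * (V * √R) := mul_le_mul_of_nonneg_right (by norm_num) (by positivity)
      _ = _ := by ring
  rcases le_or_gt 0 (Pa a R) with hp | hp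
  · rw [abs_of_nonneg hp] at h
    refine ⟨R, by linarith, le_rfl, ?_⟩
    intro R' h1 h2
    have k1 := Na_mono a hR0.le h1
    have k2 := harea R R' hR0.le h1 h2 h2
    have k3 := hs R' h2
    unfold Pa at h ⊢
    have k4 : V / 4 * √R' ≤ V / 2 * √R := by
      calc V / 4 * √R' ≤ V / 4 * (2 * √R) := by gcongr
        _ = _ := by ring
    have k5 : 0 < V * √R := by positivity
    calc V / 4 * √R' < Na a R' - Real.pi * R' ^ 2 := by linarith
      _ ≤ _ := le_abs_self _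
  · rw [abs_of_neg hp] at h
    refine ⟨R - η, by linarith, by linarith, ?_⟩
    intro R' h1 h2
    have h0 : 0 ≤ R' := by linarith
    have k1 := Na_mono a h0 (show R' ≤ R by linarith)
    have k2 := harea R' R h0 (by linarith) (by linarith) (by linarith)
    have k3 := hs R' (by linarith)
    unfold Pa at h ⊢
    have k4 : V / 4 * √R' ≤ V / 2 * √R := by
      calc V / 4 * √R' ≤ V / 4 * (2 * √R) := by gcongr
        _ = _ := by ring
    have k5 : 0 < V * √R := by positivity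
    calc V / 4 * √R' < -(Na a R' - Real.pi * R' ^ 2) := by linarith
      _ ≤ _ := neg_le_abs _

/-- well-spaced radii -/
theorem spaced {ε : ℝ} (hε : 0 < ε) : ∃ C : ℝ, 0 < C ∧ ∀ X H V : ℝ, 1 ≤ X → 0 ≤ H → H ≤ X + 1 → 0 < V →
    ∀ T : Finset ℝ, (∀ r ∈ T, X ≤ r ∧ r ≤ X + H ∧ ∃ a : ℝ × ℝ, V * √r < |Pa a r|) →
    (∀ r ∈ T, ∀ s ∈ T, r ≠ s → min 1 (V / √X) ≤ |r - s|) →
    (T.card : ℝ) ≤ C * (X ^ ε * (H + √X) / V ^ 4 * (1 + √X / V)) := by
  obtain ⟨C0, hC0, h0⟩ := Pa_small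
  obtain ⟨C1, hC1, h1⟩ := big_set hε
  refine ⟨400 * (C1 * 256 * 4) + 100 * (1 + C0 ^ 4), by positivity, ?_⟩
  intro X H V hX hH hHX hV T hT hsep
  have hX0 : 0 < X := by linarith
  have hsX0 : 0 < √X := Real.sqrt_pos.mpr hX0
  have hsX1 : 1 ≤ √X := Real.one_le_sqrt.mpr hX
  set m := min 1 (V / √X) with hm
  have hm0 : 0 < m := by positivity
  have hm1 : m ≤ 1 := min_le_left _ _
  have hminv : 1 / m ≤ 1 + √X / V := by
    rw [hm]
    rcases le_total 1 (V / √X) with h | h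
    · rw [min_eq_left h]
      have : 0 < √X / V := by positivity
      linarith
    · rw [min_eq_right h, one_div_div]
      linarith
  have hXe : 1 ≤ X ^ ε := Real.one_le_rpow hX hε.le
  -- from a bound for the volume to the claim
  have key : ∀ (η A : ℝ), η = m / 100 → 0 ≤ A → (T.card : ℝ≥0∞) * ENNReal.ofReal η ≤ ENNReal.ofReal A →
      (T.card : ℝ) ≤ 100 * A * (1 + √X / V) := by
    intro η A hη hA h
    have hη0 : 0 < η := by rw [hη]; positivity
    rw [← ENNReal.ofReal_natCast, ← ENNReal.ofReal_mul (by positivity), ENNReal.ofReal_le_ofReal_iff hA] at h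
    have : (T.card : ℝ) ≤ A / η := by rw [le_div_iff₀ hη0]; exact h
    calc (T.card : ℝ) ≤ A / η := this
      _ = 100 * A * (1 / m) := by rw [hη]; field_simp
      _ ≤ _ := by gcongr
  rcases le_or_gt 16 X with hX16 | hX16
  · -- large X
    set η := m / 100 with hη
    have hη0 : 0 < η := by positivity
    have hη1 : η ≤ 1 := by rw [hη]; linarith
    have hη2 : η * √X ≤ V / 100 := by
      rw [hη]
      calc m / 100 * √X ≤ (V / √X) / 100 * √X := by gcongr; exact min_le_right _ _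
        _ = _ := by field_simp
    have hex : ∀ r : ℝ, r ∈ T → ∃ c : ℝ, r - η ≤ c ∧ c ≤ r ∧ ∃ a : ℝ × ℝ, ∀ R' : ℝ, c ≤ R' → R' ≤ c + η → V / 4 * √R' < |Pa a R'| := by
      intro r hr
      obtain ⟨k1, k2, a, ha⟩ := hT r hr
      obtain ⟨c, hc1, hc2, hc3⟩ := persist hX16 k1 (by linarith) hV hη0 hη1 hη2 ha
      exact ⟨c, hc1, hc2, a, hc3⟩
    choose! c hc using hex
    have hv := h1 (X - 1) (H + 3) (V / 4) (by linarith) (by linarith) (by linarith) (by positivity)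
    have hp := pack T (η := η) c {R : ℝ | X - 1 ≤ R ∧ R ≤ X - 1 + (H + 3) ∧ ∃ a : ℝ × ℝ, V / 4 * √R < |Pa a R|}
      (fun r hr => ⟨(hc r hr).1, (hc r hr).2.1⟩)
      (by
        intro r hr R' hR'
        obtain ⟨k1, k2, a, ha⟩ := hc r hr
        obtain ⟨k3, k4, -⟩ := hT r hr
        refine ⟨by linarith [hR'.1], by linarith [hR'.2], a, ha R' hR'.1 hR'.2⟩)
      (by
        intro r hr s hs hrs
        have := hsep r hr s hs hrs
        rw [hη]; linarith)
    have hk := key η _ rfl (by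
      have : 0 ≤ √(X - 1) := Real.sqrt_nonneg _
      have : 0 < (X - 1) ^ ε := Real.rpow_pos_of_pos (by linarith) _
      positivity) (hp.trans hv)
    refine hk.trans ?_
    have q1 : (X - 1) ^ ε ≤ X ^ ε := Real.rpow_le_rpow (by linarith) (by linarith) hε.le
    have q2 : √(X - 1) ≤ √X := Real.sqrt_le_sqrt (by linarith)
    have q3 : H + 3 + √(X - 1) ≤ 4 * (H + √X) := by linarith
    have q0 : 0 ≤ √(X - 1) := Real.sqrt_nonneg _
    calc 100 * (C1 * ((X - 1) ^ ε * (H + 3 + √(X - 1)) / (V / 4) ^ 4)) * (1 + √X / V)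
        ≤ 100 * (C1 * (X ^ ε * (4 * (H + √X)) / (V / 4) ^ 4)) * (1 + √X / V) := by gcongr
      _ = 100 * (C1 * 256 * 4) * (X ^ ε * (H + √X) / V ^ 4 * (1 + √X / V)) := by
          field_simp
          norm_num
      _ ≤ _ := by
          gcongr
          nlinarith [hC1, pow_pos hC0 4]
  · -- bounded X
    rcases lt_or_ge C0 V with hVC | hVC
    · have : T = ∅ := by
        rw [Finset.eq_empty_iff_forall_notMem]
        intro r hr
        obtain ⟨k1, k2, a, ha⟩ := hT r hr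
        have k3 := h0 a r (by linarith) (by linarith)
        have k4 : 1 ≤ √r := Real.one_le_sqrt.mpr (by linarith)
        nlinarith
      rw [this]
      simp only [Finset.card_empty, Nat.cast_zero]
      positivity
    · set η := m / 100 with hη
      have hη0 : 0 < η := by positivity
      have hp := pack T (η := η) (fun r => r) (Icc X (X + H + 1))
        (fun r hr => ⟨by linarith, le_rfl⟩)
        (by
          intro r hr R' hR'
          obtain ⟨k3, k4, -⟩ := hT r hr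
          exact ⟨by linarith [hR'.1], by linarith [hR'.2]⟩)
        (by
          intro r hr s hs hrs
          have := hsep r hr s hs hrs
          rw [hη]; linarith)
      rw [Real.volume_Icc, show X + H + 1 - X = H + 1 by ring] at hp
      have hk := key η _ rfl (by linarith) hp
      refine hk.trans ?_
      have q1 : V ^ 4 ≤ C0 ^ 4 := by gcongr
      have q2 : H + 1 ≤ X ^ ε * (H + √X) := by
        calc H + 1 ≤ 1 * (H + √X) := by linarith
          _ ≤ _ := by gcongr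
      have q3 : X ^ ε * (H + √X) ≤ C0 ^ 4 * (X ^ ε * (H + √X) / V ^ 4) := by
        rw [mul_div_assoc', le_div_iff₀ (by positivity)]
        calc X ^ ε * (H + √X) * V ^ 4 ≤ X ^ ε * (H + √X) * C0 ^ 4 := by gcongr
          _ = _ := by ring
      calc 100 * (H + 1) * (1 + √X / V) ≤ 100 * (C0 ^ 4 * (X ^ ε * (H + √X) / V ^ 4)) * (1 + √X / V) := by
            gcongr
            exact q2.trans q3
        _ = 100 * C0 ^ 4 * (X ^ ε * (H + √X) / V ^ 4 * (1 + √X / V)) := by ring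
        _ ≤ _ := by
            gcongr
            nlinarith [hC1, pow_pos hC0 4]

end Pool.Agent.H593.U
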